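import Pool.Agent.LibZP46.Defs

/-!
ZP46 A0. Elementary facts on integer matrices acting on the upper half-plane and on `qq`.

Plan. `jm M τ = 0` with `0 < τ.im` forces `M 1 0 = 0` (imaginary part) and then `M 1 1 = 0`, so
`M.det = 0` (`Matrix.det_fin_two`). `act_im`: the imaginary part of `(a τ + b) / (c τ + d)`;
`Complex.div_im`. `jm_mul`, `act_mul`: `Matrix.mul_apply`, `Fin.sum_univ_two`, `field_simp`.
`hasDerivAt_act`: quotient rule. `norm_qq`: `Complex.norm_exp`. `qq_add_int`, `qq_nat_mul`: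
`Complex.exp_periodic`, `Complex.exp_nat_mul`.
-/

namespace Pool.Agent.LibZP46

open Complex

theorem jm_ne {M : Mat} (hM : M.det ≠ 0) {τ : ℂ} (hτ : 0 < τ.im) : jm M τ ≠ 0 := by
  intro h
  have him : ((M 1 0 : ℤ) : ℝ) * τ.im = 0 := by
    have h1 := congrArg Complex.im h
    simpa [jm] using h1
  have hc : M 1 0 = 0 := by
    rcases mul_eq_zero.1 him with h1 | h1
    · exact_mod_cast h1
    · exact absurd h1 hτ.ne'
  have hd : M 1 1 = 0 := by
    have h2 : jm M τ = (M 1 1 : ℂ) := by simp [jm, hc]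
    rw [h2] at h
    exact_mod_cast h
  apply hM
  rw [Matrix.det_fin_two, hc, hd]
  ring

theorem act_im {M : Mat} (hM : M.det ≠ 0) {τ : ℂ} (hτ : 0 < τ.im) :
    (act M τ).im = (M.det : ℝ) * τ.im / Complex.normSq (jm M τ) := by
  have h0 : Complex.normSq (jm M τ) ≠ 0 := fun h => jm_ne hM hτ (Complex.normSq_eq_zero.1 h)
  have hre : (jm M τ).re = (M 1 0 : ℝ) * τ.re + (M 1 1 : ℝ) := by simp [jm]
  have him : (jm M τ).im = (M 1 0 : ℝ) * τ.im := by simp [jm]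
  have hre2 : ((M 0 0 : ℂ) * τ + (M 0 1 : ℂ)).re = (M 0 0 : ℝ) * τ.re + (M 0 1 : ℝ) := by simp
  have him2 : ((M 0 0 : ℂ) * τ + (M 0 1 : ℂ)).im = (M 0 0 : ℝ) * τ.im := by simp
  rw [act, Complex.div_im, hre, him, hre2, him2, Matrix.det_fin_two]
  push_cast
  field_simp
  ring

theorem act_im_pos {M : Mat} (hM : 0 < M.det) {τ : ℂ} (hτ : 0 < τ.im) : 0 < (act M τ).im := by
  rw [act_im hM.ne' hτ]
  have h1 : (0 : ℝ) < (M.det : ℝ) := by exact_mod_cast hM
  exact div_pos (mul_pos h1 hτ) (Complex.normSq_pos.2 (jm_ne hM.ne' hτ))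

theorem jm_mul (M M' : Mat) (hM' : M'.det ≠ 0) {τ : ℂ} (hτ : 0 < τ.im) :
    jm (M * M') τ = jm M (act M' τ) * jm M' τ := by
  have h0 := jm_ne hM' hτ
  have h1 : act M' τ * jm M' τ = (M' 0 0 : ℂ) * τ + (M' 0 1 : ℂ) := by
    rw [act, div_mul_cancel₀ _ h0]
  have h2 : jm M (act M' τ) * jm M' τ = (M 1 0 : ℂ) * (act M' τ * jm M' τ) +
      (M 1 1 : ℂ) * jm M' τ := by
    rw [jm]
    ring
  rw [h2, h1]
  simp only [jm, Matrix.mul_apply, Fin.sum_univ_two]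
  push_cast
  ring

theorem act_mul (M M' : Mat) (hM' : M'.det ≠ 0) {τ : ℂ} (hτ : 0 < τ.im) :
    act (M * M') τ = act M (act M' τ) := by
  have h0 := jm_ne hM' hτ
  have h1 : act M' τ * jm M' τ = (M' 0 0 : ℂ) * τ + (M' 0 1 : ℂ) := by
    rw [act, div_mul_cancel₀ _ h0]
  have h3 : ((M * M') 0 0 : ℂ) * τ + ((M * M') 0 1 : ℂ) =
      ((M 0 0 : ℂ) * act M' τ + (M 0 1 : ℂ)) * jm M' τ := by
    have h2 : ((M 0 0 : ℂ) * act M' τ + (M 0 1 : ℂ)) * jm M' τ =
        (M 0 0 : ℂ) * (act M' τ * jm M' τ) + (M 0 1 : ℂ) * jm M' τ := by ring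
    rw [h2, h1]
    simp only [jm, Matrix.mul_apply, Fin.sum_univ_two]
    push_cast
    ring
  rw [act, h3, jm_mul M M' hM' hτ]
  rw [mul_div_mul_right _ _ h0]
  rfl

theorem hasDerivAt_act {M : Mat} (hM : M.det ≠ 0) {τ : ℂ} (hτ : 0 < τ.im) :
    HasDerivAt (act M) ((M.det : ℂ) / jm M τ ^ 2) τ := by
  have h0 := jm_ne hM hτ
  have h1 : HasDerivAt (fun τ : ℂ => (M 0 0 : ℂ) * τ + (M 0 1 : ℂ)) (M 0 0 : ℂ) τ := by
    simpa using ((hasDerivAt_id τ).const_mul (M 0 0 : ℂ)).add_const (M 0 1 : ℂ)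
  have h2 : HasDerivAt (jm M) (M 1 0 : ℂ) τ := by
    have := ((hasDerivAt_id' τ).const_mul (M 1 0 : ℂ)).add_const (M 1 1 : ℂ)
    rw [mul_one] at this
    exact this
  have h3 := h1.div h2 h0
  refine (h3.congr_deriv ?_)
  rw [Matrix.det_fin_two]
  congr 1
  simp only [jm]
  push_cast
  ring

theorem hasDerivAt_jm (M : Mat) (τ : ℂ) : HasDerivAt (jm M) (M 1 0 : ℂ) τ := by
  have := ((hasDerivAt_id' τ).const_mul (M 1 0 : ℂ)).add_const (M 1 1 : ℂ)
  rw [mul_one] at this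
  exact this

/-- Composition with `act M` preserves holomorphy. -/
theorem hol_comp_act {F : ℂ → ℂ} (hF : Hol F) {M : Mat} (hM : 0 < M.det) :
    Hol (fun τ => F (act M τ)) := by
  refine DifferentiableOn.comp (g := F) (f := act M) (t := {τ : ℂ | 0 < τ.im}) hF ?_ ?_
  · intro τ hτ
    exact (hasDerivAt_act hM.ne' hτ).differentiableAt.differentiableWithinAt
  · intro τ hτ
    exact act_im_pos hM hτ

theorem isOpen_uhp : IsOpen {τ : ℂ | 0 < τ.im} :=
  isOpen_lt continuous_const Complex.continuous_im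

theorem qq_ne (τ : ℂ) : qq τ ≠ 0 := Complex.exp_ne_zero _

theorem norm_qq (τ : ℂ) : ‖qq τ‖ = Real.exp (-(2 * Real.pi * τ.im)) := by
  rw [qq, Complex.norm_exp]
  congr 1
  simp [Complex.mul_re, Complex.mul_im]

theorem norm_qq_lt_one {τ : ℂ} (hτ : 0 < τ.im) : ‖qq τ‖ < 1 := by
  rw [norm_qq, Real.exp_lt_one_iff]
  have := Real.pi_pos
  have h : 0 < 2 * Real.pi * τ.im := by positivity
  linarith

theorem qq_add (τ τ' : ℂ) : qq (τ + τ') = qq τ * qq τ' := by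
  rw [qq, qq, qq, ← Complex.exp_add]
  congr 1
  ring

theorem qq_int (n : ℤ) : qq (n : ℂ) = 1 := by
  rw [qq]
  have : 2 * (Real.pi : ℂ) * I * (n : ℂ) = (n : ℂ) * (2 * (Real.pi : ℂ) * I) := by ring
  rw [this]
  exact Complex.exp_int_mul_two_pi_mul_I n

theorem qq_nat_mul (n : ℕ) (τ : ℂ) : qq ((n : ℂ) * τ) = qq τ ^ n := by
  rw [qq, qq, ← Complex.exp_nat_mul]
  congr 1
  ring

theorem hasDerivAt_qq (τ : ℂ) : HasDerivAt qq (2 * (Real.pi : ℂ) * I * qq τ) τ := by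
  have h1 : HasDerivAt (fun τ : ℂ => 2 * (Real.pi : ℂ) * I * τ) (2 * (Real.pi : ℂ) * I) τ := by
    simpa using (hasDerivAt_id τ).const_mul (2 * (Real.pi : ℂ) * I)
  have h2 := h1.cexp
  refine h2.congr_deriv ?_
  rw [qq]
  ring

/-- Every `q` with small absolute value is attained, with the imaginary part as large as one
wishes. -/
theorem exists_qq (q : ℂ) (hq : q ≠ 0) : ∃ τ : ℂ, qq τ = q ∧
    τ.im = -Real.log ‖q‖ / (2 * Real.pi) := by
  have hpi : (Real.pi : ℂ) ≠ 0 := by exact_mod_cast Real.pi_ne_zero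
  have h0 : (2 * (Real.pi : ℂ) * I) ≠ 0 := mul_ne_zero (mul_ne_zero two_ne_zero hpi) I_ne_zero
  refine ⟨Complex.log q / (2 * (Real.pi : ℂ) * I), ?_, ?_⟩
  · rw [qq, mul_div_cancel₀ _ h0, Complex.exp_log hq]
  · have h1 : Complex.log q / (2 * (Real.pi : ℂ) * I) =
        ((1 / (2 * Real.pi) : ℝ) : ℂ) * (-I * Complex.log q) := by
      push_cast
      field_simp
      rw [I_sq]
      ring
    rw [h1, Complex.im_ofReal_mul]
    have h2 : (-I * Complex.log q).im = -Real.log ‖q‖ := by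
      simp [Complex.mul_im, Complex.log_re]
    rw [h2]
    ring

end Pool.Agent.LibZP46
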