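import Pool.Agent.LibZP46.A0

/-!
ZP46 A1. The algebra of `HasQ`.

Plan. `HasQ.summable_norm`: a power series in `q` which converges at the point `q₀` converges
absolutely for `|q| < |q₀|`; so for every `HasQ F a` there is `Y` such that for `Y < τ.im` the series
is absolutely summable (take `Y + 1`; compare with `τ - I`). `unique`: two power series with positive
radius and the same sums near `0` have the same coefficients
(`HasFPowerSeriesAt.eq_formalMultilinearSeries`, or: subtract and look at the first non-zero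
coefficient). `mul`: Cauchy product of absolutely summable series
(`tsum_mul_tsum_eq_tsum_sum_antidiagonal_of_summable_norm`, `PowerSeries.coeff_mul`). `shift`:
`a = X * shS a` if the constant coefficient is zero; divide by `qq τ`.
-/

namespace Pool.Agent.LibZP46

open Complex

theorem HasQ.congr {F G : ℂ → ℂ} {a : PowerSeries ℂ} (h : HasQ F a) (Y : ℝ)
    (hFG : ∀ τ : ℂ, Y < τ.im → F τ = G τ) : HasQ G a := by
  obtain ⟨Y', hY'⟩ := h
  refine ⟨max Y Y', fun τ hτ => ?_⟩
  rw [← hFG τ (lt_of_le_of_lt (le_max_left _ _) hτ)]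
  exact hY' τ (lt_of_le_of_lt (le_max_right _ _) hτ)

/-- Absolute convergence. -/
theorem HasQ.norm {F : ℂ → ℂ} {a : PowerSeries ℂ} (h : HasQ F a) :
    ∃ Y : ℝ, ∀ τ : ℂ, Y < τ.im →
      HasSum (fun n => PowerSeries.coeff n a * qq τ ^ n) (F τ) ∧
      Summable (fun n => ‖PowerSeries.coeff n a * qq τ ^ n‖) := by
  obtain ⟨Y, hY⟩ := h
  exact ⟨Y, fun τ hτ => ⟨hY τ hτ, (hY τ hτ).summable.norm⟩⟩

private theorem A1_coeff_shS {R : Type*} [CommRing R] (a : PowerSeries R) (n : ℕ) :
    PowerSeries.coeff n (shS a) = PowerSeries.coeff (n + 1) a := by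
  rw [shS, PowerSeries.coeff_mk]

private theorem A1_shift {F : ℂ → ℂ} {a : PowerSeries ℂ} (h : HasQ F a)
    (h0 : PowerSeries.constantCoeff a = 0) : HasQ (fun τ => F τ / qq τ) (shS a) := by
  obtain ⟨Y, hY⟩ := h
  refine ⟨Y, fun τ hτ => ?_⟩
  have h1 := hY τ hτ
  have h2 : HasSum (fun n => PowerSeries.coeff (n + 1) a * qq τ ^ (n + 1)) (F τ) := by
    have := (hasSum_nat_add_iff' (f := fun n => PowerSeries.coeff n a * qq τ ^ n) 1).2 h1
    simpa [h0] using this
  have h3 := h2.div_const (qq τ)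
  have e : (fun n => PowerSeries.coeff (n + 1) a * qq τ ^ (n + 1) / qq τ) =
      fun n => PowerSeries.coeff n (shS a) * qq τ ^ n := by
    funext n
    rw [A1_coeff_shS, pow_succ, ← mul_assoc, mul_div_cancel_right₀ _ (qq_ne τ)]
  rw [e] at h3
  exact h3

private theorem A1_add {F G : ℂ → ℂ} {a b : PowerSeries ℂ} (h : HasQ F a) (h' : HasQ G b) :
    HasQ (fun τ => F τ + G τ) (a + b) := by
  obtain ⟨Y, hY⟩ := h
  obtain ⟨Y', hY'⟩ := h'
  refine ⟨max Y Y', fun τ hτ => ?_⟩
  have h3 := (hY τ (lt_of_le_of_lt (le_max_left _ _) hτ)).add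
    (hY' τ (lt_of_le_of_lt (le_max_right _ _) hτ))
  have e : (fun n => PowerSeries.coeff n a * qq τ ^ n + PowerSeries.coeff n b * qq τ ^ n) =
      fun n => PowerSeries.coeff n (a + b) * qq τ ^ n := by
    funext n
    rw [map_add, add_mul]
  rw [e] at h3
  exact h3

private theorem A1_neg {F : ℂ → ℂ} {a : PowerSeries ℂ} (h : HasQ F a) :
    HasQ (fun τ => -F τ) (-a) := by
  obtain ⟨Y, hY⟩ := h
  refine ⟨Y, fun τ hτ => ?_⟩
  have h3 := (hY τ hτ).neg
  have e : (fun n => -(PowerSeries.coeff n a * qq τ ^ n)) =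
      fun n => PowerSeries.coeff n (-a) * qq τ ^ n := by
    funext n
    rw [map_neg, neg_mul]
  rw [e] at h3
  exact h3

private theorem A1_const0 {a : PowerSeries ℂ} (h : HasQ (fun _ => (0 : ℂ)) a) :
    PowerSeries.constantCoeff a = 0 := by
  obtain ⟨Y, hY⟩ := h
  -- evaluate along `τ = t I`, `t → ∞`
  set y₀ : ℝ := max (Y + 1) 1 with hy₀
  set τ₀ : ℂ := (y₀ : ℂ) * I with hτ₀
  have him : ∀ t : ℝ, ((t : ℂ) * I).im = t := by intro t; simp
  have hs := (hY τ₀ (by rw [hτ₀, him]; have := le_max_left (Y + 1) 1; linarith)).summable.norm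
  have hT := tendsto_tsum_of_dominated_convergence (𝓕 := (Filter.atTop : Filter ℝ))
    (f := fun t n => PowerSeries.coeff n a * qq ((t : ℂ) * I) ^ n)
    (g := fun n => if n = 0 then PowerSeries.constantCoeff a else 0)
    (bound := fun n => ‖PowerSeries.coeff n a * qq τ₀ ^ n‖) hs ?_ ?_
  · have hz : ∀ᶠ t : ℝ in Filter.atTop,
        ∑' n, PowerSeries.coeff n a * qq ((t : ℂ) * I) ^ n = 0 := by
      filter_upwards [Filter.eventually_gt_atTop Y] with t ht
      exact (hY ((t : ℂ) * I) (by rw [him]; exact ht)).tsum_eq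
    have hlim : Filter.Tendsto (fun t : ℝ => ∑' n, PowerSeries.coeff n a * qq ((t : ℂ) * I) ^ n)
        Filter.atTop (nhds 0) :=
      tendsto_const_nhds.congr' (by filter_upwards [hz] with t ht using ht.symm)
    have hu := tendsto_nhds_unique hT hlim
    rw [tsum_ite_eq] at hu
    exact hu
  · intro n
    by_cases hn : n = 0
    · subst hn
      simp
    · simp only [hn, if_false]
      have hq : Filter.Tendsto (fun t : ℝ => qq ((t : ℂ) * I) ^ n) Filter.atTop (nhds 0) := by
        rw [tendsto_zero_iff_norm_tendsto_zero]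
        have e : (fun t : ℝ => ‖qq ((t : ℂ) * I) ^ n‖) =
            fun t : ℝ => Real.exp (-(2 * Real.pi * n * t)) := by
          funext t
          rw [norm_pow, norm_qq, him, ← Real.exp_nat_mul]
          congr 1; ring
        rw [e]
        apply Real.tendsto_exp_neg_atTop_nhds_zero.comp
        apply Filter.Tendsto.const_mul_atTop _ Filter.tendsto_id
        have : 0 < n := Nat.pos_of_ne_zero hn
        positivity
      have := hq.const_mul (PowerSeries.coeff n a)
      rwa [mul_zero] at this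
  · filter_upwards [Filter.eventually_ge_atTop y₀] with t ht
    intro n
    rw [norm_mul, norm_mul, norm_pow, norm_pow]
    apply mul_le_mul_of_nonneg_left _ (norm_nonneg _)
    apply pow_le_pow_left₀ (norm_nonneg _)
    rw [norm_qq, norm_qq, hτ₀, him, him]
    apply Real.exp_le_exp.2
    have : 0 < Real.pi := Real.pi_pos
    nlinarith

private theorem A1_zero (n : ℕ) : ∀ a : PowerSeries ℂ, HasQ (fun _ => (0 : ℂ)) a →
    PowerSeries.coeff n a = 0 := by
  induction n with
  | zero =>
    intro a h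
    rw [PowerSeries.coeff_zero_eq_constantCoeff]
    exact A1_const0 h
  | succ n ih =>
    intro a h
    have h2 := A1_shift h (A1_const0 h)
    have e : (fun τ => (0 : ℂ) / qq τ) = fun _ => (0 : ℂ) := by
      funext τ; exact zero_div _
    rw [e] at h2
    rw [← A1_coeff_shS]
    exact ih _ h2

theorem HasQ.unique {F : ℂ → ℂ} {a b : PowerSeries ℂ} (h : HasQ F a) (h' : HasQ F b) : a = b := by
  have h1 := A1_add h (A1_neg h')
  have e : (fun τ => F τ + -F τ) = fun _ => (0 : ℂ) := by
    funext τ; ring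
  rw [e] at h1
  ext n
  have := A1_zero n _ h1
  rw [map_add, map_neg] at this
  exact eq_of_sub_eq_zero (by rw [← this]; ring)

theorem hasQ_const (c : ℂ) : HasQ (fun _ => c) (PowerSeries.C c) := by
  refine ⟨0, fun τ _ => ?_⟩
  have := hasSum_single (f := fun n => PowerSeries.coeff n (PowerSeries.C c) * qq τ ^ n) 0
    (by intro n hn; simp [PowerSeries.coeff_C, hn])
  simpa using this

theorem hasQ_qq : HasQ qq PowerSeries.X := by
  refine ⟨0, fun τ _ => ?_⟩
  have := hasSum_single (f := fun n => PowerSeries.coeff n (PowerSeries.X : PowerSeries ℂ) *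
    qq τ ^ n) 1 (by intro n hn; simp [PowerSeries.coeff_X, hn])
  simpa using this

theorem HasQ.add {F G : ℂ → ℂ} {a b : PowerSeries ℂ} (h : HasQ F a) (h' : HasQ G b) :
    HasQ (fun τ => F τ + G τ) (a + b) := A1_add h h'

theorem HasQ.neg {F : ℂ → ℂ} {a : PowerSeries ℂ} (h : HasQ F a) : HasQ (fun τ => -F τ) (-a) :=
  A1_neg h

theorem HasQ.sub {F G : ℂ → ℂ} {a b : PowerSeries ℂ} (h : HasQ F a) (h' : HasQ G b) :
    HasQ (fun τ => F τ - G τ) (a - b) := by
  have := h.add h'.neg
  simpa only [← sub_eq_add_neg] using this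

theorem HasQ.mul {F G : ℂ → ℂ} {a b : PowerSeries ℂ} (h : HasQ F a) (h' : HasQ G b) :
    HasQ (fun τ => F τ * G τ) (a * b) := by
  obtain ⟨Y, hY⟩ := h
  obtain ⟨Y', hY'⟩ := h'
  refine ⟨max Y Y', fun τ hτ => ?_⟩
  have h1 := hY τ (lt_of_le_of_lt (le_max_left _ _) hτ)
  have h2 := hY' τ (lt_of_le_of_lt (le_max_right _ _) hτ)
  have n1 := h1.summable.norm
  have n2 := h2.summable.norm
  have hs := summable_norm_sum_mul_antidiagonal_of_summable_norm n1 n2
  have ht := tsum_mul_tsum_eq_tsum_sum_antidiagonal_of_summable_norm n1 n2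
  rw [h1.tsum_eq, h2.tsum_eq] at ht
  have e : (fun n => ∑ kl ∈ Finset.HasAntidiagonal.antidiagonal n, PowerSeries.coeff kl.1 a * qq τ ^ kl.1 *
      (PowerSeries.coeff kl.2 b * qq τ ^ kl.2)) =
      fun n => PowerSeries.coeff n (a * b) * qq τ ^ n := by
    funext n
    rw [PowerSeries.coeff_mul, Finset.sum_mul]
    apply Finset.sum_congr rfl
    intro kl hkl
    rw [Finset.HasAntidiagonal.mem_antidiagonal] at hkl
    rw [← hkl, pow_add]
    ring
  have hs' := hs.of_norm.hasSum
  rw [← ht, e] at hs'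
  exact hs'

theorem HasQ.const_mul {F : ℂ → ℂ} {a : PowerSeries ℂ} (c : ℂ) (h : HasQ F a) :
    HasQ (fun τ => c * F τ) (PowerSeries.C c * a) :=
  (hasQ_const c).mul h

theorem HasQ.pow {F : ℂ → ℂ} {a : PowerSeries ℂ} (h : HasQ F a) (n : ℕ) :
    HasQ (fun τ => F τ ^ n) (a ^ n) := by
  induction n with
  | zero =>
    have := hasQ_const 1
    simpa using this
  | succ n ih =>
    have := ih.mul h
    simpa only [← pow_succ] using this

theorem HasQ.sum {ι : Type*} (s : Finset ι) {F : ι → ℂ → ℂ} {a : ι → PowerSeries ℂ}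
    (h : ∀ i ∈ s, HasQ (F i) (a i)) : HasQ (fun τ => ∑ i ∈ s, F i τ) (∑ i ∈ s, a i) := by
  classical
  induction s using Finset.induction_on with
  | empty =>
    have := hasQ_const 0
    simpa using this
  | insert i s hi ih =>
    have := (h i (Finset.mem_insert_self i s)).add
      (ih (fun j hj => h j (Finset.mem_insert_of_mem hj)))
    simpa only [Finset.sum_insert hi] using this

theorem HasQ.prod {ι : Type*} (s : Finset ι) {F : ι → ℂ → ℂ} {a : ι → PowerSeries ℂ}
    (h : ∀ i ∈ s, HasQ (F i) (a i)) : HasQ (fun τ => ∏ i ∈ s, F i τ) (∏ i ∈ s, a i) := by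
  classical
  induction s using Finset.induction_on with
  | empty =>
    have := hasQ_const 1
    simpa using this
  | insert i s hi ih =>
    have := (h i (Finset.mem_insert_self i s)).mul
      (ih (fun j hj => h j (Finset.mem_insert_of_mem hj)))
    simpa only [Finset.prod_insert hi] using this

/-- Division by `q`. -/
theorem HasQ.shift {F : ℂ → ℂ} {a : PowerSeries ℂ} (h : HasQ F a)
    (h0 : PowerSeries.constantCoeff a = 0) : HasQ (fun τ => F τ / qq τ) (shS a) :=
  A1_shift h h0

theorem X_mul_shS {R : Type*} [CommRing R] (a : PowerSeries R)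
    (h0 : PowerSeries.constantCoeff a = 0) : PowerSeries.X * shS a = a := by
  ext n
  cases n with
  | zero =>
    rw [PowerSeries.coeff_zero_X_mul, PowerSeries.coeff_zero_eq_constantCoeff, h0]
  | succ n => rw [PowerSeries.coeff_succ_X_mul, A1_coeff_shS]

/-- Eventually equal functions have the same series. -/
theorem HasQ.of_eq {F : ℂ → ℂ} {a b : PowerSeries ℂ} (h : HasQ F a) (hab : a = b) : HasQ F b :=
  hab ▸ h

end Pool.Agent.LibZP46
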