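import Pool.Agent.LibZP46.A1

/-!
ZP46 A2. Inverses, limits and bounds for `HasQ`.

Plan. Let `f q = ∑ a_n q ^ n` (a power series with positive radius). `HasQ.tendsto`: `f` is
continuous at `0` and `qq τ → 0`. `HasQ.bdd`: follows. `HasQ.inv`: `1 / f` is analytic at `0`
(`AnalyticAt.inv`), so it is the sum of a power series `b` near `0`
(`HasFPowerSeriesAt`, `HasFPowerSeriesOnBall.hasSum`), i.e. `HasQ (fun τ => (F τ)⁻¹) b`
(use `exists_qq`, or define `f` by `tsum`), and `a * b = 1` by `HasQ.mul` and `HasQ.unique`, so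
`b = a⁻¹`. `HasQ.of_bdd`: a function with `HasQ (fun τ => qq τ ^ m * F τ) a` and `X ^ m ∣ a` is
bounded.
-/

namespace Pool.Agent.LibZP46

open Complex Filter

private theorem A2_im_gt (Y : ℝ) : ∀ᶠ τ : ℂ in comap Complex.im atTop, Y < τ.im :=
  tendsto_comap.eventually (eventually_gt_atTop Y)

private theorem A2_neBot : (comap Complex.im atTop).NeBot := by
  rw [comap_neBot_iff]
  intro t ht
  obtain ⟨x, hx⟩ := (inferInstance : (atTop : Filter ℝ).NeBot).nonempty_of_mem ht
  exact ⟨(x : ℂ) * I, by simpa using hx⟩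

private theorem A2_qq_tendsto : Tendsto qq (comap Complex.im atTop) (nhds 0) := by
  rw [tendsto_zero_iff_norm_tendsto_zero]
  have e : (fun τ : ℂ => ‖qq τ‖) = (fun t : ℝ => Real.exp (-(2 * Real.pi * t))) ∘ Complex.im := by
    funext τ
    rw [norm_qq]; rfl
  rw [e]
  have h1 : Tendsto (fun t : ℝ => Real.exp (-(2 * Real.pi * t))) atTop (nhds 0) := by
    apply Real.tendsto_exp_neg_atTop_nhds_zero.comp
    apply Tendsto.const_mul_atTop _ tendsto_id
    positivity
  exact h1.comp tendsto_comap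

private theorem A2_norm_le {τ τ₀ : ℂ} (h : τ₀.im ≤ τ.im) : ‖qq τ‖ ≤ ‖qq τ₀‖ := by
  rw [norm_qq, norm_qq]
  apply Real.exp_le_exp.2
  have : 0 < Real.pi := Real.pi_pos
  nlinarith

/-- The value at the cusp. -/
theorem HasQ.tendsto {F : ℂ → ℂ} {a : PowerSeries ℂ} (h : HasQ F a) :
    Tendsto F (comap Complex.im atTop) (nhds (PowerSeries.constantCoeff a)) := by
  obtain ⟨Y, hY⟩ := h
  set τ₀ : ℂ := ((Y + 1 : ℝ) : ℂ) * I with hτ₀
  have him : τ₀.im = Y + 1 := by rw [hτ₀]; simp
  have hs := (hY τ₀ (by rw [him]; linarith)).summable.norm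
  have hT := tendsto_tsum_of_dominated_convergence (𝓕 := comap Complex.im atTop)
    (f := fun τ n => PowerSeries.coeff n a * qq τ ^ n)
    (g := fun n => if n = 0 then PowerSeries.constantCoeff a else 0)
    (bound := fun n => ‖PowerSeries.coeff n a * qq τ₀ ^ n‖) hs ?_ ?_
  · rw [tsum_ite_eq] at hT
    refine hT.congr' ?_
    filter_upwards [A2_im_gt Y] with τ hτ
    exact (hY τ hτ).tsum_eq
  · intro n
    by_cases hn : n = 0
    · subst hn
      simpa using tendsto_const_nhds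
    · simp only [hn, if_false]
      have := (A2_qq_tendsto.pow n).const_mul (PowerSeries.coeff n a)
      rwa [zero_pow hn, mul_zero] at this
  · filter_upwards [A2_im_gt (Y + 1)] with τ hτ
    intro n
    rw [norm_mul, norm_mul, norm_pow, norm_pow]
    apply mul_le_mul_of_nonneg_left _ (norm_nonneg _)
    exact pow_le_pow_left₀ (norm_nonneg _) (A2_norm_le (by rw [him]; exact hτ.le)) _

theorem HasQ.bdd {F : ℂ → ℂ} {a : PowerSeries ℂ} (h : HasQ F a) : Bdd F := by
  obtain ⟨Y, hY⟩ := h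
  set τ₀ : ℂ := ((Y + 1 : ℝ) : ℂ) * I with hτ₀
  have him : τ₀.im = Y + 1 := by rw [hτ₀]; simp
  have hs := (hY τ₀ (by rw [him]; linarith)).summable.norm
  refine ⟨Y + 1, ∑' n, ‖PowerSeries.coeff n a * qq τ₀ ^ n‖, fun τ hτ => ?_⟩
  have h1 := hY τ (by linarith)
  rw [← h1.tsum_eq]
  have hs1 := h1.summable.norm
  refine (norm_tsum_le_tsum_norm hs1).trans ?_
  refine hs1.tsum_le_tsum (fun n => ?_) hs
  rw [norm_mul, norm_mul, norm_pow, norm_pow]
  apply mul_le_mul_of_nonneg_left _ (norm_nonneg _)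
  exact pow_le_pow_left₀ (norm_nonneg _) (A2_norm_le (by rw [him]; exact hτ.le)) _

theorem HasQ.inv {F : ℂ → ℂ} {a : PowerSeries ℂ} (h : HasQ F a)
    (h0 : PowerSeries.constantCoeff a ≠ 0) : HasQ (fun τ => (F τ)⁻¹) a⁻¹ := by
  have hh := h
  have ht := h.tendsto
  obtain ⟨Y, hY⟩ := h
  set τ₀ : ℂ := ((Y + 1 : ℝ) : ℂ) * I with hτ₀
  have him : τ₀.im = Y + 1 := by rw [hτ₀]; simp
  have hs := (hY τ₀ (by rw [him]; linarith)).summable.norm
  set p := FormalMultilinearSeries.ofScalars ℂ (fun n => PowerSeries.coeff n a) with hp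
  have hrad : (‖qq τ₀‖₊ : ENNReal) ≤ p.radius := by
    apply FormalMultilinearSeries.le_radius_of_summable_norm
    have e : (fun n => ‖p n‖ * ((‖qq τ₀‖₊ : NNReal) : ℝ) ^ n) =
        fun n => ‖PowerSeries.coeff n a * qq τ₀ ^ n‖ := by
      funext n
      rw [hp, FormalMultilinearSeries.ofScalars_norm, norm_mul, norm_pow, coe_nnnorm]
    rw [e]
    exact hs
  have hpos : 0 < p.radius := by
    refine lt_of_lt_of_le ?_ hrad
    have : 0 < ‖qq τ₀‖₊ := by
      rw [← NNReal.coe_pos, coe_nnnorm]; exact norm_pos_iff.2 (qq_ne τ₀)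
    exact_mod_cast this
  have hball := p.hasFPowerSeriesOnBall hpos
  have hsum : ∀ q : ℂ, p.sum q = ∑' n, PowerSeries.coeff n a * q ^ n := by
    intro q
    rw [FormalMultilinearSeries.sum]
    refine tsum_congr (fun n => ?_)
    rw [hp, FormalMultilinearSeries.ofScalars_apply_eq, smul_eq_mul]
  have hval : p.sum 0 = PowerSeries.constantCoeff a := by
    rw [hsum, tsum_eq_single 0]
    · simp
    · intro n hn
      rw [zero_pow hn, mul_zero]
  have han : AnalyticAt ℂ p.sum 0 := ⟨p, p.radius, hball⟩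
  have hinv := han.inv (by rw [hval]; exact h0)
  obtain ⟨p', r', hp'⟩ := hinv
  set b : PowerSeries ℂ := PowerSeries.mk (fun n => p'.coeff n) with hb
  have hFb : HasQ (fun τ => (F τ)⁻¹) b := by
    have hev : ∀ᶠ τ : ℂ in comap Complex.im atTop, qq τ ∈ Metric.eball (0 : ℂ) r' :=
      A2_qq_tendsto.eventually (Metric.eball_mem_nhds _ hp'.r_pos)
    obtain ⟨s, hs', hsub⟩ := mem_comap.1 hev
    obtain ⟨Y₁, hY₁⟩ := mem_atTop_sets.1 hs'
    refine ⟨max Y Y₁, fun τ hτ => ?_⟩
    have hq : qq τ ∈ Metric.eball (0 : ℂ) r' :=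
      hsub (hY₁ τ.im (le_trans (le_max_right _ _) hτ.le))
    have h2 := hp'.hasSum hq
    have h3 := hY τ (lt_of_le_of_lt (le_max_left _ _) hτ)
    have e1 : p.sum⁻¹ (0 + qq τ) = (F τ)⁻¹ := by
      rw [Pi.inv_apply, zero_add, hsum, h3.tsum_eq]
    rw [e1] at h2
    have e2 : (fun n => p' n fun _ => qq τ) = fun n => PowerSeries.coeff n b * qq τ ^ n := by
      funext n
      rw [FormalMultilinearSeries.apply_eq_pow_smul_coeff, hb, PowerSeries.coeff_mk, smul_eq_mul,
        mul_comm]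
    rw [e2] at h2
    exact h2
  have hne : ∀ᶠ τ : ℂ in comap Complex.im atTop, F τ ≠ 0 := ht.eventually_ne h0
  have hab : a * b = 1 := by
    have h4 := hh.mul hFb
    obtain ⟨s, hs', hsub⟩ := mem_comap.1 hne
    obtain ⟨Y₁, hY₁⟩ := mem_atTop_sets.1 hs'
    have h5 : HasQ (fun _ => (1 : ℂ)) (a * b) :=
      h4.congr Y₁ (fun τ hτ => mul_inv_cancel₀ (hsub (hY₁ τ.im hτ.le)))
    have h6 := hasQ_const 1
    rw [h5.unique h6, map_one]
  have hb' : b = a⁻¹ := (PowerSeries.eq_inv_iff_mul_eq_one h0).2 (by rw [mul_comm]; exact hab)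
  rw [← hb']
  exact hFb

private theorem A2_div {F : ℂ → ℂ} : ∀ (m : ℕ) {b : PowerSeries ℂ},
    HasQ (fun τ => qq τ ^ m * F τ) (PowerSeries.X ^ m * b) → HasQ F b := by
  intro m
  induction m with
  | zero => intro b h; simpa using h
  | succ m ih =>
    intro b h
    apply ih
    have h0 : PowerSeries.constantCoeff (PowerSeries.X ^ (m + 1) * b : PowerSeries ℂ) = 0 := by
      simp
    have h1 := h.shift h0
    have e1 : shS (PowerSeries.X ^ (m + 1) * b : PowerSeries ℂ) = PowerSeries.X ^ m * b := by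
      ext n
      rw [shS, PowerSeries.coeff_mk, pow_succ', mul_assoc, PowerSeries.coeff_succ_X_mul]
    rw [e1] at h1
    refine h1.congr 0 (fun τ _ => ?_)
    rw [pow_succ']
    field_simp [qq_ne τ]

/-- If `q ^ m F` has a series divisible by `X ^ m` then `F` is bounded. -/
theorem bdd_of_hasQ {F : ℂ → ℂ} {a : PowerSeries ℂ} (m : ℕ)
    (h : HasQ (fun τ => qq τ ^ m * F τ) a) (hd : PowerSeries.X ^ m ∣ a) : Bdd F := by
  obtain ⟨b, rfl⟩ := hd
  exact (A2_div m h).bdd

/-- If `q ^ m F` has a series divisible by `X ^ (m + 1)` and `F` is constant then `F = 0`. -/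
theorem eq_zero_of_hasQ {F : ℂ → ℂ} {a : PowerSeries ℂ} (m : ℕ)
    (h : HasQ (fun τ => qq τ ^ m * F τ) a) (hd : PowerSeries.X ^ (m + 1) ∣ a) (c : ℂ)
    (hc : ∀ τ : ℂ, 0 < τ.im → F τ = c) : c = 0 := by
  obtain ⟨b, rfl⟩ := hd
  rw [pow_succ, mul_assoc] at h
  have h1 := (A2_div m h).tendsto
  rw [map_mul, PowerSeries.constantCoeff_X, zero_mul] at h1
  have := A2_neBot
  have h2 : Tendsto F (comap Complex.im atTop) (nhds c) :=
    tendsto_const_nhds.congr' (by filter_upwards [A2_im_gt 0] with τ hτ using (hc τ hτ).symm)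
  exact tendsto_nhds_unique h2 h1

/-! Integral versions. -/

theorem toC_injective : Function.Injective toC :=
  PowerSeries.map_injective _ Int.cast_injective

theorem toC_add (a b : PowerSeries ℤ) : toC (a + b) = toC a + toC b := map_add _ a b

theorem toC_sub (a b : PowerSeries ℤ) : toC (a - b) = toC a - toC b := map_sub _ a b

theorem toC_mul (a b : PowerSeries ℤ) : toC (a * b) = toC a * toC b := map_mul _ a b

theorem toC_pow (a : PowerSeries ℤ) (n : ℕ) : toC (a ^ n) = toC a ^ n := map_pow _ a n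

theorem toC_X : toC PowerSeries.X = PowerSeries.X := PowerSeries.map_X _

theorem toC_C (n : ℤ) : toC (PowerSeries.C n) = PowerSeries.C (n : ℂ) := by
  rw [toC, PowerSeries.map_C]; rfl

theorem toC_shS (a : PowerSeries ℤ) : toC (shS a) = shS (toC a) := by
  ext n
  rw [toC, toC, PowerSeries.coeff_map, shS, shS, PowerSeries.coeff_mk, PowerSeries.coeff_mk,
    PowerSeries.coeff_map]

theorem ivS_mul (a : PowerSeries ℤ) (h : PowerSeries.constantCoeff a = 1) : a * ivS a = 1 :=
  PowerSeries.mul_invOfUnit a 1 (by rw [h]; rfl)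

private theorem A2_cc (a : PowerSeries ℤ) (h : PowerSeries.constantCoeff a = 1) :
    PowerSeries.constantCoeff (toC a) ≠ 0 := by
  rw [toC, ← PowerSeries.coeff_zero_eq_constantCoeff_apply, PowerSeries.coeff_map,
    PowerSeries.coeff_zero_eq_constantCoeff_apply, h]
  simp

theorem toC_ivS (a : PowerSeries ℤ) (h : PowerSeries.constantCoeff a = 1) :
    toC (ivS a) = (toC a)⁻¹ := by
  rw [PowerSeries.eq_inv_iff_mul_eq_one (A2_cc a h), mul_comm, ← toC_mul, ivS_mul a h]
  exact map_one _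

/-- The inverse for integral series. -/
theorem HasQ.ivS {F : ℂ → ℂ} {a : PowerSeries ℤ} (h : HasQ F (toC a))
    (h0 : PowerSeries.constantCoeff a = 1) : HasQ (fun τ => (F τ)⁻¹) (toC (ivS a)) := by
  rw [toC_ivS a h0]
  exact h.inv (A2_cc a h0)

end Pool.Agent.LibZP46
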