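import Pool.Agent.LibZP46.A2

/-!
ZP46 A3. Dilation and translation of q-series.

Plan. `qq (d * τ) = qq τ ^ d` (`qq_nat_mul`), so the sum of `a_n qq (d τ) ^ n` is the sum of the
series `exd d a` (the terms with `d ∤ n` are zero: `HasSum` along the injective map `n ↦ d n`,
`Function.Injective.hasSum_iff`). For the converse use `τ / d`. Translation: `qq (τ + c) ^ n =
qq c ^ n * qq τ ^ n`, for a real number `c`. `exd` is a ring homomorphism: compare coefficients
(`PowerSeries.coeff_mul`, only the pairs `(d i, d j)` count), or use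
`PowerSeries.evalNegHom`-like maps; `d ≠ 0` is needed.
-/

namespace Pool.Agent.LibZP46

open Complex

private theorem A3_coeff {R : Type*} [CommRing R] (d : ℕ) (hd : 0 < d) (a : PowerSeries R) (n : ℕ) :
    PowerSeries.coeff (d * n) (exd d a) = PowerSeries.coeff n a := by
  rw [exd, PowerSeries.coeff_mk, if_pos (dvd_mul_right d n), Nat.mul_div_cancel_left n hd]

private theorem A3_coeff0 {R : Type*} [CommRing R] (d : ℕ) (a : PowerSeries R) (n : ℕ) (h : ¬ d ∣ n) :
    PowerSeries.coeff n (exd d a) = 0 := by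
  rw [exd, PowerSeries.coeff_mk, if_neg h]

private theorem A3_iff {a : PowerSeries ℂ} (d : ℕ) (hd : 0 < d) (τ s : ℂ) :
    HasSum (fun n => PowerSeries.coeff n a * qq ((d : ℂ) * τ) ^ n) s ↔
      HasSum (fun n => PowerSeries.coeff n (exd d a) * qq τ ^ n) s := by
  have hinj : Function.Injective fun n : ℕ => d * n := fun m n h => Nat.eq_of_mul_eq_mul_left hd h
  rw [← hinj.hasSum_iff (f := fun n => PowerSeries.coeff n (exd d a) * qq τ ^ n)]
  · have h1 : (fun n => PowerSeries.coeff n a * qq ((d : ℂ) * τ) ^ n) =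
        (fun n => PowerSeries.coeff n (exd d a) * qq τ ^ n) ∘ fun n : ℕ => d * n := by
      funext n
      rw [Function.comp_apply, A3_coeff d hd, qq_nat_mul, pow_mul]
    rw [h1]
  · intro n hn
    have h1 : ¬ d ∣ n := by
      rintro ⟨m, rfl⟩
      exact hn ⟨m, rfl⟩
    rw [A3_coeff0 d a n h1, zero_mul]

theorem HasQ.dil {F : ℂ → ℂ} {a : PowerSeries ℂ} (h : HasQ F a) (d : ℕ) (hd : 0 < d) :
    HasQ (fun τ => F ((d : ℂ) * τ)) (exd d a) := by
  obtain ⟨Y, hY⟩ := h
  refine ⟨max Y 0, fun τ hτ => ?_⟩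
  rw [← A3_iff d hd]
  apply hY
  have h1 : ((d : ℂ) * τ).im = d * τ.im := by simp
  have h2 : (1 : ℝ) ≤ d := by exact_mod_cast hd
  have h3 := lt_of_le_of_lt (le_max_left Y 0) hτ
  have h4 := lt_of_le_of_lt (le_max_right Y 0) hτ
  rw [h1]
  nlinarith

theorem HasQ.of_dil {F : ℂ → ℂ} {a : PowerSeries ℂ} (d : ℕ) (hd : 0 < d)
    (h : HasQ (fun τ => F ((d : ℂ) * τ)) (exd d a)) : HasQ F a := by
  obtain ⟨Y, hY⟩ := h
  have hd0 : (0 : ℝ) < d := by exact_mod_cast hd
  refine ⟨d * Y, fun τ hτ => ?_⟩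
  have h1 : (d : ℂ) * (τ / d) = τ := by
    have : (d : ℂ) ≠ 0 := by exact_mod_cast hd.ne'
    field_simp
  have h2 : Y < (τ / d).im := by
    rw [Complex.div_natCast_im, lt_div_iff₀ hd0, mul_comm]
    exact hτ
  have h3 : HasSum (fun n => PowerSeries.coeff n a * qq ((d : ℂ) * (τ / d)) ^ n) (F ((d : ℂ) * (τ / d))) :=
    (A3_iff (a := a) d hd (τ / d) _).2 (hY _ h2)
  rw [h1] at h3
  exact h3

theorem HasQ.transl {F : ℂ → ℂ} {a : PowerSeries ℂ} (h : HasQ F a) (c : ℝ) :
    HasQ (fun τ => F (τ + (c : ℂ))) (PowerSeries.rescale (qq (c : ℂ)) a) := by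
  obtain ⟨Y, hY⟩ := h
  refine ⟨Y, fun τ hτ => ?_⟩
  have h1 := hY (τ + (c : ℂ)) (by simpa using hτ)
  have h2 : (fun n => PowerSeries.coeff n a * qq (τ + (c : ℂ)) ^ n) =
      fun n => PowerSeries.coeff n (PowerSeries.rescale (qq (c : ℂ)) a) * qq τ ^ n := by
    funext n
    rw [qq_add, mul_pow, PowerSeries.coeff_rescale]
    ring
  rw [h2] at h1
  exact h1

section

variable {R : Type*} [CommRing R]

theorem exd_add (d : ℕ) (a b : PowerSeries R) : exd d (a + b) = exd d a + exd d b := by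
  ext n
  by_cases h : d ∣ n
  · simp [exd, h]
  · simp [exd, h]

theorem exd_mul (d : ℕ) (hd : 0 < d) (a b : PowerSeries R) : exd d (a * b) = exd d a * exd d b := by
  ext n
  by_cases h : d ∣ n
  · obtain ⟨m, rfl⟩ := h
    rw [A3_coeff d hd, PowerSeries.coeff_mul, PowerSeries.coeff_mul]
    have hinj : Function.Injective fun p : ℕ × ℕ => (d * p.1, d * p.2) := by
      rintro ⟨p, q⟩ ⟨p', q'⟩ h
      rw [Prod.mk.injEq] at h
      exact Prod.ext (Nat.eq_of_mul_eq_mul_left hd h.1) (Nat.eq_of_mul_eq_mul_left hd h.2)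
    refine Finset.sum_of_injOn (fun p : ℕ × ℕ => (d * p.1, d * p.2)) hinj.injOn ?_ ?_ ?_
    · rintro ⟨p, q⟩ hp
      have hp' : p + q = m := Finset.HasAntidiagonal.mem_antidiagonal.1 hp
      refine Finset.HasAntidiagonal.mem_antidiagonal.2 ?_
      change d * p + d * q = d * m
      rw [← hp', mul_add]
    · rintro ⟨p, q⟩ hp hq
      have hp' : p + q = d * m := Finset.HasAntidiagonal.mem_antidiagonal.1 hp
      by_cases h1 : d ∣ p
      · exfalso
        have h2 : d ∣ q := (Nat.dvd_add_right h1).1 (hp' ▸ dvd_mul_right d m)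
        obtain ⟨x, rfl⟩ := h1
        obtain ⟨y, rfl⟩ := h2
        apply hq
        refine ⟨(x, y), ?_, rfl⟩
        refine Finset.HasAntidiagonal.mem_antidiagonal.2 ?_
        change x + y = m
        rw [← mul_add] at hp'
        exact Nat.eq_of_mul_eq_mul_left hd hp'
      · change PowerSeries.coeff p (exd d a) * PowerSeries.coeff q (exd d b) = 0
        rw [A3_coeff0 d a p h1, zero_mul]
    · rintro ⟨p, q⟩ _
      change PowerSeries.coeff p a * PowerSeries.coeff q b =
        PowerSeries.coeff (d * p) (exd d a) * PowerSeries.coeff (d * q) (exd d b)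
      rw [A3_coeff d hd, A3_coeff d hd]
  · rw [A3_coeff0 d _ n h, PowerSeries.coeff_mul]
    symm
    refine Finset.sum_eq_zero ?_
    rintro ⟨p, q⟩ hp
    have hp' : p + q = n := Finset.HasAntidiagonal.mem_antidiagonal.1 hp
    change PowerSeries.coeff p (exd d a) * PowerSeries.coeff q (exd d b) = 0
    by_cases h1 : d ∣ p
    · have h2 : ¬ d ∣ q := fun h2 => h (hp' ▸ dvd_add h1 h2)
      rw [A3_coeff0 d b q h2, mul_zero]
    · rw [A3_coeff0 d a p h1, zero_mul]

theorem exd_C (d : ℕ) (hd : 0 < d) (c : R) : exd d (PowerSeries.C c) = PowerSeries.C c := by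
  ext n
  by_cases h : d ∣ n
  · obtain ⟨m, rfl⟩ := h
    rw [A3_coeff d hd, PowerSeries.coeff_C, PowerSeries.coeff_C]
    by_cases hm : m = 0
    · simp [hm]
    · rw [if_neg hm, if_neg]
      exact Nat.mul_ne_zero hd.ne' hm
  · rw [A3_coeff0 d _ n h, PowerSeries.coeff_C, if_neg]
    rintro rfl
    exact h (dvd_zero d)

theorem exd_one (d : ℕ) (hd : 0 < d) : exd d (1 : PowerSeries R) = 1 := by
  have h := exd_C d hd (1 : R)
  rwa [map_one] at h

theorem exd_pow (d : ℕ) (hd : 0 < d) (a : PowerSeries R) (n : ℕ) : exd d (a ^ n) = exd d a ^ n := by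
  induction n with
  | zero => rw [pow_zero, pow_zero, exd_one d hd]
  | succ n ih => rw [pow_succ, pow_succ, exd_mul d hd, ih]

theorem exd_injective (d : ℕ) (hd : 0 < d) :
    Function.Injective (exd d : PowerSeries R → PowerSeries R) := by
  intro a b h
  ext n
  rw [← A3_coeff d hd a n, ← A3_coeff d hd b n, h]

theorem constantCoeff_exd (d : ℕ) (a : PowerSeries R) :
    PowerSeries.constantCoeff (exd d a) = PowerSeries.constantCoeff a := by
  rw [← PowerSeries.coeff_zero_eq_constantCoeff_apply, ← PowerSeries.coeff_zero_eq_constantCoeff_apply, exd,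
    PowerSeries.coeff_mk, if_pos (dvd_zero d), Nat.zero_div]

theorem X_pow_dvd_exd (d m : ℕ) (hd : 0 < d) (a : PowerSeries R) (h : PowerSeries.X ^ m ∣ a) :
    PowerSeries.X ^ (d * m) ∣ exd d a := by
  rw [PowerSeries.X_pow_dvd_iff] at h ⊢
  intro n hn
  by_cases h1 : d ∣ n
  · obtain ⟨k, rfl⟩ := h1
    rw [A3_coeff d hd]
    exact h k (Nat.lt_of_mul_lt_mul_left hn)
  · exact A3_coeff0 d a n h1

end

theorem toC_exd (d : ℕ) (a : PowerSeries ℤ) : toC (exd d a) = exd d (toC a) := by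
  ext n
  by_cases h : d ∣ n
  · simp [toC, exd, h]
  · simp [toC, exd, h]

end Pool.Agent.LibZP46
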