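import Pool.Agent.LibZP46.A2

/-!
ZP46 A4. Derivatives of q-series.

Plan. Let `f q = ∑' n, a_n q ^ n` on a disc around `0` (positive radius by `HasQ.norm` and
`exists_qq`); `F τ = f (qq τ)` for large imaginary part, an open condition, so `deriv F τ =
deriv f (qq τ) * (2 π i qq τ)` (`hasDerivAt_qq`), and `q f'(q) = ∑ n a_n q ^ n`
(`HasFPowerSeriesOnBall.fderiv`/`HasFPowerSeriesOnBall.deriv`, or
`hasDerivAt_tsum_of_isPreconnected`). The algebra of `dS` is immediate from the coefficients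
(`PowerSeries.derivative` may help: `dS a = X * derivative a`).
-/

namespace Pool.Agent.LibZP46

open Complex

private theorem A4_r : Real.exp (-(2 * Real.pi)) ≤ 1 / 2 := by
  have h1 : Real.exp (-(2 * Real.pi)) ≤ Real.exp (-1) := by
    apply Real.exp_le_exp.2
    have := Real.pi_gt_three
    linarith
  have h2 : Real.exp (-1) < 0.3678794412 := Real.exp_neg_one_lt_d9
  norm_num at h2 ⊢
  linarith

private theorem A4_main {F : ℂ → ℂ} {a : PowerSeries ℂ} (h : HasQ F a) :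
    ∃ Y : ℝ, ∀ τ : ℂ, Y < τ.im → DifferentiableAt ℂ F τ ∧
      HasSum (fun n : ℕ => (n : ℂ) * PowerSeries.coeff n a * qq τ ^ n * (2 * (Real.pi : ℂ) * I)) (deriv F τ) := by
  obtain ⟨Y, hY⟩ := h.norm
  obtain ⟨ρ, hρ⟩ : ∃ ρ : ℝ, ρ = Real.exp (-(2 * Real.pi * (Y + 1))) := ⟨_, rfl⟩
  have hρ0 : 0 < ρ := by
    rw [hρ]
    exact Real.exp_pos _
  have hs : Summable fun n : ℕ => ‖PowerSeries.coeff n a‖ * ρ ^ n := by
    have h1 := (hY (((Y + 1 : ℝ) : ℂ) * I) (by simp)).2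
    refine h1.congr fun n => ?_
    rw [norm_mul, norm_pow, norm_qq]
    congr 3
    rw [hρ]
    simp
  have hu : Summable fun n : ℕ => 2 * Real.pi * (‖PowerSeries.coeff n a‖ * ρ ^ n) := hs.mul_left _
  obtain ⟨t, ht⟩ : ∃ t : Set ℂ, t = {τ : ℂ | Y + 2 < τ.im} := ⟨_, rfl⟩
  have hopen : IsOpen t := by
    rw [ht]
    exact isOpen_lt continuous_const Complex.continuous_im
  have hconv : Convex ℝ t := by
    rw [ht]
    exact convex_halfSpace_im_gt (Y + 2)
  have hg : ∀ (n : ℕ) (τ : ℂ), τ ∈ t → HasDerivAt (fun τ => PowerSeries.coeff n a * qq τ ^ n)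
      ((n : ℂ) * PowerSeries.coeff n a * qq τ ^ n * (2 * (Real.pi : ℂ) * I)) τ := by
    intro n τ _
    have h1 := ((hasDerivAt_qq τ).fun_pow n).const_mul (PowerSeries.coeff n a)
    refine h1.congr_deriv ?_
    rcases n with _ | n
    · simp
    · rw [Nat.add_sub_cancel, pow_succ]
      ring
  have hb : ∀ (n : ℕ) (τ : ℂ), τ ∈ t →
      ‖(n : ℂ) * PowerSeries.coeff n a * qq τ ^ n * (2 * (Real.pi : ℂ) * I)‖ ≤
        2 * Real.pi * (‖PowerSeries.coeff n a‖ * ρ ^ n) := by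
    intro n τ hτ
    rw [ht] at hτ
    have h1 : ‖qq τ‖ ≤ ρ * (1 / 2) := by
      have h2 : ‖qq τ‖ ≤ ρ * Real.exp (-(2 * Real.pi)) := by
        rw [norm_qq, hρ, ← Real.exp_add]
        apply Real.exp_le_exp.2
        have h3 : Y + 2 < τ.im := hτ
        have := Real.pi_pos
        nlinarith
      exact h2.trans (mul_le_mul_of_nonneg_left A4_r hρ0.le)
    have h4 : ‖qq τ‖ ^ n ≤ (ρ * (1 / 2)) ^ n := pow_le_pow_left₀ (norm_nonneg _) h1 n
    have h5 : (n : ℝ) * (1 / 2) ^ n ≤ 1 := by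
      have h6 : (n : ℝ) ≤ 2 ^ n := by exact_mod_cast Nat.lt_two_pow_self.le
      rw [div_pow, one_pow, mul_one_div]
      exact div_le_one_of_le₀ h6 (by positivity)
    have h7 : ‖(2 * (Real.pi : ℂ) * I)‖ = 2 * Real.pi := by
      rw [norm_mul, norm_mul, Complex.norm_I, Complex.norm_real, Real.norm_eq_abs, abs_of_pos Real.pi_pos]
      simp
    rw [norm_mul, norm_mul, norm_mul, norm_pow, h7, Complex.norm_natCast]
    have h8 : (n : ℝ) * ‖PowerSeries.coeff n a‖ * ‖qq τ‖ ^ n ≤ ‖PowerSeries.coeff n a‖ * ρ ^ n := by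
      calc (n : ℝ) * ‖PowerSeries.coeff n a‖ * ‖qq τ‖ ^ n
          ≤ (n : ℝ) * ‖PowerSeries.coeff n a‖ * (ρ * (1 / 2)) ^ n :=
            mul_le_mul_of_nonneg_left h4 (by positivity)
        _ = ‖PowerSeries.coeff n a‖ * ρ ^ n * ((n : ℝ) * (1 / 2) ^ n) := by
            rw [mul_pow]
            ring
        _ ≤ ‖PowerSeries.coeff n a‖ * ρ ^ n * 1 := mul_le_mul_of_nonneg_left h5 (by positivity)
        _ = _ := mul_one _
    calc (n : ℝ) * ‖PowerSeries.coeff n a‖ * ‖qq τ‖ ^ n * (2 * Real.pi)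
        ≤ ‖PowerSeries.coeff n a‖ * ρ ^ n * (2 * Real.pi) :=
          mul_le_mul_of_nonneg_right h8 (by positivity)
      _ = _ := mul_comm _ _
  have hFt : ∀ τ ∈ t, F τ = ∑' n, PowerSeries.coeff n a * qq τ ^ n := by
    intro τ hτ
    rw [ht] at hτ
    have h3 : Y + 2 < τ.im := hτ
    exact (hY τ (by linarith)).1.tsum_eq.symm
  refine ⟨Y + 2, fun τ hτ => ?_⟩
  have hτt : τ ∈ t := by
    rw [ht]
    exact hτ
  have hsum0 : Summable fun n : ℕ => PowerSeries.coeff n a * qq τ ^ n := (hY τ (by linarith)).1.summable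
  have hd := hasDerivAt_tsum_of_isPreconnected hu hopen hconv.isPreconnected hg hb hτt hsum0 hτt
  have hdF : HasDerivAt F (∑' n : ℕ, (n : ℂ) * PowerSeries.coeff n a * qq τ ^ n * (2 * (Real.pi : ℂ) * I)) τ := by
    refine hd.congr_of_eventuallyEq ?_
    filter_upwards [hopen.mem_nhds hτt] with σ hσ
    exact hFt σ hσ
  refine ⟨hdF.differentiableAt, ?_⟩
  rw [hdF.deriv]
  exact (Summable.of_norm_bounded hu fun n => hb n τ hτt).hasSum

theorem HasQ.DD {F : ℂ → ℂ} {a : PowerSeries ℂ} (h : HasQ F a) : HasQ (DD F) (dS a) := by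
  obtain ⟨Y, hY⟩ := A4_main h
  refine ⟨Y, fun τ hτ => ?_⟩
  have h1 := (hY τ hτ).2.div_const (2 * (Real.pi : ℂ) * I)
  have h2 : (2 * (Real.pi : ℂ) * I) ≠ 0 := by
    simp [Real.pi_ne_zero]
  have h3 : (fun n : ℕ => (n : ℂ) * PowerSeries.coeff n a * qq τ ^ n * (2 * (Real.pi : ℂ) * I) /
      (2 * (Real.pi : ℂ) * I)) = fun n => PowerSeries.coeff n (dS a) * qq τ ^ n := by
    funext n
    rw [mul_div_cancel_right₀ _ h2, dS, PowerSeries.coeff_mk]
  rw [h3] at h1
  exact h1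

theorem HasQ.differentiableAt {F : ℂ → ℂ} {a : PowerSeries ℂ} (h : HasQ F a) :
    ∃ Y : ℝ, ∀ τ : ℂ, Y < τ.im → DifferentiableAt ℂ F τ := by
  obtain ⟨Y, hY⟩ := A4_main h
  exact ⟨Y, fun τ hτ => (hY τ hτ).1⟩

theorem Hol.DD {F : ℂ → ℂ} (h : Hol F) : Hol (DD F) := by
  have h1 : DifferentiableOn ℂ (deriv F) {τ | 0 < τ.im} := DifferentiableOn.deriv h isOpen_uhp
  exact h1.div_const _

theorem toC_dS (a : PowerSeries ℤ) : toC (dS a) = dS (toC a) := by
  ext n
  simp [toC, dS]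

section

variable {R : Type*} [CommRing R]

theorem dS_add (a b : PowerSeries R) : dS (a + b) = dS a + dS b := by
  ext n
  simp [dS, mul_add]

theorem dS_mul (a b : PowerSeries R) : dS (a * b) = dS a * b + a * dS b := by
  ext n
  rw [map_add, PowerSeries.coeff_mul, PowerSeries.coeff_mul, dS, PowerSeries.coeff_mk, PowerSeries.coeff_mul,
    Finset.mul_sum, ← Finset.sum_add_distrib]
  refine Finset.sum_congr rfl fun p hp => ?_
  have hp' : p.1 + p.2 = n := Finset.HasAntidiagonal.mem_antidiagonal.1 hp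
  rw [dS, PowerSeries.coeff_mk, dS, PowerSeries.coeff_mk, ← hp', Nat.cast_add]
  ring

theorem dS_C (c : R) : dS (PowerSeries.C c) = 0 := by
  ext n
  rw [dS, PowerSeries.coeff_mk, PowerSeries.coeff_C]
  by_cases h : n = 0
  · simp [h]
  · simp [h]

theorem dS_pow (a : PowerSeries R) (n : ℕ) : dS (a ^ n) = (n : PowerSeries R) * a ^ (n - 1) * dS a := by
  induction n with
  | zero =>
    have h := dS_C (1 : R)
    rw [map_one] at h
    rw [pow_zero, h]
    simp
  | succ n ih =>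
    rw [pow_succ, dS_mul, ih]
    rcases n with _ | n
    · simp
    · simp only [Nat.add_sub_cancel]
      push_cast
      ring

end

end Pool.Agent.LibZP46
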