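import Pool.Agent.LibZP46.A0

/-!
ZP46 A5. Reduction by Atkin-Lehner matrices: every orbit meets `Im ≥ √3 / (2 N)`.

Plan. Let `γ = (a, b; c, d)` in `SL(2, ℤ)` with `Im γτ ≥ √3 / 2`
(`ModularGroup.exists_smul_mem_fd`, `ModularGroup.three_le_four_mul_im_sq_of_mem_fd`); only the row
`(c, d)` is needed: `√3 / 2 ≤ τ.im / normSq (c τ + d)`, `IsCoprime c d`. Put `g = gcd c N`,
`e = N / g`, and `W = (e x, y; e c, e d)`: the lower left entry is `e c = N (c / g)`, and the
determinant is `e (e x d - y c)`, so we need `e x d - y c = 1`, which is solvable since `c` and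
`e d` are coprime: a prime dividing `e = N / g` and `c` would divide `g` as well, and `N` is
squarefree. Then `jm W τ = e (c τ + d)` and `Im W τ = e Im τ / (e² |c τ + d|²) ≥ √3 / (2 e)`.
-/

namespace Pool.Agent.LibZP46

open Complex

/-- Some row `(c, d)`. -/
theorem exists_row (τ : ℂ) (hτ : 0 < τ.im) : ∃ c d : ℤ, IsCoprime c d ∧
    Real.sqrt 3 / 2 ≤ τ.im / Complex.normSq ((c : ℂ) * τ + d) := by
  obtain ⟨g, hg⟩ := ModularGroup.exists_smul_mem_fd (⟨τ, hτ⟩ : UpperHalfPlane)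
  have h3 := ModularGroup.three_le_four_mul_im_sq_of_mem_fd hg
  have him := ModularGroup.im_smul_eq_div_normSq g (⟨τ, hτ⟩ : UpperHalfPlane)
  rw [ModularGroup.denom_apply] at him
  refine ⟨g 1 0, g 1 1, Matrix.SpecialLinearGroup.isCoprime_row g 1, ?_⟩
  have hpos : 0 < (g • (⟨τ, hτ⟩ : UpperHalfPlane)).im := UpperHalfPlane.im_pos _
  have h4 : Real.sqrt 3 / 2 ≤ (g • (⟨τ, hτ⟩ : UpperHalfPlane)).im := by
    have h5 : Real.sqrt 3 ≤ 2 * (g • (⟨τ, hτ⟩ : UpperHalfPlane)).im := by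
      rw [Real.sqrt_le_left (by linarith)]
      nlinarith
    linarith
  rw [him] at h4
  exact h4

theorem exists_AL (N : ℕ) (hN : Squarefree N) (τ : ℂ) (hτ : 0 < τ.im) :
    ∃ e : ℤ, 0 < e ∧ e ∣ (N : ℤ) ∧ ∃ W : Mat, ALM N e 1 W ∧
      Real.sqrt 3 / (2 * N) ≤ (act W τ).im := by
  obtain ⟨c, d, hcd, hrow⟩ := exists_row τ hτ
  have hN0 : 0 < (N : ℤ) := by exact_mod_cast Nat.pos_of_ne_zero hN.ne_zero
  have hNsq : Squarefree (N : ℤ) := Int.squarefree_natCast.2 hN
  obtain ⟨g, hgdef⟩ : ∃ g : ℤ, g = (Int.gcd c N : ℤ) := ⟨_, rfl⟩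
  have hgpos : 0 < g := by
    rw [hgdef]
    exact_mod_cast Int.gcd_pos_of_ne_zero_right c hN0.ne'
  obtain ⟨c', hc'⟩ : g ∣ c := by rw [hgdef]; exact Int.gcd_dvd_left ..
  obtain ⟨e, he⟩ : g ∣ (N : ℤ) := by rw [hgdef]; exact Int.gcd_dvd_right ..
  have hepos : 0 < e := by
    by_contra h
    push Not at h
    nlinarith
  have hge : IsCoprime g e := by
    rw [he] at hNsq
    exact (squarefree_mul_iff.1 hNsq).1.isCoprime
  have hc'e : IsCoprime c' e := by
    have h1 : (Int.gcd (g * c') (g * e) : ℤ) = g := by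
      rw [← hc', ← he, ← hgdef]
    rw [Int.gcd_mul_left] at h1
    push_cast at h1
    rw [abs_of_pos hgpos] at h1
    have h2 : (Int.gcd c' e : ℤ) = 1 := by
      have h3 : g * (Int.gcd c' e : ℤ) = g * 1 := by rw [h1, mul_one]
      exact mul_left_cancel₀ hgpos.ne' h3
    exact Int.isCoprime_iff_gcd_eq_one.2 (by exact_mod_cast h2)
  have hce : IsCoprime c e := by
    rw [hc']
    exact IsCoprime.mul_left hge hc'e
  have hfin : IsCoprime (e * d) c := IsCoprime.mul_left hce.symm hcd.symm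
  obtain ⟨x, y, hxy⟩ := hfin
  refine ⟨e, hepos, ⟨g, by rw [he]; ring⟩, !![e * x, -y; e * c, e * d], ?_, ?_⟩
  · refine ⟨?_, ?_, ?_, ?_⟩
    · exact ⟨x, by simp⟩
    · refine ⟨c', ?_⟩
      have h1 : (!![e * x, -y; e * c, e * d] : Mat) 1 0 = e * c := by simp
      rw [h1, he]
      nth_rewrite 1 [hc']
      ring
    · exact ⟨d, by simp⟩
    · rw [Matrix.det_fin_two]
      simp only [Matrix.of_apply, Matrix.cons_val_zero, Matrix.cons_val_one, Matrix.cons_val',
        Matrix.cons_val_fin_one]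
      linear_combination e * hxy
  · have hdet : (!![e * x, -y; e * c, e * d] : Mat).det = e := by
      rw [Matrix.det_fin_two]
      simp only [Matrix.of_apply, Matrix.cons_val_zero, Matrix.cons_val_one, Matrix.cons_val',
        Matrix.cons_val_fin_one]
      linear_combination e * hxy
    rw [act_im (by rw [hdet]; exact hepos.ne') hτ, hdet]
    have hjm : jm (!![e * x, -y; e * c, e * d] : Mat) τ = (e : ℂ) * ((c : ℂ) * τ + d) := by
      simp [jm]; ring
    rw [hjm, Complex.normSq_mul]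
    have heR : (0 : ℝ) < (e : ℝ) := by exact_mod_cast hepos
    have hne : Complex.normSq (e : ℂ) = (e : ℝ) * (e : ℝ) := by
      have := Complex.normSq_ofReal (e : ℝ)
      simpa using this
    rw [hne]
    have h1 : (e : ℝ) * τ.im / ((e : ℝ) * (e : ℝ) * Complex.normSq ((c : ℂ) * τ + d)) =
        (τ.im / Complex.normSq ((c : ℂ) * τ + d)) / (e : ℝ) := by
      rw [div_div, mul_assoc, mul_div_mul_left _ _ heR.ne', mul_comm (e : ℝ)]
    rw [h1]
    have heN : (e : ℝ) ≤ N := by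
      have h2 : e ≤ (N : ℤ) := by nlinarith
      exact_mod_cast h2
    have hNR : (0 : ℝ) < N := by linarith
    have h3 : Real.sqrt 3 / (2 * N) = (Real.sqrt 3 / 2) / (N : ℝ) := by rw [div_div]
    rw [h3]
    have h4 : (0 : ℝ) ≤ Real.sqrt 3 / 2 := by positivity
    exact div_le_div₀ (h4.trans hrow) hrow heR heN

end Pool.Agent.LibZP46
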