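import Pool.Agent.LibZP46.A5

/-!
ZP46 A6. Rigidity: an invariant holomorphic function which is bounded at the cusp is constant.

Plan. `W = (1, 1; 0, 1)` is in `ALM N 1 1`, so `F (τ + 1) = F τ`. Let `f = Function.Periodic.
cuspFunction 1 F` (`f (qq τ) = F τ` for `0 < τ.im`; `F` is bounded at the cusp, so `f` is
differentiable on the open unit disc, also at `0`: `Function.Periodic.differentiableAt_cuspFunction`,
`Function.Periodic.differentiableAt_cuspFunction_zero`; cf. `norm_qq`). Let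
`r = exp (-2 π √3 / (2 N)) < 1`. On the closed disc of radius `r` the continuous function `‖f‖` has a
maximum, at `q₀`. For every `τ` there is `W` with `Im W τ ≥ √3 / (2 N)` (`exists_AL`), i.e.
`‖qq (W τ)‖ ≤ r`, so `‖F τ‖ = ‖F (W τ)‖ ≤ ‖f q₀‖`. Hence `‖f‖` has its maximum on the open unit disc
at `q₀`, and `f` is constant (`Complex.eqOn_of_isPreconnected_of_isMaxOn_norm`).
-/

namespace Pool.Agent.LibZP46

open Complex

private theorem qParam_eq_qq (τ : ℂ) : Function.Periodic.qParam 1 τ = qq τ := by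
  unfold Function.Periodic.qParam qq
  simp

theorem rigid (N : ℕ) (hN : Squarefree N) (F : ℂ → ℂ) (hF : Hol F)
    (hinv : ∀ e : ℤ, 0 < e → e ∣ (N : ℤ) → ∀ W : Mat, ALM N e 1 W → ∀ τ : ℂ, 0 < τ.im →
      F (act W τ) = F τ) (hb : Bdd F) : ∃ c : ℂ, ∀ τ : ℂ, 0 < τ.im → F τ = c := by
  classical
  have hN0 : 0 < N := Nat.pos_of_ne_zero (fun h => by subst h; exact not_squarefree_zero hN)
  have hper : ∀ τ : ℂ, 0 < τ.im → F (τ + 1) = F τ := by
    intro τ hτ
    have hW : ALM N 1 1 (!![1, 1; 0, 1] : Mat) := by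
      refine ⟨by simp, by simp, by simp, by simp [Matrix.det_fin_two]⟩
    have h := hinv 1 one_pos (one_dvd _) _ hW τ hτ
    have hact : act (!![1, 1; 0, 1] : Mat) τ = τ + 1 := by
      simp [act, jm]
    rwa [hact] at h
  set G : ℂ → ℂ := fun τ => if 0 < τ.im then F τ else 0 with hG
  have hGF : ∀ τ : ℂ, 0 < τ.im → G τ = F τ := fun τ hτ => by simp [hG, hτ]
  have hGper : Function.Periodic G ((1 : ℝ) : ℂ) := by
    intro τ
    by_cases hτ : 0 < τ.im
    · have h1 : 0 < (τ + ((1 : ℝ) : ℂ)).im := by simpa using hτ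
      rw [hGF _ h1, hGF _ hτ]
      simpa using hper τ hτ
    · have h1 : ¬ 0 < (τ + ((1 : ℝ) : ℂ)).im := by simpa using hτ
      simp only [hG, if_neg h1, if_neg hτ]
  set f : ℂ → ℂ := Function.Periodic.cuspFunction 1 G with hf
  have hfq : ∀ τ : ℂ, 0 < τ.im → f (qq τ) = F τ := by
    intro τ hτ
    have h := Function.Periodic.eq_cuspFunction (h := 1) one_ne_zero hGper τ
    rw [qParam_eq_qq] at h
    rw [hf, h, hGF _ hτ]
  have hGdiff : ∀ τ : ℂ, 0 < τ.im → DifferentiableAt ℂ G τ := by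
    intro τ hτ
    have hmem : {τ : ℂ | 0 < τ.im} ∈ nhds τ := isOpen_uhp.mem_nhds hτ
    have h1 : DifferentiableAt ℂ F τ := hF.differentiableAt hmem
    refine h1.congr_of_eventuallyEq ?_
    filter_upwards [hmem] with x hx using hGF x hx
  have hex : ∀ q : ℂ, q ∈ Metric.ball (0 : ℂ) 1 → q ≠ 0 → ∃ τ : ℂ, 0 < τ.im ∧ qq τ = q := by
    intro q hq hq0
    obtain ⟨τ, h1, h2⟩ := exists_qq q hq0
    refine ⟨τ, ?_, h1⟩
    rw [h2]
    have hq1 : ‖q‖ < 1 := by simpa using hq
    have hq2 : 0 < ‖q‖ := norm_pos_iff.mpr hq0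
    have := Real.log_neg hq2 hq1
    have hpi := Real.pi_pos
    apply div_pos (by linarith) (by positivity)
  have hdiff : DifferentiableOn ℂ f (Metric.ball (0 : ℂ) 1) := by
    intro q hq
    apply DifferentiableAt.differentiableWithinAt
    by_cases hq0 : q = 0
    · subst hq0
      obtain ⟨Y, C, hYC⟩ := hb
      apply Function.Periodic.differentiableAt_cuspFunction_zero one_pos hGper
      · have : ∀ᶠ z : ℂ in Filter.comap Complex.im Filter.atTop, (0 : ℝ) < z.im :=
          Filter.tendsto_comap.eventually (Filter.eventually_gt_atTop (0 : ℝ))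
        filter_upwards [this] with z hz using hGdiff z hz
      · have : ∀ᶠ z : ℂ in Filter.comap Complex.im Filter.atTop, max 0 Y < z.im :=
          Filter.tendsto_comap.eventually (Filter.eventually_gt_atTop (max 0 Y))
        rw [Filter.BoundedAtFilter]
        apply Asymptotics.IsBigO.of_bound C
        filter_upwards [this] with z hz
        rw [hGF z (lt_of_le_of_lt (le_max_left _ _) hz)]
        simpa using hYC z (lt_of_le_of_lt (le_max_right _ _) hz)
    · obtain ⟨τ, hτ, h1⟩ := hex q hq hq0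
      have h := Function.Periodic.differentiableAt_cuspFunction (h := 1) one_ne_zero hGper
        (hGdiff τ hτ)
      rwa [qParam_eq_qq, h1] at h
  set r : ℝ := Real.exp (-(2 * Real.pi * (Real.sqrt 3 / (2 * N)))) with hr
  have hr1 : r < 1 := by
    rw [hr, Real.exp_lt_one_iff]
    have h1 : 0 < Real.sqrt 3 := Real.sqrt_pos.mpr (by norm_num)
    have h2 : (0 : ℝ) < N := by exact_mod_cast hN0
    have h3 := Real.pi_pos
    have : 0 < 2 * Real.pi * (Real.sqrt 3 / (2 * N)) := by positivity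
    linarith
  have hr0 : 0 < r := Real.exp_pos _
  have hsub : Metric.closedBall (0 : ℂ) r ⊆ Metric.ball (0 : ℂ) 1 :=
    Metric.closedBall_subset_ball hr1
  obtain ⟨q₀, hq₀, hmax⟩ := (isCompact_closedBall (0 : ℂ) r).exists_isMaxOn
    ⟨0, by simp [hr0.le]⟩ ((hdiff.continuousOn.mono hsub).norm)
  have hmax' : ∀ q ∈ Metric.closedBall (0 : ℂ) r, ‖f q‖ ≤ ‖f q₀‖ := fun q hq => hmax hq
  have hM : IsMaxOn (norm ∘ f) (Metric.ball (0 : ℂ) 1) q₀ := by
    intro q hq
    show ‖f q‖ ≤ ‖f q₀‖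
    by_cases hq0 : q = 0
    · subst hq0
      exact hmax' 0 (by simp [hr0.le])
    · obtain ⟨τ, hτ, h1⟩ := hex q hq hq0
      obtain ⟨e, he0, heN, W, hW, him⟩ := exists_AL N hN τ hτ
      have hWτ : 0 < (act W τ).im := by
        apply act_im_pos _ hτ
        rw [hW.hdet]; linarith
      rw [← h1, hfq τ hτ, ← hinv e he0 heN W hW τ hτ, ← hfq _ hWτ]
      apply hmax'
      rw [mem_closedBall_zero_iff, norm_qq, hr]
      apply Real.exp_le_exp.mpr
      have h3 := Real.pi_pos
      have : 2 * Real.pi * (Real.sqrt 3 / (2 * N)) ≤ 2 * Real.pi * (act W τ).im := by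
        apply mul_le_mul_of_nonneg_left him (by positivity)
      linarith
  have hconst := Complex.eqOn_of_isPreconnected_of_isMaxOn_norm
    (convex_ball (0 : ℂ) 1).isPreconnected Metric.isOpen_ball hdiff (hsub hq₀) hM
  refine ⟨f q₀, fun τ hτ => ?_⟩
  rw [← hfq τ hτ]
  have : qq τ ∈ Metric.ball (0 : ℂ) 1 := by
    simpa using norm_qq_lt_one hτ
  exact hconst this

end Pool.Agent.LibZP46
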