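import Pool.Agent.LibZP46.A6

/-!
ZP46 A7. The algebra of the forms `ModN`.

Plan. Immediate from the definition: `zpow_add₀` with `jm W τ ^ 2 / e ≠ 0` (`jm_ne`; the
determinant of `W` is `e ≠ 0`). `ModN.inv`: `(χ e)⁻¹ = χ e` since `χ e ^ 2 = 1`. The signs of the
product are `fun e => χ e * χ' e`. `rigid_mod`: `ModN N χ 0 F` with `χ = 1` is the invariance in
`rigid`.
-/

namespace Pool.Agent.LibZP46

open Complex

private theorem A7_base {N e : ℤ} {W : Mat} (he : 0 < e) (hW : ALM N e 1 W) {τ : ℂ}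
    (hτ : 0 < τ.im) : jm W τ ^ 2 / (e : ℂ) ≠ 0 := by
  have hdet : W.det ≠ 0 := by
    rw [hW.hdet, mul_one]; exact he.ne'
  have he' : (e : ℂ) ≠ 0 := by exact_mod_cast he.ne'
  exact div_ne_zero (pow_ne_zero 2 (jm_ne hdet hτ)) he'

theorem ModN.mul {N : ℤ} {χ χ' : ℤ → ℤ} {r r' : ℤ} {F G : ℂ → ℂ} (hF : ModN N χ r F)
    (hG : ModN N χ' r' G) : ModN N (fun e => χ e * χ' e) (r + r') (fun τ => F τ * G τ) := by
  intro e he hd W hW τ hτ
  have hB := A7_base he hW hτ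
  show F (act W τ) * G (act W τ) = _
  rw [hF e he hd W hW τ hτ, hG e he hd W hW τ hτ, zpow_add₀ hB]
  push_cast
  ring

theorem ModN.add {N : ℤ} {χ : ℤ → ℤ} {r : ℤ} {F G : ℂ → ℂ} (hF : ModN N χ r F)
    (hG : ModN N χ r G) : ModN N χ r (fun τ => F τ + G τ) := by
  intro e he hd W hW τ hτ
  show F (act W τ) + G (act W τ) = _
  rw [hF e he hd W hW τ hτ, hG e he hd W hW τ hτ]
  ring

theorem ModN.sub {N : ℤ} {χ : ℤ → ℤ} {r : ℤ} {F G : ℂ → ℂ} (hF : ModN N χ r F)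
    (hG : ModN N χ r G) : ModN N χ r (fun τ => F τ - G τ) := by
  intro e he hd W hW τ hτ
  show F (act W τ) - G (act W τ) = _
  rw [hF e he hd W hW τ hτ, hG e he hd W hW τ hτ]
  ring

theorem ModN.const_mul {N : ℤ} {χ : ℤ → ℤ} {r : ℤ} {F : ℂ → ℂ} (c : ℂ) (hF : ModN N χ r F) :
    ModN N χ r (fun τ => c * F τ) := by
  intro e he hd W hW τ hτ
  show c * F (act W τ) = _
  rw [hF e he hd W hW τ hτ]
  ring

theorem ModN.pow {N : ℤ} {χ : ℤ → ℤ} {r : ℤ} {F : ℂ → ℂ} (hF : ModN N χ r F) (n : ℕ) :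
    ModN N (fun e => χ e ^ n) (n * r) (fun τ => F τ ^ n) := by
  intro e he hd W hW τ hτ
  show F (act W τ) ^ n = _
  rw [hF e he hd W hW τ hτ, mul_pow, mul_pow, mul_comm (n : ℤ) r, zpow_mul, zpow_natCast]
  push_cast
  ring

theorem ModN.inv {N : ℤ} {χ : ℤ → ℤ} {r : ℤ} {F : ℂ → ℂ} (hF : ModN N χ r F)
    (hχ : ∀ e : ℤ, 0 < e → e ∣ N → χ e ^ 2 = 1) : ModN N χ (-r) (fun τ => (F τ)⁻¹) := by
  intro e he hd W hW τ hτ
  show (F (act W τ))⁻¹ = _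
  have h1 : (χ e : ℂ) * (χ e : ℂ) = 1 := by
    have := hχ e he hd
    rw [sq] at this
    exact_mod_cast this
  have h2 : (χ e : ℂ)⁻¹ = (χ e : ℂ) := inv_eq_of_mul_eq_one_left h1
  rw [hF e he hd W hW τ hτ, mul_inv, mul_inv, h2, zpow_neg]

theorem ModN.congr_chi {N : ℤ} {χ χ' : ℤ → ℤ} {r : ℤ} {F : ℂ → ℂ} (hF : ModN N χ r F)
    (h : ∀ e : ℤ, 0 < e → e ∣ N → χ e = χ' e) : ModN N χ' r F := by
  intro e he hd W hW τ hτ
  rw [hF e he hd W hW τ hτ, h e he hd]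

theorem ModN.congr {N : ℤ} {χ : ℤ → ℤ} {r : ℤ} {F G : ℂ → ℂ} (hF : ModN N χ r F)
    (h : ∀ τ : ℂ, 0 < τ.im → F τ = G τ) : ModN N χ r G := by
  intro e he hd W hW τ hτ
  have hdet : 0 < W.det := by
    rw [hW.hdet, mul_one]; exact he
  rw [← h τ hτ, ← h (act W τ) (act_im_pos hdet hτ), hF e he hd W hW τ hτ]

/-- Periodicity. -/
theorem ModN.add_one {N : ℤ} (hN : 0 < N) {χ : ℤ → ℤ} (h1 : χ 1 = 1) {r : ℤ} {F : ℂ → ℂ}
    (hF : ModN N χ r F) {τ : ℂ} (hτ : 0 < τ.im) : F (τ + 1) = F τ := by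
  have hW : ALM N 1 1 (!![1, 1; 0, 1] : Mat) := by
    refine ⟨?_, ?_, ?_, ?_⟩
    · exact one_dvd _
    · simp
    · exact one_dvd _
    · simp [Matrix.det_fin_two]
  have h := hF 1 one_pos (one_dvd N) _ hW τ hτ
  have hjm : jm (!![1, 1; 0, 1] : Mat) τ = 1 := by
    simp [jm]
  have hact : act (!![1, 1; 0, 1] : Mat) τ = τ + 1 := by
    unfold act
    rw [hjm]
    simp
  rw [hact, hjm, h1] at h
  simpa using h

theorem rigid_mod (N : ℕ) (hN : Squarefree N) (F : ℂ → ℂ) (hF : Hol F)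
    (hm : ModN N (fun _ => 1) 0 F) (hb : Bdd F) : ∃ c : ℂ, ∀ τ : ℂ, 0 < τ.im → F τ = c := by
  refine rigid N hN F hF ?_ hb
  intro e he hd W hW τ hτ
  have h := hm e he hd W hW τ hτ
  simpa using h

end Pool.Agent.LibZP46
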