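import Pool.Agent.LibZP46.A7
import Pool.Agent.LibZP46.A2

/-!
ZP46 A8. Elementary facts on the Hauptmodul, and the polynomial lemma: a holomorphic invariant
function with a pole of order at most `m` at the cusp and an integral q-series is an integral
polynomial of degree at most `m` in `t`.

Plan. `t_mod`: `ModN.pow`, `ModN.inv`, `ModN.mul`; the signs are `χ e ^ c * χ e ^ c = 1`. `t_q`:
`q t = z ^ c / (g / q)`: `HasQ.shift`, `HasQ.ivS`, `HasQ.pow`. `constantCoeff_tS`: `1`.
`poly`: induction on `m`. `m = 0`: `F` is bounded (`HasQ.bdd`), so constant (`rigid_mod`), and the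
constant is the constant coefficient of `a` (`HasQ.unique`, `hasQ_const`). Step: let `c₀` be the
constant coefficient of `a`; `F₁ = F - c₀ t ^ (m + 1)` is invariant and holomorphic, and
`q ^ (m + 1) F₁` has the series `a - c₀ tS ^ (m + 1)` without constant coefficient, so
`q ^ m F₁` has the integral series `shS (...)` (`HasQ.shift`, `toC_shS`).
-/

namespace Pool.Agent.LibZP46

open Complex Polynomial

variable {D : Dat}

private theorem A8_cc (a : PowerSeries ℤ) :
    PowerSeries.constantCoeff (toC a) = ((PowerSeries.constantCoeff a : ℤ) : ℂ) := by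
  rw [← PowerSeries.coeff_zero_eq_constantCoeff_apply, ← PowerSeries.coeff_zero_eq_constantCoeff_apply,
    toC, PowerSeries.coeff_map]
  rfl

private theorem A8_sh (h : D.OK) : PowerSeries.constantCoeff (shS D.gS) = 1 := by
  rw [← PowerSeries.coeff_zero_eq_constantCoeff_apply, shS, PowerSeries.coeff_mk, zero_add, h.g1]

theorem Dat.OK.t_hol (h : D.OK) : Hol D.t := by
  unfold Hol Dat.t
  exact (DifferentiableOn.pow h.zhol D.c).div h.ghol fun τ hτ => h.gne τ hτ

theorem Dat.OK.t_mod (h : D.OK) : ModN D.N (fun _ => 1) 0 D.t := by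
  have h1 := h.zmod.pow D.c
  have h2 := h.gmod.inv (fun e he hd => by
    rw [← pow_mul, mul_comm, pow_mul, h.chi_sq e he hd, one_pow])
  have h3 := h1.mul h2
  have hw : ((D.c : ℤ) * 1 + -(D.c : ℤ)) = 0 := by ring
  rw [hw] at h3
  refine (h3.congr_chi fun e he hd => ?_).congr fun τ _ => ?_
  · rw [← pow_add, ← two_mul, pow_mul, h.chi_sq e he hd, one_pow]
  · rw [Dat.t, div_eq_mul_inv]

theorem Dat.OK.t_q (h : D.OK) : HasQ (fun τ => qq τ * D.t τ) (toC D.tS) := by
  have h0 : PowerSeries.constantCoeff (toC D.gS) = 0 := by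
    rw [A8_cc, h.g0, Int.cast_zero]
  have h1 : HasQ (fun τ => D.g τ / qq τ) (toC (shS D.gS)) := (h.gq.shift h0).of_eq (toC_shS _).symm
  have h2 := h1.ivS (A8_sh h)
  have h3 := (h.zq.pow D.c).mul h2
  refine (h3.congr 0 fun τ _ => ?_).of_eq ?_
  · rw [inv_div, Dat.t]
    ring
  · rw [Dat.tS, toC_mul, toC_pow]

theorem Dat.OK.tS0 (h : D.OK) : PowerSeries.constantCoeff D.tS = 1 := by
  have h1 := congrArg PowerSeries.constantCoeff (ivS_mul _ (A8_sh h))
  rw [map_mul, A8_sh h, one_mul, map_one] at h1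
  rw [Dat.tS, map_mul, map_pow, h.z0, one_pow, one_mul, h1]

theorem poly (h : D.OK) (m : ℕ) (F : ℂ → ℂ) (hF : Hol F) (hm : ModN D.N (fun _ => 1) 0 F)
    (a : PowerSeries ℤ) (hq : HasQ (fun τ => qq τ ^ m * F τ) (toC a)) :
    ∃ P : ℤ[X], P.natDegree ≤ m ∧ ∀ τ : ℂ, 0 < τ.im → F τ = aeval (D.t τ) P := by
  induction m generalizing F a with
  | zero =>
    have h1 : HasQ F (toC a) := hq.congr 0 fun τ _ => by rw [pow_zero, one_mul]
    obtain ⟨c, hc⟩ := rigid_mod D.N h.sqf F hF hm h1.bdd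
    have h2 : HasQ (fun _ => c) (toC a) := h1.congr 0 fun τ hτ => hc τ hτ
    have h3 := congrArg PowerSeries.constantCoeff (h2.unique (hasQ_const c))
    rw [A8_cc, PowerSeries.constantCoeff_C] at h3
    refine ⟨C (PowerSeries.constantCoeff a), (natDegree_C _).le, fun τ hτ => ?_⟩
    rw [hc τ hτ, aeval_C, ← h3]
    simp
  | succ m ih =>
    obtain ⟨n, hn⟩ : ∃ n : ℤ, n = PowerSeries.constantCoeff a := ⟨_, rfl⟩
    obtain ⟨b, hb⟩ : ∃ b : PowerSeries ℤ, b = a - PowerSeries.C n * D.tS ^ (m + 1) := ⟨_, rfl⟩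
    have hb0 : PowerSeries.constantCoeff b = 0 := by
      rw [hb, map_sub, map_mul, map_pow, h.tS0, one_pow, mul_one, PowerSeries.constantCoeff_C, hn, sub_self]
    have hol : Hol (fun τ => F τ - (n : ℂ) * D.t τ ^ (m + 1)) :=
      DifferentiableOn.sub hF ((DifferentiableOn.pow h.t_hol (m + 1)).const_mul _)
    have hmod : ModN D.N (fun _ => 1) 0 (fun τ => F τ - (n : ℂ) * D.t τ ^ (m + 1)) := by
      have h1 := (h.t_mod.pow (m + 1)).const_mul (n : ℂ)
      have h2 : (((m + 1 : ℕ) : ℤ) * 0) = 0 := mul_zero _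
      rw [h2] at h1
      exact hm.sub (h1.congr_chi fun e _ _ => one_pow _)
    have hq1 : HasQ (fun τ => qq τ ^ (m + 1) * F τ - (n : ℂ) * (qq τ * D.t τ) ^ (m + 1)) (toC b) := by
      refine (hq.sub ((h.t_q.pow (m + 1)).const_mul (n : ℂ))).of_eq ?_
      rw [hb, toC_sub, toC_mul, toC_pow, toC_C]
    have hb0' : PowerSeries.constantCoeff (toC b) = 0 := by
      rw [A8_cc, hb0, Int.cast_zero]
    have hq2 : HasQ (fun τ => qq τ ^ m * (F τ - (n : ℂ) * D.t τ ^ (m + 1))) (toC (shS b)) := by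
      refine ((hq1.shift hb0').congr 0 fun τ _ => ?_).of_eq (toC_shS b).symm
      have h1 := qq_ne τ
      field_simp
      ring
    obtain ⟨P, hP, hPF⟩ := ih _ hol hmod _ hq2
    refine ⟨P + C n * X ^ (m + 1), ?_, fun τ hτ => ?_⟩
    · refine (natDegree_add_le _ _).trans (max_le (hP.trans (Nat.le_succ m)) ?_)
      exact natDegree_C_mul_X_pow_le _ _
    · have h1 := hPF τ hτ
      rw [map_add, map_mul, map_pow, aeval_X, aeval_C, ← h1]
      simp

end Pool.Agent.LibZP46
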