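import Pool.Agent.LibZP46.A8
import Pool.Agent.LibZP46.A2

/-!
ZP46 A9. The q-series of `x = 1 / t`.

Plan. `x = g / z ^ c`; `xS = gS * ivS (zS ^ c) = X * (unit)`. `xS0`, `xS1`: constant coefficient `0`,
linear coefficient `1`. `gS_eq`: `gS = xS * zS ^ c` (`ivS_mul`). `t_unbounded`: `q t → 1` and
`q → 0`. `xS_mul_tS`: `xS * tS = X`. `aeval_xS_injective`: let `P ≠ 0` be a polynomial over `R` and
`x` a power series with constant coefficient `0` and linear coefficient `1`; the lowest coefficient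
`P_k` is the coefficient of `X ^ k` in `aeval x P` (write `P = X ^ k * P'` and `x = X * (unit)`).
-/

namespace Pool.Agent.LibZP46

open Complex Polynomial

variable {D : Dat}

private theorem cc_zc (h : D.OK) : PowerSeries.constantCoeff (D.zS ^ D.c) = 1 := by
  rw [map_pow, h.z0, one_pow]

private theorem cc_ivS (a : PowerSeries ℤ) (h : PowerSeries.constantCoeff a = 1) :
    PowerSeries.constantCoeff (ivS a) = 1 := by
  have h1 := congrArg PowerSeries.constantCoeff (ivS_mul a h)
  rw [map_mul, h, one_mul, map_one] at h1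
  exact h1

private theorem cc_sh (h : D.OK) : PowerSeries.constantCoeff (shS D.gS) = 1 := by
  rw [← PowerSeries.coeff_zero_eq_constantCoeff_apply, shS, PowerSeries.coeff_mk]
  exact h.g1

theorem Dat.OK.x_q (h : D.OK) : HasQ (fun τ => D.g τ / D.z τ ^ D.c) (toC D.xS) := by
  have h1 : HasQ (fun τ => D.z τ ^ D.c) (toC (D.zS ^ D.c)) := by
    rw [toC_pow]
    exact h.zq.pow D.c
  have h2 := h1.ivS (cc_zc h)
  have h3 := h.gq.mul h2
  rw [Dat.xS, toC_mul]
  refine h3.congr 0 fun τ _ => ?_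
  rw [div_eq_mul_inv]

theorem Dat.OK.xS0 (h : D.OK) : PowerSeries.constantCoeff D.xS = 0 := by
  rw [Dat.xS, map_mul, h.g0, zero_mul]

theorem Dat.OK.xS1 (h : D.OK) : PowerSeries.coeff 1 D.xS = 1 := by
  have h0 : PowerSeries.coeff 0 D.gS = 0 := by
    rw [PowerSeries.coeff_zero_eq_constantCoeff_apply]
    exact h.g0
  rw [Dat.xS, PowerSeries.coeff_mul, Finset.Nat.antidiagonal_succ]
  simp [h0, h.g1, cc_ivS _ (cc_zc h)]

theorem Dat.OK.gS_eq (h : D.OK) : D.gS = D.xS * D.zS ^ D.c := by
  have h1 := ivS_mul (D.zS ^ D.c) (cc_zc h)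
  rw [Dat.xS]
  linear_combination (-D.gS) * h1

theorem Dat.OK.xS_mul_tS (h : D.OK) : D.xS * D.tS = PowerSeries.X := by
  have h1 := ivS_mul (D.zS ^ D.c) (cc_zc h)
  have h2 := ivS_mul (shS D.gS) (cc_sh h)
  have h3 := X_mul_shS D.gS h.g0
  rw [Dat.xS, Dat.tS]
  linear_combination (D.gS * ivS (shS D.gS)) * h1 + PowerSeries.X * h2 - ivS (shS D.gS) * h3

private theorem coeff_main {R : Type*} [CommRing R] (x : PowerSeries R)
    (h0 : PowerSeries.constantCoeff x = 0) (h1 : PowerSeries.coeff 1 x = 1) (m : ℕ) (P : R[X]) :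
    PowerSeries.coeff m (aeval x (X ^ m * P)) = P.coeff 0 := by
  have hx := X_mul_shS x h0
  have hu : PowerSeries.constantCoeff (shS x) = 1 := by
    rw [← PowerSeries.coeff_zero_eq_constantCoeff_apply, shS, PowerSeries.coeff_mk]
    exact h1
  have hc : PowerSeries.constantCoeff (aeval x P) = P.coeff 0 := by
    have h2 : (PowerSeries.constantCoeff (R := R)) (aeval x P) =
        Polynomial.eval₂ (RingHom.id R) (PowerSeries.constantCoeff x) P := by
      rw [Polynomial.aeval_def, Polynomial.hom_eval₂]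
      congr 1
    rw [h2, h0, Polynomial.eval₂_at_zero]
    rfl
  rw [map_mul, map_pow, Polynomial.aeval_X]
  have h3 : x ^ m * aeval x P = PowerSeries.X ^ m * (shS x ^ m * aeval x P) := by
    conv_lhs => rw [← hx]
    rw [mul_pow]
    ring_nf
    rw [hx]
  have h4 : PowerSeries.coeff (0 + m) (PowerSeries.X ^ m * (shS x ^ m * aeval x P)) =
      PowerSeries.coeff 0 (shS x ^ m * aeval x P) :=
    PowerSeries.coeff_X_pow_mul _ _ _
  rw [zero_add] at h4
  rw [h3, h4, PowerSeries.coeff_zero_eq_constantCoeff_apply, map_mul, map_pow, hu, one_pow, one_mul,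
    hc]

/-- The coefficients of `aeval x P` determine those of `P`. -/
theorem X_pow_dvd_of_aeval {R : Type*} [CommRing R] (x : PowerSeries R)
    (h0 : PowerSeries.constantCoeff x = 0) (h1 : PowerSeries.coeff 1 x = 1) (m : ℕ) (P : R[X])
    (h : PowerSeries.X ^ m ∣ aeval x P) : X ^ m ∣ P := by
  induction m with
  | zero => simp
  | succ m ih =>
    have h2 : X ^ m ∣ P := ih (dvd_trans (pow_dvd_pow _ (Nat.le_succ m)) h)
    obtain ⟨P', rfl⟩ := h2
    have h3 := coeff_main x h0 h1 m P'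
    rw [PowerSeries.X_pow_dvd_iff] at h
    rw [h m (Nat.lt_succ_self m)] at h3
    have h4 : X ∣ P' := Polynomial.X_dvd_iff.mpr h3.symm
    obtain ⟨P'', rfl⟩ := h4
    exact ⟨P'', by ring⟩

theorem coeff_aeval_of_X_pow_dvd {R : Type*} [CommRing R] (x : PowerSeries R)
    (h0 : PowerSeries.constantCoeff x = 0) (h1 : PowerSeries.coeff 1 x = 1) (m : ℕ) (P : R[X])
    (h : X ^ m ∣ P) : PowerSeries.coeff m (aeval x P) = P.coeff m := by
  obtain ⟨P', rfl⟩ := h
  rw [coeff_main x h0 h1 m P']
  have h2 := Polynomial.coeff_X_pow_mul P' m 0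
  rw [zero_add] at h2
  exact h2.symm

private theorem dvd_aeval_of_dvd (x : PowerSeries ℤ) (d : ℤ) (P : ℤ[X]) (h : C d ∣ P) :
    PowerSeries.C d ∣ aeval x P := by
  obtain ⟨Q, rfl⟩ := h
  rw [map_mul, Polynomial.aeval_C, PowerSeries.algebraMap_apply]
  exact Dvd.intro _ rfl

/-- If a polynomial in `x` is divisible by the integer `d` then so is the polynomial. -/
theorem C_dvd_of_aeval (x : PowerSeries ℤ) (h0 : PowerSeries.constantCoeff x = 0)
    (h1 : PowerSeries.coeff 1 x = 1) (d : ℤ) (P : ℤ[X])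
    (h : PowerSeries.C d ∣ aeval x P) : C d ∣ P := by
  rw [Polynomial.C_dvd_iff_dvd_coeff]
  intro m
  induction m using Nat.strong_induction_on with
  | _ m ih =>
    let L : ℤ[X] := ∑ i ∈ Finset.range m, Polynomial.monomial i (P.coeff i)
    have hL : ∀ j, L.coeff j = if j < m then P.coeff j else 0 := by
      intro j
      simp only [L, Polynomial.finsetSum_coeff, Polynomial.coeff_monomial, Finset.sum_ite_eq',
        Finset.mem_range]
    have hdL : C d ∣ L := by
      rw [Polynomial.C_dvd_iff_dvd_coeff]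
      intro j
      rw [hL]
      split_ifs with hj
      · exact ih j hj
      · exact dvd_zero d
    have hX : X ^ m ∣ P - L := by
      rw [Polynomial.X_pow_dvd_iff]
      intro j hj
      rw [Polynomial.coeff_sub, hL, if_pos hj, sub_self]
    have h2 := coeff_aeval_of_X_pow_dvd x h0 h1 m (P - L) hX
    rw [Polynomial.coeff_sub, hL, if_neg (lt_irrefl m), sub_zero, map_sub] at h2
    have h3 : PowerSeries.C d ∣ aeval x P - aeval x L := dvd_sub h (dvd_aeval_of_dvd x d L hdL)
    obtain ⟨S, hS⟩ := h3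
    rw [hS, PowerSeries.coeff_C_mul] at h2
    exact ⟨_, h2.symm⟩

end Pool.Agent.LibZP46
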