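import Pool.Agent.LibZP46.A2

/-!
ZP46 B1. The Eisenstein series of weight 2 as a function on `ℂ`.

Plan. `EE_hol`: `E2_mdifferentiable`, `UpperHalfPlane.mdifferentiable_iff`. `EE_act`:
`EisensteinSeries.E2_slash_action` for the element of `SL(2, ℤ)` with matrix `γ`, `D2`,
`riemannZeta_two`: `E2 (γ τ) = (c τ + d)^2 E2 τ - (6 i / π) c (c τ + d)`
(`ofComplex (act γ τ) = γ • ofComplex τ`). `hasSum_EE`: `EisensteinSeries.G2_eq_tsum_cexp`
(divide by `2 ζ(2) = π^2 / 3`); summability of `σ (n) q ^ n` (`EisensteinSeries.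
summable_sigma_mul_cexp_pow` or the like); `sg n = σ 1 n`.
-/

namespace Pool.Agent.LibZP46

open Complex

theorem EE_hol : Hol EE := by
  have h := UpperHalfPlane.mdifferentiable_iff.1 E2_mdifferentiable
  exact h

private theorem B1_cast (γ : Matrix.SpecialLinearGroup (Fin 2) ℤ) (z : UpperHalfPlane) :
    ((γ • z : UpperHalfPlane) : ℂ) = act γ.1 z := by
  rw [UpperHalfPlane.specialLinearGroup_apply]
  simp [act, jm]

private theorem B1_key (γ : Matrix.SpecialLinearGroup (Fin 2) ℤ) (z : UpperHalfPlane) :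
    EisensteinSeries.E2 (γ • z) =
      jm γ.1 z ^ 2 * EisensteinSeries.E2 z - 6 * I / (Real.pi : ℂ) * (γ.1 1 0 : ℂ) * jm γ.1 z := by
  have h := congrFun (EisensteinSeries.E2_slash_action γ) z
  have hd : UpperHalfPlane.denom (γ : Matrix.GeneralLinearGroup (Fin 2) ℝ) z = jm γ.1 z := by
    simp [UpperHalfPlane.denom, jm]
  have hne : jm γ.1 z ≠ 0 := by
    rw [← hd]
    exact UpperHalfPlane.denom_ne_zero _ z
  rw [ModularForm.SL_slash_apply] at h
  simp only [Pi.sub_apply, Pi.smul_apply, EisensteinSeries.D2, smul_eq_mul, riemannZeta_two] at h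
  rw [hd] at h
  have hpi : (Real.pi : ℂ) ≠ 0 := by exact_mod_cast Real.pi_ne_zero
  have e : jm γ.1 z ^ (-2 : ℤ) = 1 / jm γ.1 z ^ 2 := by
    rw [zpow_neg, one_div]
    rfl
  rw [e] at h
  have h2 : EisensteinSeries.E2 (γ • z) = jm γ.1 z ^ 2 * (EisensteinSeries.E2 (γ • z) *
      (1 / jm γ.1 z ^ 2)) := by
    field_simp
  rw [h2, h]
  field_simp

theorem EE_act {γ : Mat} (hγ : γ.det = 1) {τ : ℂ} (hτ : 0 < τ.im) :
    EE (act γ τ) = jm γ τ ^ 2 * EE τ - 6 * I / (Real.pi : ℂ) * (γ 1 0 : ℂ) * jm γ τ := by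
  set g : Matrix.SpecialLinearGroup (Fin 2) ℤ := ⟨γ, hγ⟩ with hg
  have h := B1_key g ⟨τ, hτ⟩
  have h1 : UpperHalfPlane.ofComplex (act γ τ) = g • (⟨τ, hτ⟩ : UpperHalfPlane) := by
    have h2 := B1_cast g ⟨τ, hτ⟩
    have h3 : act γ τ = ((g • (⟨τ, hτ⟩ : UpperHalfPlane) : UpperHalfPlane) : ℂ) := h2.symm
    rw [h3, UpperHalfPlane.ofComplex_apply]
  unfold EE
  rw [h1, UpperHalfPlane.ofComplex_apply_of_im_pos hτ]
  exact h

private theorem B1_sg (n : ℕ) : ((ArithmeticFunction.sigma 1 n : ℕ) : ℂ) = (sg n : ℂ) := by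
  rw [ArithmeticFunction.sigma_one_apply, sg]
  push_cast
  rfl

theorem hasSum_EE {τ : ℂ} (hτ : 0 < τ.im) :
    HasSum (fun n : ℕ => (if n = 0 then 1 else -24 * (sg n : ℂ)) * qq τ ^ n) (EE τ) := by
  have h := EisensteinSeries.hasSum_qExpansion_E2 (z := ⟨τ, hτ⟩)
  unfold EE
  rw [UpperHalfPlane.ofComplex_apply_of_im_pos hτ]
  have e : (fun n : ℕ => (if n = 0 then 1 else -24 * (sg n : ℂ)) * qq τ ^ n) =
      (fun m : ℕ => (if m = 0 then 1 else -24 * (ArithmeticFunction.sigma 1 m : ℕ) : ℂ) •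
        Complex.exp (2 * Real.pi * I * ((⟨τ, hτ⟩ : UpperHalfPlane) : ℂ)) ^ m) := by
    funext n
    rw [B1_sg, smul_eq_mul]
    rfl
  rw [e]
  exact h

/-- The series of `EE (d τ)`. -/
theorem hasSum_EE_mul (d : ℕ) (hd : 0 < d) {τ : ℂ} (hτ : 0 < τ.im) :
    HasSum (fun n : ℕ => (if n = 0 then 1 else -24 * (sgd d n : ℂ)) * qq τ ^ n)
      (EE ((d : ℂ) * τ)) := by
  have hd' : (0 : ℝ) < (d : ℝ) := by exact_mod_cast hd
  have him : 0 < ((d : ℂ) * τ).im := by
    have : ((d : ℂ) * τ).im = (d : ℝ) * τ.im := by simp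
    rw [this]
    positivity
  have h := hasSum_EE him
  have hq : qq ((d : ℂ) * τ) = qq τ ^ d := by
    unfold qq
    rw [← Complex.exp_nat_mul]
    congr 1
    ring
  rw [hq] at h
  have hinj : Function.Injective (fun n : ℕ => d * n) := fun a b hab =>
    Nat.eq_of_mul_eq_mul_left hd hab
  rw [← hinj.hasSum_iff (f := fun n : ℕ => (if n = 0 then 1 else -24 * (sgd d n : ℂ)) * qq τ ^ n)]
  · have e : ((fun n : ℕ => (if n = 0 then 1 else -24 * (sgd d n : ℂ)) * qq τ ^ n) ∘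
        fun n : ℕ => d * n) =
        fun n : ℕ => (if n = 0 then 1 else -24 * (sg n : ℂ)) * (qq τ ^ d) ^ n := by
      funext n
      have h1 : sgd d (d * n) = sg n := by
        unfold sgd
        rw [if_pos (Dvd.intro n rfl), Nat.mul_div_cancel_left n hd]
      have h2 : (d * n = 0) = (n = 0) := by
        rw [Nat.mul_eq_zero]
        exact propext ⟨fun h => h.resolve_left hd.ne', Or.inr⟩
      simp only [Function.comp_apply, h1, h2, pow_mul]
    rw [e]
    exact h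
  · intro x hx
    have h1 : ¬ d ∣ x := fun hdx => hx (by
      obtain ⟨c, rfl⟩ := hdx
      exact ⟨c, rfl⟩)
    have h2 : x ≠ 0 := fun h0 => h1 (h0 ▸ dvd_zero d)
    have h3 : sgd d x = 0 := if_neg h1
    simp [h2, h3]

end Pool.Agent.LibZP46
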