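import Pool.Agent.LibZP46.B1
import Pool.Agent.LibZP46.A7

/-!
ZP46 B2. The Eisenstein series of level 6.

Plan. `EE_mul_act`: `W = (e x, y; 6 z, e w)` of determinant `e`, `g = gcd d e`, `d' = d e / g^2`.
The matrix
`γ = (d, 0; 0, 1) W (d', 0; 0, 1)⁻¹ / g` has the entries `d e x / (d' g) = g x`, `d y / g`,
`6 z / (d' g) = 6 z g / (d e)` (an integer, since `d e / g = lcm d e` divides `6`), `e w / g`, and
determinant `1`; `d * act W τ = act γ (d' τ)` and `jm γ (d' τ) = jm W τ / g`. Insert `EE_act`: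
`d EE (d W τ) = (1 / e) (jm W τ ^2 d' EE (d' τ) - (6 i / π) (6 z) jm W τ)`.
(It is enough to do the 16 cases of `d, e ∈ {1, 2, 3, 6}`.) `Zf_mod`: in the sum defining `Zf` the
correction terms cancel since `1 + s2 + s3 + s2 s3 = (1 + s2)(1 + s3) = 0`, and `d ↦ d'` permutes
`{1, 2, 3, 6}` with the effect of the factor `chi s2 s3 e` on the coefficients. The series: from
`hasSum_EE_mul`, `1 + 2 s2 + 3 s3 + 6 s2 s3 = (1 + 2 s2)(1 + 3 s3)`.
-/

namespace Pool.Agent.LibZP46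

open Complex

private theorem B2_hs {f g : ℕ → ℂ} {a : ℂ} (h : HasSum f a) (hfg : ∀ n, f n = g n) :
    HasSum g a := (funext hfg : f = g) ▸ h

private theorem B2_im {d : ℕ} (hd : 0 < d) {τ : ℂ} (hτ : 0 < τ.im) :
    0 < ((d : ℂ) * τ).im := by
  rw [Complex.mul_im, Complex.natCast_re, Complex.natCast_im, zero_mul, add_zero]
  have : (0 : ℝ) < (d : ℝ) := by exact_mod_cast hd
  positivity

private theorem B2_core (g d1 e1 k : ℕ) (h : g * d1 * e1 * k = 6) {W : Mat}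
    (hW : ALM 6 ((g * e1 : ℕ) : ℤ) 1 W) {τ : ℂ} (hτ : 0 < τ.im) :
    ((g * d1 : ℕ) : ℂ) * EE (((g * d1 : ℕ) : ℂ) * act W τ) =
      (1 / ((g * e1 : ℕ) : ℂ)) * (jm W τ ^ 2 * (((d1 * e1 : ℕ) : ℂ) *
        EE (((d1 * e1 : ℕ) : ℂ) * τ)) -
        6 * I / (Real.pi : ℂ) * (W 1 0 : ℂ) * jm W τ) := by
  have hg : g ≠ 0 := by rintro rfl; simp at h
  have hd1 : d1 ≠ 0 := by rintro rfl; simp at h
  have he1 : e1 ≠ 0 := by rintro rfl; simp at h
  obtain ⟨x, hx⟩ := hW.h00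
  obtain ⟨z, hz⟩ := hW.h10
  obtain ⟨w, hw⟩ := hW.h11
  have hdet := hW.hdet
  rw [Matrix.det_fin_two, hx, hz, hw] at hdet
  set y := W 0 1 with hy
  have h6 : (6 : ℤ) = (g : ℤ) * d1 * e1 * k := by exact_mod_cast h.symm
  have hgZ : (g : ℤ) ≠ 0 := by exact_mod_cast hg
  have he1Z : (e1 : ℤ) ≠ 0 := by exact_mod_cast he1
  -- the matrix of determinant one
  let γ : Mat := !![(g : ℤ) * x, (d1 : ℤ) * y; (k : ℤ) * z, (e1 : ℤ) * w]
  have hγ00 : γ 0 0 = (g : ℤ) * x := rfl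
  have hγ01 : γ 0 1 = (d1 : ℤ) * y := rfl
  have hγ10 : γ 1 0 = (k : ℤ) * z := rfl
  have hγ11 : γ 1 1 = (e1 : ℤ) * w := rfl
  have hγ : γ.det = 1 := by
    rw [Matrix.det_fin_two, hγ00, hγ01, hγ10, hγ11]
    push_cast at hdet
    have h1 : ((g : ℤ) * e1) * ((g : ℤ) * x * ((e1 : ℤ) * w) - (d1 : ℤ) * y * ((k : ℤ) * z)) =
        ((g : ℤ) * e1) * 1 := by
      rw [h6] at hdet
      linear_combination hdet
    exact mul_left_cancel₀ (mul_ne_zero hgZ he1Z) h1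
  have hgC : (g : ℂ) ≠ 0 := by exact_mod_cast hg
  have hd1C : (d1 : ℂ) ≠ 0 := by exact_mod_cast hd1
  have he1C : (e1 : ℂ) ≠ 0 := by exact_mod_cast he1
  have h6C : (6 : ℂ) = (g : ℂ) * d1 * e1 * k := by exact_mod_cast h.symm
  have hWne : W.det ≠ 0 := by
    rw [hW.hdet, mul_one]
    exact_mod_cast mul_ne_zero hg he1
  have hjW : jm W τ = 6 * (z : ℂ) * τ + (g : ℂ) * e1 * w := by
    unfold jm
    rw [hz, hw]
    push_cast
    ring
  have hjne : jm W τ ≠ 0 := jm_ne hWne hτ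
  have hτ' : 0 < (((d1 * e1 : ℕ) : ℂ) * τ).im :=
    B2_im (Nat.pos_of_ne_zero (mul_ne_zero hd1 he1)) hτ
  have hjγ : (g : ℂ) * jm γ (((d1 * e1 : ℕ) : ℂ) * τ) = jm W τ := by
    rw [hjW]
    unfold jm
    rw [hγ10, hγ11, h6C]
    push_cast
    ring
  have hjγ' : jm γ (((d1 * e1 : ℕ) : ℂ) * τ) = jm W τ / g := by
    rw [← hjγ]
    field_simp
  have hact : ((g * d1 : ℕ) : ℂ) * act W τ = act γ (((d1 * e1 : ℕ) : ℂ) * τ) := by
    unfold act
    rw [hjγ', hγ00, hγ01, hx, ← hy]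
    push_cast
    field_simp
  rw [hact, EE_act hγ hτ', hjγ', hγ10, hz]
  push_cast
  rw [h6C]
  field_simp

theorem EE_mul_act (d e : ℕ) (hd : d ∣ 6) (he : e ∣ 6) {W : Mat} (hW : ALM 6 e 1 W) {τ : ℂ}
    (hτ : 0 < τ.im) :
    (d : ℂ) * EE ((d : ℂ) * act W τ) =
      (1 / (e : ℂ)) * (jm W τ ^ 2 * (((d * e / Nat.gcd d e ^ 2 : ℕ) : ℂ) *
        EE (((d * e / Nat.gcd d e ^ 2 : ℕ) : ℂ) * τ)) -
        6 * I / (Real.pi : ℂ) * (W 1 0 : ℂ) * jm W τ) := by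
  obtain ⟨d1, e1, hco, h1, h2⟩ := Nat.exists_coprime d e
  set g := Nat.gcd d e with hg
  have hg0 : 0 < g := Nat.gcd_pos_of_pos_left _ (Nat.pos_of_dvd_of_pos hd (by norm_num))
  have hlcm : g * d1 * e1 ∣ 6 := by
    have h3 : Nat.lcm d e ∣ 6 := Nat.lcm_dvd hd he
    have h4 : Nat.lcm d e = g * d1 * e1 := by
      have h5 : g * Nat.lcm d e = d * e := Nat.gcd_mul_lcm d e
      have h6 : g * (g * d1 * e1) = d * e := by
        conv_rhs => rw [h1, h2]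
        ring
      exact Nat.eq_of_mul_eq_mul_left hg0 (h5.trans h6.symm)
    rwa [h4] at h3
  obtain ⟨k, hk⟩ := hlcm
  have hd' : d * e / g ^ 2 = d1 * e1 := by
    apply Nat.div_eq_of_eq_mul_left (by positivity)
    conv_lhs => rw [h1, h2]
    ring
  have hd'' : d = g * d1 := by rw [mul_comm]; exact h1
  have he'' : e = g * e1 := by rw [mul_comm]; exact h2
  rw [hd']
  have hW' : ALM 6 ((g * e1 : ℕ) : ℤ) 1 W := by rw [← he'']; exact hW
  have key := B2_core g d1 e1 k hk.symm hW' hτ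
  rw [← hd'', ← he''] at key
  exact key

private theorem B2_hol (d : ℕ) (hd : 0 < d) : Hol (fun τ => EE ((d : ℂ) * τ)) := by
  apply DifferentiableOn.comp EE_hol
  · exact (differentiable_id.const_mul (d : ℂ)).differentiableOn
  · intro τ hτ
    exact B2_im hd hτ

theorem Zf_hol (s2 s3 : ℤ) : Hol (Zf s2 s3) := by
  have h1 := EE_hol
  have h2 := B2_hol 2 (by norm_num)
  have h3 := B2_hol 3 (by norm_num)
  have h6 := B2_hol 6 (by norm_num)
  unfold Hol at *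
  unfold Zf
  simp only [Nat.cast_ofNat] at h2 h3 h6
  exact ((((h1.add (h2.const_mul (2 * (s2 : ℂ)))).add (h3.const_mul (3 * (s3 : ℂ)))).add
    (h6.const_mul (6 * (s2 : ℂ) * (s3 : ℂ)))).div_const _)

private theorem B2_num (s2 s3 : ℤ) (h : s2 = -1 ∨ s3 = -1) (e : ℕ) (he : e ∣ 6) (f : ℕ → ℕ)
    (hf : ∀ d, f d = d * e / Nat.gcd d e ^ 2) (s : ℤ)
    (hs : ∀ F : ℕ → ℂ, F (f 1) + s2 * F (f 2) + s3 * F (f 3) + s2 * s3 * F (f 6) =
      s * (F 1 + s2 * F 2 + s3 * F 3 + s2 * s3 * F 6))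
    {W : Mat} (hW : ALM 6 e 1 W) {τ : ℂ} (hτ : 0 < τ.im) :
    EE (act W τ) + 2 * s2 * EE (2 * act W τ) + 3 * s3 * EE (3 * act W τ) +
      6 * s2 * s3 * EE (6 * act W τ) =
    s * (jm W τ ^ 2 / e) * (EE τ + 2 * s2 * EE (2 * τ) + 3 * s3 * EE (3 * τ) +
      6 * s2 * s3 * EE (6 * τ)) := by
  have k1 := EE_mul_act 1 e (by norm_num) he hW hτ
  have k2 := EE_mul_act 2 e (by norm_num) he hW hτ
  have k3 := EE_mul_act 3 e (by norm_num) he hW hτ
  have k6 := EE_mul_act 6 e (by norm_num) he hW hτ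
  rw [← hf] at k1 k2 k3 k6
  have hF := hs (fun d => (d : ℂ) * EE ((d : ℂ) * τ))
  simp only [Nat.cast_one, one_mul, Nat.cast_ofNat] at k1 k2 k3 k6 hF
  have hzero : (1 : ℂ) + s2 + s3 + s2 * s3 = 0 := by
    have : (1 + s2) * (1 + s3) = 0 := by
      rcases h with h | h
      · rw [h]; ring
      · rw [h]; ring
    have h' : ((1 + s2) * (1 + s3) : ℂ) = 0 := by exact_mod_cast congrArg (Int.cast : ℤ → ℂ) this
    linear_combination h'
  have e1 : EE (act W τ) + 2 * s2 * EE (2 * act W τ) + 3 * s3 * EE (3 * act W τ) +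
      6 * s2 * s3 * EE (6 * act W τ) = EE (act W τ) + s2 * (2 * EE (2 * act W τ)) +
      s3 * (3 * EE (3 * act W τ)) + s2 * s3 * (6 * EE (6 * act W τ)) := by ring
  rw [e1, k1, k2, k3, k6]
  linear_combination (jm W τ ^ 2 / e) * hF -
    (1 / (e : ℂ)) * (6 * I / (Real.pi : ℂ) * (W 1 0 : ℂ) * jm W τ) * hzero

theorem Zf_mod (s2 s3 : ℤ) (h2 : s2 ^ 2 = 1) (h3 : s3 ^ 2 = 1) (h : s2 = -1 ∨ s3 = -1) :
    ModN 6 (chi s2 s3) 1 (Zf s2 s3) := by
  intro e he0 he6 W hW τ hτ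
  have h2C : (s2 : ℂ) * s2 = 1 := by
    have := congrArg (Int.cast : ℤ → ℂ) h2
    rw [sq] at this
    exact_mod_cast this
  have h3C : (s3 : ℂ) * s3 = 1 := by
    have := congrArg (Int.cast : ℤ → ℂ) h3
    rw [sq] at this
    exact_mod_cast this
  have hle : e ≤ 6 := Int.le_of_dvd (by norm_num) he6
  have main : ∀ e' : ℕ, (e' : ℤ) = e → ∀ s : ℤ, chi s2 s3 e = s →
      (∀ F : ℕ → ℂ, F (1 * e' / Nat.gcd 1 e' ^ 2) + s2 * F (2 * e' / Nat.gcd 2 e' ^ 2) +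
        s3 * F (3 * e' / Nat.gcd 3 e' ^ 2) + s2 * s3 * F (6 * e' / Nat.gcd 6 e' ^ 2) =
      s * (F 1 + s2 * F 2 + s3 * F 3 + s2 * s3 * F 6)) →
      Zf s2 s3 (act W τ) = (chi s2 s3 e : ℂ) * (jm W τ ^ 2 / (e : ℂ)) ^ (1 : ℤ) * Zf s2 s3 τ := by
    intro e' he' s hs hF
    have hW' : ALM 6 (e' : ℤ) 1 W := by rw [he']; exact hW
    have hd' : e' ∣ 6 := by
      have : (e' : ℤ) ∣ ((6 : ℕ) : ℤ) := by rw [he']; exact he6
      exact_mod_cast this
    have key := B2_num s2 s3 h e' hd' (fun d => d * e' / Nat.gcd d e' ^ 2) (fun _ => rfl) s hF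
      hW' hτ
    have heC : ((e' : ℕ) : ℂ) = (e : ℂ) := by rw [← he']; simp
    unfold Zf
    rw [key, zpow_one, hs, heC]
    ring
  interval_cases e
  · refine main 1 rfl 1 (by simp [chi]) ?_
    intro F
    norm_num
  · refine main 2 rfl s2 (by simp [chi]) ?_
    intro F
    norm_num
    linear_combination (F 2 * (-1) + s3 * F 6 * (-1)) * h2C
  · refine main 3 rfl s3 (by simp [chi]) ?_
    intro F
    norm_num
    linear_combination (F 3 * (-1) + s2 * F 6 * (-1)) * h3C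
  · exfalso; revert he6; decide
  · exfalso; revert he6; decide
  · refine main 6 rfl (s2 * s3) (by simp [chi]) ?_
    intro F
    norm_num
    linear_combination (-(F 6) * s3 ^ 2 - s3 * F 2) * h2C + (-(F 6) - s2 * F 3) * h3C

private theorem B2_series (s2 s3 : ℤ) {τ : ℂ} (hτ : 0 < τ.im) :
    HasSum (fun n : ℕ => ((if n = 0 then (1 + 2 * s2 + 3 * s3 + 6 * s2 * s3 : ℂ) else
      -24 * ((sgd 1 n : ℂ) + 2 * s2 * sgd 2 n + 3 * s3 * sgd 3 n + 6 * s2 * s3 * sgd 6 n)) /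
        ((1 + 2 * s2) * (1 + 3 * s3))) * qq τ ^ n) (Zf s2 s3 τ) := by
  have k1 := hasSum_EE_mul 1 (by norm_num) hτ
  have k2 := hasSum_EE_mul 2 (by norm_num) hτ
  have k3 := hasSum_EE_mul 3 (by norm_num) hτ
  have k6 := hasSum_EE_mul 6 (by norm_num) hτ
  simp only [Nat.cast_one, one_mul, Nat.cast_ofNat] at k1 k2 k3 k6
  have hs := (((k1.add (k2.mul_left (2 * (s2 : ℂ)))).add (k3.mul_left (3 * (s3 : ℂ)))).add
    (k6.mul_left (6 * (s2 : ℂ) * (s3 : ℂ)))).div_const ((1 + 2 * (s2 : ℂ)) * (1 + 3 * (s3 : ℂ)))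
  unfold Zf
  refine B2_hs hs ?_
  intro n
  by_cases hn : n = 0
  · simp only [hn, if_true]
    ring
  · simp only [hn, if_false]
    ring

private theorem B2_sgd0 (d : ℕ) : sgd d 0 = 0 := by
  simp [sgd, sg]

private theorem B2_coeff (c : ℤ) (A : PowerSeries ℤ) (n : ℕ) :
    PowerSeries.coeff n (toC (1 + PowerSeries.C c * A)) =
      (if n = 0 then 1 else 0) + (c : ℂ) * ((PowerSeries.coeff n A : ℤ) : ℂ) := by
  unfold toC
  rw [PowerSeries.coeff_map, map_add, PowerSeries.coeff_C_mul, PowerSeries.coeff_one]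
  split_ifs <;> simp

theorem hasSum_z2 {τ : ℂ} (hτ : 0 < τ.im) :
    HasSum (fun n => PowerSeries.coeff n (toC z2S) * qq τ ^ n) (z2 τ) := by
  have h := B2_series 1 (-1) hτ
  unfold z2
  refine B2_hs h ?_
  intro n
  have e1 : z2S = 1 + PowerSeries.C (4 : ℤ) * BS := by
    unfold z2S
    rw [map_ofNat]
  rw [e1, B2_coeff]
  unfold BS
  rw [PowerSeries.coeff_mk]
  congr 1
  by_cases hn : n = 0
  · subst hn
    simp only [if_true, B2_sgd0]
    norm_num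
  · simp only [hn, if_false]
    push_cast
    ring

theorem hasSum_z3 {τ : ℂ} (hτ : 0 < τ.im) :
    HasSum (fun n => PowerSeries.coeff n (toC z3S) * qq τ ^ n) (z3 τ) := by
  have h := B2_series (-1) 1 hτ
  unfold z3
  refine B2_hs h ?_
  intro n
  have e1 : z3S = 1 + PowerSeries.C (6 : ℤ) * AS := by
    unfold z3S
    rw [map_ofNat]
  rw [e1, B2_coeff]
  unfold AS
  rw [PowerSeries.coeff_mk]
  congr 1
  by_cases hn : n = 0
  · subst hn
    simp only [if_true, B2_sgd0]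
    norm_num
  · simp only [hn, if_false]
    push_cast
    ring

theorem hasSum_z6 {τ : ℂ} (hτ : 0 < τ.im) :
    HasSum (fun n => PowerSeries.coeff n (toC z6S) * qq τ ^ n) (z6 τ) := by
  have h := B2_series (-1) (-1) hτ
  unfold z6
  refine B2_hs h ?_
  intro n
  have e1 : z6S = 1 + PowerSeries.C (-12 : ℤ) * CS := by
    unfold z6S
    rw [map_neg, map_ofNat]
    ring
  rw [e1, B2_coeff]
  unfold CS
  rw [PowerSeries.coeff_mk]
  congr 1
  by_cases hn : n = 0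
  · subst hn
    simp only [if_true, B2_sgd0]
    norm_num
  · simp only [hn, if_false]
    push_cast
    ring

theorem hasQ_z2 : HasQ z2 (toC z2S) := ⟨0, fun _ h => hasSum_z2 h⟩

theorem hasQ_z3 : HasQ z3 (toC z3S) := ⟨0, fun _ h => hasSum_z3 h⟩

theorem hasQ_z6 : HasQ z6 (toC z6S) := ⟨0, fun _ h => hasSum_z6 h⟩

end Pool.Agent.LibZP46
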