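import Pool.Agent.LibZP46.A7
import Pool.Agent.LibZP46.A2

/-!
ZP46 B3. The discriminant and the product `Δ(τ) Δ(2τ) Δ(3τ) Δ(6τ)`.

Plan. `Del_act`: `ModularForm.discriminant` is the cusp form `CuspForm.discriminant` of weight 12 for
`SL(2, ℤ)` (`slash_action`, or `slash_action_generators_SL2Z`; for `γ` with integral entries and
determinant `1`, `ofComplex (act γ τ) = γ • ofComplex τ`). `Del_hol`: as in Mathlib
(`differentiableAt_eta_of_mem_upperHalfPlaneSet`). `Del_tendsto`:
`ModularForm.discriminant_eq_q_prod`, `tendsto_atImInfty_tprod_one_sub_eta_q_pow` (transport to the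
filter `comap im atTop` on `ℂ`). `PD_act`: for `d ∣ 6`: `d * act W τ = act γ (d' τ)` with
`γ = (d, 0; 0, 1) W (d', 0; 0, 1)⁻¹ / g`, `g = gcd d e`, `d' = d e / g^2`, of determinant `1` and
`jm γ (d' τ) = jm W τ / g` (see B2), so `Del (d W τ) = (jm W τ / g)^12 Del (d' τ)`; the product of
the `g` over `d = 1, 2, 3, 6` is `e ^ 2`. `PD_tendsto`: product of `Del_tendsto` at `d τ`,
`qq (d τ) = qq τ ^ d`.
-/

namespace Pool.Agent.LibZP46

open Complex Filter

noncomputable def Del (τ : ℂ) : ℂ := ModularForm.discriminant (UpperHalfPlane.ofComplex τ)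

noncomputable def PD (τ : ℂ) : ℂ := Del τ * Del (2 * τ) * Del (3 * τ) * Del (6 * τ)

theorem Del_hol : Hol Del := by
  have h := (UpperHalfPlane.mdifferentiable_iff).1 CuspForm.discriminant.holo'
  exact h

theorem Del_ne {τ : ℂ} (hτ : 0 < τ.im) : Del τ ≠ 0 := ModularForm.discriminant_ne_zero _

theorem Del_act {γ : Mat} (hγ : γ.det = 1) {τ : ℂ} (hτ : 0 < τ.im) :
    Del (act γ τ) = jm γ τ ^ 12 * Del τ := by
  obtain ⟨z, hz⟩ : ∃ z : UpperHalfPlane, (z : ℂ) = τ := ⟨⟨τ, hτ⟩, rfl⟩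
  obtain ⟨A, hA⟩ : ∃ A : Matrix.SpecialLinearGroup (Fin 2) ℤ, (A : Mat) = γ := ⟨⟨γ, hγ⟩, rfl⟩
  have h1 : ModularForm.discriminant (A • z) = jm γ τ ^ 12 * ModularForm.discriminant z := by
    have h2 := congrFun (SlashInvariantForm.slash_action_generators_SL2Z ModularForm.discriminant_S_invariant
      ModularForm.discriminant_T_invariant A) z
    rw [ModularForm.SL_slash_apply] at h2
    have h3 : UpperHalfPlane.denom (A : GL (Fin 2) ℝ) z = jm γ τ := by
      rw [← hz, ← hA]
      simp [UpperHalfPlane.denom, jm]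
    have hj : jm γ τ ≠ 0 := jm_ne (by rw [hγ]; exact one_ne_zero) hτ
    have h5 : jm γ τ ^ (-(12 : ℤ)) = (jm γ τ ^ 12)⁻¹ := by
      rw [zpow_neg]
      norm_cast
    rw [h3, h5] at h2
    rw [← h2]
    field_simp
  have h4 : ((A • z : UpperHalfPlane) : ℂ) = act γ τ := by
    rw [UpperHalfPlane.coe_specialLinearGroup_apply, ← hz, ← hA]
    simp [act, jm]
  rw [Del, Del, ← h4, ← hz, UpperHalfPlane.ofComplex_apply, UpperHalfPlane.ofComplex_apply, hz]
  exact h1

theorem Del_tendsto : Tendsto (fun τ => Del τ / qq τ) (comap Complex.im atTop) (nhds 1) := by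
  have h1 := ModularForm.tendsto_atImInfty_tprod_one_sub_eta_q_pow.comp
    UpperHalfPlane.tendsto_comap_im_ofComplex
  refine h1.congr' ?_
  have h2 : {τ : ℂ | 0 < τ.im} ∈ comap Complex.im atTop := ⟨Set.Ioi 0, Ioi_mem_atTop 0, fun τ hτ => hτ⟩
  filter_upwards [h2] with τ hτ
  have h3 := ModularForm.discriminant_eq_q_prod (UpperHalfPlane.ofComplex τ)
  have h4 : Function.Periodic.qParam 1 (UpperHalfPlane.ofComplex τ) = qq τ := by
    rw [UpperHalfPlane.ofComplex_apply_of_im_pos hτ]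
    simp [Function.Periodic.qParam, qq]
  rw [h4] at h3
  rw [Del, h3, mul_div_cancel_left₀ _ (qq_ne τ)]
  rfl

private theorem B3_im (d : ℕ) (hd : 0 < d) {τ : ℂ} (hτ : 0 < τ.im) : 0 < ((d : ℂ) * τ).im := by
  have h : ((d : ℂ) * τ).im = d * τ.im := by simp
  rw [h]
  have : (0 : ℝ) < d := by exact_mod_cast hd
  positivity

private theorem B3_dil {F : ℂ → ℂ} (hF : Hol F) (d : ℕ) (hd : 0 < d) : Hol (fun τ => F ((d : ℂ) * τ)) := by
  refine DifferentiableOn.comp hF (differentiable_id.const_mul _).differentiableOn ?_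
  intro τ hτ
  exact B3_im d hd hτ

private theorem B3_two (τ : ℂ) : (2 : ℂ) * τ = ((2 : ℕ) : ℂ) * τ := by norm_num

private theorem B3_three (τ : ℂ) : (3 : ℂ) * τ = ((3 : ℕ) : ℂ) * τ := by norm_num

private theorem B3_six (τ : ℂ) : (6 : ℂ) * τ = ((6 : ℕ) : ℂ) * τ := by norm_num

theorem PD_hol : Hol PD := by
  have h2 : Hol (fun τ => Del (2 * τ)) := by
    have h := B3_dil Del_hol 2 (by norm_num)
    simpa using h
  have h3 : Hol (fun τ => Del (3 * τ)) := by
    have h := B3_dil Del_hol 3 (by norm_num)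
    simpa using h
  have h6 : Hol (fun τ => Del (6 * τ)) := by
    have h := B3_dil Del_hol 6 (by norm_num)
    simpa using h
  exact ((Del_hol.mul h2).mul h3).mul h6

theorem PD_ne {τ : ℂ} (hτ : 0 < τ.im) : PD τ ≠ 0 := by
  rw [PD, B3_two, B3_three, B3_six]
  exact mul_ne_zero (mul_ne_zero (mul_ne_zero (Del_ne hτ) (Del_ne (B3_im 2 (by norm_num) hτ)))
    (Del_ne (B3_im 3 (by norm_num) hτ))) (Del_ne (B3_im 6 (by norm_num) hτ))

private theorem B3_mul {W : Mat} {e : ℤ} (he : 0 < e) (hW : ALM 6 e 1 W) {τ : ℂ} (hτ : 0 < τ.im) (g m n k d' : ℕ)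
    (hg : 0 < g) (hd' : 0 < d') (h1 : (g : ℤ) * n = e) (h2 : g * d' * k = 6) (h3 : (g : ℤ) * d' = m * e) :
    Del (((g * m : ℕ) : ℂ) * act W τ) = (jm W τ / (g : ℂ)) ^ 12 * Del ((d' : ℂ) * τ) := by
  obtain ⟨x, hx⟩ := hW.h00
  obtain ⟨z, hz⟩ := hW.h10
  obtain ⟨w, hw⟩ := hW.h11
  have hdet := hW.hdet
  obtain ⟨y, hy⟩ : ∃ y : ℤ, y = W 0 1 := ⟨_, rfl⟩
  rw [Matrix.det_fin_two, hx, hz, hw, ← hy, mul_one] at hdet
  have h2' : (g : ℤ) * d' * k = 6 := by exact_mod_cast h2
  obtain ⟨γ, hγ⟩ : ∃ γ : Mat, γ = !![(g : ℤ) * x, m * y; k * z, n * w] := ⟨_, rfl⟩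
  have hγdet : γ.det = 1 := by
    rw [hγ, Matrix.det_fin_two_of]
    have h4 : e * ((g : ℤ) * x * (n * w) - m * y * (k * z)) = e * 1 := by
      have h5 : e * ((g : ℤ) * x * (n * w) - m * y * (k * z)) =
          e * x * ((g : ℤ) * n * w) - y * z * (m * e * k) := by ring
      rw [h5, h1, ← h3, h2', mul_one]
      linarith
    exact mul_left_cancel₀ he.ne' h4
  have hg0 : (g : ℂ) ≠ 0 := by exact_mod_cast hg.ne'
  have hd0 : 0 < W.det := by rw [hW.hdet, mul_one]; exact he
  have hj : jm W τ ≠ 0 := jm_ne hd0.ne' hτ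
  have c1 : (g : ℂ) * n = e := by exact_mod_cast h1
  have c2 : (g : ℂ) * d' * k = 6 := by exact_mod_cast h2
  have c3 : (g : ℂ) * d' = m * e := by exact_mod_cast h3
  have hjγ : jm γ ((d' : ℂ) * τ) = jm W τ / g := by
    rw [eq_div_iff hg0, jm, jm, hγ, hz, hw]
    push_cast
    simp only [Matrix.of_apply, Matrix.cons_val', Matrix.cons_val_zero, Matrix.cons_val_one, Matrix.cons_val_fin_one]
    push_cast
    linear_combination (z : ℂ) * τ * c2 + (w : ℂ) * c1
  have hact : ((g * m : ℕ) : ℂ) * act W τ = act γ ((d' : ℂ) * τ) := by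
    rw [act, act, hjγ, hγ, hx, ← hy]
    push_cast
    simp only [Matrix.of_apply, Matrix.cons_val', Matrix.cons_val_zero, Matrix.cons_val_one, Matrix.cons_val_fin_one]
    push_cast
    field_simp
    linear_combination -((x : ℂ) * τ * c3)
  rw [hact, Del_act hγdet (B3_im d' hd' hτ), hjγ]

theorem PD_mod : ModN 6 (fun _ => 1) 24 PD := by
  intro e he he6 W hW τ hτ
  have h6 : e ≤ 6 := Int.le_of_dvd (by norm_num) he6
  have hz : ∀ x : ℂ, x ^ (24 : ℤ) = x ^ (24 : ℕ) := fun x => by norm_cast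
  rw [hz]
  have key := fun g m n k d' hg hd' h1 h2 h3 => B3_mul he hW hτ g m n k d' hg hd' h1 h2 h3
  interval_cases e
  · have k1 := key 1 1 1 6 1 (by norm_num) (by norm_num) (by norm_num) (by norm_num) (by norm_num)
    have k2 := key 1 2 1 3 2 (by norm_num) (by norm_num) (by norm_num) (by norm_num) (by norm_num)
    have k3 := key 1 3 1 2 3 (by norm_num) (by norm_num) (by norm_num) (by norm_num) (by norm_num)
    have k6 := key 1 6 1 1 6 (by norm_num) (by norm_num) (by norm_num) (by norm_num) (by norm_num)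
    norm_num at k1 k2 k3 k6
    rw [PD, PD, k1, k2, k3, k6]
    push_cast
    ring
  · have k1 := key 1 1 2 3 2 (by norm_num) (by norm_num) (by norm_num) (by norm_num) (by norm_num)
    have k2 := key 2 1 1 3 1 (by norm_num) (by norm_num) (by norm_num) (by norm_num) (by norm_num)
    have k3 := key 1 3 2 1 6 (by norm_num) (by norm_num) (by norm_num) (by norm_num) (by norm_num)
    have k6 := key 2 3 1 1 3 (by norm_num) (by norm_num) (by norm_num) (by norm_num) (by norm_num)
    norm_num at k1 k2 k3 k6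
    rw [PD, PD, k1, k2, k3, k6]
    push_cast
    ring
  · have k1 := key 1 1 3 2 3 (by norm_num) (by norm_num) (by norm_num) (by norm_num) (by norm_num)
    have k2 := key 1 2 3 1 6 (by norm_num) (by norm_num) (by norm_num) (by norm_num) (by norm_num)
    have k3 := key 3 1 1 2 1 (by norm_num) (by norm_num) (by norm_num) (by norm_num) (by norm_num)
    have k6 := key 3 2 1 1 2 (by norm_num) (by norm_num) (by norm_num) (by norm_num) (by norm_num)
    norm_num at k1 k2 k3 k6
    rw [PD, PD, k1, k2, k3, k6]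
    push_cast
    ring
  · exfalso
    omega
  · exfalso
    omega
  · have k1 := key 1 1 6 1 6 (by norm_num) (by norm_num) (by norm_num) (by norm_num) (by norm_num)
    have k2 := key 2 1 3 1 3 (by norm_num) (by norm_num) (by norm_num) (by norm_num) (by norm_num)
    have k3 := key 3 1 2 1 2 (by norm_num) (by norm_num) (by norm_num) (by norm_num) (by norm_num)
    have k6 := key 6 1 1 1 1 (by norm_num) (by norm_num) (by norm_num) (by norm_num) (by norm_num)
    norm_num at k1 k2 k3 k6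
    rw [PD, PD, k1, k2, k3, k6]
    push_cast
    ring

private theorem B3_tend (d : ℕ) (hd : 0 < d) :
    Tendsto (fun τ => Del ((d : ℂ) * τ) / qq τ ^ d) (comap Complex.im atTop) (nhds 1) := by
  have h1 : Tendsto (fun τ : ℂ => (d : ℂ) * τ) (comap Complex.im atTop) (comap Complex.im atTop) := by
    rw [tendsto_comap_iff]
    have h2 : (Complex.im ∘ fun τ : ℂ => (d : ℂ) * τ) = fun τ => (d : ℝ) * τ.im := by
      funext τ
      simp
    rw [h2]
    exact tendsto_comap.const_mul_atTop (by exact_mod_cast hd)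
  have h3 := Del_tendsto.comp h1
  refine h3.congr fun τ => ?_
  rw [Function.comp_apply, qq_nat_mul]

theorem PD_tendsto : Tendsto (fun τ => PD τ / qq τ ^ 12) (comap Complex.im atTop) (nhds 1) := by
  have h := ((B3_tend 1 (by norm_num)).mul (B3_tend 2 (by norm_num))).mul
    ((B3_tend 3 (by norm_num)).mul (B3_tend 6 (by norm_num)))
  rw [mul_one, mul_one] at h
  refine h.congr fun τ => ?_
  have hq := qq_ne τ
  rw [PD]
  push_cast
  rw [one_mul]
  field_simp

end Pool.Agent.LibZP46
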