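import Pool.Agent.LibZP46.A3
import Pool.Agent.LibZP46.A4

/-!
ZP46 T0. Truncated power series as lists (for computations by `decide +kernel`), and polynomials in
six variables as lists of monomials.

Plan. `App m a l` says that the first `m` coefficients of `a` are the entries of `l`
(`List.getD`). All closure lemmas by induction on the lists; e.g. `getD_addL`, and
`getD_mulL`: the entry `n < m` of `mulL m l l'` is `∑ l_i l'_(n-i)` (for `l = a :: l₁`,
`a l'_n + (mulL (m-1) l₁ l')_(n-1)`), `PowerSeries.coeff_mul`. `ev6_hasQ`: induction on the list of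
monomials with `HasQ.mul`, `HasQ.pow`, `HasQ.const_mul`. The first 28 coefficients of `z2S`, `z3S`,
`z6S`, and the first 5 of `gS`: unfold the definitions, `decide +kernel` or `norm_num`/`simp` for each
`n` (`sg n` is a sum over `n.divisors`; `interval_cases n`, `decide +kernel`).
-/

namespace Pool.Agent.LibZP46

def addL : List ℤ → List ℤ → List ℤ
  | [], l => l
  | l, [] => l
  | a :: l, b :: l' => (a + b) :: addL l l'

def mulL : ℕ → List ℤ → List ℤ → List ℤ
  | 0, _, _ => []
  | _ + 1, [], _ => []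
  | m + 1, a :: l, l' => addL ((l'.take (m + 1)).map (fun x => a * x)) (0 :: mulL m l l')

def powL (m : ℕ) (l : List ℤ) : ℕ → List ℤ
  | 0 => [1]
  | k + 1 => mulL m l (powL m l k)

/-- The series `a (q ^ d)`. -/
def exdL (m d : ℕ) (l : List ℤ) : List ℤ :=
  (List.range m).map fun n => if n % d = 0 then l.getD (n / d) 0 else 0

/-- The first `m` coefficients of `a` are the entries of `l`. -/
def App (m : ℕ) (a : PowerSeries ℤ) (l : List ℤ) : Prop :=
  ∀ n < m, PowerSeries.coeff n a = l.getD n 0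

theorem App.mono {m m' : ℕ} (h : m' ≤ m) {a : PowerSeries ℤ} {l : List ℤ} (ha : App m a l) :
    App m' a l := fun n hn => ha n (lt_of_lt_of_le hn h)

private theorem getD_addL : ∀ (l l' : List ℤ) (n : ℕ),
    (addL l l').getD n 0 = l.getD n 0 + l'.getD n 0 := by
  intro l
  induction l with
  | nil =>
    intro l' n
    simp [addL]
  | cons a l ih =>
    intro l' n
    cases l' with
    | nil => simp [addL]
    | cons b l' =>
      cases n with
      | zero => simp [addL]
      | succ n =>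
        have := ih l' n
        simp only [addL, List.getD_cons_succ]
        exact this

private theorem getD_map_mul (c : ℤ) (l : List ℤ) (n : ℕ) :
    (l.map fun x => c * x).getD n 0 = c * l.getD n 0 := by
  induction l generalizing n with
  | nil => simp
  | cons a l ih =>
    cases n with
    | zero => simp
    | succ n =>
      simp only [List.map_cons, List.getD_cons_succ]
      exact ih n

private theorem getD_take (l : List ℤ) (k n : ℕ) (h : n < k) :
    (l.take k).getD n 0 = l.getD n 0 := by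
  rw [List.getD_eq_getElem?_getD, List.getD_eq_getElem?_getD, List.getElem?_take_of_lt h]

private theorem getD_mulL (l' : List ℤ) : ∀ (m : ℕ) (l : List ℤ) (n : ℕ), n < m →
    (mulL m l l').getD n 0 = ∑ i ∈ Finset.range (n + 1), l.getD i 0 * l'.getD (n - i) 0 := by
  intro m
  induction m with
  | zero =>
    intro l n hn
    exact absurd hn (Nat.not_lt_zero n)
  | succ m ih =>
    intro l n hn
    cases l with
    | nil => simp [mulL]
    | cons a l =>
      rw [mulL, getD_addL, getD_map_mul, getD_take _ _ _ hn, Finset.sum_range_succ']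
      cases n with
      | zero => simp
      | succ k =>
        rw [List.getD_cons_succ, ih l k (by omega), add_comm]
        congr 1
        refine Finset.sum_congr rfl fun i _ => ?_
        rw [List.getD_cons_succ]
        congr 2
        omega

theorem App.add {m : ℕ} {a b : PowerSeries ℤ} {l l' : List ℤ} (ha : App m a l) (hb : App m b l') :
    App m (a + b) (addL l l') := by
  intro n hn
  rw [map_add, ha n hn, hb n hn, getD_addL]

theorem App.mul {m : ℕ} {a b : PowerSeries ℤ} {l l' : List ℤ} (ha : App m a l) (hb : App m b l') :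
    App m (a * b) (mulL m l l') := by
  intro n hn
  rw [PowerSeries.coeff_mul, getD_mulL l' m l n hn,
    Finset.Nat.sum_antidiagonal_eq_sum_range_succ
      (fun i j => PowerSeries.coeff i a * PowerSeries.coeff j b)]
  refine Finset.sum_congr rfl fun i hi => ?_
  have hi' := Finset.mem_range.1 hi
  rw [ha i (by omega), hb (n - i) (by omega)]

theorem App.pow {m : ℕ} {a : PowerSeries ℤ} {l : List ℤ} (ha : App m a l) (k : ℕ) :
    App m (a ^ k) (powL m l k) := by
  induction k with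
  | zero =>
    intro n _
    rw [pow_zero, PowerSeries.coeff_one]
    cases n with
    | zero => simp [powL]
    | succ n => simp [powL]
  | succ k ih =>
    rw [pow_succ']
    exact ha.mul ih

theorem App.const_mul {m : ℕ} {a : PowerSeries ℤ} {l : List ℤ} (c : ℤ) (ha : App m a l) :
    App m (PowerSeries.C c * a) (l.map fun x => c * x) := by
  intro n hn
  rw [PowerSeries.coeff_C_mul, ha n hn, getD_map_mul]

theorem App.exd {m d : ℕ} (hd : 0 < d) {a : PowerSeries ℤ} {l : List ℤ} (ha : App m a l) :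
    App m (exd d a) (exdL m d l) := by
  intro n hn
  have h1 : (exdL m d l).getD n 0 = if n % d = 0 then l.getD (n / d) 0 else 0 := by
    rw [exdL, List.getD_eq_getElem?_getD, List.getElem?_map, List.getElem?_range hn]
    rfl
  rw [h1, LibZP46.exd, PowerSeries.coeff_mk]
  by_cases h : d ∣ n
  · rw [if_pos h, if_pos (Nat.mod_eq_zero_of_dvd h)]
    exact ha _ (lt_of_le_of_lt (Nat.div_le_self n d) hn)
  · rw [if_neg h, if_neg (fun h' => h (Nat.dvd_of_mod_eq_zero h'))]

theorem App.X_pow_dvd {m : ℕ} {a : PowerSeries ℤ} {l : List ℤ} (ha : App m a l)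
    (h : ∀ n < m, l.getD n 0 = 0) : PowerSeries.X ^ m ∣ a := by
  rw [PowerSeries.X_pow_dvd_iff]
  intro n hn
  rw [ha n hn, h n hn]

/-! ### Polynomials in six variables -/

/-- A polynomial: the list of the monomials (coefficient, exponents). -/
abbrev Poly6 : Type := List (ℤ × ℕ × ℕ × ℕ × ℕ × ℕ × ℕ)

/-- Evaluation. -/
def ev6 {A : Type*} [CommRing A] (P : Poly6) (a1 a2 b1 b2 c1 c2 : A) : A :=
  (P.map fun m => (m.1 : A) * (a1 ^ m.2.1 * a2 ^ m.2.2.1 * (b1 ^ m.2.2.2.1 * b2 ^ m.2.2.2.2.1) *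
    (c1 ^ m.2.2.2.2.2.1 * c2 ^ m.2.2.2.2.2.2))).sum

/-- Evaluation on truncated series. -/
def evL (m : ℕ) (P : Poly6) (a1 a2 b1 b2 c1 c2 : List ℤ) : List ℤ :=
  P.foldr (fun M acc => addL ((mulL m (mulL m (mulL m (powL m a1 M.2.1) (powL m a2 M.2.2.1))
    (mulL m (powL m b1 M.2.2.2.1) (powL m b2 M.2.2.2.2.1)))
    (mulL m (powL m c1 M.2.2.2.2.2.1) (powL m c2 M.2.2.2.2.2.2))).map fun x => M.1 * x) acc) []

theorem App.ev6 {m : ℕ} (P : Poly6) {a1 a2 b1 b2 c1 c2 : PowerSeries ℤ}
    {l1 l2 l3 l4 l5 l6 : List ℤ} (h1 : App m a1 l1) (h2 : App m a2 l2) (h3 : App m b1 l3)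
    (h4 : App m b2 l4) (h5 : App m c1 l5) (h6 : App m c2 l6) :
    App m (ev6 P a1 a2 b1 b2 c1 c2) (evL m P l1 l2 l3 l4 l5 l6) := by
  induction P with
  | nil =>
    intro n _
    simp [LibZP46.ev6, evL]
  | cons M P ih =>
    have e : LibZP46.ev6 (M :: P) a1 a2 b1 b2 c1 c2 = PowerSeries.C M.1 *
        (a1 ^ M.2.1 * a2 ^ M.2.2.1 * (b1 ^ M.2.2.2.1 * b2 ^ M.2.2.2.2.1) *
          (c1 ^ M.2.2.2.2.2.1 * c2 ^ M.2.2.2.2.2.2)) + LibZP46.ev6 P a1 a2 b1 b2 c1 c2 := by
      have h0 : (PowerSeries.C M.1 : PowerSeries ℤ) = ((M.1 : ℤ) : PowerSeries ℤ) :=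
        eq_intCast (PowerSeries.C : ℤ →+* PowerSeries ℤ) M.1
      rw [h0]
      simp only [LibZP46.ev6, List.map_cons, List.sum_cons]
    rw [e]
    exact App.add (App.const_mul M.1 (((App.pow h1 _).mul (App.pow h2 _)).mul
      ((App.pow h3 _).mul (App.pow h4 _)) |>.mul ((App.pow h5 _).mul (App.pow h6 _)))) ih

theorem ev6_hasQ (P : Poly6) {F1 F2 F3 F4 F5 F6 : ℂ → ℂ} {a1 a2 b1 b2 c1 c2 : PowerSeries ℤ}
    (h1 : HasQ F1 (toC a1)) (h2 : HasQ F2 (toC a2)) (h3 : HasQ F3 (toC b1))
    (h4 : HasQ F4 (toC b2)) (h5 : HasQ F5 (toC c1)) (h6 : HasQ F6 (toC c2)) :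
    HasQ (fun τ => LibZP46.ev6 P (F1 τ) (F2 τ) (F3 τ) (F4 τ) (F5 τ) (F6 τ))
      (toC (LibZP46.ev6 P a1 a2 b1 b2 c1 c2)) := by
  induction P with
  | nil =>
    have h := hasQ_const 0
    rw [map_zero] at h
    have e : toC (LibZP46.ev6 [] a1 a2 b1 b2 c1 c2) = 0 := by
      simp [LibZP46.ev6, toC]
    rw [e]
    simpa [LibZP46.ev6] using h
  | cons M P ih =>
    have h0 : (((M.1 : ℤ) : PowerSeries ℤ)) = PowerSeries.C M.1 :=
      (eq_intCast (PowerSeries.C : ℤ →+* PowerSeries ℤ) M.1).symm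
    have e : toC (LibZP46.ev6 (M :: P) a1 a2 b1 b2 c1 c2) = PowerSeries.C (M.1 : ℂ) *
        (toC a1 ^ M.2.1 * toC a2 ^ M.2.2.1 * (toC b1 ^ M.2.2.2.1 * toC b2 ^ M.2.2.2.2.1) *
          (toC c1 ^ M.2.2.2.2.2.1 * toC c2 ^ M.2.2.2.2.2.2)) +
          toC (LibZP46.ev6 P a1 a2 b1 b2 c1 c2) := by
      simp only [LibZP46.ev6, List.map_cons, List.sum_cons]
      rw [toC_add, h0, toC_mul, toC_C, toC_mul, toC_mul, toC_mul, toC_mul, toC_mul]
      simp only [toC_pow]
    rw [e]
    have h7 := ((((h1.pow M.2.1).mul (h2.pow M.2.2.1)).mul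
      ((h3.pow M.2.2.2.1).mul (h4.pow M.2.2.2.2.1))).mul
      ((h5.pow M.2.2.2.2.2.1).mul (h6.pow M.2.2.2.2.2.2))).const_mul (M.1 : ℂ)
    have h8 := h7.add ih
    simpa only [LibZP46.ev6, List.map_cons, List.sum_cons] using h8

theorem ev6_hol (P : Poly6) {F1 F2 F3 F4 F5 F6 : ℂ → ℂ} (h1 : Hol F1) (h2 : Hol F2) (h3 : Hol F3)
    (h4 : Hol F4) (h5 : Hol F5) (h6 : Hol F6) :
    Hol (fun τ => LibZP46.ev6 P (F1 τ) (F2 τ) (F3 τ) (F4 τ) (F5 τ) (F6 τ)) := by
  induction P with
  | nil =>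
    have h : Hol (fun _ => (0 : ℂ)) := differentiableOn_const 0
    simpa [LibZP46.ev6] using h
  | cons M P ih =>
    have h7 : Hol (fun τ => (M.1 : ℂ) * (F1 τ ^ M.2.1 * F2 τ ^ M.2.2.1 *
        (F3 τ ^ M.2.2.2.1 * F4 τ ^ M.2.2.2.2.1) *
          (F5 τ ^ M.2.2.2.2.2.1 * F6 τ ^ M.2.2.2.2.2.2)) +
        LibZP46.ev6 P (F1 τ) (F2 τ) (F3 τ) (F4 τ) (F5 τ) (F6 τ)) := by
      refine DifferentiableOn.add (DifferentiableOn.mul (differentiableOn_const _) ?_) ih
      refine DifferentiableOn.mul (DifferentiableOn.mul (DifferentiableOn.mul ?_ ?_)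
        (DifferentiableOn.mul ?_ ?_)) (DifferentiableOn.mul ?_ ?_)
      · exact DifferentiableOn.pow h1 _
      · exact DifferentiableOn.pow h2 _
      · exact DifferentiableOn.pow h3 _
      · exact DifferentiableOn.pow h4 _
      · exact DifferentiableOn.pow h5 _
      · exact DifferentiableOn.pow h6 _
    simpa only [LibZP46.ev6, List.map_cons, List.sum_cons] using h7

/-! ### The first coefficients -/

def z2L : List ℤ := [1, 4, 20, 4, 52, 24, 20, 32, 116, 4, 120, 48, 52, 56, 160, 24, 244, 72, 20, 80,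
  312, 32, 240, 96, 116, 124, 280, 4]

def z3L : List ℤ := [1, 6, 6, 42, 6, 36, 42, 48, 6, 150, 36, 72, 42, 84, 48, 252, 6, 108, 150, 120,
  36, 336, 72, 144, 42, 186, 84, 474]

def z6L : List ℤ := [1, -12, -12, -12, -12, -72, -12, -96, -12, -12, -72, -144, -12, -168, -96, -72,
  -12, -216, -12, -240, -72, -96, -144, -288, -12, -372, -168, -12]

private theorem coeff_z2S (n : ℕ) : PowerSeries.coeff n z2S =
    (if n = 0 then 1 else 0) + 4 * (sgd 1 n + 2 * sgd 2 n - 3 * sgd 3 n - 6 * sgd 6 n) := by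
  have h4 : (4 : PowerSeries ℤ) = PowerSeries.C 4 := (map_ofNat PowerSeries.C 4).symm
  rw [z2S, map_add, PowerSeries.coeff_one, h4, PowerSeries.coeff_C_mul, BS, PowerSeries.coeff_mk]

private theorem coeff_z3S (n : ℕ) : PowerSeries.coeff n z3S =
    (if n = 0 then 1 else 0) + 6 * (sgd 1 n - 2 * sgd 2 n + 3 * sgd 3 n - 6 * sgd 6 n) := by
  have h4 : (6 : PowerSeries ℤ) = PowerSeries.C 6 := (map_ofNat PowerSeries.C 6).symm
  rw [z3S, map_add, PowerSeries.coeff_one, h4, PowerSeries.coeff_C_mul, AS, PowerSeries.coeff_mk]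

private theorem coeff_z6S (n : ℕ) : PowerSeries.coeff n z6S =
    (if n = 0 then 1 else 0) - 12 * (sgd 1 n - 2 * sgd 2 n - 3 * sgd 3 n + 6 * sgd 6 n) := by
  have h4 : (12 : PowerSeries ℤ) = PowerSeries.C 12 := (map_ofNat PowerSeries.C 12).symm
  rw [z6S, map_sub, PowerSeries.coeff_one, h4, PowerSeries.coeff_C_mul, CS, PowerSeries.coeff_mk]

theorem app_z2 : App 28 z2S z2L := by
  intro n hn
  rw [coeff_z2S]
  revert n
  decide +kernel

theorem app_z3 : App 28 z3S z3L := by
  intro n hn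
  rw [coeff_z3S]
  revert n
  decide +kernel

theorem app_z6 : App 28 z6S z6L := by
  intro n hn
  rw [coeff_z6S]
  revert n
  decide +kernel

private theorem app_AS : App 5 AS [0, 1, 1, 7, 1] := by
  intro n hn
  rw [AS, PowerSeries.coeff_mk]
  revert n
  decide +kernel

private theorem app_BS : App 5 BS [0, 1, 5, 1, 13] := by
  intro n hn
  rw [BS, PowerSeries.coeff_mk]
  revert n
  decide +kernel

theorem app_gS : App 5 gS [0, 1, -2, -3, 4] := by
  have e : gS = PowerSeries.C 3 * AS + PowerSeries.C 9 * AS ^ 2 + (PowerSeries.C (-2) * BS +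
      PowerSeries.C (-4) * BS ^ 2) := by
    have h3 : (3 : PowerSeries ℤ) = PowerSeries.C 3 := (map_ofNat PowerSeries.C 3).symm
    have h9 : (9 : PowerSeries ℤ) = PowerSeries.C 9 := (map_ofNat PowerSeries.C 9).symm
    have h2 : (2 : PowerSeries ℤ) = PowerSeries.C 2 := (map_ofNat PowerSeries.C 2).symm
    have h4 : (4 : PowerSeries ℤ) = PowerSeries.C 4 := (map_ofNat PowerSeries.C 4).symm
    rw [map_neg, map_neg, ← h3, ← h9, ← h2, ← h4, gS]
    ring
  have h := ((App.const_mul 3 app_AS).add (App.const_mul 9 (app_AS.pow 2))).add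
    ((App.const_mul (-2) app_BS).add (App.const_mul (-4) (app_BS.pow 2)))
  rw [← e] at h
  intro n hn
  rw [h n hn]
  revert n
  decide +kernel

end Pool.Agent.LibZP46
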