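import Pool.Agent.LibZP46.B2
import Pool.Agent.LibZP46.B3
import Pool.Agent.LibZP46.T0

/-!
ZP46 B4. The cusp form `gg` and the data of level 6.

Plan. `gg_mod`: `Zf_mod`, `ModN.pow`, `ModN.sub`, `ModN.const_mul`; the signs `chi _ _ e ^ 2 = 1`.
`gg_q`: `4 gS = z3S ^ 2 - z2S ^ 2` (`ring` from the definitions), `HasQ`. `gg_pow`: `gg ^ 12 / PD` is
holomorphic (`PD_ne`), of weight `2 * 12 - 24 = 0`, and tends to `1` at the cusp (`gg τ / qq τ → 1` by
`HasQ.shift`, `HasQ.tendsto`; `PD_tendsto`), so it is constant `1` (`rigid_mod`). `gg_ne`: from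
`gg_pow` and `PD_ne`. `D6_ok`: all fields; the coefficients of `gS`, `z2S` from `app_gS`, `app_z2`.
`z6_sq`: `(z6 ^ 2 - 9 z2 ^ 2 + 8 z3 ^ 2) / gg` has weight 0 and trivial signs; the series of the
numerator is divisible by `X ^ 2` (the coefficients `0`, `1`), so the quotient is bounded with limit
`0` (`rigid_mod`, or `eq_zero_of_hasQ` after multiplication with `qq`).
-/

namespace Pool.Agent.LibZP46

open Complex Filter

theorem z2_mod : ModN 6 (chi 1 (-1)) 1 z2 :=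
  Zf_mod 1 (-1) (by norm_num) (by norm_num) (Or.inr rfl)

theorem z3_mod : ModN 6 (chi (-1) 1) 1 z3 :=
  Zf_mod (-1) 1 (by norm_num) (by norm_num) (Or.inl rfl)

theorem z6_mod : ModN 6 (chi (-1) (-1)) 1 z6 :=
  Zf_mod (-1) (-1) (by norm_num) (by norm_num) (Or.inl rfl)

private theorem B4_chi_sq (s2 s3 e : ℤ) (h2 : s2 ^ 2 = 1) (h3 : s3 ^ 2 = 1) :
    chi s2 s3 e ^ 2 = 1 := by
  unfold chi
  rw [mul_pow]
  split_ifs <;> simp [h2, h3]

private theorem B4_sq_mod {s2 s3 : ℤ} (h2 : s2 ^ 2 = 1) (h3 : s3 ^ 2 = 1) {F : ℂ → ℂ}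
    (hF : ModN 6 (chi s2 s3) 1 F) : ModN 6 (fun _ => 1) 2 (fun τ => F τ ^ 2) := by
  have h := (hF.pow 2).congr_chi (χ' := fun _ => 1)
    (fun e _ _ => B4_chi_sq s2 s3 e h2 h3)
  have h0 : ((2 : ℕ) : ℤ) * 1 = 2 := by norm_num
  rw [h0] at h
  exact h

theorem gg_hol : Hol gg := by
  have h3 : DifferentiableOn ℂ z3 {τ | 0 < τ.im} := Zf_hol (-1) 1
  have h2 : DifferentiableOn ℂ z2 {τ | 0 < τ.im} := Zf_hol 1 (-1)
  exact ((h3.pow 2).sub (h2.pow 2)).div_const 4

theorem gg_mod : ModN 6 (fun _ => 1) 2 gg := by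
  have h := ((B4_sq_mod (by norm_num) (by norm_num) z3_mod).sub
    (B4_sq_mod (by norm_num) (by norm_num) z2_mod)).const_mul (1 / 4)
  refine h.congr (fun τ _ => ?_)
  unfold gg
  ring

private theorem B4_four_gS : z3S ^ 2 - z2S ^ 2 = PowerSeries.C 4 * gS := by
  have h : (PowerSeries.C (4 : ℤ) : PowerSeries ℤ) = 4 := map_ofNat _ 4
  rw [h]
  unfold z3S z2S gS
  ring

theorem hasQ_gg : HasQ gg (toC gS) := by
  have h := ((hasQ_z3.pow 2).sub (hasQ_z2.pow 2)).const_mul (1 / 4)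
  have h1 : PowerSeries.C (1 / 4 : ℂ) * (toC z3S ^ 2 - toC z2S ^ 2) = toC gS := by
    rw [← toC_pow, ← toC_pow, ← toC_sub, B4_four_gS, toC_mul, toC_C, ← mul_assoc, ← map_mul]
    norm_num
  rw [h1] at h
  refine h.congr 0 (fun τ _ => ?_)
  unfold gg
  ring

private theorem B4_coeff0 : PowerSeries.constantCoeff gS = 0 := by
  have h := app_gS 0 (by norm_num)
  rw [PowerSeries.coeff_zero_eq_constantCoeff_apply] at h
  simpa using h

private theorem B4_coeff1 : PowerSeries.coeff 1 gS = 1 := by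
  have h := app_gS 1 (by norm_num)
  simpa using h

private theorem B4_toC_cc {a : PowerSeries ℤ} :
    PowerSeries.constantCoeff (toC a) = ((PowerSeries.constantCoeff a : ℤ) : ℂ) := by
  unfold toC
  rw [← PowerSeries.coeff_zero_eq_constantCoeff_apply, ← PowerSeries.coeff_zero_eq_constantCoeff_apply,
    PowerSeries.coeff_map]
  rfl

private theorem B4_shS_cc (a : PowerSeries ℤ) :
    PowerSeries.constantCoeff (shS a) = PowerSeries.coeff 1 a := by
  unfold shS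
  rw [← PowerSeries.coeff_zero_eq_constantCoeff_apply, PowerSeries.coeff_mk]

private theorem B4_ggq : HasQ (fun τ => gg τ / qq τ) (toC (shS gS)) := by
  have h := hasQ_gg.shift (by rw [B4_toC_cc, B4_coeff0]; norm_num)
  rw [← toC_shS] at h
  exact h

private theorem B4_neBot : (comap Complex.im (atTop : Filter ℝ)).NeBot := by
  refine comap_neBot ?_
  intro t ht
  obtain ⟨y, hy⟩ := Filter.nonempty_of_mem ht
  exact ⟨⟨0, y⟩, hy⟩

private theorem B4_bdd {F : ℂ → ℂ} {c : ℂ} (h : Tendsto F (comap Complex.im atTop) (nhds c)) :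
    Bdd F := by
  have h1 : ∀ᶠ τ in comap Complex.im (atTop : Filter ℝ), ‖F τ‖ ≤ ‖c‖ + 1 := by
    have h2 := h.norm
    have h3 : ∀ᶠ x in nhds ‖c‖, x < ‖c‖ + 1 := gt_mem_nhds (by linarith)
    exact (h2.eventually h3).mono (fun τ hτ => hτ.le)
  rw [eventually_comap] at h1
  obtain ⟨Y, hY⟩ := eventually_atTop.mp h1
  exact ⟨Y, ‖c‖ + 1, fun τ hτ => hY τ.im hτ.le τ rfl⟩

private theorem B4_const {F : ℂ → ℂ} (hF : Hol F) (hm : ModN 6 (fun _ => 1) 0 F) {c : ℂ}
    (h : Tendsto F (comap Complex.im atTop) (nhds c)) {τ : ℂ} (hτ : 0 < τ.im) : F τ = c := by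
  have h6 : Squarefree 6 := by
    have h : (6 : ℕ) = 2 * 3 := by norm_num
    rw [h, Nat.squarefree_mul_iff]
    exact ⟨by norm_num, Nat.prime_two.squarefree, Nat.prime_three.squarefree⟩
  obtain ⟨c', hc'⟩ := rigid_mod 6 h6 F hF hm (B4_bdd h)
  have := B4_neBot
  have h1 : Tendsto F (comap Complex.im atTop) (nhds c') := by
    refine (tendsto_const_nhds (x := c')).congr' ?_
    have h2 : ∀ᶠ τ in comap Complex.im (atTop : Filter ℝ), 0 < τ.im := by
      rw [eventually_comap]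
      filter_upwards [eventually_gt_atTop 0] with y hy τ hτ
      rw [hτ]
      exact hy
    exact h2.mono (fun τ hτ => (hc' τ hτ).symm)
  rw [hc' τ hτ]
  exact tendsto_nhds_unique h1 h

theorem gg_pow {τ : ℂ} (hτ : 0 < τ.im) : gg τ ^ 12 = PD τ := by
  have hhol : Hol (fun τ => gg τ ^ 12 * (PD τ)⁻¹) := by
    have h1 : DifferentiableOn ℂ gg {τ | 0 < τ.im} := gg_hol
    have h2 : DifferentiableOn ℂ PD {τ | 0 < τ.im} := PD_hol
    exact (h1.pow 12).mul (h2.inv (fun τ hτ => PD_ne hτ))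
  have hmod : ModN 6 (fun _ => 1) 0 (fun τ => gg τ ^ 12 * (PD τ)⁻¹) := by
    have h := ((gg_mod.pow 12).mul (PD_mod.inv (fun _ _ _ => by norm_num))).congr_chi
      (χ' := fun _ => 1) (fun e _ _ => by norm_num)
    have h0 : ((12 : ℕ) : ℤ) * 2 + -24 = 0 := by norm_num
    rw [h0] at h
    exact h
  have hlim : Tendsto (fun τ => gg τ ^ 12 * (PD τ)⁻¹) (comap Complex.im atTop) (nhds 1) := by
    have h1 := B4_ggq.tendsto
    rw [B4_toC_cc, B4_shS_cc, B4_coeff1] at h1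
    have h2 := (h1.pow 12).mul (PD_tendsto.inv₀ (by norm_num))
    have h3 : ((1 : ℤ) : ℂ) ^ 12 * (1 : ℂ)⁻¹ = 1 := by norm_num
    rw [h3] at h2
    refine h2.congr (fun τ => ?_)
    have h4 := qq_ne τ
    by_cases h5 : PD τ = 0
    · simp [h5]
    · field_simp
  have h := B4_const hhol hmod hlim hτ
  have h5 := PD_ne hτ
  field_simp at h
  exact h

theorem gg_ne {τ : ℂ} (hτ : 0 < τ.im) : gg τ ≠ 0 := by
  intro h
  have h1 := gg_pow hτ
  rw [h, zero_pow (by norm_num)] at h1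
  exact PD_ne hτ h1.symm

theorem D6_ok : D6.OK where
  sqf := by
    change Squarefree 6
    have h : (6 : ℕ) = 2 * 3 := by norm_num
    rw [h, Nat.squarefree_mul_iff]
    exact ⟨by norm_num, Nat.prime_two.squarefree, Nat.prime_three.squarefree⟩
  hc := by
    change 0 < 2
    norm_num
  chi1 := by
    change chi 1 (-1) 1 = 1
    unfold chi
    norm_num
  chi_sq := fun e _ _ => B4_chi_sq 1 (-1) e (by norm_num) (by norm_num)
  zhol := Zf_hol 1 (-1)
  ghol := gg_hol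
  gne := fun τ hτ => gg_ne hτ
  zmod := z2_mod
  gmod := by
    have h : ModN 6 (fun e => chi 1 (-1) e ^ 2) 2 gg :=
      gg_mod.congr_chi (fun e _ _ => (B4_chi_sq 1 (-1) e (by norm_num) (by norm_num)).symm)
    exact h
  zq := hasQ_z2
  gq := hasQ_gg
  z0 := by
    have h := app_z2 0 (by norm_num)
    rw [PowerSeries.coeff_zero_eq_constantCoeff_apply] at h
    exact h
  g0 := B4_coeff0
  g1 := B4_coeff1

theorem z6_sq {τ : ℂ} (hτ : 0 < τ.im) : z6 τ ^ 2 = 9 * z2 τ ^ 2 - 8 * z3 τ ^ 2 := by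
  have hW : (PowerSeries.X : PowerSeries ℤ) ^ 2 ∣
      z6S ^ 2 + PowerSeries.C (-9) * z2S ^ 2 + PowerSeries.C 8 * z3S ^ 2 := by
    refine App.X_pow_dvd (((((app_z6.mono (m' := 2) (by norm_num)).pow 2).add
      (((app_z2.mono (m' := 2) (by norm_num)).pow 2).const_mul (-9))).add
      (((app_z3.mono (m' := 2) (by norm_num)).pow 2).const_mul 8))) ?_
    decide
  set W : PowerSeries ℤ := z6S ^ 2 + PowerSeries.C (-9) * z2S ^ 2 + PowerSeries.C 8 * z3S ^ 2
    with hWdef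
  have hW0 : PowerSeries.constantCoeff W = 0 := by
    rw [← PowerSeries.coeff_zero_eq_constantCoeff_apply]
    exact PowerSeries.X_pow_dvd_iff.mp hW 0 (by norm_num)
  have hW1 : PowerSeries.coeff 1 W = 0 := PowerSeries.X_pow_dvd_iff.mp hW 1 (by norm_num)
  have hq1 : HasQ (fun τ => z6 τ ^ 2 + (-9) * z2 τ ^ 2 + 8 * z3 τ ^ 2) (toC W) := by
    have h := ((hasQ_z6.pow 2).add ((hasQ_z2.pow 2).const_mul (-9))).add
      ((hasQ_z3.pow 2).const_mul 8)
    refine h.of_eq ?_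
    rw [hWdef, toC_add, toC_add, toC_mul, toC_mul, toC_C, toC_C, toC_pow, toC_pow, toC_pow]
    norm_num
  have hq2 : HasQ (fun τ => (z6 τ ^ 2 + (-9) * z2 τ ^ 2 + 8 * z3 τ ^ 2) / qq τ) (toC (shS W)) := by
    have h := hq1.shift (by rw [B4_toC_cc, hW0]; norm_num)
    rw [← toC_shS] at h
    exact h
  have hlim : Tendsto (fun τ => (z6 τ ^ 2 + (-9) * z2 τ ^ 2 + 8 * z3 τ ^ 2) * (gg τ)⁻¹)
      (comap Complex.im atTop) (nhds 0) := by
    have h1 := B4_ggq.tendsto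
    rw [B4_toC_cc, B4_shS_cc, B4_coeff1] at h1
    have h2 := hq2.tendsto
    rw [B4_toC_cc, B4_shS_cc, hW1] at h2
    have h3 := h2.mul (h1.inv₀ (by norm_num))
    have h4 : ((0 : ℤ) : ℂ) * ((1 : ℤ) : ℂ)⁻¹ = 0 := by norm_num
    rw [h4] at h3
    refine h3.congr (fun τ => ?_)
    have h5 := qq_ne τ
    by_cases h6 : gg τ = 0
    · simp [h6]
    · field_simp
  have hhol : Hol (fun τ => (z6 τ ^ 2 + (-9) * z2 τ ^ 2 + 8 * z3 τ ^ 2) * (gg τ)⁻¹) := by
    have h1 : DifferentiableOn ℂ gg {τ | 0 < τ.im} := gg_hol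
    have h3 : DifferentiableOn ℂ z3 {τ | 0 < τ.im} := Zf_hol (-1) 1
    have h2 : DifferentiableOn ℂ z2 {τ | 0 < τ.im} := Zf_hol 1 (-1)
    have h6 : DifferentiableOn ℂ z6 {τ | 0 < τ.im} := Zf_hol (-1) (-1)
    exact ((((h6.pow 2).add ((h2.pow 2).const_mul (-9))).add ((h3.pow 2).const_mul 8))).mul
      (h1.inv (fun τ hτ => gg_ne hτ))
  have hmod : ModN 6 (fun _ => 1) 0
      (fun τ => (z6 τ ^ 2 + (-9) * z2 τ ^ 2 + 8 * z3 τ ^ 2) * (gg τ)⁻¹) := by
    have h := (((((B4_sq_mod (by norm_num) (by norm_num) z6_mod).add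
      ((B4_sq_mod (by norm_num) (by norm_num) z2_mod).const_mul (-9))).add
      ((B4_sq_mod (by norm_num) (by norm_num) z3_mod).const_mul 8))).mul
      (gg_mod.inv (fun _ _ _ => by norm_num))).congr_chi
      (χ' := fun _ => 1) (fun e _ _ => by norm_num)
    have h0 : (2 : ℤ) + -2 = 0 := by norm_num
    rw [h0] at h
    exact h
  have h := B4_const hhol hmod hlim hτ
  have h5 := gg_ne hτ
  rcases mul_eq_zero.mp h with h6 | h6
  · linear_combination h6
  · exact absurd (inv_eq_zero.mp h6) h5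

end Pool.Agent.LibZP46
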