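import Pool.Agent.LibZP46.A7
import Pool.Agent.LibZP46.A4

/-!
ZP46 B5. Derivatives of forms: weight 0, and the second Rankin-Cohen bracket in weight 2.

Plan. Let `W` be in `ALM N e 1`, `c = W 1 0`, `j = jm W τ`; `act W` has the derivative `e / j ^ 2`
(`hasDerivAt_act`), `jm W` has the derivative `c`. Weight 0: differentiate `F (act W τ) = χ e F τ`
(on the open upper half-plane). Weight 2 (`r = 1`): with `κ = c / (2 π i)`, differentiate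
`F (W τ) = (χ e / e) j^2 F τ`: `(DD F) (W τ) = (χ e / e^2) (j^4 DD F + 2 κ j^3 F)`; once more:
`(DD (DD F)) (W τ) = (χ e / e^3) (j^6 DD (DD F) + 6 κ j^5 DD F + 6 κ^2 j^4 F)`. In
`2 F DD (DD F) - 3 (DD F)^2` the terms with `κ` cancel, and the factor is
`(χ e ^ 2 / e ^ 4) j ^ 8`.
-/

namespace Pool.Agent.LibZP46

open Complex

private theorem B5_deriv {F G : ℂ → ℂ} {W : Mat} (hW : 0 < W.det) (hF : Hol F)
    (heq : ∀ τ : ℂ, 0 < τ.im → F (act W τ) = G τ) {τ : ℂ} (hτ : 0 < τ.im) {G' : ℂ} (hG : HasDerivAt G G' τ) :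
    deriv F (act W τ) = jm W τ ^ 2 / (W.det : ℂ) * G' := by
  have hj : jm W τ ≠ 0 := jm_ne hW.ne' hτ
  have hd : (W.det : ℂ) ≠ 0 := by exact_mod_cast hW.ne'
  have h1 : HasDerivAt F (deriv F (act W τ)) (act W τ) := by
    have h2 : DifferentiableAt ℂ F (act W τ) :=
      hF.differentiableAt (isOpen_uhp.mem_nhds (act_im_pos hW hτ))
    exact h2.hasDerivAt
  have h3 : HasDerivAt (fun τ => F (act W τ)) (deriv F (act W τ) * ((W.det : ℂ) / jm W τ ^ 2)) τ :=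
    h1.comp τ (hasDerivAt_act hW.ne' hτ)
  have h4 : HasDerivAt (fun τ => F (act W τ)) G' τ := by
    refine hG.congr_of_eventuallyEq ?_
    filter_upwards [isOpen_uhp.mem_nhds hτ] with σ hσ
    exact heq σ hσ
  have h5 := h3.unique h4
  rw [← h5]
  field_simp

private theorem B5_pi : (2 * (Real.pi : ℂ) * I) ≠ 0 := by
  simp [Real.pi_ne_zero]

theorem DD_mod {N : ℤ} {χ : ℤ → ℤ} {F : ℂ → ℂ} (hF : ModN N χ 0 F) (hol : Hol F) :
    ModN N χ 1 (DD F) := by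
  intro e he heN W hW τ hτ
  have hdet : W.det = e := by rw [hW.hdet, mul_one]
  have hd0 : 0 < W.det := by rw [hdet]; exact he
  have h1 : HasDerivAt F (deriv F τ) τ := (hol.differentiableAt (isOpen_uhp.mem_nhds hτ)).hasDerivAt
  have h2 := B5_deriv hd0 hol (G := fun τ => (χ e : ℂ) * F τ) (fun σ hσ => by
    rw [hF e he heN W hW σ hσ, zpow_zero, mul_one]) hτ (h1.const_mul (χ e : ℂ))
  rw [DD, DD, h2, hdet, zpow_one]
  ring

theorem RC_mod {N : ℤ} {χ : ℤ → ℤ} {F : ℂ → ℂ} (hF : ModN N χ 1 F) (hol : Hol F) :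
    ModN N (fun e => χ e ^ 2) 4 (fun τ => 2 * F τ * DD (DD F) τ - 3 * DD F τ ^ 2) := by
  intro e he heN W hW τ hτ
  have hdet : W.det = e := by rw [hW.hdet, mul_one]
  have hd0 : 0 < W.det := by rw [hdet]; exact he
  have he0 : (e : ℂ) ≠ 0 := by exact_mod_cast he.ne'
  obtain ⟨P, hP⟩ : ∃ P : ℂ, P = 2 * (Real.pi : ℂ) * I := ⟨_, rfl⟩
  have hP0 : P ≠ 0 := by
    rw [hP]
    exact B5_pi
  have hDD : ∀ (G : ℂ → ℂ) (σ : ℂ), DD G σ = deriv G σ / P := by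
    intro G σ
    rw [hP]
    rfl
  have hderiv : ∀ (G : ℂ → ℂ) (σ : ℂ), deriv G σ = P * DD G σ := by
    intro G σ
    rw [hDD]
    field_simp
  obtain ⟨c, hc⟩ : ∃ c : ℂ, c = (W 1 0 : ℂ) := ⟨_, rfl⟩
  have e0 : ∀ σ : ℂ, 0 < σ.im → F (act W σ) = (χ e : ℂ) / e * (jm W σ ^ 2 * F σ) := by
    intro σ hσ
    rw [hF e he heN W hW σ hσ, zpow_one]
    ring
  have hj : ∀ σ : ℂ, HasDerivAt (jm W) c σ := by
    intro σ
    rw [hc]
    exact hasDerivAt_jm W σ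
  have e1 : ∀ σ : ℂ, 0 < σ.im → DD F (act W σ) =
      (χ e : ℂ) / e ^ 2 * (jm W σ ^ 4 * DD F σ + 2 * (c / P) * jm W σ ^ 3 * F σ) := by
    intro σ hσ
    have h1 : HasDerivAt F (deriv F σ) σ := (hol.differentiableAt (isOpen_uhp.mem_nhds hσ)).hasDerivAt
    have h2 : HasDerivAt (fun σ => (χ e : ℂ) / e * (jm W σ ^ 2 * F σ))
        ((χ e : ℂ) / e * (((2 : ℕ) : ℂ) * jm W σ ^ (2 - 1) * c * F σ + jm W σ ^ 2 * deriv F σ)) σ :=
      (((hj σ).pow 2).mul h1).const_mul _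
    have h3 := B5_deriv hd0 hol e0 hσ h2
    rw [hDD, h3, hdet, hderiv F σ]
    push_cast
    field_simp
    ring
  have hol2 : Hol (DD F) := hol.DD
  have e2 : ∀ σ : ℂ, 0 < σ.im → DD (DD F) (act W σ) =
      (χ e : ℂ) / e ^ 3 * (jm W σ ^ 6 * DD (DD F) σ + 6 * (c / P) * jm W σ ^ 5 * DD F σ +
        6 * (c / P) ^ 2 * jm W σ ^ 4 * F σ) := by
    intro σ hσ
    have h1 : HasDerivAt F (deriv F σ) σ := (hol.differentiableAt (isOpen_uhp.mem_nhds hσ)).hasDerivAt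
    have h1' : HasDerivAt (DD F) (deriv (DD F) σ) σ :=
      (hol2.differentiableAt (isOpen_uhp.mem_nhds hσ)).hasDerivAt
    have h2 : HasDerivAt (fun σ => (χ e : ℂ) / e ^ 2 *
        (jm W σ ^ 4 * DD F σ + 2 * (c / P) * jm W σ ^ 3 * F σ))
        ((χ e : ℂ) / e ^ 2 * ((((4 : ℕ) : ℂ) * jm W σ ^ (4 - 1) * c * DD F σ + jm W σ ^ 4 * deriv (DD F) σ) +
          ((2 * (c / P) * (((3 : ℕ) : ℂ) * jm W σ ^ (3 - 1) * c)) * F σ +
            (2 * (c / P) * jm W σ ^ 3) * deriv F σ))) σ :=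
      ((((hj σ).pow 4).mul h1').add ((((hj σ).pow 3).const_mul (2 * (c / P))).mul h1)).const_mul _
    have h3 := B5_deriv hd0 hol2 e1 hσ h2
    rw [hDD, h3, hdet, hderiv F σ, hderiv (DD F) σ]
    push_cast
    field_simp
    ring
  change 2 * F (act W τ) * DD (DD F) (act W τ) - 3 * DD F (act W τ) ^ 2 =
    ((χ e ^ 2 : ℤ) : ℂ) * (jm W τ ^ 2 / (e : ℂ)) ^ (4 : ℤ) * (2 * F τ * DD (DD F) τ - 3 * DD F τ ^ 2)
  have hz : (jm W τ ^ 2 / (e : ℂ)) ^ (4 : ℤ) = (jm W τ ^ 2 / (e : ℂ)) ^ (4 : ℕ) := by norm_cast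
  rw [hz, e0 τ hτ, e1 τ hτ, e2 τ hτ]
  push_cast
  field_simp
  ring

end Pool.Agent.LibZP46
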