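import Pool.Agent.LibZP46.B4
import Pool.Agent.LibZP46.B5
import Pool.Agent.LibZP46.A9

/-!
ZP46 B6. The two differential identities of level 6.

Plan. Write `t = D6.t`, `t τ = z2 τ ^ 2 / gg τ`. `dt_sq`: `F = (DD t) ^ 2 / gg - t (t - 32) (t + 4)` is
holomorphic, of weight `0` (`DD_mod` for `t`, `ModN.pow`, `ModN.inv`), trivial signs. With `A = tS`
(`q t` has the series `A`, `Dat.OK.t_q`): `q DD t` has the series `dS A - A` (derivative of
`t = (q t) / q`: `DD (qq⁻¹ * G) = qq⁻¹ * (DD G - G)`), and `q ^ 3 F` has the series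
`(dS A - A) ^ 2 * ivS (shS gS) - A (A - 32 X) (A + 4 X)`, which is divisible by `X ^ 4`:
`A = 1 + 10 X + 79 X^2 + 352 X^3 + ...` (check `shS gS * A = z2S ^ 2` on the first 4 coefficients,
`shS gS = 1 - 2 X - 3 X^2 + 4 X^3 + ...`; the `App` calculus of T0 with `decide`). So `F = 0`
(`rigid_mod`, `bdd_of_hasQ`, `eq_zero_of_hasQ` with `m = 3`).
`rc_z`: `F = (2 z2 DD (DD z2) - 3 (DD z2) ^ 2) / gg ^ 2 - (8 t + 96)`: weight `4 - 4 = 0`
(`RC_mod`), `q F` has the series `shS (2 z2S dS (dS z2S) - 3 (dS z2S)^2) * ivS (shS gS) ^ 2 -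
(8 A + 96 X)`, divisible by `X ^ 2`. `xS_ode`: translate with `x = 1 / t`, `g = x z^2`
(`Dat.OK.x_q`, `gS_eq`, `HasQ.unique`), `DD x = - DD t / t ^ 2` (for large imaginary part).
-/

namespace Pool.Agent.LibZP46

open Complex Filter

private theorem B6_congr {m : ℕ} {a : PowerSeries ℤ} {l l' : List ℤ} (h : App m a l)
    (hl : ∀ n < m, l.getD n 0 = l'.getD n 0) : App m a l' := fun n hn => (h n hn).trans (hl n hn)

private theorem B6_sub {m : ℕ} {a b : PowerSeries ℤ} {l l' : List ℤ} (ha : App m a l)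
    (hb : App m b l') : App m (a - b) (addL l (l'.map fun x => -1 * x)) := by
  have h := ha.add (hb.const_mul (-1))
  have e : a - b = a + PowerSeries.C (-1) * b := by
    rw [map_neg, map_one]; ring
  rw [e]
  exact h

private theorem B6_X (m : ℕ) : App m PowerSeries.X [0, 1] := by
  intro n _
  rw [PowerSeries.coeff_X]
  rcases n with _ | _ | n
  · simp
  · simp
  · simp

private theorem B6_gS0 : PowerSeries.constantCoeff gS = 0 := D6_ok.g0

private theorem B6_G0 : PowerSeries.constantCoeff (shS gS) = 1 := by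
  have h : PowerSeries.coeff 1 gS = 1 := D6_ok.g1
  rw [← PowerSeries.coeff_zero_eq_constantCoeff_apply, shS, PowerSeries.coeff_mk]
  exact h

private theorem B6_appG : App 4 (shS gS) [1, -2, -3, 4] := by
  intro n hn
  rw [shS, PowerSeries.coeff_mk, app_gS (n + 1) (by omega)]
  rfl

private theorem B6_appI : App 4 (ivS (shS gS)) [1, 2, 7, 16] := by
  set B : PowerSeries ℤ := PowerSeries.mk fun n => ([1, 2, 7, 16] : List ℤ).getD n 0 with hB
  have hBa : App 4 B [1, 2, 7, 16] := fun n _ => by rw [hB, PowerSeries.coeff_mk]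
  have h1 : App 4 (shS gS * B) [1] := B6_congr (B6_appG.mul hBa) (by decide)
  have hone : App 4 (1 : PowerSeries ℤ) [1] := by
    intro n _
    rw [PowerSeries.coeff_one]
    rcases n with _ | n
    · simp
    · simp
  have h2 : PowerSeries.X ^ 4 ∣ shS gS * B - 1 :=
    (B6_sub h1 hone).X_pow_dvd (by decide)
  have h3 : PowerSeries.X ^ 4 ∣ B - ivS (shS gS) := by
    have e : B - ivS (shS gS) = (shS gS * B - 1) * ivS (shS gS) := by
      have := ivS_mul (shS gS) B6_G0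
      linear_combination -B * this
    rw [e]
    exact h2.mul_right _
  intro n hn
  have h4 := PowerSeries.X_pow_dvd_iff.1 h3 n hn
  rw [map_sub, sub_eq_zero] at h4
  rw [← h4]
  exact hBa n hn

private theorem B6_tS : D6.tS = z2S ^ 2 * ivS (shS gS) := rfl

private theorem B6_appA : App 4 D6.tS [1, 10, 79, 352] := by
  rw [B6_tS]
  exact B6_congr (((app_z2.mono (by norm_num)).pow 2).mul B6_appI) (by decide)

private theorem B6_appdA : App 4 (dS D6.tS) [0, 10, 158, 1056] := by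
  intro n hn
  rw [dS, PowerSeries.coeff_mk, B6_appA n hn]
  interval_cases n <;> simp

/-- the series of `q ^ 3 F` -/
private noncomputable def B6_H : PowerSeries ℤ :=
  (dS D6.tS - D6.tS) ^ 2 * ivS (shS gS) - D6.tS * ((D6.tS - PowerSeries.C 32 * PowerSeries.X) *
    (D6.tS + PowerSeries.C 4 * PowerSeries.X))

private theorem B6_Hdvd : PowerSeries.X ^ 4 ∣ B6_H := by
  have h1 := (((B6_sub B6_appdA B6_appA).pow 2).mul B6_appI)
  have h2 := B6_appA.mul ((B6_sub B6_appA ((B6_X 4).const_mul 32)).mul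
    (B6_appA.add ((B6_X 4).const_mul 4)))
  exact (B6_sub h1 h2).X_pow_dvd (by decide)

private noncomputable def B6_R : PowerSeries ℤ :=
  PowerSeries.C 2 * (z2S * dS (dS z2S)) - PowerSeries.C 3 * dS z2S ^ 2

private theorem B6_R0 : PowerSeries.constantCoeff B6_R = 0 := by
  have h : ∀ a : PowerSeries ℤ, PowerSeries.constantCoeff (dS a) = 0 := by
    intro a
    rw [← PowerSeries.coeff_zero_eq_constantCoeff_apply, dS, PowerSeries.coeff_mk]
    simp
  simp only [B6_R, map_sub, map_mul, map_pow, h]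
  ring

private noncomputable def B6_H2 : PowerSeries ℤ :=
  shS B6_R * ivS (shS gS) ^ 2 - (PowerSeries.C 8 * D6.tS + PowerSeries.C 96 * PowerSeries.X)

private theorem B6_H2dvd : PowerSeries.X ^ 2 ∣ B6_H2 := by
  have hz : App 3 z2S [1, 4, 20] := B6_congr (app_z2.mono (by norm_num)) (by decide)
  have hd : App 3 (dS z2S) [0, 4, 40] := by
    intro n hn
    rw [dS, PowerSeries.coeff_mk, hz n hn]
    interval_cases n <;> simp
  have hdd : App 3 (dS (dS z2S)) [0, 4, 80] := by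
    intro n hn
    rw [dS, PowerSeries.coeff_mk, hd n hn]
    interval_cases n <;> simp
  have hR : App 3 B6_R [0, 8, 144] :=
    B6_congr (B6_sub ((hz.mul hdd).const_mul 2) ((hd.pow 2).const_mul 3)) (by decide)
  have hsR : App 2 (shS B6_R) [8, 144] := by
    intro n hn
    rw [shS, PowerSeries.coeff_mk, hR (n + 1) (by omega)]
    rfl
  have h1 := hsR.mul ((B6_appI.mono (show 2 ≤ 4 by norm_num)).pow 2)
  have h2 := ((B6_appA.mono (show 2 ≤ 4 by norm_num)).const_mul 8).add ((B6_X 2).const_mul 96)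
  exact (B6_sub h1 h2).X_pow_dvd (by decide)

private theorem B6_gq : HasQ (fun τ => (gg τ / qq τ)⁻¹) (toC (ivS (shS gS))) := by
  have h : HasQ (fun τ => gg τ / qq τ) (toC (shS gS)) := by
    rw [toC_shS]
    refine hasQ_gg.shift ?_
    have := B6_gS0
    rw [toC, ← PowerSeries.coeff_zero_eq_constantCoeff_apply, PowerSeries.coeff_map,
      PowerSeries.coeff_zero_eq_constantCoeff_apply, this, map_zero]
  exact h.ivS B6_G0

private theorem B6_thol : Hol D6.t := D6_ok.t_hol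

private theorem B6_Dt {τ : ℂ} (hτ : 0 < τ.im) :
    DD (fun τ => qq τ * D6.t τ) τ = qq τ * D6.t τ + qq τ * DD D6.t τ := by
  have hd : DifferentiableAt ℂ D6.t τ :=
    (B6_thol τ hτ).differentiableAt (isOpen_uhp.mem_nhds hτ)
  have h := (hasDerivAt_qq τ).mul hd.hasDerivAt
  have h2 : deriv (fun τ => qq τ * D6.t τ) τ =
      2 * (Real.pi : ℂ) * I * qq τ * D6.t τ + qq τ * deriv D6.t τ := h.deriv
  have hpi : (2 * (Real.pi : ℂ) * I) ≠ 0 := by
    simp [Real.pi_ne_zero, I_ne_zero]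
  rw [DD, DD, h2]
  field_simp

private theorem B6_qDt : HasQ (fun τ => qq τ * DD D6.t τ) (toC (dS D6.tS - D6.tS)) := by
  have ht := D6_ok.t_q
  have h := ht.DD.sub ht
  rw [toC_sub, toC_dS]
  refine h.congr 0 fun τ hτ => ?_
  rw [B6_Dt hτ]
  ring

private theorem B6_J {e : ℤ} (he : 0 < e) {W : Mat} (hW : ALM 6 e 1 W) {τ : ℂ} (hτ : 0 < τ.im) :
    jm W τ ^ 2 / (e : ℂ) ≠ 0 := by
  have h1 : jm W τ ≠ 0 := jm_ne (by rw [hW.hdet]; omega) hτ
  have h2 : (e : ℂ) ≠ 0 := by exact_mod_cast he.ne'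
  exact div_ne_zero (pow_ne_zero 2 h1) h2

private theorem B6_tmod : ModN 6 (fun _ => 1) 0 D6.t := D6_ok.t_mod

private theorem B6_F {τ : ℂ} (hτ : 0 < τ.im) :
    DD D6.t τ ^ 2 / gg τ - D6.t τ * ((D6.t τ - 32) * (D6.t τ + 4)) = 0 := by
  set F : ℂ → ℂ := fun τ => DD D6.t τ ^ 2 / gg τ - D6.t τ * ((D6.t τ - 32) * (D6.t τ + 4)) with hF
  have hol : Hol F := by
    have h1 : DifferentiableOn ℂ (DD D6.t) {τ | 0 < τ.im} := B6_thol.DD
    have h2 : DifferentiableOn ℂ gg {τ | 0 < τ.im} := gg_hol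
    have h3 : DifferentiableOn ℂ D6.t {τ | 0 < τ.im} := B6_thol
    exact ((h1.pow 2).div h2 fun τ hτ => gg_ne hτ).sub
      (h3.mul ((h3.sub_const 32).mul (h3.add_const 4)))
  have hmod : ModN ((6 : ℕ) : ℤ) (fun _ => 1) 0 F := by
    intro e he0 he W hW τ hτ
    have hJ := B6_J he0 hW hτ
    have a1 := DD_mod B6_tmod B6_thol e he0 he W hW τ hτ
    have a2 := gg_mod e he0 he W hW τ hτ
    have a3 := B6_tmod e he0 he W hW τ hτ
    simp only [Int.cast_one, one_mul, zpow_one, zpow_zero] at a1 a2 a3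
    have a2' : gg (act W τ) = (jm W τ ^ 2 / (e : ℂ)) ^ 2 * gg τ := by
      rw [a2]; norm_cast
    have hg := gg_ne hτ
    simp only [hF]
    rw [a1, a2', a3, mul_pow, mul_div_mul_left _ _ (pow_ne_zero 2 hJ)]
    simp
  have hq : HasQ (fun τ => qq τ ^ 3 * F τ) (toC B6_H) := by
    have ht := D6_ok.t_q
    have h := ((B6_qDt.pow 2).mul B6_gq).sub (ht.mul ((ht.sub (hasQ_qq.const_mul 32)).mul
      (ht.add (hasQ_qq.const_mul 4))))
    refine (h.congr 0 fun τ hτ => ?_).of_eq ?_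
    · have hg := gg_ne hτ
      have hqn := qq_ne τ
      simp only [hF]
      field_simp
    · simp only [B6_H, toC_sub, toC_mul, toC_pow, toC_add, toC_X, toC_C]
      norm_num
  obtain ⟨c, hc⟩ := rigid_mod 6 D6_ok.sqf F hol hmod (bdd_of_hasQ 3 hq (by
    have : PowerSeries.X ^ 3 ∣ B6_H := (pow_dvd_pow _ (by norm_num)).trans B6_Hdvd
    rw [← toC_X, ← toC_pow]
    exact map_dvd (PowerSeries.map (Int.castRingHom ℂ)) this))
  have hc0 := eq_zero_of_hasQ 3 hq (by
    rw [← toC_X, ← toC_pow]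
    exact map_dvd (PowerSeries.map (Int.castRingHom ℂ)) B6_Hdvd) c hc
  have := hc τ hτ
  rw [hc0] at this
  exact this

private theorem B6_H0 : B6_H = 0 := by
  have ht := D6_ok.t_q
  have h := ((B6_qDt.pow 2).mul B6_gq).sub (ht.mul ((ht.sub (hasQ_qq.const_mul 32)).mul
    (ht.add (hasQ_qq.const_mul 4))))
  have hq : HasQ (fun _ => 0) (toC B6_H) := by
    refine (h.congr 0 fun τ hτ => ?_).of_eq ?_
    · have hg := gg_ne hτ
      have hqn := qq_ne τ
      have e := B6_F hτ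
      have e2 : (qq τ * DD D6.t τ) ^ 2 * (gg τ / qq τ)⁻¹ - qq τ * D6.t τ *
          ((qq τ * D6.t τ - 32 * qq τ) * (qq τ * D6.t τ + 4 * qq τ)) =
          qq τ ^ 3 * (DD D6.t τ ^ 2 / gg τ - D6.t τ * ((D6.t τ - 32) * (D6.t τ + 4))) := by
        field_simp
      rw [e2, e, mul_zero]
    · simp only [B6_H, toC_sub, toC_mul, toC_pow, toC_add, toC_X, toC_C]
      norm_num
  have h0 : HasQ (fun _ => (0 : ℂ)) (toC 0) := by
    have := hasQ_const 0
    rw [map_zero] at this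
    have e : toC 0 = 0 := by simp [toC]
    rw [e]
    exact this
  exact toC_injective (hq.unique h0)

private theorem B6_z2hol : Hol z2 := D6_ok.zhol

private theorem B6_RCq : HasQ (fun τ => 2 * z2 τ * DD (DD z2) τ - 3 * DD z2 τ ^ 2) (toC B6_R) := by
  have h1 := ((hasQ_z2.mul hasQ_z2.DD.DD).const_mul 2).sub ((hasQ_z2.DD.pow 2).const_mul 3)
  refine (h1.congr 0 fun τ _ => by ring).of_eq ?_
  simp only [B6_R, toC_sub, toC_mul, toC_pow, toC_C, toC_dS]
  norm_num

private theorem B6_qF2 : HasQ (fun τ => qq τ ^ 1 *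
    ((2 * z2 τ * DD (DD z2) τ - 3 * DD z2 τ ^ 2) / gg τ ^ 2 - (8 * D6.t τ + 96)))
    (toC B6_H2) := by
  have ht := D6_ok.t_q
  have hs : HasQ (fun τ => (2 * z2 τ * DD (DD z2) τ - 3 * DD z2 τ ^ 2) / qq τ)
      (toC (shS B6_R)) := by
    rw [toC_shS]
    refine B6_RCq.shift ?_
    rw [toC, ← PowerSeries.coeff_zero_eq_constantCoeff_apply, PowerSeries.coeff_map,
      PowerSeries.coeff_zero_eq_constantCoeff_apply, B6_R0, map_zero]
  have h := (hs.mul (B6_gq.pow 2)).sub ((ht.const_mul 8).add (hasQ_qq.const_mul 96))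
  refine (h.congr 0 fun τ hτ => ?_).of_eq ?_
  · have hg := gg_ne hτ
    have hqn := qq_ne τ
    field_simp
  · simp only [B6_H2, toC_sub, toC_mul, toC_pow, toC_add, toC_X, toC_C]
    norm_num

private theorem B6_F2 {τ : ℂ} (hτ : 0 < τ.im) :
    (2 * z2 τ * DD (DD z2) τ - 3 * DD z2 τ ^ 2) / gg τ ^ 2 - (8 * D6.t τ + 96) = 0 := by
  set F : ℂ → ℂ := fun τ =>
    (2 * z2 τ * DD (DD z2) τ - 3 * DD z2 τ ^ 2) / gg τ ^ 2 - (8 * D6.t τ + 96) with hF
  have hol : Hol F := by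
    have h0 : DifferentiableOn ℂ z2 {τ | 0 < τ.im} := B6_z2hol
    have h1 : DifferentiableOn ℂ (DD z2) {τ | 0 < τ.im} := B6_z2hol.DD
    have h2 : DifferentiableOn ℂ (DD (DD z2)) {τ | 0 < τ.im} := B6_z2hol.DD.DD
    have h3 : DifferentiableOn ℂ gg {τ | 0 < τ.im} := gg_hol
    have h4 : DifferentiableOn ℂ D6.t {τ | 0 < τ.im} := B6_thol
    exact (((((h0.const_mul 2).mul h2).sub ((h1.pow 2).const_mul 3)).div (h3.pow 2)
      fun τ hτ => pow_ne_zero 2 (gg_ne hτ))).sub ((h4.const_mul 8).add_const 96)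
  have hmod : ModN ((6 : ℕ) : ℤ) (fun _ => 1) 0 F := by
    intro e he0 he W hW τ hτ
    have hJ := B6_J he0 hW hτ
    have a1 := RC_mod z2_mod B6_z2hol e he0 he W hW τ hτ
    have a2 := gg_mod e he0 he W hW τ hτ
    have a3 := B6_tmod e he0 he W hW τ hτ
    have hχ : chi 1 (-1) e ^ 2 = 1 := D6_ok.chi_sq e he0 he
    simp only [hχ] at a1
    simp only [Int.cast_one, one_mul, zpow_zero] at a1 a2 a3
    have a1' : 2 * z2 (act W τ) * DD (DD z2) (act W τ) - 3 * DD z2 (act W τ) ^ 2 =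
        (jm W τ ^ 2 / (e : ℂ)) ^ 4 * (2 * z2 τ * DD (DD z2) τ - 3 * DD z2 τ ^ 2) := by
      rw [a1]; norm_cast
    have a2' : gg (act W τ) = (jm W τ ^ 2 / (e : ℂ)) ^ 2 * gg τ := by
      rw [a2]; norm_cast
    have hg := gg_ne hτ
    simp only [hF]
    rw [a1', a2', a3, mul_pow, ← pow_mul, mul_div_mul_left _ _ (pow_ne_zero _ hJ)]
    simp
  obtain ⟨c, hc⟩ := rigid_mod 6 D6_ok.sqf F hol hmod (bdd_of_hasQ 1 B6_qF2 (by
    have : PowerSeries.X ^ 1 ∣ B6_H2 := (pow_dvd_pow _ (by norm_num)).trans B6_H2dvd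
    rw [← toC_X, ← toC_pow]
    exact map_dvd (PowerSeries.map (Int.castRingHom ℂ)) this))
  have hc0 := eq_zero_of_hasQ 1 B6_qF2 (by
    rw [← toC_X, ← toC_pow]
    exact map_dvd (PowerSeries.map (Int.castRingHom ℂ)) B6_H2dvd) c hc
  have := hc τ hτ
  rw [hc0] at this
  exact this

private theorem B6_H20 : B6_H2 = 0 := by
  have hq : HasQ (fun _ => 0) (toC B6_H2) := by
    refine B6_qF2.congr 0 fun τ hτ => ?_
    rw [B6_F2 hτ, mul_zero]
  have h0 : HasQ (fun _ => (0 : ℂ)) (toC 0) := by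
    have := hasQ_const 0
    rw [map_zero] at this
    have e : toC 0 = 0 := by simp [toC]
    rw [e]
    exact this
  exact toC_injective (hq.unique h0)

theorem dt_sq {τ : ℂ} (hτ : 0 < τ.im) :
    DD D6.t τ ^ 2 = D6.t τ * (D6.t τ - 32) * (D6.t τ + 4) * gg τ := by
  have h := sub_eq_zero.1 (B6_F hτ)
  rw [div_eq_iff (gg_ne hτ)] at h
  rw [h]
  ring

theorem rc_z {τ : ℂ} (hτ : 0 < τ.im) :
    2 * z2 τ * DD (DD z2) τ - 3 * DD z2 τ ^ 2 = (8 * D6.t τ + 96) * gg τ ^ 2 := by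
  have h := sub_eq_zero.1 (B6_F2 hτ)
  rwa [div_eq_iff (pow_ne_zero 2 (gg_ne hτ))] at h

private theorem B6_xA : D6.xS * D6.tS = PowerSeries.X := D6_ok.xS_mul_tS

private theorem B6_gx : gS = D6.xS * z2S ^ 2 := D6_ok.gS_eq

private theorem B6_XG : PowerSeries.X * shS gS = gS := X_mul_shS gS B6_gS0

private theorem B6_x0 : D6.xS ≠ 0 := by
  intro h
  have := D6_ok.xS1
  rw [h] at this
  simp at this

private theorem B6_dX : dS (PowerSeries.X : PowerSeries ℤ) = PowerSeries.X := by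
  ext n
  rw [dS, PowerSeries.coeff_mk, PowerSeries.coeff_X]
  split_ifs with h
  · rw [h]; simp
  · simp

/-- The formal version of `dt_sq`. -/
theorem xS_ode1 : dS D6.xS ^ 2 =
    D6.xS ^ 2 * (1 - 28 * D6.xS - 128 * D6.xS ^ 2) * z2S ^ 2 := by
  have hH := B6_H0
  rw [B6_H] at hH
  have hG := ivS_mul (shS gS) B6_G0
  have hd : dS D6.xS * D6.tS + D6.xS * dS D6.tS = PowerSeries.X := by
    rw [← dS_mul, B6_xA, B6_dX]
  have e32 : (PowerSeries.C (32 : ℤ)) = 32 := map_ofNat _ 32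
  have e4 : (PowerSeries.C (4 : ℤ)) = 4 := map_ofNat _ 4
  rw [e32, e4] at hH
  have hxA := B6_xA
  have hXG : PowerSeries.X * shS gS = D6.xS * z2S ^ 2 := by rw [B6_XG, B6_gx]
  have hX : (PowerSeries.X : PowerSeries ℤ) ≠ 0 := PowerSeries.X_ne_zero
  set x := D6.xS
  set A := D6.tS
  set G := shS gS
  set iG := ivS G
  set B := dS A
  set y := dS x
  set X : PowerSeries ℤ := PowerSeries.X
  have h1 : (B - A) ^ 2 = G * (A * ((A - 32 * X) * (A + 4 * X))) := by
    linear_combination G * hH - (B - A) ^ 2 * hG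
  have h2 : x * (B - A) = -(A * y) := by
    linear_combination hd - hxA
  have h3 : A ^ 2 * y ^ 2 = x ^ 2 * (G * (A * ((A - 32 * X) * (A + 4 * X)))) := by
    rw [← h1]
    linear_combination (-(x * (B - A)) + A * y) * h2
  have h4 : X ^ 2 * x * y ^ 2 = X ^ 2 * x * (x ^ 2 * (1 - 28 * x - 128 * x ^ 2) * z2S ^ 2) := by
    have h5 : x * (A - 32 * X) = X * (1 - 32 * x) := by linear_combination hxA
    have h6 : x * (A + 4 * X) = X * (1 + 4 * x) := by linear_combination hxA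
    calc X ^ 2 * x * y ^ 2 = x ^ 3 * (A ^ 2 * y ^ 2) := by rw [← hxA]; ring
      _ = x ^ 3 * (x ^ 2 * (G * (A * ((A - 32 * X) * (A + 4 * X))))) := by rw [h3]
      _ = x ^ 2 * (x * A) * (x * (A - 32 * X)) * (x * (A + 4 * X)) * G := by ring
      _ = x ^ 2 * X * (X * (1 - 32 * x)) * (X * (1 + 4 * x)) * G := by rw [hxA, h5, h6]
      _ = x ^ 2 * X ^ 2 * (1 - 32 * x) * (1 + 4 * x) * (X * G) := by ring
      _ = _ := by rw [hXG]; ring
  exact mul_left_cancel₀ (mul_ne_zero (pow_ne_zero 2 hX) B6_x0) h4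

/-- The formal version of `rc_z`. -/
theorem xS_ode2 : 2 * z2S * dS (dS z2S) - 3 * dS z2S ^ 2 =
    (8 * D6.xS + 96 * D6.xS ^ 2) * z2S ^ 4 := by
  have hH := B6_H20
  rw [B6_H2] at hH
  have hG := ivS_mul (shS gS) B6_G0
  have hR : PowerSeries.X * shS B6_R = B6_R := X_mul_shS _ B6_R0
  have e8 : (PowerSeries.C (8 : ℤ)) = 8 := map_ofNat _ 8
  have e96 : (PowerSeries.C (96 : ℤ)) = 96 := map_ofNat _ 96
  have e2 : (PowerSeries.C (2 : ℤ)) = 2 := map_ofNat _ 2
  have e3 : (PowerSeries.C (3 : ℤ)) = 3 := map_ofNat _ 3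
  have hRR : B6_R = 2 * z2S * dS (dS z2S) - 3 * dS z2S ^ 2 := by
    rw [B6_R, e2, e3]; ring
  rw [e8, e96] at hH
  have hxA := B6_xA
  have hXG : PowerSeries.X * shS gS = D6.xS * z2S ^ 2 := by rw [B6_XG, B6_gx]
  have hX : (PowerSeries.X : PowerSeries ℤ) ≠ 0 := PowerSeries.X_ne_zero
  rw [← hRR]
  set x := D6.xS
  set A := D6.tS
  set G := shS gS
  set iG := ivS G
  set X : PowerSeries ℤ := PowerSeries.X
  have h1 : shS B6_R = G ^ 2 * (8 * A + 96 * X) := by
    linear_combination G ^ 2 * hH - shS B6_R * (G * iG + 1) * hG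
  apply mul_left_cancel₀ hX
  calc X * B6_R = (X * G) ^ 2 * (8 * A + 96 * X) := by rw [← hR, h1]; ring
    _ = x * z2S ^ 4 * (8 * (x * A) + 96 * (x * X)) := by rw [hXG]; ring
    _ = _ := by rw [hxA]; ring

end Pool.Agent.LibZP46
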