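import Pool.Agent.LibZP46.Defs

/-!
ZP46 C2. Uniqueness of the solution of the differential equation: from the two differential
identities for `z` and `x` one gets `z = ∑ u n x ^ n`.

Plan. Work in `PowerSeries ℚ` (map the identities; divisibility by `X ^ (m + 1)` of an integral
series can be tested over `ℚ`). `dS` is a derivation (`X * d/dX`). Put `q = aeval x Q`,
`r = aeval x R`. From `(x')² = x² q z²` (dash = `dS`): `x' = x φ` with `φ² = q z²`, `φ = 1 + ...`
(`X ∣ x`, `x = X * unit`, so `φ = x' / x` is a unit with `φ² = q z²`). Define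
`θ a = φ⁻¹ * dS a`: a derivation with `θ x = x`, `θ (aeval x P) = aeval x (X P')`. Then
`z' = φ θ z`, `z'' = φ² θ θ z + φ (θ φ) (θ z)` and `2 φ θ φ = θ (φ²) = (θ q) z² + 2 q z θ z`, so the
second identity divided by `z²` becomes
`2 q z θθz + (θ q) z θ z - q (θ z)² = r z²`. Apply `θ` and divide by `z`:
`2 q θθθ z + 3 (θ q) θθ z + (θθ q) θ z = (θ r) z + 2 r θ z` (all terms computed with `θ` as a
derivation; `ring`-type computation, `z` is a non-zero-divisor).
The truncated sum `S = ∑_{n ≤ m} u n x ^ n` satisfies the same equation up to a multiple of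
`X ^ (m + 1)`: `θ (x ^ n) = n x ^ n`, and the hypothesis `hu` says this for the coefficients.
Let `d = z - S`, `X ∣ d` (constant coefficients). If `X ^ k ∣ d`, `1 ≤ k ≤ m`, then all terms except
`2 q θθθ d` are divisible by `X ^ (k + 1)` (`θ q`, `θθ q`, `r`, `θ r` are divisible by `X`), and the
coefficient of `X ^ k` in `2 q θθθ d` is `2 k ^ 3 d_k`; so `d_k = 0`, `X ^ (k + 1) ∣ d`.
-/

namespace Pool.Agent.LibZP46

open Polynomial

private theorem c2_dS_eq {R : Type*} [CommRing R] (a : PowerSeries R) :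
    dS a = PowerSeries.X * PowerSeries.derivative R a := by
  ext n
  cases n with
  | zero => simp [dS]
  | succ n =>
    rw [PowerSeries.coeff_succ_X_mul, PowerSeries.coeff_derivative]
    simp [dS]
    ring

private theorem c2_dS_map {R S : Type*} [CommRing R] [CommRing S] (f : R →+* S)
    (a : PowerSeries R) : PowerSeries.map f (dS a) = dS (PowerSeries.map f a) := by
  ext n
  simp [dS]

private theorem c2_dS_dvd {R : Type*} [CommRing R] (k : ℕ) (a : PowerSeries R)
    (h : PowerSeries.X ^ k ∣ a) : PowerSeries.X ^ k ∣ dS a := by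
  rw [PowerSeries.X_pow_dvd_iff] at *
  intro m hm
  simp [dS, h m hm]

private theorem c2_dS_sub_dvd {R : Type*} [CommRing R] (k : ℕ) (a : PowerSeries R)
    (h : PowerSeries.X ^ k ∣ a) :
    PowerSeries.X ^ (k + 1) ∣ dS a - PowerSeries.C (k : R) * a := by
  rw [PowerSeries.X_pow_dvd_iff] at *
  intro m hm
  rw [map_sub, PowerSeries.coeff_C_mul]
  rcases Nat.lt_or_ge m k with h1 | h1
  · simp [dS, h m h1]
  · have h2 : m = k := by omega
    subst h2
    simp [dS]

private theorem c2_dS_coe {R : Type*} [CommRing R] (P : R[X]) :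
    dS (P : PowerSeries R) = ((X * derivative P : R[X]) : PowerSeries R) := by
  rw [c2_dS_eq, PowerSeries.derivative_coe]
  simp

private theorem c2_alg {A : Type*} [CommRing A] [IsDomain A] (T : A →+ A)
    (hL : ∀ a b, T (a * b) = a * T b + b * T a) (φ z q r : A) (hz : z ≠ 0) (hφ : φ ^ 2 = q * z ^ 2)
    (h2 : 2 * z * (φ * T (φ * T z)) - 3 * (φ * T z) ^ 2 = r * z ^ 4) :
    2 * q * T (T (T z)) + 3 * T q * T (T z) + T (T q) * T z = T r * z + 2 * r * T z := by
  have e0 : 2 * φ * T φ = T q * z ^ 2 + 2 * q * z * T z := by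
    have h := congrArg T hφ
    simp only [pow_two, hL] at h
    linear_combination h
  simp only [hL] at h2
  have e1 : z ^ 2 * (2 * q * z * T (T z) + z * T q * T z - q * (T z) ^ 2 - r * z ^ 2) = 0 := by
    linear_combination h2 - 2 * z * T (T z) * hφ - z * T z * e0 + 3 * (T z) ^ 2 * hφ
  have e2 : 2 * (q * (z * T (T z))) + z * (T q * T z) - q * (T z * T z) = r * (z * z) := by
    have h := (mul_eq_zero.1 e1).resolve_left (pow_ne_zero 2 hz)
    linear_combination h
  have e3 := congrArg T e2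
  have two : ∀ a : A, T (2 * a) = 2 * T a := by
    intro a
    rw [two_mul, map_add, two_mul]
  rw [map_sub, map_add, two] at e3
  simp only [hL] at e3
  have e4 : z * (2 * q * T (T (T z)) + 3 * T q * T (T z) + T (T q) * T z
      - (T r * z + 2 * r * T z)) = 0 := by
    linear_combination e3
  exact sub_eq_zero.1 ((mul_eq_zero.1 e4).resolve_left hz)

/-- The operator on polynomials. -/
private noncomputable def c2_L (Q R P : ℤ[X]) : ℤ[X] :=
  2 * Q * (X * derivative (X * derivative (X * derivative P))) +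
    3 * (X * derivative Q) * (X * derivative (X * derivative P)) +
    (X * derivative (X * derivative Q)) * (X * derivative P) -
    (X * derivative R) * P - 2 * R * (X * derivative P)

private theorem c2_dS_add {R : Type*} [CommRing R] (a b : PowerSeries R) :
    dS (a - b) = dS a - dS b := by
  rw [c2_dS_eq, c2_dS_eq, c2_dS_eq, map_sub]
  ring

private theorem c2_poly (Q R : ℤ[X]) (u : ℕ → ℤ)
    (hu : 2 * (Q : PowerSeries ℤ) * dS (dS (dS (PowerSeries.mk u))) +
        3 * dS (Q : PowerSeries ℤ) * dS (dS (PowerSeries.mk u)) +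
        dS (dS (Q : PowerSeries ℤ)) * dS (PowerSeries.mk u) =
      dS (R : PowerSeries ℤ) * PowerSeries.mk u + 2 * (R : PowerSeries ℤ) * dS (PowerSeries.mk u))
    (m : ℕ) : X ^ (m + 1) ∣ c2_L Q R (∑ n ∈ Finset.range (m + 1), C (u n) * X ^ n) := by
  set P : ℤ[X] := ∑ n ∈ Finset.range (m + 1), C (u n) * X ^ n with hP
  have hcoef : ∀ k, k < m + 1 → P.coeff k = u k := by
    intro k hk
    rw [hP, finsetSum_coeff]
    simp only [coeff_C_mul, coeff_X_pow]
    rw [Finset.sum_eq_single k]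
    · simp
    · intro b _ hb
      simp [hb.symm]
    · intro h
      exact absurd (Finset.mem_range.2 hk) h
  have h0 : PowerSeries.X ^ (m + 1) ∣ PowerSeries.mk u - (P : PowerSeries ℤ) := by
    rw [PowerSeries.X_pow_dvd_iff]
    intro k hk
    simp [hcoef k hk]
  have h1 := c2_dS_dvd _ _ h0
  have h2 := c2_dS_dvd _ _ h1
  have h3 := c2_dS_dvd _ _ h2
  rw [c2_dS_add] at h1
  rw [c2_dS_add, c2_dS_add] at h2
  rw [c2_dS_add, c2_dS_add, c2_dS_add] at h3
  have key : ((c2_L Q R P : ℤ[X]) : PowerSeries ℤ) =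
      2 * (Q : PowerSeries ℤ) * dS (dS (dS (P : PowerSeries ℤ))) +
        3 * dS (Q : PowerSeries ℤ) * dS (dS (P : PowerSeries ℤ)) +
        dS (dS (Q : PowerSeries ℤ)) * dS (P : PowerSeries ℤ) -
      dS (R : PowerSeries ℤ) * (P : PowerSeries ℤ) -
      2 * (R : PowerSeries ℤ) * dS (P : PowerSeries ℤ) := by
    have t2 : ((2 : ℤ[X]) : PowerSeries ℤ) = 2 :=
      map_ofNat (Polynomial.coeToPowerSeries.ringHom (R := ℤ)) 2
    have t3 : ((3 : ℤ[X]) : PowerSeries ℤ) = 3 :=
      map_ofNat (Polynomial.coeToPowerSeries.ringHom (R := ℤ)) 3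
    rw [c2_dS_coe P, c2_dS_coe, c2_dS_coe, c2_dS_coe Q, c2_dS_coe, c2_dS_coe R, c2_L]
    push_cast
    rw [t2, t3]
  have h4 : PowerSeries.X ^ (m + 1) ∣ ((c2_L Q R P : ℤ[X]) : PowerSeries ℤ) := by
    have e : ((c2_L Q R P : ℤ[X]) : PowerSeries ℤ) =
        -(2 * (Q : PowerSeries ℤ) * (dS (dS (dS (PowerSeries.mk u))) -
          dS (dS (dS (P : PowerSeries ℤ)))) +
        3 * dS (Q : PowerSeries ℤ) * (dS (dS (PowerSeries.mk u)) - dS (dS (P : PowerSeries ℤ))) +
        dS (dS (Q : PowerSeries ℤ)) * (dS (PowerSeries.mk u) - dS (P : PowerSeries ℤ)) -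
        dS (R : PowerSeries ℤ) * (PowerSeries.mk u - (P : PowerSeries ℤ)) -
        2 * (R : PowerSeries ℤ) * (dS (PowerSeries.mk u) - dS (P : PowerSeries ℤ))) := by
      rw [key]
      linear_combination hu
    rw [e]
    refine (dvd_neg.2 ?_)
    refine dvd_sub (dvd_sub (dvd_add (dvd_add ?_ ?_) ?_) ?_) ?_
    · exact h3.mul_left _
    · exact h2.mul_left _
    · exact h1.mul_left _
    · exact h0.mul_left _
    · exact h1.mul_left _
  rw [PowerSeries.X_pow_dvd_iff] at h4
  rw [Polynomial.X_pow_dvd_iff]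
  intro d hd
  have := h4 d hd
  rwa [Polynomial.coeff_coe] at this

private theorem c2_map_aeval {A B : Type*} [CommRing A] [CommRing B] [Algebra ℤ A] [Algebra ℤ B]
    (f : A →+* B) (x : A) (P : ℤ[X]) : f (aeval x P) = aeval (f x) P := by
  have h := Polynomial.hom_eval₂ P (algebraMap ℤ A) f x
  rw [aeval_def, aeval_def, h]
  have e : f.comp (algebraMap ℤ A) = algebraMap ℤ B := RingHom.ext_int _ _
  rw [e]

private theorem c2_aeval {A : Type*} [CommRing A] [Algebra ℤ A] (T : A →+ A)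
    (hL : ∀ a b, T (a * b) = a * T b + b * T a) (x : A) (hx : T x = x)
    (P : ℤ[X]) : T (aeval x P) = aeval x (X * derivative P) := by
  have h1 : T 1 = 0 := by
    have h := hL 1 1
    rw [mul_one, one_mul] at h
    linear_combination -h
  have hp : ∀ n : ℕ, T (x ^ n) = (n : A) * x ^ n := by
    intro n
    induction n with
    | zero => simp [h1]
    | succ n ih =>
      rw [pow_succ, hL, ih, hx]
      push_cast
      ring
  have hc : ∀ a : ℤ, T (algebraMap ℤ A a) = 0 := by
    intro a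
    rw [eq_intCast, ← zsmul_one a, map_zsmul, h1, smul_zero]
  induction P using Polynomial.induction_on' with
  | add p q hp hq =>
    rw [map_add, map_add, hp, hq, derivative_add, mul_add, map_add]
  | monomial n a =>
    rw [aeval_monomial, hL, hp, hc, derivative_monomial, X_mul_monomial, aeval_monomial]
    rcases n with _ | n
    · simp
    · rw [Nat.add_sub_cancel, map_mul, map_natCast]
      ring

private theorem c2_L_aeval {A : Type*} [CommRing A] [Algebra ℤ A] (T : A →+ A)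
    (hL : ∀ a b, T (a * b) = a * T b + b * T a) (x : A) (hx : T x = x)
    (Q R P : ℤ[X]) :
    2 * aeval x Q * T (T (T (aeval x P))) + 3 * T (aeval x Q) * T (T (aeval x P)) +
      T (T (aeval x Q)) * T (aeval x P) - T (aeval x R) * aeval x P
      - 2 * aeval x R * T (aeval x P) = aeval x (c2_L Q R P) := by
  rw [c2_aeval T hL x hx P, c2_aeval T hL x hx, c2_aeval T hL x hx, c2_aeval T hL x hx Q,
    c2_aeval T hL x hx, c2_aeval T hL x hx R, c2_L]
  simp only [map_add, map_sub, map_mul, map_ofNat]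

private theorem c2_step (T : PowerSeries ℚ →+ PowerSeries ℚ) (ψ : PowerSeries ℚ)
    (hψ : PowerSeries.constantCoeff ψ = 1) (hT : ∀ a, T a = ψ * dS a) (k : ℕ)
    (a : PowerSeries ℚ) (h : PowerSeries.X ^ k ∣ a) :
    PowerSeries.X ^ k ∣ T a ∧ PowerSeries.X ^ (k + 1) ∣ T a - PowerSeries.C (k : ℚ) * a := by
  have h1 := c2_dS_dvd k a h
  have h2 := c2_dS_sub_dvd k a h
  refine ⟨?_, ?_⟩
  · rw [hT]
    exact h1.mul_left _
  · have e : T a - PowerSeries.C (k : ℚ) * a =
        (ψ - 1) * dS a + (dS a - PowerSeries.C (k : ℚ) * a) := by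
      rw [hT]
      ring
    rw [e]
    refine dvd_add ?_ h2
    rw [pow_succ']
    refine mul_dvd_mul ?_ h1
    rw [PowerSeries.X_dvd_iff]
    simp [hψ]

private theorem c2_induct (T : PowerSeries ℚ →+ PowerSeries ℚ) (ψ : PowerSeries ℚ)
    (hψ : PowerSeries.constantCoeff ψ = 1) (hT : ∀ a, T a = ψ * dS a)
    (q r d : PowerSeries ℚ) (hq : PowerSeries.constantCoeff q = 1)
    (hr : PowerSeries.constantCoeff r = 0) (m : ℕ) (hd0 : PowerSeries.constantCoeff d = 0)
    (hL : PowerSeries.X ^ (m + 1) ∣ 2 * q * T (T (T d)) + 3 * T q * T (T d) + T (T q) * T d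
      - T r * d - 2 * r * T d) : PowerSeries.X ^ (m + 1) ∣ d := by
  have hconst : ∀ a : PowerSeries ℚ, PowerSeries.X ∣ T a := by
    intro a
    rw [hT]
    refine Dvd.dvd.mul_left ?_ _
    rw [PowerSeries.X_dvd_iff, ← PowerSeries.coeff_zero_eq_constantCoeff_apply]
    simp [dS]
  have main : ∀ k, k ≤ m → PowerSeries.X ^ (k + 1) ∣ d := by
    intro k
    induction k with
    | zero =>
      intro _
      rw [zero_add, pow_one, PowerSeries.X_dvd_iff]
      exact hd0
    | succ k ih =>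
      intro hk
      have h0 := ih (by omega)
      obtain ⟨a1, b1⟩ := c2_step T ψ hψ hT (k + 1) d h0
      obtain ⟨a2, b2⟩ := c2_step T ψ hψ hT (k + 1) (T d) a1
      obtain ⟨a3, b3⟩ := c2_step T ψ hψ hT (k + 1) (T (T d)) a2
      set c : PowerSeries ℚ := PowerSeries.C (((k + 1 : ℕ) : ℚ)) with hc
      have hL' : PowerSeries.X ^ (k + 1 + 1) ∣ 2 * q * T (T (T d)) + 3 * T q * T (T d) +
          T (T q) * T d - T r * d - 2 * r * T d :=
        (pow_dvd_pow _ (by omega)).trans hL
      have mX : ∀ a b : PowerSeries ℚ, PowerSeries.X ∣ a → PowerSeries.X ^ (k + 1) ∣ b →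
          PowerSeries.X ^ (k + 1 + 1) ∣ a * b := by
        intro a b ha hb
        rw [pow_succ']
        exact mul_dvd_mul ha hb
      have m1 : PowerSeries.X ^ (k + 1 + 1) ∣ 3 * T q * T (T d) :=
        mX _ _ ((hconst q).mul_left _) a2
      have m2 : PowerSeries.X ^ (k + 1 + 1) ∣ T (T q) * T d := mX _ _ (hconst _) a1
      have m3 : PowerSeries.X ^ (k + 1 + 1) ∣ T r * d := mX _ _ (hconst _) h0
      have m4 : PowerSeries.X ^ (k + 1 + 1) ∣ 2 * r * T d :=
        mX _ _ ((PowerSeries.X_dvd_iff.2 hr).mul_left _) a1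
      have m5 : PowerSeries.X ^ (k + 1 + 1) ∣ (q - 1) * T (T (T d)) :=
        mX _ _ (PowerSeries.X_dvd_iff.2 (by simp [hq])) a3
      have tot : PowerSeries.X ^ (k + 1 + 1) ∣ 2 * c ^ 3 * d := by
        have e : 2 * c ^ 3 * d = (2 * q * T (T (T d)) + 3 * T q * T (T d) +
          T (T q) * T d - T r * d - 2 * r * T d) - 3 * T q * T (T d) - T (T q) * T d
          + T r * d + 2 * r * T d - 2 * ((q - 1) * T (T (T d)))
          - 2 * (T (T (T d)) - c * T (T d)) - 2 * c * (T (T d) - c * T d)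
          - 2 * c ^ 2 * (T d - c * d) := by ring
        rw [e]
        refine dvd_sub (dvd_sub (dvd_sub (dvd_sub (dvd_add (dvd_add (dvd_sub (dvd_sub hL' m1)
          m2) m3) m4) ?_) ?_) ?_) ?_
        · exact m5.mul_left _
        · exact b3.mul_left _
        · exact b2.mul_left _
        · exact b1.mul_left _
      rw [PowerSeries.X_pow_dvd_iff] at tot ⊢
      intro j hj
      have h5 := tot j hj
      have e2 : 2 * c ^ 3 * d = PowerSeries.C (2 * (((k + 1 : ℕ) : ℚ)) ^ 3) * d := by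
        rw [map_mul, map_pow, map_ofNat]
      rw [e2, PowerSeries.coeff_C_mul] at h5
      have h6 : (2 * (((k + 1 : ℕ) : ℚ)) ^ 3) ≠ 0 := by positivity
      exact (mul_eq_zero.1 h5).resolve_left h6
  exact main m le_rfl

private theorem c2_aeval_const (x : PowerSeries ℚ) (hx : PowerSeries.constantCoeff x = 0)
    (P : ℤ[X]) : PowerSeries.constantCoeff (aeval x P) = ((P.coeff 0 : ℤ) : ℚ) := by
  rw [c2_map_aeval, hx, aeval_def, Polynomial.eval₂_at_zero]
  simp

private theorem c2_T (φ : PowerSeries ℚ) : ∃ T : PowerSeries ℚ →+ PowerSeries ℚ,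
      (∀ a, T a = φ * dS a) ∧ ∀ a b, T (a * b) = a * T b + b * T a := by
  refine ⟨⟨⟨fun a => φ * dS a, ?_⟩, ?_⟩, fun a => rfl, ?_⟩
  · simp only [c2_dS_eq, map_zero, mul_zero]
  · intro a b
    simp only [c2_dS_eq, map_add]
    ring
  · intro a b
    change φ * dS (a * b) = a * (φ * dS b) + b * (φ * dS a)
    simp only [c2_dS_eq, Derivation.leibniz, smul_eq_mul]
    ring

theorem series_of_ode (Q R : ℤ[X]) (hQ : Q.coeff 0 = 1) (hR : R.coeff 0 = 0)
    (z x : PowerSeries ℤ) (hz : PowerSeries.constantCoeff z = 1)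
    (hx0 : PowerSeries.constantCoeff x = 0) (hx1 : PowerSeries.coeff 1 x = 1)
    (h1 : dS x ^ 2 = x ^ 2 * aeval x Q * z ^ 2)
    (h2 : 2 * z * dS (dS z) - 3 * dS z ^ 2 = aeval x R * z ^ 4)
    (u : ℕ → ℤ) (hu0 : u 0 = 1)
    (hu : 2 * (Q : PowerSeries ℤ) * dS (dS (dS (PowerSeries.mk u))) +
        3 * dS (Q : PowerSeries ℤ) * dS (dS (PowerSeries.mk u)) +
        dS (dS (Q : PowerSeries ℤ)) * dS (PowerSeries.mk u) =
      dS (R : PowerSeries ℤ) * PowerSeries.mk u + 2 * (R : PowerSeries ℤ) * dS (PowerSeries.mk u))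
    (m : ℕ) : PowerSeries.X ^ (m + 1) ∣
      z - ∑ n ∈ Finset.range (m + 1), PowerSeries.C (u n) * x ^ n := by
  obtain ⟨f, hf⟩ : ∃ f : PowerSeries ℤ →+* PowerSeries ℚ,
      f = PowerSeries.map (Int.castRingHom ℚ) := ⟨_, rfl⟩
  have hfc : ∀ (a : PowerSeries ℤ) (n : ℕ), PowerSeries.coeff n (f a) =
      ((PowerSeries.coeff n a : ℤ) : ℚ) := by
    intro a n
    rw [hf, PowerSeries.coeff_map]
    simp
  have hfc0 : ∀ a : PowerSeries ℤ, PowerSeries.constantCoeff (f a) =
      ((PowerSeries.constantCoeff a : ℤ) : ℚ) := by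
    intro a
    rw [← PowerSeries.coeff_zero_eq_constantCoeff_apply, hfc,
      PowerSeries.coeff_zero_eq_constantCoeff_apply]
  have hfa : ∀ P : ℤ[X], f (aeval x P) = aeval (f x) P := fun P => c2_map_aeval f x P
  have hfd : ∀ a, f (dS a) = dS (f a) := fun a => by rw [hf, c2_dS_map]
  obtain ⟨X', hX'⟩ : ∃ X' : PowerSeries ℚ, X' = f x := ⟨_, rfl⟩
  obtain ⟨Z, hZ⟩ : ∃ Z : PowerSeries ℚ, Z = f z := ⟨_, rfl⟩
  have hZ0 : PowerSeries.constantCoeff Z = 1 := by rw [hZ, hfc0, hz]; simp
  have hX0 : PowerSeries.constantCoeff X' = 0 := by rw [hX', hfc0, hx0]; simp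
  have hX1 : PowerSeries.coeff 1 X' = 1 := by rw [hX', hfc, hx1]; simp
  have hZne : Z ≠ 0 := by
    intro h
    rw [h] at hZ0
    simp at hZ0
  have hXne : X' ≠ 0 := by
    intro h
    rw [h] at hX1
    simp at hX1
  obtain ⟨w, hw⟩ := PowerSeries.X_dvd_iff.2 hX0
  have hw0 : PowerSeries.constantCoeff w = 1 := by
    have e : PowerSeries.coeff 1 X' = PowerSeries.constantCoeff w := by
      rw [hw, PowerSeries.coeff_succ_X_mul 0, PowerSeries.coeff_zero_eq_constantCoeff_apply]
    rw [← e, hX1]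
  have hww : w * w⁻¹ = 1 := PowerSeries.mul_inv_cancel w (by rw [hw0]; exact one_ne_zero)
  obtain ⟨φ, hφ⟩ : ∃ φ : PowerSeries ℚ, φ = 1 + w⁻¹ * dS w := ⟨_, rfl⟩
  have hφ0 : PowerSeries.constantCoeff φ = 1 := by
    have e : PowerSeries.constantCoeff (dS w) = 0 := by
      rw [← PowerSeries.coeff_zero_eq_constantCoeff_apply]
      simp [dS]
    rw [hφ, map_add, map_mul, e]
    simp
  have hφφ : φ * φ⁻¹ = 1 := PowerSeries.mul_inv_cancel φ (by rw [hφ0]; exact one_ne_zero)
  have hψ : PowerSeries.constantCoeff φ⁻¹ = 1 := by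
    have e := congrArg PowerSeries.constantCoeff hφφ
    rw [map_mul, hφ0, one_mul, map_one] at e
    exact e
  have hdx : dS X' = X' * φ := by
    rw [hφ, c2_dS_eq, hw, Derivation.leibniz, PowerSeries.derivative_X, smul_eq_mul, smul_eq_mul,
      c2_dS_eq w]
    linear_combination (-(PowerSeries.X ^ 2 * PowerSeries.derivative ℚ w)) * hww
  have k1 : dS X' ^ 2 = X' ^ 2 * aeval X' Q * Z ^ 2 := by
    have e := congrArg f h1
    rw [map_pow, hfd, map_mul, map_mul, map_pow, map_pow, hfa, ← hX', ← hZ] at e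
    exact e
  have k2 : 2 * Z * dS (dS Z) - 3 * dS Z ^ 2 = aeval X' R * Z ^ 4 := by
    have e := congrArg f h2
    rw [map_sub, map_mul, map_mul, map_mul, map_mul, map_pow, map_pow, hfd, hfd, hfa, map_ofNat,
      map_ofNat, ← hX', ← hZ] at e
    exact e
  have hφ2 : φ ^ 2 = aeval X' Q * Z ^ 2 := by
    rw [hdx] at k1
    have e : X' ^ 2 * (φ ^ 2 - aeval X' Q * Z ^ 2) = 0 := by linear_combination k1
    exact sub_eq_zero.1 ((mul_eq_zero.1 e).resolve_left (pow_ne_zero 2 hXne))
  obtain ⟨T, hT, hTL⟩ := c2_T φ⁻¹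
  have hφT : ∀ a, φ * T a = dS a := by
    intro a
    rw [hT, ← mul_assoc, hφφ, one_mul]
  have hTx : T X' = X' := by
    rw [hT, hdx]
    linear_combination X' * hφφ
  have k3 : 2 * Z * (φ * T (φ * T Z)) - 3 * (φ * T Z) ^ 2 = aeval X' R * Z ^ 4 := by
    rw [hφT, hφT]
    exact k2
  have k4 := c2_alg T hTL φ Z (aeval X' Q) (aeval X' R) hZne hφ2 k3
  set P : ℤ[X] := ∑ n ∈ Finset.range (m + 1), C (u n) * X ^ n with hP
  have k5 := c2_poly Q R u hu m
  rw [← hP] at k5
  have k6 := c2_L_aeval T hTL X' hTx Q R P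
  have k7 : PowerSeries.X ^ (m + 1) ∣ aeval X' (c2_L Q R P) := by
    obtain ⟨G, hG⟩ := k5
    rw [hG, map_mul, map_pow, aeval_X]
    exact (pow_dvd_pow_of_dvd (PowerSeries.X_dvd_iff.2 hX0) _).mul_right _
  have haP : aeval X' P = f (∑ n ∈ Finset.range (m + 1), PowerSeries.C (u n) * x ^ n) := by
    rw [hP, map_sum, map_sum]
    refine Finset.sum_congr rfl fun n _ => ?_
    have e1 : f (PowerSeries.C (u n)) = ((u n : ℤ) : PowerSeries ℚ) :=
      eq_intCast (f.comp PowerSeries.C) (u n)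
    rw [map_mul, map_mul, map_pow, map_pow, aeval_X, aeval_C, e1, eq_intCast, hX']
  have hq0 : PowerSeries.constantCoeff (aeval X' Q) = 1 := by
    rw [c2_aeval_const X' hX0, hQ]
    simp
  have hr0 : PowerSeries.constantCoeff (aeval X' R) = 0 := by
    rw [c2_aeval_const X' hX0, hR]
    simp
  have hP0 : PowerSeries.constantCoeff (aeval X' P) = 1 := by
    rw [c2_aeval_const X' hX0]
    have : P.coeff 0 = 1 := by
      rw [hP, finsetSum_coeff, Finset.sum_eq_single 0]
      · simp [hu0]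
      · intro b _ hb
        simp [coeff_X_pow, hb.symm]
      · intro h
        exact absurd (Finset.mem_range.2 (Nat.succ_pos m)) h
    rw [this]
    simp
  have k8 : PowerSeries.X ^ (m + 1) ∣ Z - aeval X' P := by
    refine c2_induct T φ⁻¹ hψ hT (aeval X' Q) (aeval X' R) _ hq0 hr0 m ?_ ?_
    · rw [map_sub, hZ0, hP0, sub_self]
    · have e : 2 * aeval X' Q * T (T (T (Z - aeval X' P))) +
          3 * T (aeval X' Q) * T (T (Z - aeval X' P)) +
          T (T (aeval X' Q)) * T (Z - aeval X' P) - T (aeval X' R) * (Z - aeval X' P) -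
          2 * aeval X' R * T (Z - aeval X' P) = - aeval X' (c2_L Q R P) := by
        rw [map_sub, map_sub, map_sub]
        linear_combination k4 - k6
      rw [e]
      exact dvd_neg.2 k7
  rw [haP, hZ, ← map_sub, PowerSeries.X_pow_dvd_iff] at k8
  rw [PowerSeries.X_pow_dvd_iff]
  intro j hj
  have := k8 j hj
  rw [hfc] at this
  exact_mod_cast this

end Pool.Agent.LibZP46
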