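import Pool.Agent.LibZP46.C1

/-!
ZP46 C3. The generating series of `uu` satisfies the differential equation with
`Q = 1 - 28 X - 128 X ^ 2`, `R = 8 X + 96 X ^ 2`.

Plan. Compare the coefficients of `X ^ n`: with `u (-1) = u (-2) = 0`,
`2 (n^3 u_n - 28 (n-1)^3 u_(n-1) - 128 (n-2)^3 u_(n-2)) + 3 (-28 (n-1)^2 u_(n-1) - 256 (n-2)^2
u_(n-2)) + (-28 (n-1) u_(n-1) - 512 (n-2) u_(n-2)) = 8 u_(n-1) + 192 u_(n-2) + 16 (n-1) u_(n-1) +
192 (n-2) u_(n-2)`, which for `n ≥ 2` is twice `uu_rec`, and `n = 0`, `n = 1` directly. The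
coefficients of `dS`: `PowerSeries.coeff_mk`; the polynomials are written out as
`1 - 28 X - 128 X ^ 2`, multiplication by `X` and `X ^ 2` shifts (`PowerSeries.coeff_succ_X_mul`).
-/

namespace Pool.Agent.LibZP46

open Polynomial

/-- `1 - 28 X - 128 X ^ 2`. -/
noncomputable def Q6 : ℤ[X] := 1 - 28 * X - 128 * X ^ 2

/-- `8 X + 96 X ^ 2`. -/
noncomputable def R6 : ℤ[X] := 8 * X + 96 * X ^ 2

theorem Q6_coeff_zero : Q6.coeff 0 = 1 := by
  simp [Q6, Polynomial.coeff_X]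

theorem R6_coeff_zero : R6.coeff 0 = 0 := by
  simp [R6, Polynomial.coeff_X]

private theorem dS_add (a b : PowerSeries ℤ) : dS (a + b) = dS a + dS b := by
  ext n
  simp only [dS, PowerSeries.coeff_mk, map_add]
  ring

private theorem dS_smul (c : ℤ) (a : PowerSeries ℤ) : dS (c • a) = c • dS a := by
  ext n
  simp only [dS, PowerSeries.coeff_mk, map_smul, smul_eq_mul]
  ring

private theorem dS_one : dS (1 : PowerSeries ℤ) = 0 := by
  ext n
  simp only [dS, PowerSeries.coeff_mk, PowerSeries.coeff_one, map_zero]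
  split_ifs with h
  · simp [h]
  · simp

private theorem dS_X : dS (PowerSeries.X : PowerSeries ℤ) = PowerSeries.X := by
  ext n
  simp only [dS, PowerSeries.coeff_mk, PowerSeries.coeff_X]
  split_ifs with h
  · simp [h]
  · simp

private theorem dS_X2 : dS (PowerSeries.X ^ 2 : PowerSeries ℤ) = (2 : ℤ) • PowerSeries.X ^ 2 := by
  ext n
  simp only [dS, PowerSeries.coeff_mk, PowerSeries.coeff_X_pow, map_smul, smul_eq_mul]
  split_ifs with h
  · simp [h]
  · simp

private theorem Q6_coe : (Q6 : PowerSeries ℤ) =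
    1 + ((-28 : ℤ) • PowerSeries.X + (-128 : ℤ) • PowerSeries.X ^ 2) := by
  have h : Q6 = 1 + (C (-28) * X + C (-128) * X ^ 2) := by
    rw [Q6]
    simp only [map_neg, map_ofNat]
    ring
  rw [h]
  simp only [Polynomial.coe_add, Polynomial.coe_mul, Polynomial.coe_C, Polynomial.coe_X,
    Polynomial.coe_pow, Polynomial.coe_one, zsmul_eq_mul]
  simp only [eq_intCast]

private theorem R6_coe : (R6 : PowerSeries ℤ) =
    (8 : ℤ) • PowerSeries.X + (96 : ℤ) • PowerSeries.X ^ 2 := by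
  have h : R6 = C 8 * X + C 96 * X ^ 2 := by
    rw [R6]
    simp only [map_ofNat]
  rw [h]
  simp only [Polynomial.coe_add, Polynomial.coe_mul, Polynomial.coe_C, Polynomial.coe_X,
    Polynomial.coe_pow, zsmul_eq_mul]
  simp only [eq_intCast]

private theorem key (Y0 Y1 Y2 Y3 : PowerSeries ℤ)
    (h : (2 : ℤ) • Y3 + (PowerSeries.X * ((-56 : ℤ) • Y3 + (-84 : ℤ) • Y2 + (-44 : ℤ) • Y1 + (-8 : ℤ) • Y0)
      + PowerSeries.X * (PowerSeries.X * ((-256 : ℤ) • Y3 + (-768 : ℤ) • Y2 + (-704 : ℤ) • Y1 +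
        (-192 : ℤ) • Y0))) = 0) :
    2 * (1 + ((-28 : ℤ) • PowerSeries.X + (-128 : ℤ) • PowerSeries.X ^ 2)) * Y3 +
        3 * (0 + ((-28 : ℤ) • PowerSeries.X + (-128 : ℤ) • ((2 : ℤ) • PowerSeries.X ^ 2))) * Y2 +
        (0 + ((-28 : ℤ) • PowerSeries.X + (-128 : ℤ) • ((2 : ℤ) • ((2 : ℤ) • PowerSeries.X ^ 2)))) * Y1 =
      ((8 : ℤ) • PowerSeries.X + (96 : ℤ) • ((2 : ℤ) • PowerSeries.X ^ 2)) * Y0 +
        2 * ((8 : ℤ) • PowerSeries.X + (96 : ℤ) • PowerSeries.X ^ 2) * Y1 := by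
  simp only [zsmul_eq_mul] at h ⊢
  push_cast at h ⊢
  linear_combination h

private theorem dS_zero : dS (0 : PowerSeries ℤ) = 0 := by
  ext n
  simp [dS]

theorem uu_ode : 2 * (Q6 : PowerSeries ℤ) * dS (dS (dS (PowerSeries.mk fun n => (uu n : ℤ)))) +
        3 * dS (Q6 : PowerSeries ℤ) * dS (dS (PowerSeries.mk fun n => (uu n : ℤ))) +
        dS (dS (Q6 : PowerSeries ℤ)) * dS (PowerSeries.mk fun n => (uu n : ℤ)) =
      dS (R6 : PowerSeries ℤ) * (PowerSeries.mk fun n => (uu n : ℤ)) +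
        2 * (R6 : PowerSeries ℤ) * dS (PowerSeries.mk fun n => (uu n : ℤ)) := by
  rw [Q6_coe, R6_coe]
  simp only [dS_add, dS_smul, dS_one, dS_X, dS_X2, dS_zero]
  apply key
  ext n
  rcases n with _ | _ | n
  · simp [dS]
  · rw [map_add, map_add, PowerSeries.coeff_succ_X_mul, PowerSeries.coeff_succ_X_mul,
      PowerSeries.coeff_zero_X_mul]
    simp only [map_add, map_smul, smul_eq_mul, dS, PowerSeries.coeff_mk, map_zero, uu_zero]
    norm_num [uu_zero, uu_one]
  · rw [map_add, map_add, PowerSeries.coeff_succ_X_mul, PowerSeries.coeff_succ_X_mul,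
      PowerSeries.coeff_succ_X_mul]
    simp only [map_add, map_smul, smul_eq_mul, dS, PowerSeries.coeff_mk, map_zero]
    have h := uu_rec n
    push_cast
    linear_combination 2 * h

end Pool.Agent.LibZP46
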