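import Pool.Agent.LibZP46.C1

/-!
ZP46 C4. `uu` modulo `p` and `p ^ 2`.

Plan. `dvd_uu`: `p ∣ C(2n,n)` for `n < p ≤ 2n` (`p` divides `(2n)!` and not `n!`). `uu_prime`:
`C(2p,p) = ∑ C(p,k)^2 ≡ 2` modulo `p^2` (`Nat.sum_range_choose_sq_eq_centralBinom`, `p ∣ C(p,k)` for
`0 < k < p`) and `franel p = ∑ C(p,k)^3 ≡ 2` modulo `p^3`.
-/

namespace Pool.Agent.LibZP46

theorem dvd_uu (p n : ℕ) (hp : p.Prime) (h1 : n < p) (h2 : p ≤ 2 * n) : p ∣ uu n := by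
  unfold uu
  apply Dvd.dvd.mul_right
  exact hp.dvd_choose h1 (by omega) h2

private theorem sum_pow (p e : ℕ) (hp : p.Prime) (he : 2 ≤ e) :
    ((p : ℤ) ^ 2) ∣ ((∑ k ∈ Finset.range (p + 1), p.choose k ^ e : ℕ) : ℤ) - 2 := by
  obtain ⟨m, rfl⟩ : ∃ m, p = m + 1 := ⟨p - 1, by have := hp.pos; omega⟩
  rw [Finset.sum_range_succ, Finset.sum_range_succ']
  have h : (((m + 1 : ℕ) : ℤ) ^ 2) ∣
      ((∑ k ∈ Finset.range m, (m + 1).choose (k + 1) ^ e : ℕ) : ℤ) := by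
    have h1 : (m + 1) ^ 2 ∣ ∑ k ∈ Finset.range m, (m + 1).choose (k + 1) ^ e := by
      refine Finset.dvd_sum (fun k hk => ?_)
      rw [Finset.mem_range] at hk
      have h2 : (m + 1) ∣ (m + 1).choose (k + 1) := hp.dvd_choose_self (by omega) (by omega)
      exact (pow_dvd_pow_of_dvd h2 2).trans (pow_dvd_pow _ he)
    exact_mod_cast h1
  have h3 : ((∑ k ∈ Finset.range m, (m + 1).choose (k + 1) ^ e + (m + 1).choose 0 ^ e +
      (m + 1).choose (m + 1) ^ e : ℕ) : ℤ) - 2 =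
      ((∑ k ∈ Finset.range m, (m + 1).choose (k + 1) ^ e : ℕ) : ℤ) := by
    rw [Nat.choose_zero_right, Nat.choose_self, one_pow]
    push_cast
    ring
  rw [h3]
  exact h

theorem uu_prime (p : ℕ) (hp : p.Prime) : ((p : ℤ) ^ 2) ∣ (uu p : ℤ) - 4 := by
  have h1 := sum_pow p 2 hp le_rfl
  have h2 := sum_pow p 3 hp (by norm_num)
  have h3 : (2 * p).choose p = ∑ k ∈ Finset.range (p + 1), p.choose k ^ 2 :=
    (Nat.sum_range_choose_sq p).symm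
  rw [← h3] at h1
  unfold uu franel
  obtain ⟨a, ha⟩ := h1
  obtain ⟨b, hb⟩ := h2
  refine ⟨a * ((∑ k ∈ Finset.range (p + 1), p.choose k ^ 3 : ℕ) : ℤ) + 2 * b, ?_⟩
  rw [Nat.cast_mul]
  linear_combination ((∑ k ∈ Finset.range (p + 1), p.choose k ^ 3 : ℕ) : ℤ) * ha + 2 * hb

end Pool.Agent.LibZP46
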