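import Pool.Agent.LibZP46.D7

/-!
ZP46 E1. The split case.

Plan. `mult_fix`: `exists_factor` with `n = 1`: `M = X * MM i`, `X` in `ALM N e 1`. Then
`z τ₀ = z (act M τ₀) = z (act X τ')`, `τ' = act (MM i) τ₀` (`act_mul`), `= χ e (jm X τ' ^ 2 / e) z τ'`
(`zmod`, `r = 1`), and `jm M τ₀ = jm X τ' * jm (MM i) τ₀` (`jm_mul`); `χ e ^ 2 = 1`. So
`HF ℓ 1 z i τ₀ / z τ₀ = χ e * e * ℓ ^ 2 / jm M τ₀ ^ 2`.
`ek_val`: divide `HeckePoly.eq` at `τ₀` by `z ^ (c cd)`, with `z ^ c = m g`: for the multipliers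
`μ i = HF ℓ 1 z i τ₀ / z τ₀`: `m ^ cd * ek k μ = Q k (m)`.
`split_cong`: let `d = cd c (ℓ + 1)` (`cd c k ≤ d` for `k ≤ ℓ + 1`) and
`G = ∑_{k ≤ ℓ+1} (-1)^k m^(d - cd k) (Q k) (m) X^(ℓ+1-k)` in `ℤ[X]`; over `ℂ` it is
`m ^ d ∏ (X - μ i)` (`prod_X_sub`), so it is divisible by `(X - μ i) (X - μ i')
= X^2 - s X + ℓ^2`, `i ≠ i'`. The division of `G` by the monic integral polynomial
`X^2 - s X + ℓ^2` gives an integral quotient `H` (`Polynomial.map_dvd_map`,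
`Polynomial.modByMonic_eq_zero_iff_dvd`, `map_modByMonic`). Compare the coefficients of `1` and
`X`: `(-1)^(ℓ+1) (Q (ℓ+1)) (m) = ℓ^2 H_0`, `(-1)^ℓ m^(d - cd ℓ) (Q ℓ) (m) = -s H_0 + ℓ^2 H_1`. With
`cd ℓ = d`, `ℓ` odd: `H_0 = Q'`, `(Q ℓ) (m) ≡ s Q'` modulo `ℓ ^ 2`.
-/

namespace Pool.Agent.LibZP46

open Complex Polynomial

variable {D : Dat}

theorem mult_fix (h : D.OK) (ℓ : ℕ) (hℓ : ℓ.Prime) (hN : ¬ (ℓ : ℤ) ∣ D.N) {e : ℤ} (he0 : 0 < e)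
    (he : e ∣ D.N) {M : Mat} (hM : ALM D.N e ℓ M) {τ₀ : ℂ} (hτ : 0 < τ₀.im)
    (hfix : act M τ₀ = τ₀) (hz : D.z τ₀ ≠ 0) :
    ∃ i : Option (Fin ℓ), HF ℓ 1 D.z i τ₀ / D.z τ₀ =
      (D.χ e : ℂ) * e * (ℓ : ℂ) ^ 2 / jm M τ₀ ^ 2 := by
  have hM' : ALM D.N e ((ℓ : ℤ) * 1) M := by
    rw [mul_one]
    exact hM
  obtain ⟨i, X, hX, hMX⟩ := exists_factor ℓ hℓ hN he hM'
  refine ⟨i, ?_⟩
  have hℓ0 : (ℓ : ℤ) ≠ 0 := by exact_mod_cast hℓ.ne_zero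
  have hdet : (MM ℓ i).det ≠ 0 := by
    rw [det_MM]
    exact hℓ0
  have hdet' : 0 < (MM ℓ i).det := by
    rw [det_MM]
    exact_mod_cast hℓ.pos
  have hτ' : 0 < (act (MM ℓ i) τ₀).im := act_im_pos hdet' hτ
  have hXdet : X.det ≠ 0 := by
    rw [hX.hdet]
    simpa using he0.ne'
  have hj1 : jm (MM ℓ i) τ₀ ≠ 0 := jm_ne hdet hτ
  have hj2 : jm X (act (MM ℓ i) τ₀) ≠ 0 := jm_ne hXdet hτ'
  have e1 : jm M τ₀ = jm X (act (MM ℓ i) τ₀) * jm (MM ℓ i) τ₀ := by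
    rw [hMX]
    exact jm_mul X (MM ℓ i) hdet hτ
  have e2 : act M τ₀ = act X (act (MM ℓ i) τ₀) := by
    rw [hMX]
    exact act_mul X (MM ℓ i) hdet hτ
  have e3 := h.zmod e he0 he X hX (act (MM ℓ i) τ₀) hτ'
  rw [← e2, hfix, zpow_one] at e3
  have hχ : (D.χ e : ℂ) ^ 2 = 1 := by exact_mod_cast h.chi_sq e he0 he
  have he' : (e : ℂ) ≠ 0 := by exact_mod_cast he0.ne'
  set zt := D.z (act (MM ℓ i) τ₀) with hzt
  set J := jm X (act (MM ℓ i) τ₀) with hJ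
  have hHF : HF ℓ 1 D.z i τ₀ = ((ℓ : ℂ) ^ 2 / jm (MM ℓ i) τ₀ ^ 2) * zt := by
    unfold HF
    rw [zpow_one]
  have hχ0 : (D.χ e : ℂ) ≠ 0 := by
    intro h0
    rw [h0] at hχ
    norm_num at hχ
  have hz2 : zt ≠ 0 := by
    intro h0
    rw [h0, mul_zero] at e3
    exact hz e3
  rw [hHF, e1, e3]
  field_simp
  linear_combination (-(ℓ : ℂ) ^ 2) * hχ

private theorem E1_ne (h : D.OK) {τ₀ : ℂ} (hτ : 0 < τ₀.im) (m : ℤ) (hm : m ≠ 0) (ht : D.t τ₀ = m) :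
    D.z τ₀ ^ D.c = m * D.g τ₀ ∧ D.z τ₀ ≠ 0 := by
  have hg := h.gne τ₀ hτ
  have h1 : D.z τ₀ ^ D.c = m * D.g τ₀ := by
    unfold Dat.t at ht
    rw [div_eq_iff hg] at ht
    exact ht
  refine ⟨h1, fun h0 => ?_⟩
  rw [h0, zero_pow h.hc.ne'] at h1
  have hm' : (m : ℂ) ≠ 0 := by exact_mod_cast hm
  exact mul_ne_zero hm' hg h1.symm

theorem ek_val (h : D.OK) (ℓ : ℕ) {Q : ℕ → ℤ[X]} (hQ : HeckePoly D ℓ Q) {τ₀ : ℂ}
    (hτ : 0 < τ₀.im) (m : ℤ) (hm : m ≠ 0) (ht : D.t τ₀ = m) (k : ℕ) :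
    (m : ℂ) ^ cd D.c k * ek k (fun i => HF ℓ 1 D.z i τ₀ / D.z τ₀) = ((Q k).eval m : ℤ) := by
  obtain ⟨h1, hz⟩ := E1_ne h hτ m hm ht
  have hg := h.gne τ₀ hτ
  have h2 := hQ.eq k τ₀ hτ
  have h3 : aeval (D.t τ₀) (Q k) = (((Q k).eval m : ℤ) : ℂ) := by
    rw [ht, Polynomial.aeval_def, Polynomial.eval₂_at_intCast]
    rfl
  rw [h3] at h2
  have h4 : ek k (fun i => HF ℓ 1 D.z i τ₀) = D.z τ₀ ^ k * ek k (fun i => HF ℓ 1 D.z i τ₀ / D.z τ₀) := by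
    rw [← ek_mul_left]
    congr 1
    funext i
    field_simp
  have h5 : D.z τ₀ ^ k * D.z τ₀ ^ (D.c * cd D.c k - k) = (m : ℂ) ^ cd D.c k * D.g τ₀ ^ cd D.c k := by
    rw [← pow_add, Nat.add_sub_cancel' (le_c_mul_cd D.c k h.hc), pow_mul, h1, mul_pow]
  rw [h4] at h2
  have hgk : D.g τ₀ ^ cd D.c k ≠ 0 := pow_ne_zero _ hg
  apply mul_left_cancel₀ hgk
  rw [← h2]
  linear_combination (-ek k (fun i => HF ℓ 1 D.z i τ₀ / D.z τ₀)) * h5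

private theorem E1_cd_mono (c : ℕ) {k l : ℕ} (hkl : k ≤ l) : cd c k ≤ cd c l := by
  unfold cd
  exact Nat.div_le_div_right (by omega)

theorem split_cong (h : D.OK) (ℓ : ℕ) (hℓ : ℓ.Prime) (h2 : ℓ ≠ 2) {Q : ℕ → ℤ[X]}
    (hQ : HeckePoly D ℓ Q) (hcd : cd D.c ℓ = cd D.c (ℓ + 1)) {τ₀ : ℂ} (hτ : 0 < τ₀.im) (m : ℤ)
    (hm : m ≠ 0) (ht : D.t τ₀ = m) (i i' : Option (Fin ℓ)) (hii : i ≠ i') (s : ℤ)
    (hs : HF ℓ 1 D.z i τ₀ / D.z τ₀ + HF ℓ 1 D.z i' τ₀ / D.z τ₀ = s)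
    (hp : HF ℓ 1 D.z i τ₀ / D.z τ₀ * (HF ℓ 1 D.z i' τ₀ / D.z τ₀) = (ℓ : ℂ) ^ 2)
    (Q' : ℤ) (hQ' : (Q (ℓ + 1)).eval m = (ℓ : ℤ) ^ 2 * Q') :
    (ℓ : ℤ) ^ 2 ∣ (Q ℓ).eval m - s * Q' := by
  classical
  set μ : Option (Fin ℓ) → ℂ := fun i => HF ℓ 1 D.z i τ₀ / D.z τ₀ with hμ
  set d := cd D.c (ℓ + 1) with hd
  set G : ℤ[X] := ∑ k ∈ Finset.range (ℓ + 1 + 1),
    C ((-1) ^ k * (m ^ (d - cd D.c k) * (Q k).eval m)) * X ^ (ℓ + 1 - k) with hG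
  set P : ℤ[X] := X ^ 2 + (C (-s) * X + C ((ℓ : ℤ) ^ 2)) with hP
  have hPm : P.Monic := by
    rw [hP]
    apply Polynomial.monic_X_pow_add
    refine lt_of_le_of_lt Polynomial.degree_linear_le ?_
    norm_num
  have hcard : Fintype.card (Option (Fin ℓ)) = ℓ + 1 := by simp
  have hGm : G.map (Int.castRingHom ℂ) = C ((m : ℂ) ^ d) * ∏ i, (X - C (μ i)) := by
    rw [prod_X_sub, hcard, hG, Polynomial.map_sum, Finset.mul_sum]
    refine Finset.sum_congr rfl fun k hk => ?_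
    have hk' : k ≤ ℓ + 1 := by
      have := Finset.mem_range.1 hk
      omega
    have hkd : cd D.c k ≤ d := E1_cd_mono D.c hk'
    have h3 := ek_val h ℓ hQ hτ m hm ht k
    have h3' : (m : ℂ) ^ cd D.c k * ek k μ = ((Q k).eval m : ℤ) := h3
    have h5 : C ((m : ℂ) ^ d) * (C ((-1) ^ k * ek k μ) * X ^ (ℓ + 1 - k)) =
        C ((m : ℂ) ^ d * ((-1) ^ k * ek k μ)) * X ^ (ℓ + 1 - k) := by
      rw [← mul_assoc, ← C_mul]
    rw [Polynomial.map_mul, Polynomial.map_C, Polynomial.map_pow, Polynomial.map_X, h5]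
    congr 2
    rw [eq_intCast]
    push_cast
    rw [← h3']
    have h4 : (m : ℂ) ^ d = (m : ℂ) ^ (d - cd D.c k) * (m : ℂ) ^ cd D.c k := by
      rw [← pow_add, Nat.sub_add_cancel hkd]
    rw [h4]
    ring
  have hPmap : P.map (Int.castRingHom ℂ) = (X - C (μ i)) * (X - C (μ i')) := by
    have e1 : C (μ i) + C (μ i') = C (s : ℂ) := by
      rw [← C_add]
      congr 1
    have e2 : C (μ i) * C (μ i') = C ((ℓ : ℂ) ^ 2) := by
      rw [← C_mul]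
      congr 1
    rw [hP, Polynomial.map_add, Polynomial.map_add, Polynomial.map_mul, Polynomial.map_C, Polynomial.map_C,
      Polynomial.map_pow, Polynomial.map_X, eq_intCast, eq_intCast]
    push_cast
    have e3 : C (-(s : ℂ)) = -C (s : ℂ) := C_neg
    rw [e3]
    linear_combination X * e1 - e2
  have hdvd : P.map (Int.castRingHom ℂ) ∣ G.map (Int.castRingHom ℂ) := by
    rw [hPmap, hGm]
    apply Dvd.dvd.mul_left
    rw [← Finset.mul_prod_erase Finset.univ (fun i => X - C (μ i)) (Finset.mem_univ i),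
      ← Finset.mul_prod_erase (Finset.univ.erase i) (fun i => X - C (μ i))
        (Finset.mem_erase.2 ⟨hii.symm, Finset.mem_univ i'⟩), ← mul_assoc]
    exact Dvd.intro _ rfl
  have hdvd2 : P ∣ G :=
    (Polynomial.map_dvd_map (Int.castRingHom ℂ) (RingHom.injective_int _) hPm).1 hdvd
  obtain ⟨H, hH⟩ := hdvd2
  have hc0 : G.coeff 0 = (Q (ℓ + 1)).eval m := by
    rw [hG, Polynomial.finsetSum_coeff, Finset.sum_eq_single (ℓ + 1)]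
    · rw [Polynomial.coeff_C_mul_X_pow, if_pos (by omega)]
      have hodd : Even (ℓ + 1) := (hℓ.odd_of_ne_two h2).add_one
      rw [hodd.neg_one_pow, ← hd, Nat.sub_self, pow_zero]
      ring
    · intro k hk hne
      have := Finset.mem_range.1 hk
      rw [Polynomial.coeff_C_mul_X_pow, if_neg (by omega)]
    · intro hk
      exact absurd (Finset.mem_range.2 (by omega)) hk
  have hc1 : G.coeff 1 = -(Q ℓ).eval m := by
    rw [hG, Polynomial.finsetSum_coeff, Finset.sum_eq_single ℓ]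
    · rw [Polynomial.coeff_C_mul_X_pow, if_pos (by omega)]
      have hodd : Odd ℓ := hℓ.odd_of_ne_two h2
      rw [hodd.neg_one_pow, hcd, Nat.sub_self, pow_zero]
      ring
    · intro k hk hne
      have := Finset.mem_range.1 hk
      rw [Polynomial.coeff_C_mul_X_pow, if_neg (by omega)]
    · intro hk
      exact absurd (Finset.mem_range.2 (by omega)) hk
  have hexp : G = X ^ 2 * H + (C (-s) * (X * H) + C ((ℓ : ℤ) ^ 2) * H) := by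
    rw [hH, hP]
    ring
  have hH0 : G.coeff 0 = (ℓ : ℤ) ^ 2 * H.coeff 0 := by
    rw [hexp, Polynomial.coeff_add, Polynomial.coeff_add, Polynomial.coeff_C_mul, Polynomial.coeff_C_mul,
      Polynomial.coeff_X_mul_zero, Polynomial.coeff_X_pow_mul', if_neg (by norm_num)]
    ring
  have hH1 : G.coeff 1 = -s * H.coeff 0 + (ℓ : ℤ) ^ 2 * H.coeff 1 := by
    rw [hexp, Polynomial.coeff_add, Polynomial.coeff_add, Polynomial.coeff_C_mul, Polynomial.coeff_C_mul,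
      Polynomial.coeff_X_mul, Polynomial.coeff_X_pow_mul', if_neg (by norm_num)]
    ring
  have hℓ0 : (ℓ : ℤ) ^ 2 ≠ 0 := pow_ne_zero _ (by exact_mod_cast hℓ.ne_zero)
  have hHQ : H.coeff 0 = Q' := by
    apply mul_left_cancel₀ hℓ0
    rw [← hH0, hc0, hQ']
  refine ⟨-H.coeff 1, ?_⟩
  rw [hHQ] at hH1
  linear_combination -hH1 + hc1

end Pool.Agent.LibZP46
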