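import Pool.Agent.LibZP46.D10
import Pool.Agent.LibZP46.E1

/-!
ZP46 E2. The split case: the congruence.

Plan. `exists_hecke` gives `Q`; `hecke_cong` gives `Q'` with
`ℓ^2 ∣ m^(ℓ-1) (Q ℓ)(m) - U Q'`, `U = US u ℓ m`. `mult_fix` for `M` and `M'` gives indices `i`, `i'`
with the values `χ e e ℓ^2 / jm M τ₀ ^2`; the values are different, so `i ≠ i'`; `split_cong` gives
`ℓ^2 ∣ (Q ℓ)(m) - s Q'`. So `ℓ^2 ∣ (U - s m^(ℓ-1)) Q'`, and `Q'` is prime to `ℓ`.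
-/

namespace Pool.Agent.LibZP46

open Complex Polynomial

/-- The properties of the sequence `u` for the prime `ℓ`. -/
structure SeqOK (D : Dat) (u : ℕ → ℤ) (ℓ : ℕ) : Prop where
  hu : ∀ m, PowerSeries.X ^ (m + 1) ∣
    D.zS - ∑ n ∈ Finset.range (m + 1), PowerSeries.C (u n) * D.xS ^ n
  hB : ∃ B, (∀ n, B < n → n < ℓ → (ℓ : ℤ) ∣ u n) ∧ cd D.c (ℓ + 1) + B ≤ ℓ
  hup : (ℓ : ℤ) ^ 2 ∣ u ℓ - u 1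
  hcd : cd D.c ℓ = cd D.c (ℓ + 1)
  hlt : cd D.c ℓ < ℓ

variable {D : Dat}

theorem split_main (h : D.OK) (ℓ : ℕ) (hℓ : ℓ.Prime) (h2 : ℓ ≠ 2) (hN : ¬ (ℓ : ℤ) ∣ D.N)
    (u : ℕ → ℤ) (hu : SeqOK D u ℓ) (m : ℤ) (hm : ¬ (ℓ : ℤ) ∣ m) {τ₀ : ℂ} (hτ : 0 < τ₀.im)
    (ht : D.t τ₀ = m) {e e' : ℤ} (he0 : 0 < e) (he : e ∣ D.N) (he0' : 0 < e') (he' : e' ∣ D.N)
    {M M' : Mat} (hM : ALM D.N e ℓ M) (hM' : ALM D.N e' ℓ M') (hfix : act M τ₀ = τ₀)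
    (hfix' : act M' τ₀ = τ₀) (s : ℤ)
    (hs : (D.χ e : ℂ) * e * (ℓ : ℂ) ^ 2 / jm M τ₀ ^ 2 +
      (D.χ e' : ℂ) * e' * (ℓ : ℂ) ^ 2 / jm M' τ₀ ^ 2 = s)
    (hp : (D.χ e : ℂ) * e * (ℓ : ℂ) ^ 2 / jm M τ₀ ^ 2 *
      ((D.χ e' : ℂ) * e' * (ℓ : ℂ) ^ 2 / jm M' τ₀ ^ 2) = (ℓ : ℂ) ^ 2)
    (hne : (D.χ e : ℂ) * e * (ℓ : ℂ) ^ 2 / jm M τ₀ ^ 2 ≠
      (D.χ e' : ℂ) * e' * (ℓ : ℂ) ^ 2 / jm M' τ₀ ^ 2) :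
    (ℓ : ℤ) ^ 2 ∣ US u ℓ m - s * m ^ (ℓ - 1) := by
  have hm0 : m ≠ 0 := by
    rintro rfl
    exact hm (dvd_zero _)
  have hz : D.z τ₀ ≠ 0 := by
    intro h0
    have h1 : D.t τ₀ = 0 := by
      unfold Dat.t
      rw [h0, zero_pow h.hc.ne', zero_div]
    rw [ht] at h1
    exact hm0 (by exact_mod_cast h1)
  obtain ⟨Q, hQ⟩ := exists_hecke h ℓ hℓ hN
  obtain ⟨B, hB, hdeg⟩ := hu.hB
  obtain ⟨Q', hQ1, hQ2, hQ3⟩ := hecke_cong h ℓ hℓ hQ u hu.hu B hB hu.hup hdeg hu.hcd hu.hlt m hm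
  obtain ⟨i, hi⟩ := mult_fix h ℓ hℓ hN he0 he hM hτ hfix hz
  obtain ⟨i', hi'⟩ := mult_fix h ℓ hℓ hN he0' he' hM' hτ hfix' hz
  have hii : i ≠ i' := by
    rintro rfl
    exact hne (hi.symm.trans hi')
  have h4 := split_cong h ℓ hℓ h2 hQ hu.hcd hτ m hm0 ht i i' hii s
    (by rw [hi, hi']; exact hs) (by rw [hi, hi']; exact hp) Q' hQ1
  have h5 : (ℓ : ℤ) ^ 2 ∣ (US u ℓ m - s * m ^ (ℓ - 1)) * Q' := by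
    have h6 : (US u ℓ m - s * m ^ (ℓ - 1)) * Q' = m ^ (ℓ - 1) * ((Q ℓ).eval m - s * Q') -
        (m ^ (ℓ - 1) * (Q ℓ).eval m - US u ℓ m * Q') := by ring
    rw [h6]
    exact dvd_sub (Dvd.dvd.mul_left h4 _) hQ3
  have hcop : IsCoprime ((ℓ : ℤ) ^ 2) Q' :=
    (((Nat.prime_iff_prime_int.1 hℓ).coprime_iff_not_dvd).2 hQ2).pow_left
  exact hcop.dvd_of_dvd_mul_right h5

end Pool.Agent.LibZP46
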