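import Pool.Agent.LibZP46.B6
import Pool.Agent.LibZP46.C2
import Pool.Agent.LibZP46.C3
import Pool.Agent.LibZP46.C4
import Pool.Agent.LibZP46.E2

/-!
ZP46 B7. `z2 = ∑ uu n x ^ n`, and the sequence `uu` has the properties `SeqOK`.

Plan. `uu_series`: `series_of_ode` with `Q6`, `R6`, `uu_ode`, `xS_ode1`, `xS_ode2`, `D6_ok`.
`seqOK_uu`: `B = (p - 1) / 2` (`dvd_uu`), `cd 2 (p + 1) = (p + 1) / 2 = cd 2 p` (`p` odd), `uu_prime`
and `uu_one`.
-/

namespace Pool.Agent.LibZP46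

open Polynomial in
private theorem B7_Q (x : PowerSeries ℤ) : aeval x Q6 = 1 - 28 * x - 128 * x ^ 2 := by
  have h1 : aeval x (28 : ℤ[X]) = 28 := map_ofNat (aeval x) 28
  have h2 : aeval x (128 : ℤ[X]) = 128 := map_ofNat (aeval x) 128
  simp only [Q6, map_sub, map_mul, map_pow, map_one, aeval_X, h1, h2]

open Polynomial in
private theorem B7_R (x : PowerSeries ℤ) : aeval x R6 = 8 * x + 96 * x ^ 2 := by
  have h1 : aeval x (8 : ℤ[X]) = 8 := map_ofNat (aeval x) 8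
  have h2 : aeval x (96 : ℤ[X]) = 96 := map_ofNat (aeval x) 96
  simp only [R6, map_add, map_mul, map_pow, aeval_X, h1, h2]

theorem uu_series (m : ℕ) : PowerSeries.X ^ (m + 1) ∣
    D6.zS - ∑ n ∈ Finset.range (m + 1), PowerSeries.C ((uu n : ℕ) : ℤ) * D6.xS ^ n := by
  refine series_of_ode Q6 R6 Q6_coeff_zero R6_coeff_zero D6.zS D6.xS D6_ok.z0 D6_ok.xS0 D6_ok.xS1
    ?_ ?_ (fun n => (uu n : ℤ)) ?_ uu_ode m
  · rw [B7_Q]
    exact xS_ode1
  · rw [B7_R]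
    exact xS_ode2
  · rw [uu_zero]
    rfl

theorem seqOK_uu (p : ℕ) (hp : p.Prime) (h5 : 5 ≤ p) : SeqOK D6 (fun n => (uu n : ℤ)) p := by
  have hodd : p % 2 = 1 := by
    rcases hp.eq_two_or_odd with h | h
    · omega
    · exact h
  refine ⟨uu_series, ⟨(p - 1) / 2, fun n h1 h2 => ?_, ?_⟩, ?_, ?_, ?_⟩
  · exact_mod_cast dvd_uu p n hp h2 (by omega)
  · change (p + 1 + 2 - 1) / 2 + (p - 1) / 2 ≤ p
    omega
  · rw [uu_one]
    exact uu_prime p hp
  · change (p + 2 - 1) / 2 = (p + 1 + 2 - 1) / 2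
    omega
  · change (p + 2 - 1) / 2 < p
    omega

end Pool.Agent.LibZP46
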