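import Pool.Agent.LibZP46.Defs

/-!
ZP46 C1. The recurrences of the Franel numbers (Zeilberger) and of `uu`.

Plan. Work over `ℚ` or `ℤ`. For fixed `n` put
`Q k = (n+1)^2 (4 k^3 - (18 n + 30) k^2 + (27 n^2 + 93 n + 78) k - (14 n^3 + 74 n^2 + 128 n + 72))`.
For all `k` (in `ℚ`, with `C(n+1, -1) = 0`):
`(n+2)^2 C(n+2,k)^3 - (7 (n+1)^2 + 7 (n+1) + 2) C(n+1,k)^3 - 8 (n+1)^2 C(n,k)^3 = G (k+1) - G k`,
`G k = Q k * C(n+1,k-1)^3 / (n+1)^3`. (For `k ≤ n` express all in `C(n,k)`: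
`C(n+1,k) = C(n,k) (n+1)/(n+1-k)`, `C(n+2,k) = C(n,k) (n+1)(n+2)/((n+1-k)(n+2-k))`,
`C(n+1,k-1) = C(n,k) (n+1) k / ((n+1-k)(n+2-k))`, and for `k = n+1`, `k = n+2` directly; the
identity of polynomials is
`(n+2)^5 (n+1)^3 - (7 (n+1)^2 + 7 (n+1) + 2) (n+1)^3 (n+2-k)^3 - 8 (n+1)^2 ((n+1-k)(n+2-k))^3
 = Q (k+1) (n+2-k)^3 - k^3 Q k`.)
Sum over `0 ≤ k ≤ n + 2`: `G 0 = 0`, `G (n+3) = 0`. `uu_rec`: with
`(n+1) C(2n+2,n+1) = 2 (2n+1) C(2n,n)` (`Nat.succ_mul_centralBinom_succ`).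
-/

namespace Pool.Agent.LibZP46

private def QQf (n k : ℚ) : ℚ :=
  (n+1)^2 * (4 * k^3 - (18 * n + 30) * k^2 + (27 * n^2 + 93 * n + 78) * k
    - (14 * n^3 + 74 * n^2 + 128 * n + 72))

private def GGf (n : ℕ) : ℕ → ℚ
  | 0 => 0
  | k + 1 => QQf n (k + 1) * ((n + 1).choose k : ℚ) ^ 3 / ((n : ℚ) + 1) ^ 3

private def ff (n k : ℕ) : ℚ :=
  ((n : ℚ) + 2) ^ 2 * ((n + 2).choose k : ℚ) ^ 3
    - (7 * ((n : ℚ) + 1) ^ 2 + 7 * (n + 1) + 2) * ((n + 1).choose k : ℚ) ^ 3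
    - 8 * ((n : ℚ) + 1) ^ 2 * (n.choose k : ℚ) ^ 3

private theorem ff_zero (n : ℕ) : ff n 0 = GGf n 1 - GGf n 0 := by
  have h : ((n : ℚ) + 1) ≠ 0 := by positivity
  simp only [ff, GGf, QQf, Nat.choose_zero_right, Nat.cast_one, Nat.cast_zero]
  field_simp
  ring

private theorem ff_last (n : ℕ) : ff n (n + 2) = GGf n (n + 3) - GGf n (n + 2) := by
  have h : ((n : ℚ) + 1) ≠ 0 := by positivity
  have h1 : (n + 1).choose (n + 2) = 0 := Nat.choose_eq_zero_of_lt (by omega)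
  have h2 : n.choose (n + 2) = 0 := Nat.choose_eq_zero_of_lt (by omega)
  simp only [ff, GGf, QQf, Nat.choose_self, h1, h2]
  push_cast
  field_simp
  ring

private theorem ff_mid (j m : ℕ) :
    ff (j + m) (j + 1) = GGf (j + m) (j + 2) - GGf (j + m) (j + 1) := by
  have h : ((j : ℚ) + m + 1) ≠ 0 := by positivity
  have hj : ((j : ℚ) + 1) ≠ 0 := by positivity
  have hm : ((m : ℚ) + 1) ≠ 0 := by positivity
  set x : ℚ := ((j + m).choose j : ℚ) with hx
  have e1 : ((j + m + 1).choose (j + 1) : ℚ) = x * (j + m + 1) / (j + 1) := by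
    have := Nat.add_one_mul_choose_eq (j + m) j
    have h' : ((j + m + 1 : ℕ) : ℚ) * ((j + m).choose j : ℚ)
      = ((j + m + 1).choose (j + 1) : ℚ) * ((j + 1 : ℕ) : ℚ) := by exact_mod_cast this
    push_cast at h'
    rw [eq_div_iff hj, ← h', hx]
    ring
  have e2 : ((j + m + 1).choose j : ℚ) = x * (j + m + 1) / (m + 1) := by
    have := Nat.choose_mul_succ_eq (j + m) j
    rw [show j + m + 1 - j = m + 1 by omega] at this
    have h' : ((j + m).choose j : ℚ) * ((j + m + 1 : ℕ) : ℚ)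
      = ((j + m + 1).choose j : ℚ) * ((m + 1 : ℕ) : ℚ) := by exact_mod_cast this
    push_cast at h'
    rw [eq_div_iff hm, ← h', hx]
  have e3 : ((j + m).choose (j + 1) : ℚ) = x * m / (j + 1) := by
    have h' : ((j + m + 1).choose (j + 1) : ℚ)
        = ((j + m).choose j : ℚ) + ((j + m).choose (j + 1) : ℚ) := by
      rw [Nat.choose_succ_succ' (j + m) j]; push_cast; ring
    rw [e1, ← hx] at h'
    rw [eq_div_iff hj]
    field_simp at h'
    linarith
  have e4 : ((j + m + 2).choose (j + 1) : ℚ)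
      = x * (j + m + 1) * (j + m + 2) / ((m + 1) * (j + 1)) := by
    have h' : ((j + m + 2).choose (j + 1) : ℚ)
        = ((j + m + 1).choose j : ℚ) + ((j + m + 1).choose (j + 1) : ℚ) := by
      rw [Nat.choose_succ_succ' (j + m + 1) j]; push_cast; ring
    rw [h', e1, e2]
    field_simp
    ring
  simp only [ff, GGf, QQf]
  rw [e1, e2, e3, e4]
  push_cast
  field_simp
  ring

private theorem ff_all (n k : ℕ) (hk : k < n + 3) : ff n k = GGf n (k + 1) - GGf n k := by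
  rcases Nat.eq_zero_or_pos k with rfl | hk0
  · exact ff_zero n
  · rcases Nat.lt_or_ge k (n + 2) with h | h
    · obtain ⟨j, rfl⟩ := Nat.exists_eq_add_of_le' hk0
      obtain ⟨m, rfl⟩ := Nat.exists_eq_add_of_le (show j ≤ n by omega)
      exact ff_mid j m
    · obtain rfl : k = n + 2 := by omega
      exact ff_last n

private theorem ff_sum (n : ℕ) : ∑ k ∈ Finset.range (n + 3), ff n k = 0 := by
  rw [Finset.sum_congr rfl (fun k hk => ff_all n k (Finset.mem_range.mp hk)),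
    Finset.sum_range_sub]
  have h1 : (n + 1).choose (n + 2) = 0 := Nat.choose_eq_zero_of_lt (by omega)
  simp [GGf, h1]

private theorem fr_ext (n N : ℕ) (h : n + 1 ≤ N) :
    (franel n : ℚ) = ∑ k ∈ Finset.range N, (n.choose k : ℚ) ^ 3 := by
  unfold franel
  push_cast
  apply Finset.sum_subset (Finset.range_mono h)
  intro k _ hk
  rw [Finset.mem_range, not_lt] at hk
  rw [Nat.choose_eq_zero_of_lt (by omega)]
  simp

theorem franel_rec (n : ℕ) : ((n : ℤ) + 2) ^ 2 * franel (n + 2) =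
    (7 * ((n : ℤ) + 1) ^ 2 + 7 * (n + 1) + 2) * franel (n + 1) +
      8 * ((n : ℤ) + 1) ^ 2 * franel n := by
  have key : ((n : ℚ) + 2) ^ 2 * franel (n + 2) =
    (7 * ((n : ℚ) + 1) ^ 2 + 7 * (n + 1) + 2) * franel (n + 1) +
      8 * ((n : ℚ) + 1) ^ 2 * franel n := by
    have h := ff_sum n
    simp only [ff] at h
    rw [Finset.sum_sub_distrib, Finset.sum_sub_distrib, ← Finset.mul_sum, ← Finset.mul_sum,
      ← Finset.mul_sum, ← fr_ext (n + 2) (n + 3) (by omega), ← fr_ext (n + 1) (n + 3) (by omega),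
      ← fr_ext n (n + 3) (by omega)] at h
    linarith
  exact_mod_cast key

theorem uu_rec (n : ℕ) : ((n : ℤ) + 2) ^ 3 * uu (n + 2) =
    2 * (2 * (n : ℤ) + 3) * (7 * ((n : ℤ) + 1) ^ 2 + 7 * (n + 1) + 2) * uu (n + 1) +
      32 * ((n : ℤ) + 1) * (4 * ((n : ℤ) + 1) ^ 2 - 1) * uu n := by
  have h := franel_rec n
  have c1 : ((n : ℤ) + 1) * ((2 * (n + 1)).choose (n + 1) : ℕ)
      = 2 * (2 * n + 1) * ((2 * n).choose n : ℕ) := by
    have := Nat.succ_mul_centralBinom_succ n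
    simp only [Nat.centralBinom] at this
    exact_mod_cast this
  have c2 : ((n : ℤ) + 2) * ((2 * (n + 2)).choose (n + 2) : ℕ)
      = 2 * (2 * n + 3) * ((2 * (n + 1)).choose (n + 1) : ℕ) := by
    have := Nat.succ_mul_centralBinom_succ (n + 1)
    simp only [Nat.centralBinom] at this
    have h' : ((n + 1 + 1 : ℕ) : ℤ) * ((2 * (n + 2)).choose (n + 2) : ℕ)
      = 2 * (2 * (n + 1 : ℕ) + 1 : ℤ) * ((2 * (n + 1)).choose (n + 1) : ℕ) := by
      exact_mod_cast this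
    push_cast at h'
    rw [show ((n : ℤ) + 2) = n + 1 + 1 by ring, h']
    ring
  unfold uu
  push_cast
  calc ((n : ℤ) + 2) ^ 3 * (((2 * (n + 2)).choose (n + 2) : ℕ) * (franel (n + 2) : ℤ))
      = (((n : ℤ) + 2) * ((2 * (n + 2)).choose (n + 2) : ℕ))
          * (((n : ℤ) + 2) ^ 2 * franel (n + 2)) := by ring
    _ = (2 * (2 * n + 3) * ((2 * (n + 1)).choose (n + 1) : ℕ))
          * ((7 * ((n : ℤ) + 1) ^ 2 + 7 * (n + 1) + 2) * franel (n + 1) +
      8 * ((n : ℤ) + 1) ^ 2 * franel n) := by rw [c2, h]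
    _ = 2 * (2 * n + 3) * (7 * ((n : ℤ) + 1) ^ 2 + 7 * (n + 1) + 2)
          * (((2 * (n + 1)).choose (n + 1) : ℕ) * franel (n + 1))
        + 16 * (2 * n + 3) * (n + 1) * (((n : ℤ) + 1) * ((2 * (n + 1)).choose (n + 1) : ℕ))
          * franel n := by ring
    _ = _ := by rw [c1]; ring

theorem uu_zero : uu 0 = 1 := by
  decide

theorem uu_one : uu 1 = 4 := by
  decide

end Pool.Agent.LibZP46
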