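import Pool.Agent.LibZP46.A0

/-!
ZP46 D1. Integer matrices of determinant divisible by `ℓ`: cosets.

Plan. `exists_factor`: `M = (a, b; c, d)`, `a d - b c ≡ 0` mod `ℓ`. If `ℓ ∣ a` and `ℓ ∣ c` take
`i = none`, `X = (a/ℓ, b; c/ℓ, d)`. Otherwise there is `j` (`0 ≤ j < ℓ`) with `b ≡ j a`, `d ≡ j c`
mod `ℓ` (`j = b / a` or `d / c` in `ZMod ℓ`), `i = some j`, `X = (a, (b - j a)/ℓ; c, (d - j c)/ℓ)`.
The divisibilities are kept: `e ∣ a`, `e ∣ N ∣ c`, `e ∣ d`, and `ℓ` is prime to `e` and `N`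
(`IsCoprime.dvd_of_dvd_mul_left`). `factor_unique`: `X.det * (MM i) * (MM i')⁻¹` would be integral;
explicitly compare the entries of `X * MM i = X' * MM i'` (e.g. `i = none`, `i' = some j`: the first
column of the left side is divisible by `ℓ`, so `ℓ` divides the first column of `X'` and `X'.det`;
`i = some j`, `i' = some j'`: the first columns of `X`, `X'` agree, and
`ℓ ∣ (j - j') * (first column)`, so `ℓ ∣ j - j'`).
`exists_perm`: `MM i * W` is in `ALM N e ℓ` (`alm_MM_mul`), so `exists_factor` with `n = 1` gives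
`σ i` and `W'`. Injective: from `MM i * W = W' * MM k`, `MM i' * W = W'' * MM k` multiply by the
adjugates: `adj W' * MM i * W = e * MM k = adj W'' * MM i' * W`, cancel `W` (determinant `e ≠ 0`),
and use `factor_unique` (`ℓ ∤ e`). An injective self-map of a finite type is a bijection.
-/

namespace Pool.Agent.LibZP46

theorem alm_mul {N e n : ℤ} (he : e ∣ N) {W M : Mat} (hW : ALM N 1 n W) (hM : ALM N e 1 M) :
    ALM N e n (W * M) := by
  refine ⟨?_, ?_, ?_, ?_⟩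
  · rw [Matrix.mul_apply, Fin.sum_univ_two]
    exact dvd_add (Dvd.dvd.mul_left hM.h00 _) (Dvd.dvd.mul_left (he.trans hM.h10) _)
  · rw [Matrix.mul_apply, Fin.sum_univ_two]
    exact dvd_add (Dvd.dvd.mul_right hW.h10 _) (Dvd.dvd.mul_left hM.h10 _)
  · rw [Matrix.mul_apply, Fin.sum_univ_two]
    exact dvd_add (Dvd.dvd.mul_right (he.trans hW.h10) _) (Dvd.dvd.mul_left hM.h11 _)
  · rw [Matrix.det_mul, hW.hdet, hM.hdet]
    ring

theorem det_MM (ℓ : ℕ) (i : Option (Fin ℓ)) : (MM ℓ i).det = (ℓ : ℤ) := by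
  cases i <;> simp [MM, Matrix.det_fin_two]

theorem alm_MM (N : ℤ) (ℓ : ℕ) (i : Option (Fin ℓ)) : ALM N 1 (ℓ : ℤ) (MM ℓ i) := by
  refine ⟨one_dvd _, ?_, one_dvd _, ?_⟩
  · cases i <;> simp [MM]
  · rw [det_MM, one_mul]

theorem alm_MM_mul {N e n : ℤ} (he : e ∣ N) (ℓ : ℕ) (i : Option (Fin ℓ)) {M : Mat}
    (hM : ALM N e n M) : ALM N e (ℓ * n) (MM ℓ i * M) := by
  refine ⟨?_, ?_, ?_, ?_⟩
  · rw [Matrix.mul_apply, Fin.sum_univ_two]
    exact dvd_add (Dvd.dvd.mul_left hM.h00 _) (Dvd.dvd.mul_left (he.trans hM.h10) _)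
  · have h : (MM ℓ i) 1 0 = 0 := by cases i <;> simp [MM]
    rw [Matrix.mul_apply, Fin.sum_univ_two, h, zero_mul, zero_add]
    exact Dvd.dvd.mul_left hM.h10 _
  · have h : (MM ℓ i) 1 0 = 0 := by cases i <;> simp [MM]
    rw [Matrix.mul_apply, Fin.sum_univ_two, h, zero_mul, zero_add]
    exact Dvd.dvd.mul_left hM.h11 _
  · rw [Matrix.det_mul, det_MM, hM.hdet]
    ring

private theorem D1_copr {ℓ : ℕ} (hℓ : ℓ.Prime) {N : ℤ} (hN : ¬ (ℓ : ℤ) ∣ N) : IsCoprime N (ℓ : ℤ) := by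
  have hp : Prime (ℓ : ℤ) := Nat.prime_iff_prime_int.1 hℓ
  exact ((Prime.coprime_iff_not_dvd hp).2 hN).symm

/-- the residue `j` -/
private theorem D1_res {ℓ : ℕ} (hℓ : ℓ.Prime) {a b c d : ℤ} (h : (ℓ : ℤ) ∣ a * d - b * c)
    (hac : ¬ ((ℓ : ℤ) ∣ a ∧ (ℓ : ℤ) ∣ c)) : ∃ (j : Fin ℓ) (b' d' : ℤ), b = (j : ℕ) * a + ℓ * b' ∧ d = (j : ℕ) * c + ℓ * d' := by
  have hℓ0 : (0 : ℤ) < ℓ := by exact_mod_cast hℓ.pos
  have hred : ∀ t : ℤ, (ℓ : ℤ) ∣ b - t * a → (ℓ : ℤ) ∣ d - t * c →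
      ∃ (j : Fin ℓ) (b' d' : ℤ), b = (j : ℕ) * a + ℓ * b' ∧ d = (j : ℕ) * c + ℓ * d' := by
    intro t h1 h2
    have h3 : 0 ≤ t % ℓ := Int.emod_nonneg _ hℓ0.ne'
    have h4 : t % ℓ < ℓ := Int.emod_lt_of_pos _ hℓ0
    have h5 : ((t % ℓ).toNat : ℤ) = t % ℓ := Int.toNat_of_nonneg h3
    have h6 : (t % ℓ).toNat < ℓ := by
      have : ((t % ℓ).toNat : ℤ) < ℓ := by rw [h5]; exact h4
      exact_mod_cast this
    have h7 : t = ℓ * (t / ℓ) + t % ℓ := (Int.mul_ediv_add_emod t ℓ).symm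
    obtain ⟨x, hx⟩ := h1
    obtain ⟨y, hy⟩ := h2
    refine ⟨⟨(t % ℓ).toNat, h6⟩, x + (t / ℓ) * a, y + (t / ℓ) * c, ?_, ?_⟩
    · show b = (((t % ℓ).toNat : ℕ) : ℤ) * a + _
      rw [h5]
      linear_combination hx + a * h7
    · show d = (((t % ℓ).toNat : ℕ) : ℤ) * c + _
      rw [h5]
      linear_combination hy + c * h7
  obtain ⟨k, hk⟩ := h
  by_cases ha : (ℓ : ℤ) ∣ a
  · have hc : ¬ (ℓ : ℤ) ∣ c := fun hc => hac ⟨ha, hc⟩
    obtain ⟨x, y, hxy⟩ := D1_copr hℓ hc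
    refine hred (d * x) ⟨b * y - x * k, ?_⟩ ⟨d * y, ?_⟩
    · linear_combination (-b) * hxy - x * hk
    · linear_combination (-d) * hxy
  · obtain ⟨x, y, hxy⟩ := D1_copr hℓ ha
    refine hred (b * x) ⟨b * y, ?_⟩ ⟨d * y + x * k, ?_⟩
    · linear_combination (-b) * hxy
    · linear_combination (-d) * hxy + x * hk

theorem exists_factor {N e n : ℤ} (ℓ : ℕ) (hℓ : ℓ.Prime) (hN : ¬ (ℓ : ℤ) ∣ N) (he : e ∣ N)
    {M : Mat} (hM : ALM N e (ℓ * n) M) :
    ∃ (i : Option (Fin ℓ)) (X : Mat), ALM N e n X ∧ M = X * MM ℓ i := by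
  have hℓ0 : (ℓ : ℤ) ≠ 0 := by exact_mod_cast hℓ.ne_zero
  have hNc : IsCoprime N (ℓ : ℤ) := D1_copr hℓ hN
  have hec : IsCoprime e (ℓ : ℤ) := D1_copr hℓ fun h => hN (h.trans he)
  have hdet : M 0 0 * M 1 1 - M 0 1 * M 1 0 = e * (ℓ * n) := by
    rw [← Matrix.det_fin_two]; exact hM.hdet
  by_cases hac : (ℓ : ℤ) ∣ M 0 0 ∧ (ℓ : ℤ) ∣ M 1 0
  · obtain ⟨⟨a', ha'⟩, ⟨c', hc'⟩⟩ := hac
    refine ⟨none, !![a', M 0 1; c', M 1 1], ⟨?_, ?_, ?_, ?_⟩, ?_⟩
    · have h1 := hM.h00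
      rw [ha'] at h1
      exact hec.dvd_of_dvd_mul_left h1
    · have h1 := hM.h10
      rw [hc'] at h1
      exact hNc.dvd_of_dvd_mul_left h1
    · exact hM.h11
    · rw [Matrix.det_fin_two]
      show a' * M 1 1 - M 0 1 * c' = e * n
      apply mul_left_cancel₀ hℓ0
      rw [ha', hc'] at hdet
      linear_combination hdet
    · ext p q
      fin_cases p <;> fin_cases q <;> simp [MM, Matrix.mul_apply, Fin.sum_univ_two, ha', hc', mul_comm]
  · obtain ⟨j, b', d', hb', hd'⟩ := D1_res hℓ (a := M 0 0) (b := M 0 1) (c := M 1 0) (d := M 1 1)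
      ⟨e * n, by rw [hdet]; ring⟩ hac
    refine ⟨some j, !![M 0 0, b'; M 1 0, d'], ⟨hM.h00, hM.h10, ?_, ?_⟩, ?_⟩
    · have h1 : e ∣ ℓ * d' := by
        have h2 : (ℓ : ℤ) * d' = M 1 1 - (j : ℕ) * M 1 0 := by rw [hd']; ring
        rw [h2]
        exact dvd_sub hM.h11 (Dvd.dvd.mul_left (he.trans hM.h10) _)
      exact hec.dvd_of_dvd_mul_left h1
    · rw [Matrix.det_fin_two]
      show M 0 0 * d' - b' * M 1 0 = e * n
      apply mul_left_cancel₀ hℓ0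
      linear_combination hdet - M 0 0 * hd' + M 1 0 * hb'
    · ext p q
      fin_cases p <;> fin_cases q
      · simp [MM, Matrix.mul_apply, Fin.sum_univ_two]
      · simp only [MM, Matrix.mul_apply, Fin.sum_univ_two]
        simp
        linear_combination hb'
      · simp [MM, Matrix.mul_apply, Fin.sum_univ_two]
      · simp only [MM, Matrix.mul_apply, Fin.sum_univ_two]
        simp
        linear_combination hd'

private theorem D1_not_both {ℓ : ℕ} {X : Mat} (h : ¬ (ℓ : ℤ) ∣ X.det) : ¬ ((ℓ : ℤ) ∣ X 0 0 ∧ (ℓ : ℤ) ∣ X 1 0) := by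
  rintro ⟨h1, h2⟩
  apply h
  rw [Matrix.det_fin_two]
  exact dvd_sub (Dvd.dvd.mul_right h1 _) (Dvd.dvd.mul_left h2 _)

theorem factor_unique (ℓ : ℕ) (hℓ : ℓ.Prime) {X X' : Mat} (h : ¬ (ℓ : ℤ) ∣ X.det)
    (h' : ¬ (ℓ : ℤ) ∣ X'.det) (i i' : Option (Fin ℓ)) (he : X * MM ℓ i = X' * MM ℓ i') :
    i = i' := by
  have e00 := congrFun (congrFun he 0) 0
  have e01 := congrFun (congrFun he 0) 1
  have e10 := congrFun (congrFun he 1) 0
  have e11 := congrFun (congrFun he 1) 1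
  cases i with
  | none =>
    cases i' with
    | none => rfl
    | some j =>
      exfalso
      simp [MM, Matrix.mul_apply, Fin.sum_univ_two] at e00 e10
      exact D1_not_both h' ⟨⟨X 0 0, by rw [← e00]; ring⟩, ⟨X 1 0, by rw [← e10]; ring⟩⟩
  | some j =>
    cases i' with
    | none =>
      exfalso
      simp [MM, Matrix.mul_apply, Fin.sum_univ_two] at e00 e10
      exact D1_not_both h ⟨⟨X' 0 0, by rw [e00]; ring⟩, ⟨X' 1 0, by rw [e10]; ring⟩⟩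
    | some j' =>
      simp [MM, Matrix.mul_apply, Fin.sum_univ_two] at e00 e10 e01 e11
      have hp : Prime (ℓ : ℤ) := Nat.prime_iff_prime_int.1 hℓ
      have h1 : (ℓ : ℤ) ∣ (((j : ℕ) : ℤ) - ((j' : ℕ) : ℤ)) * X 0 0 := ⟨X' 0 1 - X 0 1, by
        rw [← e00] at e01
        linear_combination e01⟩
      have h2 : (ℓ : ℤ) ∣ (((j : ℕ) : ℤ) - ((j' : ℕ) : ℤ)) * X 1 0 := ⟨X' 1 1 - X 1 1, by
        rw [← e10] at e11
        linear_combination e11⟩
      have h3 : (ℓ : ℤ) ∣ ((j : ℕ) : ℤ) - ((j' : ℕ) : ℤ) := by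
        rcases hp.dvd_or_dvd h1 with h4 | h4
        · exact h4
        · rcases hp.dvd_or_dvd h2 with h5 | h5
          · exact h5
          · exact absurd ⟨h4, h5⟩ (D1_not_both h)
      obtain ⟨t, ht⟩ := h3
      have hj := j.2
      have hj' := j'.2
      have ht0 : t = 0 := by
        have b1 : ((j : ℕ) : ℤ) < ℓ := by exact_mod_cast hj
        have b2 : ((j' : ℕ) : ℤ) < ℓ := by exact_mod_cast hj'
        have b3 : (0 : ℤ) ≤ ((j : ℕ) : ℤ) := Int.natCast_nonneg _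
        have b4 : (0 : ℤ) ≤ ((j' : ℕ) : ℤ) := Int.natCast_nonneg _
        by_contra hne
        rcases lt_or_gt_of_ne hne with h6 | h6
        · have : (ℓ : ℤ) * t ≤ ℓ * (-1) := mul_le_mul_of_nonneg_left (by omega) (by omega)
          omega
        · have : (ℓ : ℤ) * 1 ≤ ℓ * t := mul_le_mul_of_nonneg_left (by omega) (by omega)
          omega
      rw [ht0, mul_zero] at ht
      have h7 : (j : ℕ) = (j' : ℕ) := by omega
      rw [Fin.ext h7]

theorem exists_perm {N e : ℤ} (ℓ : ℕ) (hℓ : ℓ.Prime) (hN : ¬ (ℓ : ℤ) ∣ N) (he : e ∣ N)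
    (he0 : 0 < e) {W : Mat} (hW : ALM N e 1 W) :
    ∃ σ : Equiv.Perm (Option (Fin ℓ)), ∀ i, ∃ W' : Mat, ALM N e 1 W' ∧
      MM ℓ i * W = W' * MM ℓ (σ i) := by
  have hℓe : ¬ (ℓ : ℤ) ∣ e := fun h => hN (h.trans he)
  have h1 : ∀ i, ∃ (k : Option (Fin ℓ)) (X : Mat), ALM N e 1 X ∧ MM ℓ i * W = X * MM ℓ k := fun i =>
    exists_factor ℓ hℓ hN he (alm_MM_mul he ℓ i hW)
  choose σ X hX hE using h1
  have hinj : Function.Injective σ := by
    intro i i' hii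
    have a1 : ∀ i, (X i).adjugate * MM ℓ i * W = e • MM ℓ (σ i) := by
      intro i
      rw [Matrix.mul_assoc, hE i, ← Matrix.mul_assoc, Matrix.adjugate_mul, (hX i).hdet, mul_one,
        Matrix.smul_mul, Matrix.one_mul]
    have a2 : (X i).adjugate * MM ℓ i * W = (X i').adjugate * MM ℓ i' * W := by
      rw [a1 i, a1 i', hii]
    have a3 : (X i).adjugate * MM ℓ i = (X i').adjugate * MM ℓ i' := by
      have a4 := congrArg (fun A : Mat => A * W.adjugate) a2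
      simp only [Matrix.mul_assoc _ W, Matrix.mul_adjugate, hW.hdet, mul_one] at a4
      rw [Matrix.mul_smul, Matrix.mul_smul, Matrix.mul_one, Matrix.mul_one] at a4
      ext p q
      have a5 := congrFun (congrFun a4 p) q
      rw [Matrix.smul_apply, Matrix.smul_apply, smul_eq_mul, smul_eq_mul] at a5
      exact mul_left_cancel₀ he0.ne' a5
    have a6 : ∀ i, ¬ (ℓ : ℤ) ∣ (X i).adjugate.det := by
      intro i
      rw [Matrix.det_adjugate, (hX i).hdet]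
      simpa using hℓe
    exact factor_unique ℓ hℓ (a6 i) (a6 i') i i' a3
  refine ⟨Equiv.ofBijective σ (Finite.injective_iff_bijective.1 hinj), fun i => ⟨X i, hX i, hE i⟩⟩

end Pool.Agent.LibZP46
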