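import Pool.Agent.LibZP46.D5
import Pool.Agent.LibZP46.A9

/-!
ZP46 D9. The congruence between the Hecke polynomial and the truncated series (formal part).

Plan. Reduce modulo `ℓ` first: `exd ℓ z ≡ z ^ ℓ` (`exd_congr`), `θ ≡ z`, so `F2` gives
`aeval x P' * z ^ (ℓ + 1) ≡ z ^ (ℓ + 1)`, `z` is a unit, `aeval x (P' - 1) ≡ 0`, so `P' ≡ 1` modulo
`ℓ` (`C_dvd_of_aeval`). Modulo `ℓ ^ 2`: `F1` gives `aeval x P * z ^ ℓ ≡ θ` (the other term is
divisible by `ℓ ^ 2`); multiply by `exd ℓ z`, use `F2` and cancel `z ^ ℓ`: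
`aeval x P * exd ℓ z ≡ aeval x P' * z` modulo `ℓ ^ 2`. Modulo `X ^ (ℓ + 1)`:
`exd ℓ z ≡ 1 + u 1 X ^ ℓ ≡ 1 + u 1 x ^ ℓ` (the coefficient of `X` in `z` is `u 1`, by `hu` with
`m = 1`), and `z ≡ ∑_{n ≤ ℓ} u n x ^ n`. So, over `ZMod (ℓ ^ 2)`, `X ^ (ℓ + 1)` divides
`aeval x (P (1 + u 1 X ^ ℓ) - P' ∑_{n ≤ ℓ} u n X ^ n)` and by `X_pow_dvd_of_aeval` it divides the
polynomial. Let `S = ∑_{n < ℓ} u n X ^ n`. Modulo `ℓ ^ 2`: `P' S = S + (P' - 1) S`, where
`P' - 1 ≡ 0` modulo `ℓ` and `S` is modulo `ℓ` of degree at most `B`: so `P' S` has degree at most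
`ℓ` modulo `ℓ ^ 2`. The coefficients of `X ^ n`, `n < ℓ`, of `P` and `P' S` agree; the coefficient
of `X ^ ℓ`: `P 0 * u 1 ≡ (P' S)_ℓ + P' 0 * u ℓ`, `P 0 ≡ P' 0 * u 0 = P' 0`, `u ℓ ≡ u 1`, so
`(P' S)_ℓ ≡ 0`.
-/

namespace Pool.Agent.LibZP46

open Polynomial

private lemma D9_unit (z : PowerSeries ℤ) (hz0 : PowerSeries.constantCoeff z = 1) (k : ℕ) :
    IsUnit (z ^ k) := by
  apply IsUnit.pow
  rw [PowerSeries.isUnit_iff_constantCoeff, hz0]
  exact isUnit_one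

private lemma D9_xpow (x : PowerSeries ℤ) (hx0 : PowerSeries.constantCoeff x = 0)
    (hx1 : PowerSeries.coeff 1 x = 1) (ℓ m : ℕ) (hm : m ≤ ℓ) :
    PowerSeries.coeff m (x ^ ℓ) = if m = ℓ then 1 else 0 := by
  obtain ⟨y, rfl⟩ := PowerSeries.X_dvd_iff.mpr hx0
  have hy : PowerSeries.constantCoeff y = 1 := by
    have h := PowerSeries.coeff_succ_X_mul 0 y
    rw [zero_add, hx1] at h
    rw [← PowerSeries.coeff_zero_eq_constantCoeff_apply]
    exact h.symm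
  rw [mul_pow, PowerSeries.coeff_X_pow_mul']
  by_cases h : m = ℓ
  · subst h
    rw [if_pos le_rfl, if_pos rfl, Nat.sub_self, PowerSeries.coeff_zero_eq_constantCoeff_apply,
      map_pow, hy, one_pow]
  · rw [if_neg (by omega), if_neg h]

private lemma D9_u (z x : PowerSeries ℤ) (hz0 : PowerSeries.constantCoeff z = 1)
    (hx0 : PowerSeries.constantCoeff x = 0) (hx1 : PowerSeries.coeff 1 x = 1) (u : ℕ → ℤ)
    (hu : PowerSeries.X ^ (1 + 1) ∣
      z - ∑ n ∈ Finset.range (1 + 1), PowerSeries.C (u n) * x ^ n) :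
    u 0 = 1 ∧ PowerSeries.coeff 1 z = u 1 := by
  rw [PowerSeries.X_pow_dvd_iff] at hu
  have h0 := hu 0 (by norm_num)
  have h1 := hu 1 (by norm_num)
  rw [Finset.sum_range_succ, Finset.sum_range_one, pow_zero, mul_one, pow_one] at h0 h1
  rw [map_sub, map_add, PowerSeries.coeff_C_mul, PowerSeries.coeff_C] at h0 h1
  rw [if_pos rfl, PowerSeries.coeff_zero_eq_constantCoeff_apply,
    PowerSeries.coeff_zero_eq_constantCoeff_apply, hz0, hx0] at h0
  rw [if_neg (by norm_num), hx1] at h1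
  constructor
  · linarith
  · linarith

private lemma D9_map {R S : Type*} [CommRing R] [CommRing S] (φ : ℤ →+* R) (x : PowerSeries ℤ)
    (P : ℤ[X]) : PowerSeries.map φ (aeval x P) = aeval (PowerSeries.map φ x) (P.map φ) := by
  exact Polynomial.map_aeval_eq_aeval_map (φ := φ) (ψ := PowerSeries.map φ)
    (RingHom.ext_int _ _) P x

theorem formal_cong (ℓ : ℕ) (hℓ : ℓ.Prime) (B : ℕ) (P P' : ℤ[X]) (z x θ θ₁ : PowerSeries ℤ)
    (hz0 : PowerSeries.constantCoeff z = 1) (hx0 : PowerSeries.constantCoeff x = 0)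
    (hx1 : PowerSeries.coeff 1 x = 1) (u : ℕ → ℤ)
    (hu : ∀ m, PowerSeries.X ^ (m + 1) ∣
      z - ∑ n ∈ Finset.range (m + 1), PowerSeries.C (u n) * x ^ n)
    (F1 : aeval x P * z ^ ℓ = θ + PowerSeries.C ((ℓ : ℤ) ^ 2) * exd ℓ z * θ₁)
    (F2 : aeval x P' * z ^ (ℓ + 1) = exd ℓ z * θ)
    (hθ : PowerSeries.C (ℓ : ℤ) ∣ θ - z)
    (hP : P.natDegree < ℓ) (hP' : P'.natDegree + B ≤ ℓ)
    (hB : ∀ n, B < n → n < ℓ → (ℓ : ℤ) ∣ u n) (hup : (ℓ : ℤ) ^ 2 ∣ u ℓ - u 1) :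
    C (ℓ : ℤ) ∣ P' - 1 ∧
      C ((ℓ : ℤ) ^ 2) ∣ P - P' * ∑ n ∈ Finset.range ℓ, C (u n) * X ^ n := by
  have hℓ2 : 2 ≤ ℓ := hℓ.two_le
  have hunit := D9_unit z hz0
  obtain ⟨hu0, hu1⟩ := D9_u z x hz0 hx0 hx1 u (hu 1)
  -- modulo `ℓ`
  have hfrob := exd_congr ℓ hℓ z
  have h1 : PowerSeries.C (ℓ : ℤ) ∣ aeval x (P' - 1) * z ^ (ℓ + 1) := by
    have e : aeval x (P' - 1) * z ^ (ℓ + 1) =
        (exd ℓ z - z ^ ℓ) * θ + z ^ ℓ * (θ - z) := by
      rw [map_sub, map_one, sub_mul, F2]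
      ring
    rw [e]
    exact dvd_add (Dvd.dvd.mul_right hfrob θ) (Dvd.dvd.mul_left hθ _)
  have h2 : C (ℓ : ℤ) ∣ P' - 1 :=
    C_dvd_of_aeval x hx0 hx1 ℓ (P' - 1) ((IsUnit.dvd_mul_right (hunit (ℓ + 1))).mp h1)
  refine ⟨h2, ?_⟩
  -- modulo `ℓ ^ 2`
  have h3 : PowerSeries.C ((ℓ : ℤ) ^ 2) ∣
      (aeval x P * exd ℓ z - aeval x P' * z) * z ^ ℓ := by
    have e : (aeval x P * exd ℓ z - aeval x P' * z) * z ^ ℓ =
        PowerSeries.C ((ℓ : ℤ) ^ 2) * (exd ℓ z * θ₁ * exd ℓ z) := by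
      have e1 : (aeval x P * exd ℓ z - aeval x P' * z) * z ^ ℓ =
          (aeval x P * z ^ ℓ) * exd ℓ z - aeval x P' * z ^ (ℓ + 1) := by ring
      rw [e1, F1, F2]
      ring
    rw [e]
    exact dvd_mul_right _ _
  obtain ⟨W, hW⟩ := (IsUnit.dvd_mul_right (hunit ℓ)).mp h3
  -- modulo `X ^ (ℓ + 1)`
  have h4 : PowerSeries.X ^ (ℓ + 1) ∣ exd ℓ z - aeval x (1 + C (u 1) * X ^ ℓ : ℤ[X]) := by
    rw [PowerSeries.X_pow_dvd_iff]
    intro m hm
    rw [map_sub, map_add, map_one, map_mul, map_pow, aeval_X, aeval_C, map_add,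
      PowerSeries.algebraMap_apply, Algebra.algebraMap_self, RingHom.id_apply,
      PowerSeries.coeff_C_mul, D9_xpow x hx0 hx1 ℓ m (by omega), PowerSeries.coeff_one]
    unfold exd
    rw [PowerSeries.coeff_mk]
    by_cases hm0 : m = 0
    · subst hm0
      rw [if_pos (dvd_zero ℓ), if_pos rfl, if_neg (by omega), Nat.zero_div,
        PowerSeries.coeff_zero_eq_constantCoeff_apply, hz0]
      ring
    · by_cases hmℓ : m = ℓ
      · subst hmℓ
        rw [if_pos dvd_rfl, if_neg hm0, if_pos rfl, Nat.div_self (by omega), hu1]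
        ring
      · rw [if_neg (fun hd => by
          have := Nat.le_of_dvd (by omega) hd
          omega), if_neg hm0, if_neg hmℓ]
        ring
  obtain ⟨a, ha⟩ := h4
  have h5 : PowerSeries.X ^ (ℓ + 1) ∣
      z - aeval x (∑ n ∈ Finset.range (ℓ + 1), C (u n) * X ^ n : ℤ[X]) := by
    have e : aeval x (∑ n ∈ Finset.range (ℓ + 1), C (u n) * X ^ n : ℤ[X]) =
        ∑ n ∈ Finset.range (ℓ + 1), PowerSeries.C (u n) * x ^ n := by
      rw [map_sum]
      refine Finset.sum_congr rfl fun n _ => ?_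
      rw [map_mul, map_pow, aeval_X, aeval_C, PowerSeries.algebraMap_apply,
        Algebra.algebraMap_self, RingHom.id_apply]
    rw [e]
    exact hu ℓ
  obtain ⟨b, hb⟩ := h5
  set Q1 : ℤ[X] := 1 + C (u 1) * X ^ ℓ with hQ1
  set Q2 : ℤ[X] := ∑ n ∈ Finset.range (ℓ + 1), C (u n) * X ^ n with hQ2
  set R : ℤ[X] := P * Q1 - P' * Q2 with hR
  set φ : ℤ →+* ZMod (ℓ ^ 2) := Int.castRingHom (ZMod (ℓ ^ 2)) with hφ
  have h6 : aeval x R = PowerSeries.C ((ℓ : ℤ) ^ 2) * W -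
      PowerSeries.X ^ (ℓ + 1) * (aeval x P * a - aeval x P' * b) := by
    rw [hR, map_sub, map_mul, map_mul, ← hW]
    have e1 : aeval x Q1 = exd ℓ z - PowerSeries.X ^ (ℓ + 1) * a := by
      rw [← ha]
      ring
    have e2 : aeval x Q2 = z - PowerSeries.X ^ (ℓ + 1) * b := by
      rw [← hb]
      ring
    rw [e1, e2]
    ring
  have hφ0 : φ ((ℓ : ℤ) ^ 2) = 0 := by
    rw [hφ]
    have : ((ℓ : ℤ) ^ 2) = ((ℓ ^ 2 : ℕ) : ℤ) := by push_cast; rfl
    rw [this, eq_intCast, Int.cast_natCast, ZMod.natCast_self]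
  have h7 : PowerSeries.X ^ (ℓ + 1) ∣ aeval (PowerSeries.map φ x) (R.map φ) := by
    rw [← D9_map (S := ℤ) φ x R, h6, map_sub, map_mul, PowerSeries.map_C, hφ0, map_zero, zero_mul,
      zero_sub, map_mul, map_pow, PowerSeries.map_X]
    exact (dvd_neg).mpr (dvd_mul_right _ _)
  have h8 := X_pow_dvd_of_aeval (PowerSeries.map φ x)
    (by
      rw [← PowerSeries.coeff_zero_eq_constantCoeff_apply, PowerSeries.coeff_map,
        PowerSeries.coeff_zero_eq_constantCoeff_apply, hx0, map_zero])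
    (by rw [PowerSeries.coeff_map, hx1, map_one]) (ℓ + 1) (R.map φ) h7
  rw [Polynomial.X_pow_dvd_iff] at h8
  have h9 : ∀ k, k ≤ ℓ → ((ℓ : ℤ) ^ 2) ∣ R.coeff k := by
    intro k hk
    have e := h8 k (by omega)
    rw [Polynomial.coeff_map, hφ, eq_intCast, ZMod.intCast_zmod_eq_zero_iff_dvd] at e
    have e2 : ((ℓ : ℤ) ^ 2) = ((ℓ ^ 2 : ℕ) : ℤ) := by push_cast; rfl
    rw [e2]
    exact e
  -- the coefficients
  set S : ℤ[X] := ∑ n ∈ Finset.range ℓ, C (u n) * X ^ n with hS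
  have hScoeff : ∀ j, S.coeff j = if j < ℓ then u j else 0 := by
    intro j
    rw [hS, Polynomial.finsetSum_coeff]
    simp only [Polynomial.coeff_C_mul, Polynomial.coeff_X_pow, mul_ite, mul_one, mul_zero]
    rw [Finset.sum_ite_eq]
    simp only [Finset.mem_range]
  have hQS : Q2 = S + C (u ℓ) * X ^ ℓ := by
    rw [hQ2, Finset.sum_range_succ]
  have hRe : R = (P - P' * S) + C (u 1) * P * X ^ ℓ - C (u ℓ) * P' * X ^ ℓ := by
    rw [hR, hQS, hQ1]
    ring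
  have hlow : ∀ k, k < ℓ → ((ℓ : ℤ) ^ 2) ∣ (P - P' * S).coeff k := by
    intro k hk
    have e := h9 k hk.le
    rw [hRe, Polynomial.coeff_sub, Polynomial.coeff_add, Polynomial.coeff_mul_X_pow',
      Polynomial.coeff_mul_X_pow', if_neg (by omega), if_neg (by omega), add_zero, sub_zero] at e
    exact e
  have hmid : ((ℓ : ℤ) ^ 2) ∣ (P - P' * S).coeff ℓ := by
    have e := h9 ℓ le_rfl
    rw [hRe, Polynomial.coeff_sub, Polynomial.coeff_add, Polynomial.coeff_mul_X_pow',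
      Polynomial.coeff_mul_X_pow', if_pos le_rfl, if_pos le_rfl, Nat.sub_self,
      Polynomial.coeff_C_mul, Polynomial.coeff_C_mul] at e
    have e0 := hlow 0 (by omega)
    rw [Polynomial.coeff_sub, Polynomial.mul_coeff_zero, hScoeff, if_pos (by omega), hu0,
      mul_one] at e0
    have e1 : (P - P' * S).coeff ℓ =
        ((P - P' * S).coeff ℓ + u 1 * P.coeff 0 - u ℓ * P'.coeff 0) -
          u 1 * (P.coeff 0 - P'.coeff 0) + (u ℓ - u 1) * P'.coeff 0 := by ring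
    rw [e1]
    exact dvd_add (dvd_sub e (Dvd.dvd.mul_left e0 _)) (Dvd.dvd.mul_right hup _)
  have hhigh : ∀ k, ℓ < k → ((ℓ : ℤ) ^ 2) ∣ (P - P' * S).coeff k := by
    intro k hk
    have e1 : (P - P' * S).coeff k = -((P' - 1) * S).coeff k := by
      have e2 : P - P' * S = P - S - (P' - 1) * S := by ring
      rw [e2, Polynomial.coeff_sub, Polynomial.coeff_sub, hScoeff, if_neg (by omega),
        Polynomial.coeff_eq_zero_of_natDegree_lt (by omega : P.natDegree < k)]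
      ring
    rw [e1, Polynomial.coeff_mul]
    apply (dvd_neg).mpr
    apply Finset.dvd_sum
    intro y hy
    rw [Finset.HasAntidiagonal.mem_antidiagonal] at hy
    rw [hScoeff]
    by_cases hy2 : y.2 < ℓ
    · rw [if_pos hy2]
      by_cases hyB : B < y.2
      · rw [pow_two]
        exact mul_dvd_mul ((Polynomial.C_dvd_iff_dvd_coeff _ _).mp h2 y.1) (hB _ hyB hy2)
      · have hy1 : P'.natDegree < y.1 := by omega
        have e3 : (P' - 1).coeff y.1 = 0 := by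
          rw [Polynomial.coeff_sub, Polynomial.coeff_eq_zero_of_natDegree_lt hy1,
            Polynomial.coeff_one, if_neg (by omega), sub_zero]
        rw [e3, zero_mul]
        exact dvd_zero _
    · rw [if_neg hy2, mul_zero]
      exact dvd_zero _
  rw [Polynomial.C_dvd_iff_dvd_coeff]
  intro k
  rcases lt_trichotomy k ℓ with hk | hk | hk
  · exact hlow k hk
  · rw [hk]
    exact hmid
  · exact hhigh k hk

end Pool.Agent.LibZP46
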