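import Pool.Agent.LibZP46.D8
import Pool.Agent.LibZP46.D9

/-!
ZP46 D10. The congruence between the values of the Hecke polynomials and the truncated series.

Plan. Let `d = cd c ℓ = cd c (ℓ + 1)`, `P = reflect d (Q ℓ)`, `Q (ℓ + 1) = ℓ ^ 2 * Q₁`,
`P' = reflect d Q₁`. By `hasQ_ekz`, `hecke_series` and `HasQ.unique`:
`aeval xS P * zS ^ ℓ = θ ℓ + ℓ ^ 2 exd ℓ zS * θ (ℓ - 1)` and (`θ (ℓ + 1) = 0`, cancel `ℓ ^ 2`)
`aeval xS P' * zS ^ (ℓ + 1) = exd ℓ zS * θ ℓ`. Apply `formal_cong`. Then evaluate at `1 / m`: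
for a polynomial `A` of degree at most `d`: `m ^ d * A (1 / m) = (reflect d A) m`
(`Polynomial.eval₂_reflect_mul_pow`, `reflect` is an involution), and
`m ^ (ℓ - 1) * S (1 / m) = US u ℓ m`. Work in `ℤ` by homogenization: from `P - P' S = ℓ ^ 2 * T`,
`T` of degree at most `d + ℓ - 1`, get
`m ^ (ℓ - 1) * (Q ℓ) m - Q₁ m * US u ℓ m = ℓ ^ 2 * (integer)` (multiply the identity at `1 / m` in
`ℚ` by `m ^ (d + ℓ - 1)`). `Q' = Q₁ m`; `¬ ℓ ∣ Q'`: `Q' ≡ m ^ d` modulo `ℓ`.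
-/

namespace Pool.Agent.LibZP46

open Complex Polynomial

variable {D : Dat}

private theorem D10_reflect_sum (u : ℕ → ℤ) (N s : ℕ) :
    (∑ n ∈ Finset.range s, C (u n) * X ^ n : ℤ[X]).reflect N =
      ∑ n ∈ Finset.range s, C (u n) * X ^ (revAt N n) := by
  induction s with
  | zero => simp
  | succ s ih => rw [Finset.sum_range_succ, reflect_add, ih, reflect_C_mul_X_pow, Finset.sum_range_succ]

private theorem D10_US (u : ℕ → ℤ) (ℓ : ℕ) (m : ℤ) :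
    ((∑ n ∈ Finset.range ℓ, C (u n) * X ^ n : ℤ[X]).reflect (ℓ - 1)).eval m = US u ℓ m := by
  rw [D10_reflect_sum, eval_finsetSum]
  unfold US
  refine Finset.sum_congr rfl fun n hn => ?_
  rw [Finset.mem_range] at hn
  rw [revAt_le (by omega), eval_mul, eval_C, eval_pow, eval_X]

theorem hecke_cong (h : D.OK) (ℓ : ℕ) (hℓ : ℓ.Prime) {Q : ℕ → ℤ[X]} (hQ : HeckePoly D ℓ Q)
    (u : ℕ → ℤ)
    (hu : ∀ m, PowerSeries.X ^ (m + 1) ∣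
      D.zS - ∑ n ∈ Finset.range (m + 1), PowerSeries.C (u n) * D.xS ^ n)
    (B : ℕ) (hB : ∀ n, B < n → n < ℓ → (ℓ : ℤ) ∣ u n) (hup : (ℓ : ℤ) ^ 2 ∣ u ℓ - u 1)
    (hdeg : cd D.c (ℓ + 1) + B ≤ ℓ) (hcd : cd D.c ℓ = cd D.c (ℓ + 1)) (hlt : cd D.c ℓ < ℓ)
    (m : ℤ) (hm : ¬ (ℓ : ℤ) ∣ m) :
    ∃ Q' : ℤ, (Q (ℓ + 1)).eval m = (ℓ : ℤ) ^ 2 * Q' ∧ ¬ (ℓ : ℤ) ∣ Q' ∧
      (ℓ : ℤ) ^ 2 ∣ m ^ (ℓ - 1) * (Q ℓ).eval m - US u ℓ m * Q' := by
  obtain ⟨θ, hθ0, hθ1, hθ2, hθ3, hθ4⟩ := hasQ_ekz h ℓ hℓ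
  obtain ⟨Q₁, hQ₁⟩ := hQ.dvd2
  have hℓ0 : (ℓ : ℤ) ≠ 0 := by exact_mod_cast hℓ.ne_zero
  have hℓ20 : (ℓ : ℤ) ^ 2 ≠ 0 := pow_ne_zero 2 hℓ0
  have hℓ1 : 1 ≤ ℓ := hℓ.one_lt.le
  set d := cd D.c ℓ with hd
  have hdeg' : d + B ≤ ℓ := by rw [hcd]; exact hdeg
  have hQ₁d : Q₁.natDegree ≤ d := by
    have h1 := hQ.deg (ℓ + 1)
    rw [← hcd, hQ₁, natDegree_C_mul hℓ20] at h1
    exact h1
  have hQd : (Q ℓ).natDegree ≤ d := hQ.deg ℓ
  -- first relation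
  have F1 : aeval D.xS ((Q ℓ).reflect d) * D.zS ^ ℓ =
      θ ℓ + PowerSeries.C ((ℓ : ℤ) ^ 2) * exd ℓ D.zS * θ (ℓ - 1) := by
    have h1 := hecke_series h ℓ hQ ℓ
    have h2 := hθ4 (ℓ - 1)
    rw [Nat.sub_add_cancel hℓ1] at h2
    exact toC_injective (h1.unique h2)
  have F2 : aeval D.xS (Q₁.reflect d) * D.zS ^ (ℓ + 1) = exd ℓ D.zS * θ ℓ := by
    have h1 := hecke_series h ℓ hQ (ℓ + 1)
    have h2 := hθ4 ℓ
    have h3 := toC_injective (h1.unique h2)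
    rw [← hcd, hQ₁, reflect_C_mul, hθ3 (ℓ + 1) (Nat.lt_succ_self _), zero_add, map_mul, aeval_C,
      mul_assoc, mul_assoc] at h3
    have h4 : (algebraMap ℤ (PowerSeries ℤ)) ((ℓ : ℤ) ^ 2) = PowerSeries.C ((ℓ : ℤ) ^ 2) := rfl
    rw [h4] at h3
    have h5 : (PowerSeries.C ((ℓ : ℤ) ^ 2) : PowerSeries ℤ) ≠ 0 := by
      intro h6
      apply hℓ20
      have h7 := congrArg (PowerSeries.constantCoeff) h6
      rw [PowerSeries.constantCoeff_C, map_zero] at h7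
      exact h7
    exact mul_left_cancel₀ h5 h3
  have hPd : ((Q ℓ).reflect d).natDegree ≤ d := natDegree_reflect_le.trans (max_le le_rfl hQd)
  have hP'd : (Q₁.reflect d).natDegree ≤ d := natDegree_reflect_le.trans (max_le le_rfl hQ₁d)
  obtain ⟨g1, g2⟩ := formal_cong ℓ hℓ B ((Q ℓ).reflect d) (Q₁.reflect d) D.zS D.xS (θ ℓ) (θ (ℓ - 1))
    h.z0 h.xS0 h.xS1 u hu F1 F2 hθ2 (lt_of_le_of_lt hPd hlt) (by omega) hB hup
  refine ⟨Q₁.eval m, ?_, ?_, ?_⟩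
  · rw [hQ₁, eval_mul, eval_C]
  · intro h1
    obtain ⟨R, hR⟩ := g1
    have h2 : Q₁ = X ^ d + C (ℓ : ℤ) * R.reflect d := by
      have h3 : Q₁.reflect d = 1 + C (ℓ : ℤ) * R := by rw [← hR]; ring
      have h4 := congrArg (fun p : ℤ[X] => p.reflect d) h3
      simp only [reflect_reflect, reflect_add, reflect_one, reflect_C_mul] at h4
      exact h4
    rw [h2, eval_add, eval_pow, eval_X, eval_mul, eval_C] at h1
    have h5 : (ℓ : ℤ) ∣ m ^ d := (Int.dvd_add_left (Dvd.intro _ rfl)).1 h1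
    exact hm (Int.Prime.dvd_pow' hℓ h5)
  · obtain ⟨T, hT⟩ := g2
    set S : ℤ[X] := ∑ n ∈ Finset.range ℓ, C (u n) * X ^ n with hS
    have hSd : S.natDegree ≤ ℓ - 1 := by
      refine natDegree_sum_le_of_forall_le _ _ fun n hn => ?_
      rw [Finset.mem_range] at hn
      exact (natDegree_C_mul_X_pow_le _ _).trans (by omega)
    have h1 : (((Q ℓ).reflect d) * 1 - (Q₁.reflect d) * S).reflect (d + (ℓ - 1)) =
        (C ((ℓ : ℤ) ^ 2) * T).reflect (d + (ℓ - 1)) := by rw [mul_one, hT]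
    rw [reflect_sub, reflect_mul _ _ hPd (by simp : (1 : ℤ[X]).natDegree ≤ ℓ - 1),
      reflect_mul _ _ hP'd hSd, reflect_reflect, reflect_reflect, reflect_one, reflect_C_mul] at h1
    have h2 := congrArg (fun p : ℤ[X] => p.eval m) h1
    simp only [eval_sub, eval_mul, eval_pow, eval_X, eval_C] at h2
    rw [hS, D10_US] at h2
    refine ⟨(T.reflect (d + (ℓ - 1))).eval m, ?_⟩
    rw [← h2]
    ring

end Pool.Agent.LibZP46
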