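import Pool.Agent.LibZP46.D6

/-!
ZP46 D11. The symmetric functions of the translates of `t` (weight 0) and of `g` (weight `2 c`).

Plan. `hecke_t`: `F = ek k (HF 0 t)` is holomorphic and invariant (`ek_HF_mod`, `Dat.OK.t_mod`;
`1 ^ k = 1`). Its series: `ek_option`; for the part over `Fin ℓ`: `qq ((τ+j)/ℓ) * t ((τ+j)/ℓ)` and
`qq ((τ+j)/ℓ)` in `ek2_hasQ` (with `F = qq * t`, series `tS`, and `G = qq`, series `X`), with
`ek2_mul_right` and `prod_qq`: `qq τ * ek k (t ((τ + j) / ℓ))` has an integral series `θ k`; and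
`qq τ ^ ℓ * t (ℓ τ)` has the series `exd ℓ tS` (`HasQ.dil`, `qq_nat_mul`). So
`qq ^ (ℓ + 1) * F` has an integral series; use `poly` with `m = ℓ + 1`.
`hecke_g`: `F = ek k (HF c g) / g ^ k`: holomorphic (`g ≠ 0`), weight `0`, trivial signs
(`χ ^ (2 c k) = 1`), and `qq ^ k * F = ek k (HF c g) / (g / q) ^ k` has an integral series
(`HF_none`: `(ℓ ^ 2) ^ c * g (ℓ τ)`, `ek2_hasQ` with `β = 1`).
`prod_g`: `F = (∏ HF c g) / g ^ (ℓ + 1)` is invariant (`ek_card`, `ℓ + 1` even for odd `ℓ`),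
holomorphic, and tends to `ℓ ^ (2 c)` at the cusp: `g τ / qq τ → 1` (`HasQ.shift`, `HasQ.tendsto`),
`∏_j qq ((τ+j)/ℓ) = qq τ`, `qq (ℓ τ) = qq τ ^ ℓ`. So it is constant (`rigid_mod`).
-/

namespace Pool.Agent.LibZP46

open Complex Polynomial

variable {D : Dat}

private theorem D11_t_some (h : D.OK) (ℓ : ℕ) (hℓ : ℓ.Prime) (h2 : ℓ ≠ 2) :
    ∃ θ : ℕ → PowerSeries ℤ, ∀ k, HasQ (fun τ => qq τ *
      ek k (fun j : Fin ℓ => D.t ((τ + (j : ℕ)) / ℓ))) (toC (θ k)) := by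
  have hG : HasQ qq (toC PowerSeries.X) := by
    rw [toC_X]
    exact hasQ_qq
  obtain ⟨θ, hθ, -, -⟩ := ek2_hasQ ℓ hℓ h.t_q hG
  refine ⟨θ, fun k => (hθ k).congr 0 ?_⟩
  intro τ _
  have h3 := ek2_mul_right k (fun j : Fin ℓ => D.t ((τ + (j : ℕ)) / ℓ))
    (fun j : Fin ℓ => qq ((τ + (j : ℕ)) / ℓ))
  rw [prod_qq ℓ hℓ h2] at h3
  exact h3

private theorem D11_g_some (h : D.OK) (ℓ : ℕ) (hℓ : ℓ.Prime) :
    ∃ θ : ℕ → PowerSeries ℤ, ∀ k, HasQ (fun τ =>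
      ek k (fun j : Fin ℓ => D.g ((τ + (j : ℕ)) / ℓ))) (toC (θ k)) := by
  have h1 : toC 1 = PowerSeries.C 1 := by
    rw [toC, map_one, map_one]
  have hG : HasQ (fun _ => (1 : ℂ)) (toC 1) := by
    rw [h1]
    exact hasQ_const 1
  obtain ⟨θ, hθ, -, -⟩ := ek2_hasQ ℓ hℓ h.gq hG
  refine ⟨θ, fun k => (hθ k).congr 0 ?_⟩
  intro τ _
  exact ek2_one k _

private theorem D11_g_series (h : D.OK) (ℓ : ℕ) (hℓ : ℓ.Prime) (k : ℕ) :
    ∃ a : PowerSeries ℤ, HasQ (fun τ => ek k (fun i => HF ℓ D.c D.g i τ)) (toC a) := by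
  obtain ⟨θ, hθ⟩ := D11_g_some h ℓ hℓ
  cases k with
  | zero =>
    refine ⟨1, ?_⟩
    have h1 : toC 1 = PowerSeries.C 1 := by
      rw [toC, map_one, map_one]
    rw [h1]
    refine (hasQ_const 1).congr 0 ?_
    intro τ _
    exact (ek_zero _).symm
  | succ k =>
    refine ⟨θ (k + 1) + PowerSeries.C (((ℓ : ℤ) ^ 2) ^ D.c) * exd ℓ D.gS * θ k, ?_⟩
    have hnone : HasQ (fun τ => D.g (ℓ * τ)) (toC (exd ℓ D.gS)) := by
      rw [toC_exd]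
      exact h.gq.dil ℓ hℓ.pos
    rw [toC_add, toC_mul, toC_mul, toC_C]
    refine ((hθ (k + 1)).add ((hnone.const_mul _).mul (hθ k))).congr 0 ?_
    intro τ _
    have h1 : (fun i : Fin ℓ => HF ℓ D.c D.g (some i) τ) =
        fun j : Fin ℓ => D.g ((τ + (j : ℕ)) / ℓ) := by
      funext j
      exact HF_some ℓ hℓ.pos _ D.g j τ
    rw [ek_option, h1, HF_none, zpow_natCast]
    push_cast
    ring

private theorem D11_shift (h : D.OK) : HasQ (fun τ => D.g τ / qq τ) (toC (shS D.gS)) := by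
  rw [toC_shS]
  refine h.gq.shift ?_
  rw [← PowerSeries.coeff_zero_eq_constantCoeff_apply, toC, PowerSeries.coeff_map,
    PowerSeries.coeff_zero_eq_constantCoeff_apply, h.g0, map_zero]

private theorem D11_shift0 (h : D.OK) : PowerSeries.constantCoeff (shS D.gS) = 1 := by
  rw [← PowerSeries.coeff_zero_eq_constantCoeff_apply, shS, PowerSeries.coeff_mk, zero_add, h.g1]

private theorem D11_mod (h : D.OK) (k : ℕ) {H : ℂ → ℂ}
    (hH : ModN D.N (fun e => (D.χ e ^ D.c) ^ k) (k * D.c) H) :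
    ModN D.N (fun _ => 1) 0 (fun τ => H τ * (D.g τ ^ k)⁻¹) := by
  have hsq : ∀ e : ℤ, 0 < e → e ∣ (D.N : ℤ) → ((D.χ e ^ D.c) ^ k) ^ 2 = 1 := by
    intro e h0 he
    have h3 : ((D.χ e ^ D.c) ^ k) ^ 2 = (D.χ e ^ 2) ^ (D.c * k) := by ring
    rw [h3, h.chi_sq e h0 he, one_pow]
  have h1 := (h.gmod.pow k).inv hsq
  have h2 := hH.mul h1
  rw [add_neg_cancel] at h2
  refine h2.congr_chi ?_
  intro e h0 he
  have h4 := hsq e h0 he
  rw [pow_two] at h4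
  exact h4

private theorem D11_hol (h : D.OK) (ℓ : ℕ) (hℓ : ℓ.Prime) (k : ℕ) :
    Hol (fun τ => ek k (fun i => HF ℓ D.c D.g i τ) * (D.g τ ^ k)⁻¹) := by
  have h1 : Hol (fun τ => ek k (fun i => HF ℓ D.c D.g i τ)) := ek_HF_hol ℓ hℓ.pos _ h.ghol k
  have h2 : DifferentiableOn ℂ (fun τ => (D.g τ ^ k)⁻¹) {τ | 0 < τ.im} :=
    DifferentiableOn.inv (h.ghol.pow k) (fun τ hτ => pow_ne_zero _ (h.gne τ hτ))
  exact DifferentiableOn.mul h1 h2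

theorem hecke_t (h : D.OK) (ℓ : ℕ) (hℓ : ℓ.Prime) (h2 : ℓ ≠ 2) (hN : ¬ (ℓ : ℤ) ∣ D.N) (k : ℕ) :
    ∃ P : ℤ[X], ∀ τ : ℂ, 0 < τ.im → ek k (fun i => HF ℓ 0 D.t i τ) = aeval (D.t τ) P := by
  obtain ⟨θ, hθ⟩ := D11_t_some h ℓ hℓ h2
  have hnone : HasQ (fun τ => qq τ ^ ℓ * D.t (ℓ * τ)) (toC (exd ℓ D.tS)) := by
    rw [toC_exd]
    refine (h.t_q.dil ℓ hℓ.pos).congr 0 ?_
    intro τ _
    show qq ((ℓ : ℂ) * τ) * D.t (ℓ * τ) = _
    rw [qq_nat_mul]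
  have key : ∃ a : PowerSeries ℤ,
      HasQ (fun τ => qq τ ^ (ℓ + 1) * ek k (fun i => HF ℓ 0 D.t i τ)) (toC a) := by
    cases k with
    | zero =>
      refine ⟨PowerSeries.X ^ (ℓ + 1), ?_⟩
      rw [toC_pow, toC_X]
      refine (hasQ_qq.pow (ℓ + 1)).congr 0 ?_
      intro τ _
      rw [ek_zero, mul_one]
    | succ k =>
      refine ⟨PowerSeries.X ^ ℓ * θ (k + 1) + exd ℓ D.tS * θ k, ?_⟩
      rw [toC_add, toC_mul, toC_pow, toC_X, toC_mul]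
      refine (((hasQ_qq.pow ℓ).mul (hθ (k + 1))).add (hnone.mul (hθ k))).congr 0 ?_
      intro τ _
      have h1 : (fun i : Fin ℓ => HF ℓ 0 D.t (some i) τ) =
          fun j : Fin ℓ => D.t ((τ + (j : ℕ)) / ℓ) := by
        funext j
        exact HF_some ℓ hℓ.pos 0 D.t j τ
      rw [ek_option, h1, HF_none, zpow_zero, one_mul]
      ring
  obtain ⟨a, ha⟩ := key
  have hmod : ModN D.N (fun _ => 1) 0 (fun τ => ek k (fun i => HF ℓ 0 D.t i τ)) := by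
    have h3 := ek_HF_mod h.t_mod ℓ hℓ hN k
    rw [mul_zero] at h3
    exact h3.congr_chi (fun e _ _ => one_pow k)
  obtain ⟨P, -, hP⟩ := poly h (ℓ + 1) (fun τ => ek k (fun i => HF ℓ 0 D.t i τ))
    (ek_HF_hol ℓ hℓ.pos 0 h.t_hol k) hmod a ha
  exact ⟨P, hP⟩

theorem hecke_g (h : D.OK) (ℓ : ℕ) (hℓ : ℓ.Prime) (hN : ¬ (ℓ : ℤ) ∣ D.N) (k : ℕ) :
    ∃ P : ℤ[X], ∀ τ : ℂ, 0 < τ.im →
      ek k (fun i => HF ℓ D.c D.g i τ) = D.g τ ^ k * aeval (D.t τ) P := by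
  obtain ⟨a, ha⟩ := D11_g_series h ℓ hℓ k
  have hinv := ((D11_shift h).ivS (D11_shift0 h)).pow k
  rw [← toC_pow] at hinv
  have hser : HasQ (fun τ => qq τ ^ k * (ek k (fun i => HF ℓ D.c D.g i τ) * (D.g τ ^ k)⁻¹))
      (toC (a * ivS (shS D.gS) ^ k)) := by
    rw [toC_mul]
    refine (ha.mul hinv).congr 0 ?_
    intro τ _
    show ek k (fun i => HF ℓ D.c D.g i τ) * ((D.g τ / qq τ)⁻¹) ^ k = _
    rw [inv_div, div_pow, div_eq_mul_inv]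
    ring
  obtain ⟨P, -, hP⟩ := poly h k _ (D11_hol h ℓ hℓ k) (D11_mod h k (ek_HF_mod h.gmod ℓ hℓ hN k)) _ hser
  refine ⟨P, fun τ hτ => ?_⟩
  have h1 := hP τ hτ
  have h2 : D.g τ ^ k ≠ 0 := pow_ne_zero _ (h.gne τ hτ)
  rw [← h1]
  field_simp

theorem prod_g (h : D.OK) (ℓ : ℕ) (hℓ : ℓ.Prime) (h2 : ℓ ≠ 2) (hN : ¬ (ℓ : ℤ) ∣ D.N) {τ : ℂ}
    (hτ : 0 < τ.im) : ∏ i, HF ℓ D.c D.g i τ = (ℓ : ℂ) ^ (2 * D.c) * D.g τ ^ (ℓ + 1) := by
  classical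
  have hmod := D11_mod h (ℓ + 1) (ek_HF_mod h.gmod ℓ hℓ hN (ℓ + 1))
  have hhol := D11_hol h ℓ hℓ (ℓ + 1)
  have hek : ∀ τ : ℂ, ek (ℓ + 1) (fun i => HF ℓ D.c D.g i τ) = ∏ i, HF ℓ D.c D.g i τ := by
    intro τ
    have h1 := ek_card (fun i : Option (Fin ℓ) => HF ℓ D.c D.g i τ)
    rwa [Fintype.card_option, Fintype.card_fin] at h1
  have hprod : ∀ τ : ℂ, ∏ i, HF ℓ D.c D.g i τ =
      ((ℓ : ℂ) ^ 2) ^ D.c * D.g (ℓ * τ) * ∏ j : Fin ℓ, D.g ((τ + (j : ℕ)) / ℓ) := by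
    intro τ
    rw [Fintype.prod_option, HF_none, zpow_natCast]
    congr 1
    apply Finset.prod_congr rfl
    intro j _
    exact HF_some ℓ hℓ.pos _ D.g j τ
  have hG : ∀ τ, D.g τ = D.g τ / qq τ * qq τ := fun τ => (div_mul_cancel₀ _ (qq_ne τ)).symm
  have hF : ∀ τ : ℂ, ek (ℓ + 1) (fun i => HF ℓ D.c D.g i τ) * (D.g τ ^ (ℓ + 1))⁻¹ =
      ((ℓ : ℂ) ^ 2) ^ D.c * (D.g (ℓ * τ) / qq (ℓ * τ)) *
        (∏ j : Fin ℓ, (D.g ((τ + (j : ℕ)) / ℓ) / qq ((τ + (j : ℕ)) / ℓ))) *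
        ((D.g τ / qq τ) ^ (ℓ + 1))⁻¹ := by
    intro τ
    have hq := qq_ne τ
    rw [hek, hprod, Finset.prod_div_distrib, prod_qq ℓ hℓ h2, qq_nat_mul, div_pow, inv_div]
    field_simp
    ring
  have hlim1 : Filter.Tendsto (fun τ => D.g τ / qq τ) (Filter.comap Complex.im Filter.atTop)
      (nhds 1) := by
    have h1 := (D11_shift h).tendsto
    have h3 : PowerSeries.constantCoeff (toC (shS D.gS)) = 1 := by
      rw [← PowerSeries.coeff_zero_eq_constantCoeff_apply, toC, PowerSeries.coeff_map,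
        PowerSeries.coeff_zero_eq_constantCoeff_apply, D11_shift0 h, map_one]
    rwa [h3] at h1
  have hℓ0 : (0 : ℝ) < ℓ := by exact_mod_cast hℓ.pos
  have hm1 : Filter.Tendsto (fun τ : ℂ => (ℓ : ℂ) * τ) (Filter.comap Complex.im Filter.atTop)
      (Filter.comap Complex.im Filter.atTop) := by
    rw [Filter.tendsto_comap_iff]
    have h1 : (Complex.im ∘ fun τ : ℂ => (ℓ : ℂ) * τ) = fun τ : ℂ => (ℓ : ℝ) * τ.im := by
      funext τ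
      show ((ℓ : ℂ) * τ).im = _
      rw [← Complex.ofReal_natCast, Complex.im_ofReal_mul]
    rw [h1]
    exact Filter.Tendsto.const_mul_atTop hℓ0 Filter.tendsto_comap
  have hm2 : ∀ j : Fin ℓ, Filter.Tendsto (fun τ : ℂ => (τ + (j : ℕ)) / ℓ)
      (Filter.comap Complex.im Filter.atTop) (Filter.comap Complex.im Filter.atTop) := by
    intro j
    rw [Filter.tendsto_comap_iff]
    have h1 : (Complex.im ∘ fun τ : ℂ => (τ + (j : ℕ)) / ℓ) = fun τ : ℂ => τ.im / (ℓ : ℝ) := by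
      funext τ
      show ((τ + ((j : ℕ) : ℂ)) / (ℓ : ℂ)).im = _
      rw [← Complex.ofReal_natCast ℓ, Complex.div_ofReal_im, Complex.add_im, Complex.natCast_im,
        add_zero]
    rw [h1]
    exact Filter.Tendsto.atTop_div_const hℓ0 Filter.tendsto_comap
  have hlim : Filter.Tendsto (fun τ => ek (ℓ + 1) (fun i => HF ℓ D.c D.g i τ) *
      (D.g τ ^ (ℓ + 1))⁻¹) (Filter.comap Complex.im Filter.atTop)
      (nhds (((ℓ : ℂ) ^ 2) ^ D.c)) := by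
    have h1 : Filter.Tendsto (fun τ => ((ℓ : ℂ) ^ 2) ^ D.c * (D.g (ℓ * τ) / qq (ℓ * τ)) *
        (∏ j : Fin ℓ, (D.g ((τ + (j : ℕ)) / ℓ) / qq ((τ + (j : ℕ)) / ℓ))) *
        ((D.g τ / qq τ) ^ (ℓ + 1))⁻¹) (Filter.comap Complex.im Filter.atTop)
        (nhds (((ℓ : ℂ) ^ 2) ^ D.c * 1 * (∏ j : Fin ℓ, (1 : ℂ)) * ((1 : ℂ) ^ (ℓ + 1))⁻¹)) := by
      refine ((tendsto_const_nhds.mul (hlim1.comp hm1)).mul ?_).mul ?_
      · exact tendsto_finsetProd _ (fun j _ => hlim1.comp (hm2 j))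
      · exact (hlim1.pow (ℓ + 1)).inv₀ (by rw [one_pow]; exact one_ne_zero)
    rw [Finset.prod_const_one, one_pow, inv_one, mul_one, mul_one, mul_one] at h1
    exact h1.congr (fun τ => (hF τ).symm)
  have hbdd : Bdd (fun τ => ek (ℓ + 1) (fun i => HF ℓ D.c D.g i τ) * (D.g τ ^ (ℓ + 1))⁻¹) := by
    have h1 := hlim.norm.eventually_le_const (lt_add_one ‖((ℓ : ℂ) ^ 2) ^ D.c‖)
    rw [Filter.eventually_comap, Filter.eventually_atTop] at h1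
    obtain ⟨Y, hY⟩ := h1
    exact ⟨Y, _, fun τ hτ => hY τ.im hτ.le τ rfl⟩
  obtain ⟨c, hc⟩ := rigid_mod D.N h.sqf _ hhol hmod hbdd
  haveI : (Filter.comap Complex.im Filter.atTop).NeBot :=
    Filter.NeBot.comap_of_surj Filter.atTop_neBot Complex.im_surjective
  have hcl : c = ((ℓ : ℂ) ^ 2) ^ D.c := by
    refine tendsto_nhds_unique ?_ hlim
    refine tendsto_const_nhds.congr' ?_
    have h1 : ∀ᶠ τ : ℂ in Filter.comap Complex.im Filter.atTop, 0 < τ.im :=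
      Filter.tendsto_comap.eventually (Filter.eventually_gt_atTop 0)
    filter_upwards [h1] with τ hτ
    exact (hc τ hτ).symm
  have h1 := hc τ hτ
  rw [hcl] at h1
  have h3 : D.g τ ^ (ℓ + 1) ≠ 0 := pow_ne_zero _ (h.gne τ hτ)
  rw [← hek, pow_mul, ← h1, inv_mul_cancel_right₀ h3]

end Pool.Agent.LibZP46
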