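import Pool.Agent.LibZP46.D11

/-!
ZP46 D12. Integrality of the translates at a point where `t` is integral.

Plan. `integral_t`: the `t (M_i τ)` are the `HF ℓ 0 t i τ` (`zpow_zero`), all their symmetric
functions are `aeval (t τ) P`, `P` integral, hence integral over `ℤ` (`IsIntegral` is closed under
`aeval`: `IsIntegral.aeval`-like, or `Subalgebra` argument with `integralClosure ℤ ℂ`); use
`isIntegral_of_ek`. `integral_g`: the same for `HF ℓ c g i τ / g τ` (`ek_mul_left` with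
`c = (g τ)⁻¹`). `prod_mult_g`: `prod_g` divided by `g ^ (ℓ + 1)`.
-/

namespace Pool.Agent.LibZP46

open Complex Polynomial

variable {D : Dat}

private theorem D12_aeval {x : ℂ} (hx : IsIntegral ℤ x) (P : ℤ[X]) : IsIntegral ℤ (aeval x P) := by
  have h1 : x ∈ integralClosure ℤ ℂ := hx
  rw [aeval_eq_sum_range]
  exact (integralClosure ℤ ℂ).sum_mem fun i _ =>
    (integralClosure ℤ ℂ).smul_mem ((integralClosure ℤ ℂ).pow_mem h1 i) (P.coeff i)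


theorem integral_t (h : D.OK) (ℓ : ℕ) (hℓ : ℓ.Prime) (h2 : ℓ ≠ 2) (hN : ¬ (ℓ : ℤ) ∣ D.N) {τ : ℂ}
    (hτ : 0 < τ.im) (ht : IsIntegral ℤ (D.t τ)) (i : Option (Fin ℓ)) :
    IsIntegral ℤ (D.t (act (MM ℓ i) τ)) := by
  have key := isIntegral_of_ek (fun i => HF ℓ 0 D.t i τ) (fun k => ?_) i
  · have h1 : HF ℓ 0 D.t i τ = D.t (act (MM ℓ i) τ) := by
      unfold HF
      rw [zpow_zero, one_mul]
    rw [← h1]
    exact key
  · obtain ⟨P, hP⟩ := hecke_t h ℓ hℓ h2 hN k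
    rw [hP τ hτ]
    exact D12_aeval ht P

theorem integral_g (h : D.OK) (ℓ : ℕ) (hℓ : ℓ.Prime) (hN : ¬ (ℓ : ℤ) ∣ D.N) {τ : ℂ}
    (hτ : 0 < τ.im) (ht : IsIntegral ℤ (D.t τ)) (i : Option (Fin ℓ)) :
    IsIntegral ℤ (HF ℓ D.c D.g i τ / D.g τ) := by
  refine isIntegral_of_ek (fun i => HF ℓ D.c D.g i τ / D.g τ) (fun k => ?_) i
  obtain ⟨P, hP⟩ := hecke_g h ℓ hℓ hN k
  have h1 : ek k (fun i => HF ℓ D.c D.g i τ / D.g τ) = aeval (D.t τ) P := by
    have h2 : (fun i => HF ℓ D.c D.g i τ / D.g τ) =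
        fun i => (D.g τ)⁻¹ * HF ℓ D.c D.g i τ := by
      funext i
      rw [div_eq_inv_mul]
    have h3 := h.gne τ hτ
    rw [h2, ek_mul_left, hP τ hτ, ← mul_assoc, ← mul_pow, inv_mul_cancel₀ h3, one_pow, one_mul]
  rw [h1]
  exact D12_aeval ht P

theorem prod_mult_g (h : D.OK) (ℓ : ℕ) (hℓ : ℓ.Prime) (h2 : ℓ ≠ 2) (hN : ¬ (ℓ : ℤ) ∣ D.N)
    {τ : ℂ} (hτ : 0 < τ.im) :
    ∏ i, (HF ℓ D.c D.g i τ / D.g τ) = (ℓ : ℂ) ^ (2 * D.c) := by
  rw [Finset.prod_div_distrib, prod_g h ℓ hℓ h2 hN hτ, Finset.prod_const, Finset.card_univ,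
    Fintype.card_option, Fintype.card_fin, mul_div_assoc,
    div_self (pow_ne_zero _ (h.gne τ hτ)), mul_one]

end Pool.Agent.LibZP46
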