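import Pool.Agent.LibZP46.Defs

/-!
ZP46 D2. Elementary symmetric functions.

Plan. All from the definition `ek k v = ∑ s ∈ powersetCard k univ, ∏ i ∈ s, v i`.
`ek_option`: split the sets containing `none` (`Finset.univ_option`, `Finset.powersetCard_succ_insert`
after identifying the sum, or use the generating function `∏ (1 + X v i)`). `ek_eq_coeff`:
`Finset.prod_one_add` / `Finset.prod_add` and the coefficient of `X ^ k`. `prod_sub`:
`∏ (X - C (v i)) = ∑ (-1)^k ek k v X^(n-k)` (`Finset.prod_sub`, or Vieta in Mathlib: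
`Multiset.prod_X_sub_X_eq_sum_esymm`, `Finset.esymm_map_val`). `isIntegral_of_ek`: if all `ek k v`
are integral over `ℤ` then so are the `v i`: they are roots of a monic polynomial over the
integral closure (`isIntegral_trans`, or `IsIntegral` over `integralClosure ℤ ℂ`).
-/

namespace Pool.Agent.LibZP46

open Polynomial

section

variable {ι R S : Type*} [Fintype ι] [DecidableEq ι] [CommRing R] [CommRing S]

omit [DecidableEq ι] in
private theorem D2_esymm (k : ℕ) (v : ι → R) : ek k v = (Finset.univ.val.map v).esymm k := by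
  rw [ek, Finset.esymm_map_val]

private theorem D2_cons (k : ℕ) (a : R) (s : Multiset R) :
    (a ::ₘ s).esymm (k + 1) = s.esymm (k + 1) + a * s.esymm k := by
  rw [Multiset.esymm, Multiset.powersetCard_cons, Multiset.map_add, Multiset.sum_add, Multiset.map_map]
  congr 1
  rw [Multiset.esymm, ← Multiset.sum_map_mul_left]
  congr 1
  refine Multiset.map_congr rfl fun t _ => ?_
  rw [Function.comp_apply, Multiset.prod_cons]

theorem ek_zero (v : ι → R) : ek 0 v = 1 := by
  simp [ek]

theorem ek_mul_left (k : ℕ) (c : R) (v : ι → R) : ek k (fun i => c * v i) = c ^ k * ek k v := by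
  rw [ek, ek, Finset.mul_sum]
  refine Finset.sum_congr rfl fun s hs => ?_
  rw [Finset.prod_mul_distrib, Finset.prod_const, (Finset.mem_powersetCard.1 hs).2]

theorem ek_perm (k : ℕ) (σ : Equiv.Perm ι) (v : ι → R) : ek k (fun i => v (σ i)) = ek k v := by
  rw [D2_esymm, D2_esymm]
  congr 1
  have h : (Finset.univ.val.map σ : Multiset ι) = Finset.univ.val := Multiset.map_univ_val_equiv σ
  conv_rhs => rw [← h]
  rw [Multiset.map_map]
  rfl

theorem ek_card (v : ι → R) : ek (Fintype.card ι) v = ∏ i, v i := by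
  rw [ek, ← Finset.card_univ, Finset.powersetCard_self, Finset.sum_singleton]

theorem ek_of_gt (k : ℕ) (hk : Fintype.card ι < k) (v : ι → R) : ek k v = 0 := by
  rw [ek, Finset.powersetCard_eq_empty.2 (by rw [Finset.card_univ]; exact hk), Finset.sum_empty]

theorem ek_option (k : ℕ) (v : Option ι → R) :
    ek (k + 1) v = ek (k + 1) (fun i => v (some i)) + v none * ek k (fun i => v (some i)) := by
  rw [D2_esymm, D2_esymm, D2_esymm, ← D2_cons]
  congr 1
  have h : (Finset.univ : Finset (Option ι)).val = none ::ₘ (Finset.univ : Finset ι).val.map some := rfl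
  rw [h, Multiset.map_cons, Multiset.map_map]
  rfl

theorem map_ek (f : R →+* S) (k : ℕ) (v : ι → R) : f (ek k v) = ek k (fun i => f (v i)) := by
  rw [ek, ek, map_sum]
  exact Finset.sum_congr rfl fun s _ => map_prod f _ _

theorem prod_X_sub (v : ι → R) : ∏ i, (X - C (v i)) =
    ∑ k ∈ Finset.range (Fintype.card ι + 1),
      C ((-1) ^ k * ek k v) * X ^ (Fintype.card ι - k) := by
  have h := Multiset.prod_X_sub_X_eq_sum_esymm (Finset.univ.val.map v)
  rw [Multiset.map_map, Multiset.card_map] at h
  have hc : Multiset.card (Finset.univ.val : Multiset ι) = Fintype.card ι := rfl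
  rw [hc] at h
  refine Eq.trans ?_ (h.trans ?_)
  · rfl
  · refine Finset.sum_congr rfl fun k _ => ?_
    rw [D2_esymm, C_mul, C_pow, C_neg, C_1, mul_assoc]

/-- The second highest symmetric function. -/
theorem ek_pred {K : Type*} [Field K] (v : ι → K) (hv : ∀ i, v i ≠ 0) (n : ℕ)
    (hn : Fintype.card ι = n + 1) : ek n v = (∏ i, v i) * ∑ i, (v i)⁻¹ := by
  rw [ek, Finset.mul_sum]
  symm
  refine Finset.sum_bij (fun i _ => Finset.univ.erase i) ?_ ?_ ?_ ?_
  · intro i _
    rw [Finset.mem_powersetCard]
    refine ⟨Finset.subset_univ _, ?_⟩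
    rw [Finset.card_erase_of_mem (Finset.mem_univ i), Finset.card_univ, hn, Nat.add_sub_cancel]
  · intro i _ j _ h
    by_contra hij
    have h1 : j ∈ Finset.univ.erase i := Finset.mem_erase.2 ⟨fun h' => hij h'.symm, Finset.mem_univ j⟩
    rw [h] at h1
    exact (Finset.mem_erase.1 h1).1 rfl
  · intro s hs
    have h1 := (Finset.mem_powersetCard.1 hs).2
    have h2 : sᶜ.card = 1 := by
      rw [Finset.card_compl, hn, h1]
      omega
    obtain ⟨i, hi⟩ := Finset.card_eq_one.1 h2
    refine ⟨i, Finset.mem_univ i, ?_⟩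
    rw [← compl_compl s, hi, Finset.compl_singleton]
  · intro i _
    rw [← Finset.mul_prod_erase Finset.univ v (Finset.mem_univ i)]
    field_simp [hv i]

end

theorem isIntegral_of_ek {ι : Type*} [Fintype ι] [DecidableEq ι] (v : ι → ℂ)
    (h : ∀ k, IsIntegral ℤ (ek k v)) (i : ι) : IsIntegral ℤ (v i) := by
  obtain ⟨Q, hQ⟩ : ∃ Q : (integralClosure ℤ ℂ)[X], Q.map (algebraMap (integralClosure ℤ ℂ) ℂ) =
      ∏ i, (X - C (v i)) := by
    refine ⟨∑ k ∈ Finset.range (Fintype.card ι + 1),
      C ((-1) ^ k * ⟨ek k v, h k⟩) * X ^ (Fintype.card ι - k), ?_⟩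
    rw [prod_X_sub, Polynomial.map_sum]
    refine Finset.sum_congr rfl fun k _ => ?_
    rw [Polynomial.map_mul, Polynomial.map_C, Polynomial.map_pow, Polynomial.map_X, map_mul, map_pow, map_neg,
      map_one]
    rfl
  have hm : Q.Monic := by
    have hinj : Function.Injective (algebraMap (integralClosure ℤ ℂ) ℂ) := Subtype.val_injective
    refine Polynomial.monic_of_injective hinj ?_
    rw [hQ]
    exact Polynomial.monic_prod_of_monic _ _ fun i _ => Polynomial.monic_X_sub_C _
  have h1 : IsIntegral (integralClosure ℤ ℂ) (v i) := by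
    refine ⟨Q, hm, ?_⟩
    rw [← Polynomial.eval_map, hQ, Polynomial.eval_prod]
    exact Finset.prod_eq_zero (Finset.mem_univ i) (by simp)
  exact isIntegral_trans (v i) h1

end Pool.Agent.LibZP46
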