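import Pool.Agent.LibZP46.A7
import Pool.Agent.LibZP46.D1
import Pool.Agent.LibZP46.D2

/-!
ZP46 D3. The translates `HF ℓ r F i` and their symmetric functions.

Plan. `HF_some`: `jm (MM (some j)) τ = ℓ`, `act = (τ + j) / ℓ`. `HF_act`: with `MM i * W = W' * MM k`
(`k = σ i`): `jm (MM i) (act W τ) * jm W τ = jm W' (act (MM k) τ) * jm (MM k) τ` (`jm_mul` twice) and
`act (MM i) (act W τ) = act W' (act (MM k) τ)` (`act_mul`), `F (act W' τ') = χ e (jm W' τ' ^ 2 / e)^r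
F τ'`; so `HF i (act W τ) = (ℓ² / jm (MM i) (W τ)²)^r χ e (jm W'² / e)^r F (MM k τ) =
χ e (jm W τ ² / e)^r (ℓ² / jm (MM k) τ ²)^r F (MM k τ)` (`mul_zpow`, `div_zpow`). `ek_HF_mod`:
`exists_perm`, `ek_perm`, `ek_mul_left`, `(x ^ r) ^ k = x ^ (k r)`. `HF_hol`: `hol_comp_act`,
`DifferentiableOn.zpow` (or `r ≥ 0` is not assumed; the base does not vanish).
-/

namespace Pool.Agent.LibZP46

open Complex

theorem HF_some (ℓ : ℕ) (hℓ : 0 < ℓ) (r : ℤ) (F : ℂ → ℂ) (j : Fin ℓ) (τ : ℂ) :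
    HF ℓ r F (some j) τ = F ((τ + (j : ℕ)) / ℓ) := by
  have hℓC : (ℓ : ℂ) ≠ 0 := by exact_mod_cast hℓ.ne'
  have h1 : jm (MM ℓ (some j)) τ = (ℓ : ℂ) := by
    simp [jm, MM]
  have h2 : act (MM ℓ (some j)) τ = (τ + (j : ℕ)) / ℓ := by
    rw [act, h1]
    simp [MM]
  rw [HF, h1, h2, div_self (pow_ne_zero 2 hℓC), one_zpow, one_mul]

theorem HF_none (ℓ : ℕ) (r : ℤ) (F : ℂ → ℂ) (τ : ℂ) :
    HF ℓ r F none τ = ((ℓ : ℂ) ^ 2) ^ r * F (ℓ * τ) := by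
  have h1 : jm (MM ℓ none) τ = 1 := by
    simp [jm, MM]
  have h2 : act (MM ℓ none) τ = ℓ * τ := by
    rw [act, h1]
    simp [MM]
  rw [HF, h1, h2, one_pow, div_one]

theorem HF_hol (ℓ : ℕ) (hℓ : 0 < ℓ) (r : ℤ) {F : ℂ → ℂ} (hF : Hol F) (i : Option (Fin ℓ)) :
    Hol (HF ℓ r F i) := by
  have hdet : 0 < (MM ℓ i).det := by
    rw [det_MM]
    exact_mod_cast hℓ
  have h1 := hol_comp_act hF hdet
  cases i with
  | none =>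
    have h2 : HF ℓ r F none = fun τ => ((ℓ : ℂ) ^ 2) ^ r * F (act (MM ℓ none) τ) := by
      funext τ
      rw [HF_none]
      congr 2
      simp [act, jm, MM]
    rw [h2]
    exact DifferentiableOn.const_mul h1 _
  | some j =>
    have h2 : HF ℓ r F (some j) = fun τ => F (act (MM ℓ (some j)) τ) := by
      funext τ
      rw [HF_some ℓ hℓ]
      congr 1
      simp [act, jm, MM]
    rw [h2]
    exact h1

theorem HF_act {N e : ℤ} (he0 : 0 < e) (he : e ∣ N) {χ : ℤ → ℤ} {r : ℤ} {F : ℂ → ℂ}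
    (hF : ModN N χ r F) (ℓ : ℕ) (hℓ : 0 < ℓ) {W W' : Mat} (hW : ALM N e 1 W) (hW' : ALM N e 1 W')
    (i k : Option (Fin ℓ)) (h : MM ℓ i * W = W' * MM ℓ k) {τ : ℂ} (hτ : 0 < τ.im) :
    HF ℓ r F i (act W τ) = (χ e : ℂ) * (jm W τ ^ 2 / (e : ℂ)) ^ r * HF ℓ r F k τ := by
  have heC : (e : ℂ) ≠ 0 := by exact_mod_cast he0.ne'
  have hWdet : 0 < W.det := by rw [hW.hdet, mul_one]; exact he0
  have hW'det : 0 < W'.det := by rw [hW'.hdet, mul_one]; exact he0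
  have hkdet : 0 < (MM ℓ k).det := by rw [det_MM]; exact_mod_cast hℓ
  have hidet : 0 < (MM ℓ i).det := by rw [det_MM]; exact_mod_cast hℓ
  have hτW := act_im_pos hWdet hτ
  have hτk := act_im_pos hkdet hτ
  have j1 := jm_mul (MM ℓ i) W hWdet.ne' hτ
  have j2 := jm_mul W' (MM ℓ k) hkdet.ne' hτ
  have a1 := act_mul (MM ℓ i) W hWdet.ne' hτ
  have a2 := act_mul W' (MM ℓ k) hkdet.ne' hτ
  rw [h] at j1 a1
  have hAB : jm (MM ℓ i) (act W τ) * jm W τ = jm W' (act (MM ℓ k) τ) * jm (MM ℓ k) τ := j1.symm.trans j2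
  have hact : act (MM ℓ i) (act W τ) = act W' (act (MM ℓ k) τ) := a1.symm.trans a2
  have nA : jm (MM ℓ i) (act W τ) ≠ 0 := jm_ne hidet.ne' hτW
  have nB : jm W τ ≠ 0 := jm_ne hWdet.ne' hτ
  have nC : jm W' (act (MM ℓ k) τ) ≠ 0 := jm_ne hW'det.ne' hτk
  have nD : jm (MM ℓ k) τ ≠ 0 := jm_ne hkdet.ne' hτ
  rw [HF, HF, hact, hF e he0 he W' hW' _ hτk]
  set A := jm (MM ℓ i) (act W τ)
  set B := jm W τ
  set C := jm W' (act (MM ℓ k) τ)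
  set D := jm (MM ℓ k) τ
  have key : (ℓ : ℂ) ^ 2 / A ^ 2 * (C ^ 2 / (e : ℂ)) = B ^ 2 / (e : ℂ) * ((ℓ : ℂ) ^ 2 / D ^ 2) := by
    have h2 : C ^ 2 * D ^ 2 = A ^ 2 * B ^ 2 := by
      rw [← mul_pow, ← mul_pow, hAB]
    field_simp
    linear_combination (ℓ : ℂ) ^ 2 * h2
  have key2 : ((ℓ : ℂ) ^ 2 / A ^ 2) ^ r * (C ^ 2 / (e : ℂ)) ^ r = (B ^ 2 / (e : ℂ)) ^ r * ((ℓ : ℂ) ^ 2 / D ^ 2) ^ r := by
    rw [← mul_zpow, ← mul_zpow, key]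
  linear_combination ((χ e : ℂ) * F (act (MM ℓ k) τ)) * key2

theorem ek_HF_mod {N : ℤ} {χ : ℤ → ℤ} {r : ℤ} {F : ℂ → ℂ} (hF : ModN N χ r F) (ℓ : ℕ)
    (hℓ : ℓ.Prime) (hN : ¬ (ℓ : ℤ) ∣ N) (k : ℕ) :
    ModN N (fun e => χ e ^ k) (k * r) (fun τ => ek k (fun i => HF ℓ r F i τ)) := by
  intro e he0 he W hW τ hτ
  obtain ⟨σ, hσ⟩ := exists_perm ℓ hℓ hN he he0 hW
  have h1 : (fun i => HF ℓ r F i (act W τ)) =
      fun i => ((χ e : ℂ) * (jm W τ ^ 2 / (e : ℂ)) ^ r) * HF ℓ r F (σ i) τ := by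
    funext i
    obtain ⟨W', hW', h⟩ := hσ i
    exact HF_act he0 he hF ℓ hℓ.pos hW hW' i (σ i) h hτ
  show ek k (fun i => HF ℓ r F i (act W τ)) = _
  rw [h1, ek_mul_left k _ (fun i => HF ℓ r F (σ i) τ), ek_perm k σ (fun i => HF ℓ r F i τ), mul_pow]
  have h2 : ((jm W τ ^ 2 / (e : ℂ)) ^ r) ^ k = (jm W τ ^ 2 / (e : ℂ)) ^ ((k : ℤ) * r) := by
    rw [mul_comm, zpow_mul, zpow_natCast]
  rw [h2]
  push_cast
  ring

theorem ek_HF_hol (ℓ : ℕ) (hℓ : 0 < ℓ) (r : ℤ) {F : ℂ → ℂ} (hF : Hol F) (k : ℕ) :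
    Hol (fun τ => ek k (fun i => HF ℓ r F i τ)) := by
  unfold Hol ek
  apply DifferentiableOn.fun_sum
  intro s _
  apply DifferentiableOn.fun_finsetProd
  intro i _
  exact HF_hol ℓ hℓ r hF i

end Pool.Agent.LibZP46
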