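import Pool.Agent.LibZP46.A3

/-!
ZP46 D4. The norm lemma: for a power series `a (y)` over `A`, the product of the `a (ζ ^ j y)` is
a power series in `y ^ ℓ` over `A`, and congruent to `a (y) ^ ℓ` modulo `ℓ`.

Plan. Let `G = AddMonoidAlgebra A (ZMod ℓ)` (or `A[Z] / (Z ^ ℓ - 1)`), `ω = single 1 1`, `ω ^ ℓ = 1`,
and `b = ∏_{j < ℓ} rescale (ω ^ j) a` in `PowerSeries G`. For `u` prime to `ℓ` the automorphism
`φ_u : single i r ↦ single (u i) r` permutes the factors (`j ↦ u j` mod `ℓ`), so it fixes `b`; hence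
every coefficient `b_n` of `b` satisfies `b_n (i) = b_n (1)` for all `i ≠ 0`. Also
`rescale ω b = b`, so `ω ^ n b_n = b_n`, i.e. `b_n (i) = b_n (i - n)`: for `ℓ ∤ n` all `b_n (i)` are
equal. The `A`-algebra homomorphism `G → B`, `ω ↦ ζ` (`ζ ^ ℓ = 1` follows from `hζ`), maps `b_n` to
`b_n (0) + b_n (1) (ζ + ... + ζ ^ (ℓ-1)) = b_n (0) - b_n (1)` (and to `0` if `ℓ ∤ n`): so
`θ_m := b_(ℓ m) (0) - b_(ℓ m) (1)` works. The augmentation `G → A`, `ω ↦ 1`, maps `b_n` to the
coefficient of `a ^ ℓ`, which is `b_n (0) + (ℓ - 1) b_n (1) = (b_n (0) - b_n (1)) + ℓ b_n (1)`.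
-/

namespace Pool.Agent.LibZP46

section D4aux

variable {A : Type} [CommRing A] {ℓ : ℕ} [NeZero ℓ]

/-- the group ring element of `x` -/
private noncomputable def D4_w (A : Type) [CommRing A] {ℓ : ℕ} (x : ZMod ℓ) :
    AddMonoidAlgebra A (ZMod ℓ) := AddMonoidAlgebra.single x 1

/-- the product over the group -/
private noncomputable def D4_b (ℓ : ℕ) [NeZero ℓ] (a : PowerSeries A) :
    PowerSeries (AddMonoidAlgebra A (ZMod ℓ)) :=
  ∏ x : ZMod ℓ, PowerSeries.rescale (D4_w A x)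
    (PowerSeries.map (algebraMap A (AddMonoidAlgebra A (ZMod ℓ))) a)

private theorem D4_map_rescale {R S : Type} [CommRing R] [CommRing S] (φ : R →+* S) (c : R)
    (a : PowerSeries R) :
    PowerSeries.map φ (PowerSeries.rescale c a) = PowerSeries.rescale (φ c) (PowerSeries.map φ a) := by
  ext n
  rw [PowerSeries.coeff_map, PowerSeries.coeff_rescale, PowerSeries.coeff_rescale,
    PowerSeries.coeff_map, map_mul, map_pow]

private theorem D4_map_map {R S T : Type} [CommRing R] [CommRing S] [CommRing T] (φ : R →+* S)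
    (ψ : S →+* T) (a : PowerSeries R) :
    PowerSeries.map ψ (PowerSeries.map φ a) = PowerSeries.map (ψ.comp φ) a := by
  ext n
  rw [PowerSeries.coeff_map, PowerSeries.coeff_map, PowerSeries.coeff_map]
  rfl

private theorem D4_map_b {B : Type} [CommRing B] (φ : AddMonoidAlgebra A (ZMod ℓ) →+* B)
    (a : PowerSeries A) :
    PowerSeries.map φ (D4_b ℓ a) = ∏ x : ZMod ℓ, PowerSeries.rescale (φ (D4_w A x))
      (PowerSeries.map (φ.comp (algebraMap A (AddMonoidAlgebra A (ZMod ℓ)))) a) := by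
  unfold D4_b
  rw [map_prod]
  refine Finset.prod_congr rfl (fun x _ => ?_)
  rw [D4_map_rescale, D4_map_map]

/-- invariance under automorphisms -/
private theorem D4_aut (e : ZMod ℓ ≃+ ZMod ℓ) (a : PowerSeries A) (n : ℕ) (x : ZMod ℓ) :
    (PowerSeries.coeff n (D4_b ℓ a)).coeff (e x) = (PowerSeries.coeff n (D4_b ℓ a)).coeff x := by
  obtain ⟨φ, hφ⟩ : ∃ φ : AddMonoidAlgebra A (ZMod ℓ) →+* AddMonoidAlgebra A (ZMod ℓ),
      φ = (AddMonoidAlgebra.mapDomainRingEquiv A e : _ →+* _) := ⟨_, rfl⟩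
  have hw : ∀ y (r : A), φ (AddMonoidAlgebra.single y r) = AddMonoidAlgebra.single (e y) r := by
    intro y r
    rw [hφ]
    simp
  have hcomp : φ.comp (algebraMap A (AddMonoidAlgebra A (ZMod ℓ))) =
      algebraMap A (AddMonoidAlgebra A (ZMod ℓ)) := by
    ext1 r
    show φ (algebraMap A _ r) = algebraMap A _ r
    rw [AddMonoidAlgebra.coe_algebraMap]
    show φ (AddMonoidAlgebra.single 0 r) = AddMonoidAlgebra.single 0 r
    rw [hw, map_zero]
  have hb : PowerSeries.map φ (D4_b ℓ a) = D4_b ℓ a := by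
    rw [D4_map_b, hcomp]
    have h1 : ∀ x : ZMod ℓ, φ (D4_w A x) = D4_w A (e x) := fun x => hw x 1
    simp only [h1]
    exact Equiv.prod_comp e.toEquiv (fun x => PowerSeries.rescale (D4_w A x)
      (PowerSeries.map (algebraMap A (AddMonoidAlgebra A (ZMod ℓ))) a))
  have h2 : (PowerSeries.coeff n (PowerSeries.map φ (D4_b ℓ a))).coeff (e x) =
      (PowerSeries.coeff n (D4_b ℓ a)).coeff x := by
    rw [PowerSeries.coeff_map, hφ]
    show (AddMonoidAlgebra.mapDomainRingEquiv A e (PowerSeries.coeff n (D4_b ℓ a))).coeff (e x) = _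
    rw [AddMonoidAlgebra.coeff_mapDomainRingEquiv, Finsupp.equivMapDomain_apply]
    congr 1
    exact e.symm_apply_apply x
  rw [hb] at h2
  exact h2

/-- invariance under translations -/
private theorem D4_tr (a : PowerSeries A) (n : ℕ) (x : ZMod ℓ) :
    (PowerSeries.coeff n (D4_b ℓ a)).coeff (-(n : ZMod ℓ) + x) =
      (PowerSeries.coeff n (D4_b ℓ a)).coeff x := by
  have hb : PowerSeries.rescale (D4_w A (1 : ZMod ℓ)) (D4_b ℓ a) = D4_b ℓ a := by
    unfold D4_b
    rw [map_prod]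
    have h1 : ∀ x : ZMod ℓ, PowerSeries.rescale (D4_w A (1 : ZMod ℓ)) (PowerSeries.rescale (D4_w A x)
        (PowerSeries.map (algebraMap A (AddMonoidAlgebra A (ZMod ℓ))) a)) =
        PowerSeries.rescale (D4_w A (x + 1))
          (PowerSeries.map (algebraMap A (AddMonoidAlgebra A (ZMod ℓ))) a) := by
      intro x
      rw [PowerSeries.rescale_rescale]
      congr 2
      unfold D4_w
      rw [AddMonoidAlgebra.single_mul_single, one_mul]
    simp only [h1]
    exact Equiv.prod_comp (Equiv.addRight (1 : ZMod ℓ)) (fun x => PowerSeries.rescale (D4_w A x)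
      (PowerSeries.map (algebraMap A (AddMonoidAlgebra A (ZMod ℓ))) a))
  have h2 := congrArg (fun c => (PowerSeries.coeff n c).coeff x) hb
  simp only [PowerSeries.coeff_rescale] at h2
  unfold D4_w at h2
  rw [AddMonoidAlgebra.single_pow, one_pow, nsmul_one, AddMonoidAlgebra.coeff_single_mul_apply,
    one_mul] at h2
  exact h2

private theorem D4_val_sum {M : Type} [AddCommMonoid M] (g : ℕ → M) :
    ∑ x : ZMod ℓ, g x.val = ∑ i ∈ Finset.range ℓ, g i := by
  refine Finset.sum_bij (fun x _ => x.val) ?_ ?_ ?_ ?_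
  · intro x _
    exact Finset.mem_range.2 (ZMod.val_lt x)
  · intro x _ y _ h
    exact ZMod.val_injective ℓ h
  · intro i hi
    exact ⟨(i : ZMod ℓ), Finset.mem_univ _, ZMod.val_natCast_of_lt (Finset.mem_range.1 hi)⟩
  · intro x _
    rfl

private theorem D4_val_prod {M : Type} [CommMonoid M] (g : ℕ → M) :
    ∏ x : ZMod ℓ, g x.val = ∏ i ∈ Finset.range ℓ, g i := by
  refine Finset.prod_bij (fun x _ => x.val) ?_ ?_ ?_ ?_
  · intro x _
    exact Finset.mem_range.2 (ZMod.val_lt x)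
  · intro x _ y _ h
    exact ZMod.val_injective ℓ h
  · intro i hi
    exact ⟨(i : ZMod ℓ), Finset.mem_univ _, ZMod.val_natCast_of_lt (Finset.mem_range.1 hi)⟩
  · intro x _
    rfl

/-- the evaluation at a root of unity -/
private noncomputable def D4_ev {B : Type} [CommRing B] [Algebra A B] (ζ : B) (hζ : ζ ^ ℓ = 1) :
    AddMonoidAlgebra A (ZMod ℓ) →ₐ[A] B :=
  AddMonoidAlgebra.lift A B (ZMod ℓ)
    { toFun := fun x => ζ ^ (Multiplicative.toAdd x).val
      map_one' := by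
        show ζ ^ (0 : ZMod ℓ).val = 1
        rw [ZMod.val_zero, pow_zero]
      map_mul' := fun x y => by
        show ζ ^ (Multiplicative.toAdd x + Multiplicative.toAdd y).val = _
        rw [ZMod.val_add, ← pow_add]
        conv_rhs => rw [← Nat.div_add_mod ((Multiplicative.toAdd x).val +
          (Multiplicative.toAdd y).val) ℓ, pow_add, pow_mul, hζ, one_pow, one_mul] }

private theorem D4_ev_w {B : Type} [CommRing B] [Algebra A B] (ζ : B) (hζ : ζ ^ ℓ = 1) (x : ZMod ℓ) :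
    D4_ev (A := A) ζ hζ (D4_w A x) = ζ ^ x.val := by
  unfold D4_ev D4_w
  rw [AddMonoidAlgebra.lift_single, one_smul]
  rfl

private theorem D4_ev_apply {B : Type} [CommRing B] [Algebra A B] (ζ : B) (hζ : ζ ^ ℓ = 1)
    (f : AddMonoidAlgebra A (ZMod ℓ)) (hf : ∀ x, x ≠ 0 → f.coeff x = f.coeff 1) :
    D4_ev ζ hζ f = algebraMap A B (f.coeff 0 - f.coeff 1) +
      algebraMap A B (f.coeff 1) * ∑ i ∈ Finset.range ℓ, ζ ^ i := by
  unfold D4_ev
  rw [AddMonoidAlgebra.lift_apply', Finsupp.sum_fintype _ _ (by intro i; rw [map_zero, zero_mul]),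
    ← D4_val_sum (fun i => ζ ^ i), Finset.mul_sum]
  have h1 : ∀ x : ZMod ℓ, algebraMap A B (f.coeff x) * ζ ^ x.val =
      (if x = 0 then algebraMap A B (f.coeff 0 - f.coeff 1) else 0) +
        algebraMap A B (f.coeff 1) * ζ ^ x.val := by
    intro x
    by_cases hx : x = 0
    · rw [if_pos hx, hx, ZMod.val_zero, pow_zero, map_sub]
      ring
    · rw [if_neg hx, hf x hx, zero_add]
  show ∑ x : ZMod ℓ, algebraMap A B (f.coeff x) * ζ ^ x.val = _
  rw [Finset.sum_congr rfl (fun x _ => h1 x), Finset.sum_add_distrib, Finset.sum_ite_eq']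
  rw [if_pos (Finset.mem_univ _)]

private theorem D4_ev_b {B : Type} [CommRing B] [Algebra A B] (ζ : B) (hζ : ζ ^ ℓ = 1)
    (a : PowerSeries A) :
    PowerSeries.map (D4_ev (A := A) ζ hζ : AddMonoidAlgebra A (ZMod ℓ) →+* B) (D4_b ℓ a) =
      ∏ j ∈ Finset.range ℓ, PowerSeries.rescale (ζ ^ j) (PowerSeries.map (algebraMap A B) a) := by
  rw [D4_map_b, ← D4_val_prod (fun j => PowerSeries.rescale (ζ ^ j) (PowerSeries.map (algebraMap A B) a))]
  refine Finset.prod_congr rfl (fun x _ => ?_)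
  have h1 : (D4_ev (A := A) ζ hζ : AddMonoidAlgebra A (ZMod ℓ) →+* B) (D4_w A x) = ζ ^ x.val :=
    D4_ev_w ζ hζ x
  have h2 : (D4_ev (A := A) ζ hζ : AddMonoidAlgebra A (ZMod ℓ) →+* B).comp
      (algebraMap A (AddMonoidAlgebra A (ZMod ℓ))) = algebraMap A B := by
    ext1 r
    exact (D4_ev (A := A) ζ hζ).commutes r
  rw [h1, h2]

end D4aux

theorem norm_lemma {A B : Type} [CommRing A] [CommRing B] [Algebra A B] (ℓ : ℕ) (hℓ : ℓ.Prime)
    (ζ : B) (hζ : ∑ i ∈ Finset.range ℓ, ζ ^ i = 0) (a : PowerSeries A) :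
    ∃ θ : PowerSeries A,
      PowerSeries.map (algebraMap A B) (exd ℓ θ) =
        ∏ j ∈ Finset.range ℓ, PowerSeries.rescale (ζ ^ j) (PowerSeries.map (algebraMap A B) a) ∧
      PowerSeries.C (ℓ : A) ∣ exd ℓ θ - a ^ ℓ := by
  have hne : NeZero ℓ := ⟨hℓ.ne_zero⟩
  have hfact : Fact ℓ.Prime := ⟨hℓ⟩
  have hζ1 : ζ ^ ℓ = 1 := by
    have h := geom_sum_mul ζ ℓ
    rw [hζ, zero_mul] at h
    exact (sub_eq_zero.1 h.symm)
  obtain ⟨b, hb⟩ : ∃ b, b = D4_b ℓ a := ⟨_, rfl⟩
  have hcoef : ∀ n (x : ZMod ℓ), x ≠ 0 →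
      (PowerSeries.coeff n b).coeff x = (PowerSeries.coeff n b).coeff 1 := by
    intro n x hx
    let e : ZMod ℓ ≃+ ZMod ℓ :=
      { toFun := fun y => x * y
        invFun := fun y => x⁻¹ * y
        left_inv := fun y => inv_mul_cancel_left₀ hx y
        right_inv := fun y => mul_inv_cancel_left₀ hx y
        map_add' := fun y z => mul_add x y z }
    have h := D4_aut e a n (1 : ZMod ℓ)
    rw [← hb] at h
    have h2 : e 1 = x := mul_one x
    rw [h2] at h
    exact h
  have hcoef0 : ∀ n, ¬ ℓ ∣ n →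
      (PowerSeries.coeff n b).coeff 0 = (PowerSeries.coeff n b).coeff 1 := by
    intro n hn
    have h := D4_tr (ℓ := ℓ) a n 0
    rw [← hb, add_zero] at h
    rw [← h]
    apply hcoef
    rw [Ne, neg_eq_zero, ZMod.natCast_eq_zero_iff]
    exact hn
  have hev := D4_ev_b (A := A) ζ hζ1 a
  have hau := D4_ev_b (A := A) (B := A) (ℓ := ℓ) (1 : A) (one_pow ℓ) a
  rw [← hb] at hev hau
  have hau' : PowerSeries.map (D4_ev (A := A) (B := A) (ℓ := ℓ) (1 : A) (one_pow ℓ) :
      AddMonoidAlgebra A (ZMod ℓ) →+* A) b = a ^ ℓ := by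
    rw [hau]
    have h1 : ∀ j ∈ Finset.range ℓ, PowerSeries.rescale ((1 : A) ^ j)
        (PowerSeries.map (algebraMap A A) a) = a := by
      intro j _
      rw [one_pow, PowerSeries.rescale_one]
      ext n
      show PowerSeries.coeff n (PowerSeries.map (algebraMap A A) a) = _
      rw [PowerSeries.coeff_map]
      rfl
    rw [Finset.prod_congr rfl h1, Finset.prod_const, Finset.card_range]
  refine ⟨PowerSeries.mk fun m => (PowerSeries.coeff (ℓ * m) b).coeff 0 -
    (PowerSeries.coeff (ℓ * m) b).coeff 1, ?_, ?_⟩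
  · rw [← hev]
    ext n
    rw [PowerSeries.coeff_map, PowerSeries.coeff_map]
    show _ = D4_ev ζ hζ1 (PowerSeries.coeff n b)
    rw [D4_ev_apply ζ hζ1 _ (hcoef n), hζ, mul_zero, add_zero]
    unfold exd
    rw [PowerSeries.coeff_mk]
    by_cases hn : ℓ ∣ n
    · rw [if_pos hn, PowerSeries.coeff_mk, Nat.mul_div_cancel' hn]
    · rw [if_neg hn, hcoef0 n hn, sub_self]
  · refine ⟨- PowerSeries.mk fun n => (PowerSeries.coeff n b).coeff 1, ?_⟩
    rw [← hau']
    ext n
    rw [map_sub, PowerSeries.coeff_map, PowerSeries.coeff_C_mul, map_neg, PowerSeries.coeff_mk]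
    show _ - D4_ev (A := A) (B := A) (ℓ := ℓ) (1 : A) (one_pow ℓ) (PowerSeries.coeff n b) = _
    rw [D4_ev_apply (1 : A) (one_pow ℓ) _ (hcoef n)]
    simp only [one_pow, Finset.sum_const, Finset.card_range, nsmul_eq_mul, mul_one,
      Algebra.algebraMap_self, RingHom.id_apply]
    unfold exd
    rw [PowerSeries.coeff_mk]
    by_cases hn : ℓ ∣ n
    · rw [if_pos hn, PowerSeries.coeff_mk, Nat.mul_div_cancel' hn]
      ring
    · rw [if_neg hn, hcoef0 n hn]
      ring

end Pool.Agent.LibZP46
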