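import Pool.Agent.LibZP46.D2
import Pool.Agent.LibZP46.D4

/-!
ZP46 D5. Mixed symmetric functions of the conjugates `α (ζ ^ j y)`, `β (ζ ^ j y)`.

Plan. `ek2_eq_coeff`: `∏ (v i + X u i) = ∑ ek2 k u v X ^ k` (`Finset.prod_add`). `ek2_series`:
`norm_lemma` with `A = ℤ[X]`, `B = ℂ[X]`, the power series `β + X α` over `ℤ[X]` and the constant
`ζ`; let `θ k` have the coefficients `(coeff n θ').coeff k`. For the congruences:
`(β + X α) ^ ℓ ≡ β ^ ℓ + X ^ ℓ α ^ ℓ` modulo `ℓ`, so for `0 < k < ℓ` the coefficient of `X ^ k` is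
divisible by `ℓ`, and for `k = ℓ` it is `α ^ ℓ ≡ exd ℓ α` modulo `ℓ` (`exd_congr`: Frobenius for
power series over `ZMod ℓ`, `frobenius` / `add_pow_char`, or `PowerSeries` coefficientwise:
`α ^ ℓ` modulo `ℓ` only depends on truncations, for polynomials `Polynomial.expand_char`,
`ZMod.expand_card`). `ek2_one`: `ek2 k u 1 = ek k u`.
-/

namespace Pool.Agent.LibZP46

open Polynomial

/-- Mixed symmetric functions. -/
def ek2 {ι R : Type*} [Fintype ι] [DecidableEq ι] [CommRing R] (k : ℕ) (u v : ι → R) : R :=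
  ∑ s ∈ Finset.powersetCard k Finset.univ, (∏ i ∈ s, u i) * ∏ i ∈ sᶜ, v i

section

variable {ι R S : Type*} [Fintype ι] [DecidableEq ι] [CommRing R] [CommRing S]

theorem ek2_one (k : ℕ) (u : ι → R) : ek2 k u (fun _ => 1) = ek k u := by
  simp [ek2, ek]

/-- `ek2 k (u v) v = (∏ v) ek k u`. -/
theorem ek2_mul_right (k : ℕ) (u v : ι → R) :
    ek2 k (fun i => v i * u i) v = (∏ i, v i) * ek k u := by
  unfold ek2 ek
  rw [Finset.mul_sum]
  refine Finset.sum_congr rfl fun s _ => ?_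
  rw [Finset.prod_mul_distrib, ← Finset.prod_mul_prod_compl s v]
  ring

private theorem prod_add_mul (x : R) (u v : ι → R) :
    ∏ i, (v i + x * u i) = ∑ k ∈ Finset.range (Fintype.card ι + 1), x ^ k * ek2 k u v := by
  have h1 : ∏ i, (v i + x * u i) = ∏ i, (x * u i + v i) :=
    Finset.prod_congr rfl fun i _ => add_comm _ _
  rw [h1, Finset.prod_add]
  rw [Finset.sum_powerset, Finset.card_univ]
  refine Finset.sum_congr rfl fun k _ => ?_
  unfold ek2
  rw [Finset.mul_sum]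
  refine Finset.sum_congr rfl fun s hs => ?_
  rw [Finset.prod_mul_distrib, Finset.prod_const, (Finset.mem_powersetCard.1 hs).2,
    Finset.compl_eq_univ_sdiff]
  ring

private theorem ek2_of_gt (k : ℕ) (hk : Fintype.card ι < k) (u v : ι → R) : ek2 k u v = 0 := by
  unfold ek2
  rw [Finset.powersetCard_eq_empty.2 (by rwa [Finset.card_univ]), Finset.sum_empty]

theorem map_ek2 (f : R →+* S) (k : ℕ) (u v : ι → R) :
    f (ek2 k u v) = ek2 k (fun i => f (u i)) (fun i => f (v i)) := by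
  simp only [ek2, map_sum, map_mul, map_prod]

theorem ek2_eq_coeff (k : ℕ) (u v : ι → R) :
    ek2 k u v = (∏ i, (C (v i) + X * C (u i))).coeff k := by
  have h := prod_add_mul (X : R[X]) (fun i => C (u i)) (fun i => C (v i))
  rw [h, Polynomial.finsetSum_coeff]
  have h2 : ∀ m ∈ Finset.range (Fintype.card ι + 1),
      ((X : R[X]) ^ m * ek2 m (fun i => C (u i)) (fun i => C (v i))).coeff k =
        if k = m then ek2 m u v else 0 := by
    intro m _
    rw [← map_ek2 (C : R →+* R[X]), mul_comm, Polynomial.coeff_C_mul_X_pow]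
  rw [Finset.sum_congr rfl h2, Finset.sum_ite_eq]
  split_ifs with h3
  · rfl
  · exact ek2_of_gt k (by simpa using h3) u v

end

private theorem C_dvd_iff {R : Type*} [CommRing R] (c : R) (P : PowerSeries R) :
    PowerSeries.C c ∣ P ↔ ∀ n, c ∣ PowerSeries.coeff n P := by
  constructor
  · rintro ⟨Q, rfl⟩ n
    rw [PowerSeries.coeff_C_mul]
    exact Dvd.intro _ rfl
  · intro h
    choose f hf using h
    refine ⟨PowerSeries.mk f, ?_⟩
    ext n
    rw [PowerSeries.coeff_C_mul, PowerSeries.coeff_mk, hf n]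

/-- Frobenius. -/
theorem exd_congr (ℓ : ℕ) (hℓ : ℓ.Prime) (a : PowerSeries ℤ) :
    PowerSeries.C (ℓ : ℤ) ∣ exd ℓ a - a ^ ℓ := by
  have : Fact ℓ.Prime := ⟨hℓ⟩
  rw [C_dvd_iff]
  intro n
  rw [← ZMod.intCast_zmod_eq_zero_iff_dvd]
  have h1 : (a ^ ℓ).map (Int.castRingHom (ZMod ℓ)) = (a.map (Int.castRingHom (ZMod ℓ))) ^ ℓ := by
    rw [map_pow]
  have h2 : PowerSeries.coeff n ((a.map (Int.castRingHom (ZMod ℓ))) ^ ℓ) =
      if ℓ ∣ n then ((PowerSeries.coeff (n / ℓ) a : ℤ) : ZMod ℓ) else 0 := by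
    rw [← PowerSeries.coeff_coe_trunc_of_lt (Nat.lt_succ_self n), ← PowerSeries.trunc_trunc_pow,
      PowerSeries.coeff_coe_trunc_of_lt (Nat.lt_succ_self n), ← Polynomial.coe_pow,
      ← ZMod.expand_card, Polynomial.coeff_coe, Polynomial.coeff_expand hℓ.pos]
    split_ifs with h
    · rw [PowerSeries.coeff_trunc, if_pos (Nat.lt_succ_of_le (Nat.div_le_self n ℓ)),
        PowerSeries.coeff_map]
      rfl
    · rfl
  have h3 : ((PowerSeries.coeff n (a ^ ℓ) : ℤ) : ZMod ℓ) =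
      if ℓ ∣ n then ((PowerSeries.coeff (n / ℓ) a : ℤ) : ZMod ℓ) else 0 := by
    rw [← h2, ← h1, PowerSeries.coeff_map]
    rfl
  rw [map_sub, Int.cast_sub, h3]
  unfold exd
  rw [PowerSeries.coeff_mk]
  split_ifs <;> simp

/-- The coefficient of `X ^ k`. -/
private noncomputable def cX {R : Type*} [CommRing R] (k : ℕ) :
    PowerSeries R[X] →+ PowerSeries R where
  toFun P := PowerSeries.mk fun n => (PowerSeries.coeff n P).coeff k
  map_zero' := by ext n; simp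
  map_add' := by intro P Q; ext n; simp

private theorem coeff_cX {R : Type*} [CommRing R] (k n : ℕ) (P : PowerSeries R[X]) :
    PowerSeries.coeff n (cX k P) = (PowerSeries.coeff n P).coeff k := by
  exact PowerSeries.coeff_mk n fun n => (PowerSeries.coeff n P).coeff k

private theorem cX_X_pow_mul {R : Type*} [CommRing R] (k m : ℕ) (b : PowerSeries R) :
    cX k ((PowerSeries.C (X : R[X])) ^ m * PowerSeries.map (C : R →+* R[X]) b) =
      if k = m then b else 0 := by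
  ext n
  rw [coeff_cX, ← map_pow, PowerSeries.coeff_C_mul, PowerSeries.coeff_map, mul_comm,
    Polynomial.coeff_C_mul_X_pow]
  split_ifs <;> simp

private theorem cX_C_mul {R : Type*} [CommRing R] (k : ℕ) (c : R) (P : PowerSeries R[X]) :
    cX k (PowerSeries.C (C c : R[X]) * P) = PowerSeries.C c * cX k P := by
  ext n
  rw [coeff_cX, PowerSeries.coeff_C_mul, PowerSeries.coeff_C_mul, coeff_cX,
    Polynomial.coeff_C_mul]

private theorem cX_exd {R : Type*} [CommRing R] (k ℓ : ℕ) (P : PowerSeries R[X]) :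
    cX k (exd ℓ P) = exd ℓ (cX k P) := by
  ext n
  rw [coeff_cX]
  unfold exd
  rw [PowerSeries.coeff_mk, PowerSeries.coeff_mk]
  split_ifs
  · rw [coeff_cX]
  · simp

private theorem cX_map (k : ℕ) (P : PowerSeries ℤ[X]) :
    cX k (PowerSeries.map (Polynomial.mapRingHom (Int.castRingHom ℂ)) P) = toC (cX k P) := by
  ext n
  unfold toC
  rw [coeff_cX, PowerSeries.coeff_map, PowerSeries.coeff_map, coeff_cX]
  simp

theorem ek2_series (ℓ : ℕ) (hℓ : ℓ.Prime) (ζ : ℂ) (hζ : ∑ i ∈ Finset.range ℓ, ζ ^ i = 0)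
    (α β : PowerSeries ℤ) :
    ∃ θ : ℕ → PowerSeries ℤ,
      (∀ k, exd ℓ (toC (θ k)) =
        ek2 k (fun j : Fin ℓ => PowerSeries.rescale (ζ ^ (j : ℕ)) (toC α))
          (fun j : Fin ℓ => PowerSeries.rescale (ζ ^ (j : ℕ)) (toC β))) ∧
      (∀ k, 0 < k → k < ℓ → PowerSeries.C (ℓ : ℤ) ∣ θ k) ∧
      PowerSeries.C (ℓ : ℤ) ∣ θ ℓ - α := by
  let alg : Algebra ℤ[X] ℂ[X] := (Polynomial.mapRingHom (Int.castRingHom ℂ)).toAlgebra
  have halg : algebraMap ℤ[X] ℂ[X] = Polynomial.mapRingHom (Int.castRingHom ℂ) := rfl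
  have hζ' : ∑ i ∈ Finset.range ℓ, (C ζ : ℂ[X]) ^ i = 0 := by
    have := congrArg (C : ℂ →+* ℂ[X]) hζ
    simpa [map_sum] using this
  obtain ⟨θ', h1, h2⟩ := norm_lemma (A := ℤ[X]) (B := ℂ[X]) ℓ hℓ (C ζ) hζ'
    (PowerSeries.map (C : ℤ →+* ℤ[X]) β +
      PowerSeries.C (X : ℤ[X]) * PowerSeries.map (C : ℤ →+* ℤ[X]) α)
  rw [halg] at h1
  -- the factors
  have hfac : ∀ j : ℕ, PowerSeries.rescale ((C ζ : ℂ[X]) ^ j)
      (PowerSeries.map (Polynomial.mapRingHom (Int.castRingHom ℂ))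
        (PowerSeries.map (C : ℤ →+* ℤ[X]) β +
          PowerSeries.C (X : ℤ[X]) * PowerSeries.map (C : ℤ →+* ℤ[X]) α)) =
      PowerSeries.map (C : ℂ →+* ℂ[X]) (PowerSeries.rescale (ζ ^ j) (toC β)) +
        PowerSeries.C (X : ℂ[X]) *
          PowerSeries.map (C : ℂ →+* ℂ[X]) (PowerSeries.rescale (ζ ^ j) (toC α)) := by
    intro j
    ext n : 1
    have e1 : PowerSeries.coeff n (PowerSeries.map (C : ℤ →+* ℤ[X]) β +
        PowerSeries.C (X : ℤ[X]) * PowerSeries.map (C : ℤ →+* ℤ[X]) α) =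
        C (PowerSeries.coeff n β) + X * C (PowerSeries.coeff n α) := by
      rw [map_add, PowerSeries.coeff_C_mul, PowerSeries.coeff_map, PowerSeries.coeff_map]
    rw [PowerSeries.coeff_rescale, PowerSeries.coeff_map, e1, map_add (PowerSeries.coeff n),
      PowerSeries.coeff_C_mul]
    simp only [PowerSeries.coeff_map, PowerSeries.coeff_rescale, toC,
      map_add, map_mul, map_pow, Polynomial.coe_mapRingHom, Polynomial.map_C, Polynomial.map_X]
    ring
  rw [Finset.prod_congr rfl fun j _ => hfac j, ← Fin.prod_univ_eq_prod_range, prod_add_mul] at h1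
  rw [Fintype.card_fin] at h1
  have key : ∀ k, ∃ Q : PowerSeries ℤ, exd ℓ (cX k θ') =
      (if k = 0 then β ^ ℓ else 0) + (if k = ℓ then α ^ ℓ else 0) +
        PowerSeries.C (ℓ : ℤ) * Q := by
    intro k
    obtain ⟨w, hw⟩ := h2
    obtain ⟨r, hr⟩ := exists_add_pow_prime_eq hℓ (PowerSeries.map (C : ℤ →+* ℤ[X]) β)
      (PowerSeries.C (X : ℤ[X]) * PowerSeries.map (C : ℤ →+* ℤ[X]) α)
    refine ⟨cX k (w + PowerSeries.map (C : ℤ →+* ℤ[X]) β *
      (PowerSeries.C (X : ℤ[X]) * PowerSeries.map (C : ℤ →+* ℤ[X]) α) * r), ?_⟩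
    have hc : (PowerSeries.C ((ℓ : ℕ) : ℤ[X]) : PowerSeries ℤ[X]) =
        PowerSeries.C (C (ℓ : ℤ) : ℤ[X]) := by simp
    have hl : ((ℓ : ℕ) : PowerSeries ℤ[X]) = PowerSeries.C (C (ℓ : ℤ) : ℤ[X]) := by simp
    have h6 : exd ℓ θ' = (PowerSeries.C (X : ℤ[X])) ^ 0 *
        PowerSeries.map (C : ℤ →+* ℤ[X]) (β ^ ℓ) +
        (PowerSeries.C (X : ℤ[X])) ^ ℓ * PowerSeries.map (C : ℤ →+* ℤ[X]) (α ^ ℓ) +
        PowerSeries.C (C (ℓ : ℤ) : ℤ[X]) * (w + PowerSeries.map (C : ℤ →+* ℤ[X]) β *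
      (PowerSeries.C (X : ℤ[X]) * PowerSeries.map (C : ℤ →+* ℤ[X]) α) * r) := by
      rw [map_pow, map_pow]
      rw [hc] at hw
      rw [hl] at hr
      linear_combination hw + hr
    rw [← cX_exd, h6, map_add, map_add, cX_X_pow_mul, cX_X_pow_mul, cX_C_mul]
  refine ⟨fun k => cX k θ', ?_, ?_, ?_⟩
  · intro k
    have h3 := congrArg (cX k) h1
    rw [cX_map, cX_exd, map_sum] at h3
    rw [← toC_exd, h3]
    have h4 : ∀ m ∈ Finset.range (ℓ + 1),
        cX k ((PowerSeries.C (X : ℂ[X])) ^ m *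
          ek2 m (fun i : Fin ℓ => PowerSeries.map (C : ℂ →+* ℂ[X])
              (PowerSeries.rescale (ζ ^ (i : ℕ)) (toC α)))
            (fun i : Fin ℓ => PowerSeries.map (C : ℂ →+* ℂ[X])
              (PowerSeries.rescale (ζ ^ (i : ℕ)) (toC β)))) =
        if k = m then ek2 m (fun j : Fin ℓ => PowerSeries.rescale (ζ ^ (j : ℕ)) (toC α))
          (fun j : Fin ℓ => PowerSeries.rescale (ζ ^ (j : ℕ)) (toC β)) else 0 := by
      intro m _
      rw [← map_ek2 (PowerSeries.map (C : ℂ →+* ℂ[X])), cX_X_pow_mul]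
    rw [Finset.sum_congr rfl h4, Finset.sum_ite_eq]
    split_ifs with h5
    · rfl
    · rw [ek2_of_gt k (by simpa using h5)]
  · intro k hk0 hkl
    rw [C_dvd_iff]
    intro n
    have h := (C_dvd_iff (ℓ : ℤ) (exd ℓ (cX k θ'))).1 ?_ (ℓ * n)
    · unfold exd at h
      rwa [PowerSeries.coeff_mk, if_pos (dvd_mul_right _ _),
        Nat.mul_div_cancel_left _ hℓ.pos] at h
    · obtain ⟨Q, hQ⟩ := key k
      rw [hQ, if_neg hk0.ne', if_neg hkl.ne, zero_add, zero_add]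
      exact Dvd.intro _ rfl
  · rw [C_dvd_iff]
    intro n
    obtain ⟨Q, hQ⟩ := key ℓ
    obtain ⟨V, hV⟩ := exd_congr ℓ hℓ α
    have h := (C_dvd_iff (ℓ : ℤ) (exd ℓ (cX ℓ θ') - exd ℓ α)).1 ?_ (ℓ * n)
    · unfold exd at h
      rwa [map_sub, PowerSeries.coeff_mk, PowerSeries.coeff_mk, if_pos (dvd_mul_right _ _),
        if_pos (dvd_mul_right _ _), Nat.mul_div_cancel_left _ hℓ.pos, ← map_sub] at h
    · rw [hQ, if_neg hℓ.ne_zero, if_pos rfl]
      refine ⟨Q - V, ?_⟩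
      linear_combination -hV

end Pool.Agent.LibZP46
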