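import Pool.Agent.LibZP46.D5
import Pool.Agent.LibZP46.D3
import Pool.Agent.LibZP46.A8

/-!
ZP46 D6. The q-series of the symmetric functions of the translates.

Plan. `ζ = exp (2 π i / ℓ) = qq (1 / ℓ)`, `∑ ζ ^ i = 0` (`IsPrimitiveRoot.geom_sum_eq_zero`).
`ek2_hasQ`: by `HasQ.of_dil` it is enough to treat `τ ↦ F ((ℓ τ + j) / ℓ) = F (τ + j / ℓ)`, whose
series is `rescale (qq (j / ℓ)) α = rescale (ζ ^ j) α` (`HasQ.transl`); then `HasQ.mul`, `HasQ.prod`,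
`HasQ.sum` and `ek2_series`. `prod_qq`: `∏_{j < ℓ} qq ((τ + j) / ℓ) = qq τ * exp (π i (ℓ - 1)) =
qq τ` for odd `ℓ`.
-/

namespace Pool.Agent.LibZP46

open Complex

theorem geom_qq (ℓ : ℕ) (hℓ : ℓ.Prime) :
    ∑ i ∈ Finset.range ℓ, qq ((1 : ℂ) / ℓ) ^ i = 0 := by
  have h1 : qq ((1 : ℂ) / ℓ) = exp (2 * (Real.pi : ℂ) * I / ℓ) := by
    unfold qq
    congr 1
    ring
  rw [h1]
  exact (Complex.isPrimitiveRoot_exp ℓ hℓ.ne_zero).geom_sum_eq_zero hℓ.one_lt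

private theorem D6_sum (m : ℕ) :
    ∑ j : Fin (2 * m + 1), ((j : ℕ) : ℂ) = (2 * m + 1) * m := by
  rw [Fin.sum_univ_eq_sum_range (fun j : ℕ => (j : ℂ)) (2 * m + 1)]
  induction m with
  | zero => simp
  | succ m ih =>
    have h : 2 * (m + 1) + 1 = 2 * m + 1 + 1 + 1 := by ring
    rw [h, Finset.sum_range_succ, Finset.sum_range_succ, ih]
    push_cast
    ring

private theorem D6_prod {ι : Type*} (s : Finset ι) (f : ι → ℂ) :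
    ∏ j ∈ s, qq (f j) = qq (∑ j ∈ s, f j) := by
  unfold qq
  rw [Finset.mul_sum, Complex.exp_sum]

theorem prod_qq (ℓ : ℕ) (hℓ : ℓ.Prime) (h2 : ℓ ≠ 2) (τ : ℂ) :
    ∏ j : Fin ℓ, qq ((τ + (j : ℕ)) / ℓ) = qq τ := by
  obtain ⟨m, hm⟩ := hℓ.odd_of_ne_two h2
  subst hm
  rw [D6_prod]
  have h3 : ((2 * m + 1 : ℕ) : ℂ) ≠ 0 := by exact_mod_cast hℓ.ne_zero
  have h4 : ∑ j : Fin (2 * m + 1), (τ + ((j : ℕ) : ℂ)) / ((2 * m + 1 : ℕ) : ℂ) = τ + ((m : ℤ) : ℂ) := by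
    rw [← Finset.sum_div, Finset.sum_add_distrib, D6_sum]
    simp only [Finset.sum_const, Finset.card_univ, Fintype.card_fin, nsmul_eq_mul]
    rw [div_eq_iff h3]
    push_cast
    ring
  rw [h4, qq_add, qq_int, mul_one]

/-- The series of the mixed symmetric functions of `F ((τ + j) / ℓ)`, `G ((τ + j) / ℓ)`. -/
theorem ek2_hasQ (ℓ : ℕ) (hℓ : ℓ.Prime) {F G : ℂ → ℂ} {α β : PowerSeries ℤ}
    (hF : HasQ F (toC α)) (hG : HasQ G (toC β)) :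
    ∃ θ : ℕ → PowerSeries ℤ,
      (∀ k, HasQ (fun τ => ek2 k (fun j : Fin ℓ => F ((τ + (j : ℕ)) / ℓ))
        (fun j : Fin ℓ => G ((τ + (j : ℕ)) / ℓ))) (toC (θ k))) ∧
      (∀ k, 0 < k → k < ℓ → PowerSeries.C (ℓ : ℤ) ∣ θ k) ∧
      PowerSeries.C (ℓ : ℤ) ∣ θ ℓ - α := by
  obtain ⟨θ, h1, h2, h3⟩ := ek2_series ℓ hℓ (qq ((1 : ℂ) / ℓ)) (geom_qq ℓ hℓ) α β
  refine ⟨θ, fun k => ?_, h2, h3⟩
  have hℓ0 : (ℓ : ℂ) ≠ 0 := by exact_mod_cast hℓ.ne_zero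
  have key : ∀ {F : ℂ → ℂ} {α : PowerSeries ℤ}, HasQ F (toC α) → ∀ j : Fin ℓ,
      HasQ (fun τ => F (((ℓ : ℂ) * τ + (j : ℕ)) / ℓ))
        (PowerSeries.rescale (qq ((1 : ℂ) / ℓ) ^ (j : ℕ)) (toC α)) := by
    intro F α hF j
    have h4 := hF.transl ((j : ℕ) / (ℓ : ℕ) : ℝ)
    have h5 : qq ((((j : ℕ) / (ℓ : ℕ) : ℝ)) : ℂ) = qq ((1 : ℂ) / ℓ) ^ (j : ℕ) := by
      rw [← qq_nat_mul]
      congr 1
      push_cast
      ring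
    rw [h5] at h4
    refine h4.congr 0 fun τ _ => ?_
    congr 1
    push_cast
    field_simp
  refine HasQ.of_dil ℓ hℓ.pos ?_
  rw [h1 k]
  unfold ek2
  refine HasQ.sum _ fun s _ => ?_
  exact (HasQ.prod s fun j _ => key hF j).mul (HasQ.prod sᶜ fun j _ => key hG j)

end Pool.Agent.LibZP46
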