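import Pool.Agent.LibZP46.D6
import Pool.Agent.LibZP46.A9

/-!
ZP46 D7. The q-series of the symmetric functions of the translates of `z`, and the Hecke
polynomials of `z`.

Plan. `hasQ_ekz`: `ek_option`, `HF_some`, `HF_none` (`r = 1`: factor `ℓ ^ 2`), `ek2_hasQ` with
`G = 1`, `β = 1` (`ek2_one`); `θ 0 = 1` by `HasQ.unique` (`ek_zero`), `θ k = 0` for `k > ℓ`
(`ek_of_gt`); the series of `z (ℓ τ)` is `exd ℓ zS` (`HasQ.dil`). `exists_hecke`: for each `k`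
`F = ek k (HF z) * z ^ (c cd - k) / g ^ cd` (`cd = cd c k`, `k ≤ c * cd`) is holomorphic, has weight
`0` and trivial signs (`ek_HF_mod`; the sign is `χ ^ (2 c cd) = 1`), and `q ^ cd F` has an integral
series (`(g / q)⁻¹`: `HasQ.shift`, `HasQ.ivS`), so `poly` gives `Q k`. For `0 < k < ℓ` the series is
divisible by `ℓ`, for `k = ℓ + 1` by `ℓ ^ 2` (`θ (ℓ + 1) = 0`): apply `poly` to `F / ℓ`,
`F / ℓ ^ 2` and put `Q k = ℓ * (...)`. For `k > ℓ + 1` take `Q k = 0`.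
-/

namespace Pool.Agent.LibZP46

open Complex Polynomial

variable {D : Dat}

/-- The Hecke polynomials. -/
structure HeckePoly (D : Dat) (ℓ : ℕ) (Q : ℕ → ℤ[X]) : Prop where
  deg : ∀ k, (Q k).natDegree ≤ cd D.c k
  eq : ∀ k, ∀ τ : ℂ, 0 < τ.im →
    ek k (fun i => HF ℓ 1 D.z i τ) * D.z τ ^ (D.c * cd D.c k - k) =
      D.g τ ^ cd D.c k * aeval (D.t τ) (Q k)
  dvd : ∀ k, 0 < k → k < ℓ → C (ℓ : ℤ) ∣ Q k
  dvd2 : C ((ℓ : ℤ) ^ 2) ∣ Q (ℓ + 1)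

theorem le_c_mul_cd (c k : ℕ) (hc : 0 < c) : k ≤ c * cd c k := by
  unfold cd
  have h1 := Nat.div_add_mod (k + c - 1) c
  have h2 := Nat.mod_lt (k + c - 1) hc
  omega

private theorem D7_toC_one : toC 1 = 1 := map_one (PowerSeries.map (Int.castRingHom ℂ))

private theorem D7_toC_zero : toC 0 = 0 := map_zero (PowerSeries.map (Int.castRingHom ℂ))

theorem hasQ_ekz (h : D.OK) (ℓ : ℕ) (hℓ : ℓ.Prime) :
    ∃ θ : ℕ → PowerSeries ℤ, θ 0 = 1 ∧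
      (∀ k, 0 < k → k < ℓ → PowerSeries.C (ℓ : ℤ) ∣ θ k) ∧
      PowerSeries.C (ℓ : ℤ) ∣ θ ℓ - D.zS ∧ (∀ k, ℓ < k → θ k = 0) ∧
      ∀ k, HasQ (fun τ => ek (k + 1) (fun i => HF ℓ 1 D.z i τ))
        (toC (θ (k + 1) + PowerSeries.C ((ℓ : ℤ) ^ 2) * exd ℓ D.zS * θ k)) := by
  have hG : HasQ (fun _ => (1 : ℂ)) (toC 1) :=
    (hasQ_const 1).of_eq (by rw [D7_toC_one, map_one])
  obtain ⟨θ, h1, h2, h3⟩ := ek2_hasQ ℓ hℓ h.zq hG
  have h1' : ∀ k, HasQ (fun τ => ek k (fun j : Fin ℓ => D.z ((τ + (j : ℕ)) / ℓ))) (toC (θ k)) := by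
    intro k
    refine (h1 k).congr 0 fun τ _ => ?_
    exact ek2_one k _
  refine ⟨θ, ?_, h2, h3, ?_, ?_⟩
  · apply toC_injective
    refine (h1' 0).unique (hG.congr 0 fun τ _ => ?_)
    exact (ek_zero _).symm
  · intro k hk
    apply toC_injective
    rw [D7_toC_zero]
    have h0 : HasQ (fun _ => (0 : ℂ)) 0 := (hasQ_const 0).of_eq (map_zero _)
    refine (h1' k).unique (h0.congr 0 fun τ _ => ?_)
    exact (ek_of_gt k (by rw [Fintype.card_fin]; exact hk) _).symm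
  · intro k
    have hd := ((h.zq.dil ℓ hℓ.pos).const_mul ((ℓ : ℂ) ^ 2)).mul (h1' k)
    have hs := (h1' (k + 1)).add hd
    refine (hs.congr 0 fun τ _ => ?_).of_eq ?_
    · rw [ek_option, HF_none, zpow_one]
      simp only [HF_some ℓ hℓ.pos]
    · rw [toC_add, toC_mul, toC_mul, toC_C, toC_exd]
      push_cast
      rfl

private theorem D7_one (h : D.OK) (ℓ : ℕ) (hℓ : ℓ.Prime) (hN : ¬ (ℓ : ℤ) ∣ D.N) (k : ℕ) (d : ℤ)
    (hd : d ≠ 0) (ψ : PowerSeries ℤ)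
    (hq : HasQ (fun τ => ek k (fun i => HF ℓ 1 D.z i τ)) (toC (PowerSeries.C d * ψ))) :
    ∃ Q : ℤ[X], (C d * Q).natDegree ≤ cd D.c k ∧ ∀ τ : ℂ, 0 < τ.im →
      ek k (fun i => HF ℓ 1 D.z i τ) * D.z τ ^ (D.c * cd D.c k - k) =
        D.g τ ^ cd D.c k * aeval (D.t τ) (C d * Q) := by
  have hk := le_c_mul_cd D.c k h.hc
  set n := cd D.c k with hn
  set m := D.c * n - k with hm
  have hmk : k + m = D.c * n := by omega
  have hdC : (d : ℂ) ≠ 0 := by exact_mod_cast hd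
  have hF : Hol (fun τ => (d : ℂ)⁻¹ * (ek k (fun i => HF ℓ 1 D.z i τ) * D.z τ ^ m * (D.g τ ^ n)⁻¹)) := by
    have a1 : DifferentiableOn ℂ (fun τ => ek k (fun i => HF ℓ 1 D.z i τ)) {τ : ℂ | 0 < τ.im} :=
      ek_HF_hol ℓ hℓ.pos 1 h.zhol k
    have a2 : DifferentiableOn ℂ (fun τ => D.z τ ^ m) {τ : ℂ | 0 < τ.im} := h.zhol.pow m
    have a3 : DifferentiableOn ℂ (fun τ => D.g τ ^ n) {τ : ℂ | 0 < τ.im} := h.ghol.pow n
    have a4 : DifferentiableOn ℂ (fun τ => (D.g τ ^ n)⁻¹) {τ : ℂ | 0 < τ.im} :=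
      a3.inv fun τ hτ => pow_ne_zero n (h.gne τ hτ)
    exact ((a1.mul a2).mul a4).const_mul _
  have hM : ModN D.N (fun _ => 1) 0
      (fun τ => (d : ℂ)⁻¹ * (ek k (fun i => HF ℓ 1 D.z i τ) * D.z τ ^ m * (D.g τ ^ n)⁻¹)) := by
    have b1 := ek_HF_mod h.zmod ℓ hℓ hN k
    have b2 := h.zmod.pow m
    have b3 := (h.gmod.pow n).inv fun e he heN => by
      show ((D.χ e ^ D.c) ^ n) ^ 2 = 1
      rw [← pow_mul, ← pow_mul, ← mul_assoc, mul_comm (D.c * n) 2, pow_mul, h.chi_sq e he heN, one_pow]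
    have b4 := ((b1.mul b2).mul b3).const_mul (d : ℂ)⁻¹
    have hr : (k : ℤ) * 1 + (m : ℤ) * 1 + -((n : ℤ) * (D.c : ℤ)) = 0 := by
      have : (k : ℤ) + (m : ℤ) = (D.c : ℤ) * (n : ℤ) := by exact_mod_cast hmk
      linarith
    rw [hr] at b4
    refine b4.congr_chi fun e he heN => ?_
    show D.χ e ^ k * D.χ e ^ m * (D.χ e ^ D.c) ^ n = 1
    rw [← pow_add, hmk, ← pow_mul, ← pow_add, ← two_mul, pow_mul, h.chi_sq e he heN, one_pow]
  have hQ : HasQ (fun τ => qq τ ^ n * ((d : ℂ)⁻¹ * (ek k (fun i => HF ℓ 1 D.z i τ) * D.z τ ^ m *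
      (D.g τ ^ n)⁻¹))) (toC (ψ * D.zS ^ m * ivS (shS D.gS) ^ n)) := by
    have c1 : HasQ (fun τ => (d : ℂ)⁻¹ * ek k (fun i => HF ℓ 1 D.z i τ)) (toC ψ) := by
      refine (hq.const_mul (d : ℂ)⁻¹).of_eq ?_
      rw [toC_mul, toC_C, ← mul_assoc, ← map_mul, inv_mul_cancel₀ hdC, map_one, one_mul]
    have c2 := h.zq.pow m
    have hg0 : PowerSeries.constantCoeff (toC D.gS) = 0 := by
      show PowerSeries.constantCoeff (PowerSeries.map (Int.castRingHom ℂ) D.gS) = 0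
      rw [← PowerSeries.coeff_zero_eq_constantCoeff_apply, PowerSeries.coeff_map,
        PowerSeries.coeff_zero_eq_constantCoeff_apply, h.g0, map_zero]
    have c3 := h.gq.shift hg0
    rw [← toC_shS] at c3
    have hs1 : PowerSeries.constantCoeff (shS D.gS) = 1 := by
      rw [← PowerSeries.coeff_zero_eq_constantCoeff_apply]
      show PowerSeries.coeff 0 (PowerSeries.mk fun n => PowerSeries.coeff (n + 1) D.gS) = 1
      rw [PowerSeries.coeff_mk]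
      exact h.g1
    have c4 := (c3.ivS hs1).pow n
    have c5 := (c1.mul c2).mul c4
    refine (c5.congr 0 fun τ hτ => ?_).of_eq ?_
    · have hgt := h.gne τ hτ
      have hqt := qq_ne τ
      rw [inv_div, div_pow]
      field_simp
    · rw [toC_mul, toC_mul, toC_pow, toC_pow]
  obtain ⟨P, hP1, hP2⟩ := poly h n _ hF hM _ hQ
  refine ⟨P, (natDegree_C_mul_le _ _).trans hP1, fun τ hτ => ?_⟩
  have e1 := hP2 τ hτ
  have hgt : D.g τ ^ n ≠ 0 := pow_ne_zero n (h.gne τ hτ)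
  rw [map_mul, ← e1]
  have e2 : aeval (D.t τ) (C d : ℤ[X]) = (d : ℂ) := by
    rw [aeval_C]
    simp
  rw [e2]
  field_simp

theorem exists_hecke (h : D.OK) (ℓ : ℕ) (hℓ : ℓ.Prime) (hN : ¬ (ℓ : ℤ) ∣ D.N) :
    ∃ Q : ℕ → ℤ[X], HeckePoly D ℓ Q := by
  obtain ⟨θ, h0, h1, -, h3, h4⟩ := hasQ_ekz h ℓ hℓ
  have hl : (ℓ : ℤ) ≠ 0 := by exact_mod_cast hℓ.ne_zero
  have key : ∀ k : ℕ, ∃ Q : ℤ[X], Q.natDegree ≤ cd D.c k ∧ (∀ τ : ℂ, 0 < τ.im →
      ek k (fun i => HF ℓ 1 D.z i τ) * D.z τ ^ (D.c * cd D.c k - k) =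
        D.g τ ^ cd D.c k * aeval (D.t τ) Q) ∧ (0 < k → k < ℓ → C (ℓ : ℤ) ∣ Q) ∧
      (k = ℓ + 1 → C ((ℓ : ℤ) ^ 2) ∣ Q) := by
    intro k
    have gen : ∀ (d : ℤ) (ψ : PowerSeries ℤ), d ≠ 0 →
        HasQ (fun τ => ek k (fun i => HF ℓ 1 D.z i τ)) (toC (PowerSeries.C d * ψ)) →
        (0 < k → k < ℓ → (ℓ : ℤ) ∣ d) → (k = ℓ + 1 → ((ℓ : ℤ) ^ 2) ∣ d) →
        ∃ Q : ℤ[X], Q.natDegree ≤ cd D.c k ∧ (∀ τ : ℂ, 0 < τ.im →
          ek k (fun i => HF ℓ 1 D.z i τ) * D.z τ ^ (D.c * cd D.c k - k) =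
            D.g τ ^ cd D.c k * aeval (D.t τ) Q) ∧ (0 < k → k < ℓ → C (ℓ : ℤ) ∣ Q) ∧
          (k = ℓ + 1 → C ((ℓ : ℤ) ^ 2) ∣ Q) := by
      intro d ψ hd hq hd1 hd2
      obtain ⟨Q, hQ1, hQ2⟩ := D7_one h ℓ hℓ hN k d hd ψ hq
      exact ⟨C d * Q, hQ1, hQ2, fun a b => Dvd.dvd.mul_right (map_dvd C (hd1 a b)) _,
        fun a => Dvd.dvd.mul_right (map_dvd C (hd2 a)) _⟩
    rcases k with _ | k
    · refine gen 1 1 one_ne_zero ?_ (fun a => absurd a (lt_irrefl _)) (fun a => by omega)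
      have hG : HasQ (fun _ => (1 : ℂ)) (toC (PowerSeries.C 1 * 1)) :=
        (hasQ_const 1).of_eq (by rw [map_one, map_one, one_mul, D7_toC_one])
      exact hG.congr 0 fun τ _ => (ek_zero _).symm
    · by_cases hk : k + 1 < ℓ
      · obtain ⟨φ, hφ⟩ := h1 (k + 1) (Nat.succ_pos k) hk
        refine gen ℓ (φ + PowerSeries.C (ℓ : ℤ) * exd ℓ D.zS * θ k) hl ((h4 k).of_eq ?_)
          (fun _ _ => dvd_refl _) (fun a => by omega)
        rw [hφ, pow_two, map_mul]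
        congr 1
        ring
      · by_cases hk' : k = ℓ
        · subst hk'
          refine gen ((k : ℤ) ^ 2) (exd k D.zS * θ k) (pow_ne_zero 2 hl) ((h4 k).of_eq ?_)
            (fun _ a => absurd a hk) (fun _ => dvd_refl _)
          rw [h3 (k + 1) (Nat.lt_succ_self k), zero_add, mul_assoc]
        · refine gen 1 (θ (k + 1) + PowerSeries.C ((ℓ : ℤ) ^ 2) * exd ℓ D.zS * θ k) one_ne_zero
            ((h4 k).of_eq ?_) (fun _ a => absurd a hk) (fun a => absurd (Nat.succ_injective a) hk')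
          rw [map_one, one_mul]
  choose Q q1 q2 q3 q4 using key
  exact ⟨Q, q1, q2, q3, q4 (ℓ + 1) rfl⟩

end Pool.Agent.LibZP46
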