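import Pool.Agent.LibZP46.D7

/-!
ZP46 D8. The q-series of the Hecke polynomials in terms of `x = 1 / t`.

Plan. For large imaginary part `z τ ≠ 0` (`HasQ.tendsto`, the constant coefficient is `1`), and
`t ≠ 0`; with `x = g / z ^ c = 1 / t`: `g ^ cd = z ^ (c cd) x ^ cd` and
`x ^ cd * aeval (1 / x) (Q k) = aeval x (reflect cd (Q k))` (`Polynomial.eval₂_reflect_mul_pow`,
degree at most `cd`), so `ek k (HF z) = z ^ k * aeval x (reflect cd (Q k))`. The function
`aeval x P` has the series `aeval xS P` (`hasQ_aeval`: induction on `P`, or `HasQ.sum`;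
`Dat.OK.x_q`).
-/

namespace Pool.Agent.LibZP46

open Complex Polynomial

variable {D : Dat}

theorem hasQ_aeval {F : ℂ → ℂ} {a : PowerSeries ℤ} (h : HasQ F (toC a)) (P : ℤ[X]) :
    HasQ (fun τ => aeval (F τ) P) (toC (aeval a P)) := by
  induction P using Polynomial.induction_on' with
  | add p q hp hq =>
    have h1 := hp.add hq
    refine (h1.of_eq ?_).congr 0 (fun τ _ => ?_)
    · rw [map_add, toC_add]
    · rw [map_add]
  | monomial n c =>
    have h1 := (h.pow n).const_mul (c : ℂ)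
    refine (h1.of_eq ?_).congr 0 (fun τ _ => ?_)
    · rw [aeval_monomial, toC_mul, toC_pow]
      congr 1
      have h2 : (algebraMap ℤ (PowerSeries ℤ)) c = PowerSeries.C c := by
        simp
      rw [h2, toC_C]
    · rw [aeval_monomial]
      simp

theorem hecke_series (h : D.OK) (ℓ : ℕ) {Q : ℕ → ℤ[X]} (hQ : HeckePoly D ℓ Q) (k : ℕ) :
    HasQ (fun τ => ek k (fun i => HF ℓ 1 D.z i τ))
      (toC (aeval D.xS ((Q k).reflect (cd D.c k)) * D.zS ^ k)) := by
  have hz1 : PowerSeries.constantCoeff (toC D.zS) = 1 := by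
    have h2 : PowerSeries.constantCoeff (toC D.zS) =
        ((PowerSeries.constantCoeff D.zS : ℤ) : ℂ) := by
      rw [toC, ← PowerSeries.coeff_zero_eq_constantCoeff_apply, PowerSeries.coeff_map,
        PowerSeries.coeff_zero_eq_constantCoeff_apply]
      simp
    rw [h2, h.z0]
    simp
  have hev : ∀ᶠ τ in Filter.comap Complex.im Filter.atTop, D.z τ ≠ 0 := by
    have h2 := h.zq.tendsto
    rw [hz1] at h2
    exact h2.eventually_ne one_ne_zero
  rw [Filter.eventually_comap, Filter.eventually_atTop] at hev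
  obtain ⟨Y, hY⟩ := hev
  have h1 := (hasQ_aeval h.x_q ((Q k).reflect (cd D.c k))).mul (h.zq.pow k)
  refine (h1.of_eq ?_).congr (max Y 0) (fun τ hτ => ?_)
  · rw [toC_mul, toC_pow]
  · have hτ0 : 0 < τ.im := lt_of_le_of_lt (le_max_right _ _) hτ
    have hτY : Y ≤ τ.im := (lt_of_le_of_lt (le_max_left _ _) hτ).le
    have hz : D.z τ ≠ 0 := hY τ.im hτY τ rfl
    have hg : D.g τ ≠ 0 := h.gne τ hτ0
    have ht : D.t τ ≠ 0 := div_ne_zero (pow_ne_zero _ hz) hg
    letI : Invertible (D.t τ) := invertibleOfNonzero ht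
    have hr := Polynomial.eval₂_reflect_mul_pow (algebraMap ℤ ℂ) (D.t τ) (cd D.c k) (Q k)
      (hQ.deg k)
    rw [invOf_eq_inv] at hr
    have hx : (D.t τ)⁻¹ = D.g τ / D.z τ ^ D.c := by
      rw [Dat.t, inv_div]
    rw [hx] at hr
    have he := hQ.eq k τ hτ0
    rw [Polynomial.aeval_def (D.t τ), ← hr] at he
    have hk : k ≤ D.c * cd D.c k := le_c_mul_cd D.c k h.hc
    have ht2 : D.g τ ^ cd D.c k * D.t τ ^ cd D.c k = D.z τ ^ (D.c * cd D.c k - k) * D.z τ ^ k := by
      rw [← mul_pow, ← pow_add, Nat.sub_add_cancel hk, pow_mul, Dat.t, mul_div_cancel₀ _ hg]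
    have hz' : D.z τ ^ (D.c * cd D.c k - k) ≠ 0 := pow_ne_zero _ hz
    refine mul_right_cancel₀ hz' ?_
    rw [he, Polynomial.aeval_def]
    linear_combination (-(eval₂ (algebraMap ℤ ℂ) (D.g τ / D.z τ ^ D.c)
      ((Q k).reflect (cd D.c k)))) * ht2

end Pool.Agent.LibZP46
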