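import Mathlib

/-!
ZP46 (MP_e6719f): definitions.

All functions are functions `ℂ → ℂ`; only their values on the upper half-plane matter.
-/

namespace Pool.Agent.LibZP46

open scoped BigOperators
open Complex

noncomputable section

/-! ### Numbers -/

/-- The Franel numbers. -/
def franel (n : ℕ) : ℕ := ∑ k ∈ Finset.range (n + 1), n.choose k ^ 3

/-- `u n = C(2n,n) F_n`. -/
def uu (n : ℕ) : ℕ := (2 * n).choose n * franel n

/-- `Z_p(m)`. -/
def ZZ (p m : ℕ) : ℚ :=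
  ∑ n ∈ Finset.range p, ((2 * n).choose n : ℚ) * (franel n : ℚ) / (m : ℚ) ^ n

/-- Elementary symmetric functions. -/
def ek {ι R : Type*} [Fintype ι] [CommRing R] (k : ℕ) (v : ι → R) : R :=
  ∑ s ∈ Finset.powersetCard k Finset.univ, ∏ i ∈ s, v i

/-- `k / c`, rounded up. -/
def cd (c k : ℕ) : ℕ := (k + c - 1) / c

/-- `∑_{n < p} u n * m ^ (p - 1 - n)`. -/
def US (u : ℕ → ℤ) (p : ℕ) (m : ℤ) : ℤ := ∑ n ∈ Finset.range p, u n * m ^ (p - 1 - n)

/-! ### Integer matrices -/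

/-- Integer matrices. -/
abbrev Mat : Type := Matrix (Fin 2) (Fin 2) ℤ

/-- The automorphy factor. -/
def jm (M : Mat) (τ : ℂ) : ℂ := (M 1 0 : ℂ) * τ + (M 1 1 : ℂ)

/-- The action. -/
def act (M : Mat) (τ : ℂ) : ℂ := ((M 0 0 : ℂ) * τ + (M 0 1 : ℂ)) / jm M τ

/-- The matrices `(e x, y; N z, e w)` of determinant `e n`. -/
structure ALM (N e n : ℤ) (M : Mat) : Prop where
  h00 : e ∣ M 0 0
  h10 : N ∣ M 1 0
  h11 : e ∣ M 1 1
  hdet : M.det = e * n

/-- Holomorphic on the upper half-plane. -/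
def Hol (F : ℂ → ℂ) : Prop := DifferentiableOn ℂ F {τ | 0 < τ.im}

/-- `F` has weight `2 r` for the Atkin-Lehner cosets of level `N`, with the signs `χ e`. -/
def ModN (N : ℤ) (χ : ℤ → ℤ) (r : ℤ) (F : ℂ → ℂ) : Prop :=
  ∀ e : ℤ, 0 < e → e ∣ N → ∀ W : Mat, ALM N e 1 W → ∀ τ : ℂ, 0 < τ.im →
    F (act W τ) = (χ e : ℂ) * (jm W τ ^ 2 / (e : ℂ)) ^ r * F τ

/-- Bounded for large imaginary part. -/
def Bdd (F : ℂ → ℂ) : Prop := ∃ Y C : ℝ, ∀ τ : ℂ, Y < τ.im → ‖F τ‖ ≤ C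

/-- The matrices `(ℓ, 0; 0, 1)` and `(1, j; 0, ℓ)`. -/
def MM (ℓ : ℕ) : Option (Fin ℓ) → Mat
  | none => !![(ℓ : ℤ), 0; 0, 1]
  | some j => !![1, ((j : ℕ) : ℤ); 0, (ℓ : ℤ)]

/-- The translates of `F` (of weight `2 r`) by the matrices of determinant `ℓ`. -/
def HF (ℓ : ℕ) (r : ℤ) (F : ℂ → ℂ) (i : Option (Fin ℓ)) (τ : ℂ) : ℂ :=
  ((ℓ : ℂ) ^ 2 / jm (MM ℓ i) τ ^ 2) ^ r * F (act (MM ℓ i) τ)

/-! ### q-series -/

/-- `q = exp (2 π i τ)`. -/
def qq (τ : ℂ) : ℂ := exp (2 * (Real.pi : ℂ) * I * τ)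

/-- For large imaginary part `F` is the sum of the power series `a` in `q`. -/
def HasQ (F : ℂ → ℂ) (a : PowerSeries ℂ) : Prop :=
  ∃ Y : ℝ, ∀ τ : ℂ, Y < τ.im → HasSum (fun n => PowerSeries.coeff n a * qq τ ^ n) (F τ)

/-- Integral power series as complex power series. -/
def toC (a : PowerSeries ℤ) : PowerSeries ℂ := PowerSeries.map (Int.castRingHom ℂ) a

/-- The power series `a (q ^ d)`. -/
def exd {R : Type*} [CommRing R] (d : ℕ) (a : PowerSeries R) : PowerSeries R :=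
  PowerSeries.mk fun n => if d ∣ n then PowerSeries.coeff (n / d) a else 0

/-- `q d/dq` for power series. -/
def dS {R : Type*} [CommRing R] (a : PowerSeries R) : PowerSeries R :=
  PowerSeries.mk fun n => (n : R) * PowerSeries.coeff n a

/-- `(2 π i)⁻¹ d/dτ`. -/
def DD (F : ℂ → ℂ) (τ : ℂ) : ℂ := deriv F τ / (2 * (Real.pi : ℂ) * I)

/-- The power series `a / q`. -/
def shS {R : Type*} [CommRing R] (a : PowerSeries R) : PowerSeries R :=
  PowerSeries.mk fun n => PowerSeries.coeff (n + 1) a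

/-- The inverse of a power series with constant coefficient `1`. -/
def ivS {R : Type*} [CommRing R] (a : PowerSeries R) : PowerSeries R := PowerSeries.invOfUnit a 1

/-! ### The data: a form `z` of weight 2 and a form `g` of weight `2 c`, level `N` -/

/-- The data. -/
structure Dat where
  /-- the level -/
  N : ℕ
  /-- `g` has weight `2 c` -/
  c : ℕ
  /-- the signs of `z` -/
  χ : ℤ → ℤ
  /-- the form of weight 2 -/
  z : ℂ → ℂ
  /-- the form of weight `2 c` -/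
  g : ℂ → ℂ
  /-- the q-series of `z` -/
  zS : PowerSeries ℤ
  /-- the q-series of `g` -/
  gS : PowerSeries ℤ

/-- The Hauptmodul. -/
def Dat.t (D : Dat) (τ : ℂ) : ℂ := D.z τ ^ D.c / D.g τ

/-- The q-series of `q t`. -/
def Dat.tS (D : Dat) : PowerSeries ℤ := D.zS ^ D.c * ivS (shS D.gS)

/-- The q-series of `1 / t`. -/
def Dat.xS (D : Dat) : PowerSeries ℤ := D.gS * ivS (D.zS ^ D.c)

/-- The properties of the data. -/
structure Dat.OK (D : Dat) : Prop where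
  sqf : Squarefree D.N
  hc : 0 < D.c
  chi1 : D.χ 1 = 1
  chi_sq : ∀ e : ℤ, 0 < e → e ∣ D.N → D.χ e ^ 2 = 1
  zhol : Hol D.z
  ghol : Hol D.g
  gne : ∀ τ : ℂ, 0 < τ.im → D.g τ ≠ 0
  zmod : ModN D.N D.χ 1 D.z
  gmod : ModN D.N (fun e => D.χ e ^ D.c) D.c D.g
  zq : HasQ D.z (toC D.zS)
  gq : HasQ D.g (toC D.gS)
  z0 : PowerSeries.constantCoeff D.zS = 1
  g0 : PowerSeries.constantCoeff D.gS = 0
  g1 : PowerSeries.coeff 1 D.gS = 1

/-! ### The modular functions of level 6 -/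

/-- The sign at `e` of the pair of signs `s2`, `s3`. -/
def chi (s2 s3 e : ℤ) : ℤ := (if 2 ∣ e then s2 else 1) * (if 3 ∣ e then s3 else 1)

/-- The Eisenstein series of weight 2 on the upper half-plane. -/
def EE (τ : ℂ) : ℂ := EisensteinSeries.E2 (UpperHalfPlane.ofComplex τ)

/-- The Eisenstein series of weight 2, level 6 and signs `s2`, `s3`. -/
def Zf (s2 s3 : ℤ) (τ : ℂ) : ℂ :=
  (EE τ + 2 * s2 * EE (2 * τ) + 3 * s3 * EE (3 * τ) + 6 * s2 * s3 * EE (6 * τ)) /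
    ((1 + 2 * s2) * (1 + 3 * s3))

def z2 : ℂ → ℂ := Zf 1 (-1)

def z3 : ℂ → ℂ := Zf (-1) 1

def z6 : ℂ → ℂ := Zf (-1) (-1)

/-- The cusp form of weight 4. -/
def gg (τ : ℂ) : ℂ := (z3 τ ^ 2 - z2 τ ^ 2) / 4

/-! ### Their q-series -/

/-- The sum of the divisors. -/
def sg (n : ℕ) : ℤ := ∑ d ∈ n.divisors, (d : ℤ)

/-- `sg (n / d)`, or `0`. -/
def sgd (d n : ℕ) : ℤ := if d ∣ n then sg (n / d) else 0

def AS : PowerSeries ℤ := PowerSeries.mk fun n => sgd 1 n - 2 * sgd 2 n + 3 * sgd 3 n - 6 * sgd 6 n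

def BS : PowerSeries ℤ := PowerSeries.mk fun n => sgd 1 n + 2 * sgd 2 n - 3 * sgd 3 n - 6 * sgd 6 n

def CS : PowerSeries ℤ := PowerSeries.mk fun n => sgd 1 n - 2 * sgd 2 n - 3 * sgd 3 n + 6 * sgd 6 n

/-- The q-series of `z2`. -/
def z2S : PowerSeries ℤ := 1 + 4 * BS

/-- The q-series of `z3`. -/
def z3S : PowerSeries ℤ := 1 + 6 * AS

/-- The q-series of `z6`. -/
def z6S : PowerSeries ℤ := 1 - 12 * CS

/-- The q-series of `gg`. -/
def gS : PowerSeries ℤ := 3 * AS + 9 * AS ^ 2 - 2 * BS - 4 * BS ^ 2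

/-- The data of level 6. -/
def D6 : Dat := ⟨6, 2, chi 1 (-1), z2, gg, z2S, gS⟩

end

end Pool.Agent.LibZP46
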