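import Pool.Agent.LibZP46.D1

/-!
ZP46 F1. The partner of an index.

Plan. `MM p i * C` is in `ALM N e (p * b)` (`alm_MM_mul`), so `exists_factor` (for the prime `p`)
gives `i'` and `K` in `ALM N e b` with `MM p i * C = K * MM p i'`, and again (for the prime `b`, with
`b = b * 1`) `K = X * MM b k`. If `i' = i`: let `v = (1, 0)` for `i = none` and `v = (-j, 1)` for
`i = some j`; then `MM p i` maps `v` to `0` modulo `p`, and the kernel of `MM p i` modulo `p` is
spanned by `v`; `MM p i * C * v = K * MM p i * v ≡ 0`, so `C v ≡ x v` modulo `p` for some `x`, hence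
`x ^ 2 - (trace C) x + det C ≡ 0` modulo `p`, a contradiction. (Or explicitly: `i = none`: the first
column of `MM p i * C = (p a, p b; c, d)` is divisible by `p` iff `p ∣ c`; then
`x = d`: `x ^ 2 - (a + d) x + a d - b c = - b c ≡ 0`.)
-/

namespace Pool.Agent.LibZP46

private lemma F1_ne {p : ℕ} {C K : Mat} {i : Option (Fin p)}
    (hno : ∀ x : ℤ, ¬ (p : ℤ) ∣ x ^ 2 - C.trace * x + C.det)
    (h : MM p i * C = K * MM p i) : False := by
  have h00 := congrFun (congrFun h 0) 0
  have h01 := congrFun (congrFun h 0) 1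
  have h10 := congrFun (congrFun h 1) 0
  cases i with
  | none =>
    simp only [MM, Matrix.mul_apply, Fin.sum_univ_two, Matrix.of_apply, Matrix.cons_val',
      Matrix.cons_val_zero, Matrix.cons_val_one, Matrix.empty_val', Matrix.cons_val_fin_one] at h10
    apply hno (C 1 1)
    rw [Matrix.trace_fin_two, Matrix.det_fin_two]
    refine ⟨-(C 0 1 * K 1 0), ?_⟩
    have h2 : C 1 0 = K 1 0 * (p : ℤ) := by linarith
    rw [h2]
    ring
  | some j =>
    simp only [MM, Matrix.mul_apply, Fin.sum_univ_two, Matrix.of_apply, Matrix.cons_val',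
      Matrix.cons_val_zero, Matrix.cons_val_one, Matrix.empty_val', Matrix.cons_val_fin_one]
      at h00 h01
    apply hno (C 1 1 - ((j : ℕ) : ℤ) * C 1 0)
    rw [Matrix.trace_fin_two, Matrix.det_fin_two]
    refine ⟨-(C 1 0 * K 0 1), ?_⟩
    have h2 : K 0 0 = C 0 0 + ((j : ℕ) : ℤ) * C 1 0 := by linarith
    rw [h2] at h01
    linear_combination (-(C 1 0)) * h01

theorem exists_partner {N e : ℤ} (p b : ℕ) (hp : p.Prime) (hb : b.Prime) (hpN : ¬ (p : ℤ) ∣ N)
    (hbN : ¬ (b : ℤ) ∣ N) (he : e ∣ N) {C : Mat} (hC : ALM N e b C)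
    (hno : ∀ x : ℤ, ¬ (p : ℤ) ∣ x ^ 2 - C.trace * x + C.det) (i : Option (Fin p)) :
    ∃ (i' : Option (Fin p)) (k : Option (Fin b)) (X : Mat), i' ≠ i ∧ ALM N e 1 X ∧
      MM p i * C = X * MM b k * MM p i' := by
  obtain ⟨i', K, hK, h1⟩ := exists_factor p hp hpN he (alm_MM_mul he p i hC)
  obtain ⟨k, X, hX, h2⟩ := exists_factor (n := 1) b hb hbN he (by rw [mul_one]; exact hK)
  refine ⟨i', k, X, ?_, hX, ?_⟩
  · rintro rfl
    exact F1_ne hno h1
  · rw [h1, h2]

end Pool.Agent.LibZP46
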