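import Pool.Agent.LibZP46.D3
import Pool.Agent.LibZP46.A8

/-!
ZP46 F2. The multipliers of `g` at partners, and the relation between the multipliers of `z` and `g`.

Plan. `mult_partner`: put `τ' = act (MM p i') τ₀`, `τ'' = act (MM b k) τ'`. Then
`act (MM p i) τ₀ = act (MM p i) (act C τ₀) = act X τ''` (`act_mul`), so
`g (act (MM p i) τ₀) = χ(e)^c (jm X τ'' ^ 2 / e)^c g τ''` (`gmod`), and
`jm (MM p i) τ₀ * jm C τ₀ = jm X τ'' * jm (MM b k) τ' * jm (MM p i') τ₀` (`jm_mul`, three times).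
Insert the definition of `HF` (`zpow_natCast`). All `jm` are non-zero (`jm_ne`).
`mult_z_pow`: `z (M τ) ^ c = t (M τ) g (M τ)`, `z τ ^ c = t τ g τ`.
-/

namespace Pool.Agent.LibZP46

open Complex

variable {D : Dat}

theorem mult_partner (h : D.OK) {e : ℤ} (he0 : 0 < e) (he : e ∣ D.N) (p b : ℕ) (hp : 0 < p)
    (hb : 0 < b) {C X : Mat} (hC : ALM D.N e b C) (hX : ALM D.N e 1 X) {i i' : Option (Fin p)}
    {k : Option (Fin b)} (hcomm : MM p i * C = X * MM b k * MM p i') {τ₀ : ℂ} (hτ : 0 < τ₀.im)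
    (hfix : act C τ₀ = τ₀) :
    HF p D.c D.g i τ₀ / D.g τ₀ * ((e : ℂ) * (b : ℂ) ^ 2) ^ D.c =
      (D.χ e : ℂ) ^ D.c * (jm C τ₀ ^ 2) ^ D.c *
        (HF b D.c D.g k (act (MM p i') τ₀) / D.g (act (MM p i') τ₀)) *
        (HF p D.c D.g i' τ₀ / D.g τ₀) := by
  have hCdet : 0 < C.det := by
    rw [hC.hdet]
    exact mul_pos he0 (by exact_mod_cast hb)
  have hXdet : 0 < X.det := by
    rw [hX.hdet]
    linarith
  have hpz : (0 : ℤ) < p := by exact_mod_cast hp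
  have hbz : (0 : ℤ) < b := by exact_mod_cast hb
  have hMi : 0 < (MM p i).det := by rw [det_MM]; exact hpz
  have hMi' : 0 < (MM p i').det := by rw [det_MM]; exact hpz
  have hMk : 0 < (MM b k).det := by rw [det_MM]; exact hbz
  have hτ' : 0 < (act (MM p i') τ₀).im := act_im_pos hMi' hτ
  have hτ'' : 0 < (act (MM b k) (act (MM p i') τ₀)).im := act_im_pos hMk hτ'
  have hact : act (MM p i) τ₀ = act X (act (MM b k) (act (MM p i') τ₀)) := by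
    calc act (MM p i) τ₀ = act (MM p i) (act C τ₀) := by rw [hfix]
      _ = act (MM p i * C) τ₀ := (act_mul _ _ hCdet.ne' hτ).symm
      _ = act (X * MM b k * MM p i') τ₀ := by rw [hcomm]
      _ = act (X * MM b k) (act (MM p i') τ₀) := act_mul _ _ hMi'.ne' hτ
      _ = act X (act (MM b k) (act (MM p i') τ₀)) := act_mul _ _ hMk.ne' hτ'
  have hjm : jm (MM p i) τ₀ * jm C τ₀ =
      jm X (act (MM b k) (act (MM p i') τ₀)) * jm (MM b k) (act (MM p i') τ₀) * jm (MM p i') τ₀ := by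
    calc jm (MM p i) τ₀ * jm C τ₀ = jm (MM p i) (act C τ₀) * jm C τ₀ := by rw [hfix]
      _ = jm (MM p i * C) τ₀ := (jm_mul _ _ hCdet.ne' hτ).symm
      _ = jm (X * MM b k * MM p i') τ₀ := by rw [hcomm]
      _ = jm (X * MM b k) (act (MM p i') τ₀) * jm (MM p i') τ₀ := jm_mul _ _ hMi'.ne' hτ
      _ = _ := by rw [jm_mul X _ hMk.ne' hτ']
  have hg := h.gmod e he0 he X hX _ hτ''
  rw [← hact] at hg
  have n1 := jm_ne hMi.ne' hτ
  have n2 := jm_ne hCdet.ne' hτ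
  have n3 := jm_ne hXdet.ne' hτ''
  have n4 := jm_ne hMk.ne' hτ'
  have n5 := jm_ne hMi'.ne' hτ
  have g1 := h.gne _ hτ
  have g2 := h.gne _ hτ'
  have e1 : (e : ℂ) ≠ 0 := Int.cast_ne_zero.2 he0.ne'
  unfold HF
  rw [hg]
  simp only [zpow_natCast]
  push_cast
  set g0 := D.g τ₀
  set g' := D.g (act (MM p i') τ₀)
  set g'' := D.g (act (MM b k) (act (MM p i') τ₀))
  set Ji := jm (MM p i) τ₀
  set JC := jm C τ₀
  set JX := jm X (act (MM b k) (act (MM p i') τ₀))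
  set Jk := jm (MM b k) (act (MM p i') τ₀)
  set Ji' := jm (MM p i') τ₀
  have hkey : ((p : ℂ) ^ 2 / Ji ^ 2) * (JX ^ 2 / (e : ℂ)) * ((e : ℂ) * (b : ℂ) ^ 2) =
      JC ^ 2 * ((b : ℂ) ^ 2 / Jk ^ 2) * ((p : ℂ) ^ 2 / Ji' ^ 2) := by
    have h2 : JX ^ 2 * Jk ^ 2 * Ji' ^ 2 = Ji ^ 2 * JC ^ 2 := by
      rw [← mul_pow, ← mul_pow, ← mul_pow, ← hjm]
    field_simp
    linear_combination ((p : ℂ) ^ 2 * (b : ℂ) ^ 2) * h2
  have hkey' := congrArg (· ^ D.c) hkey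
  simp only [mul_pow] at hkey'
  have e2 : (D.χ e : ℂ) ^ D.c * (JC ^ 2) ^ D.c * (((b : ℂ) ^ 2 / Jk ^ 2) ^ D.c * g'' / g') *
      (((p : ℂ) ^ 2 / Ji' ^ 2) ^ D.c * g' / g0) =
      (D.χ e : ℂ) ^ D.c * ((JC ^ 2) ^ D.c * ((b : ℂ) ^ 2 / Jk ^ 2) ^ D.c *
        ((p : ℂ) ^ 2 / Ji' ^ 2) ^ D.c) * g'' / g0 := by
    field_simp
  rw [e2, ← hkey', mul_pow]
  ring

theorem mult_z_pow (h : D.OK) (p : ℕ) (hp : 0 < p) (i : Option (Fin p)) {τ : ℂ} (hτ : 0 < τ.im)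
    (hz : D.z τ ≠ 0) :
    (HF p 1 D.z i τ / D.z τ) ^ D.c =
      D.t (act (MM p i) τ) / D.t τ * (HF p D.c D.g i τ / D.g τ) := by
  have hpz : (0 : ℤ) < p := by exact_mod_cast hp
  have hMi : 0 < (MM p i).det := by rw [det_MM]; exact hpz
  have hτ' : 0 < (act (MM p i) τ).im := act_im_pos hMi hτ
  have g1 := h.gne _ hτ
  have g2 := h.gne _ hτ'
  unfold HF Dat.t
  simp only [zpow_natCast, zpow_one]
  rw [div_pow, mul_pow]
  field_simp

/-- The eigenvalue of a matrix at a fixed point. -/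
theorem jm_fix {C : Mat} (hC : 0 < C.det) {τ₀ : ℂ} (hτ : 0 < τ₀.im) (hfix : act C τ₀ = τ₀) :
    jm C τ₀ ^ 2 - (C.trace : ℂ) * jm C τ₀ + (C.det : ℂ) = 0 := by
  have hj := jm_ne hC.ne' hτ
  have h1 : (C 0 0 : ℂ) * τ₀ + (C 0 1 : ℂ) = τ₀ * jm C τ₀ := by
    have h2 : ((C 0 0 : ℂ) * τ₀ + (C 0 1 : ℂ)) / jm C τ₀ = τ₀ := hfix
    rwa [div_eq_iff hj] at h2
  rw [Matrix.det_fin_two, Matrix.trace_fin_two]
  push_cast
  unfold jm at h1 ⊢
  linear_combination -(C 1 0 : ℂ) * h1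

end Pool.Agent.LibZP46
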