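import Pool.Agent.LibZP46.E1
import Pool.Agent.LibZP46.D12
import Pool.Agent.LibZP46.F2

/-!
ZP46 F3. The product of the `t (M_i τ₀)`.

Plan. `ek_val` with `k = p + 1`, `ek_card`: `m ^ cd * ∏ μ i = (Q (p+1)) (m) = p^2 Q'`,
`cd = cd c (p + 1)`. The product over `i` of `mult_z_pow`: `(∏ μ i) ^ c = (∏ t_i) / m ^ (p + 1) *
p ^ (2 c)` (`prod_mult_g`, `card (Option (Fin p)) = p + 1`). So
`(∏ t_i) * m ^ (c cd) = m ^ (p + 1) Q' ^ c` (cancel `p ^ (2 c)`).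
-/

namespace Pool.Agent.LibZP46

open Complex Polynomial

variable {D : Dat}

theorem prod_t (h : D.OK) (p : ℕ) (hp : p.Prime) (h2 : p ≠ 2) (hN : ¬ (p : ℤ) ∣ D.N)
    {Q : ℕ → ℤ[X]} (hQ : HeckePoly D p Q) {τ₀ : ℂ} (hτ : 0 < τ₀.im) (m : ℤ) (hm : m ≠ 0)
    (ht : D.t τ₀ = m) (Q' : ℤ) (hQ' : (Q (p + 1)).eval m = (p : ℤ) ^ 2 * Q') :
    (∏ i, D.t (act (MM p i) τ₀)) * (m : ℂ) ^ (D.c * cd D.c (p + 1)) =
      (m : ℂ) ^ (p + 1) * (Q' : ℂ) ^ D.c := by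
  have hmC : (m : ℂ) ≠ 0 := by exact_mod_cast hm
  have hpC : (p : ℂ) ≠ 0 := by exact_mod_cast hp.ne_zero
  have hz : D.z τ₀ ≠ 0 := by
    intro hz0
    apply hmC
    rw [← ht, Dat.t, hz0, zero_pow h.hc.ne', zero_div]
  have h1 := ek_val h p hQ hτ m hm ht (p + 1)
  have hcard : Fintype.card (Option (Fin p)) = p + 1 := by
    rw [Fintype.card_option, Fintype.card_fin]
  have h2' : ek (p + 1) (fun i => HF p 1 D.z i τ₀ / D.z τ₀) =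
      ∏ i, (HF p 1 D.z i τ₀ / D.z τ₀) := by
    rw [← hcard]
    exact ek_card _
  rw [h2', hQ'] at h1
  push_cast at h1
  have h3 : (∏ i, (HF p 1 D.z i τ₀ / D.z τ₀)) ^ D.c =
      (∏ i, D.t (act (MM p i) τ₀)) / (m : ℂ) ^ (p + 1) * (p : ℂ) ^ (2 * D.c) := by
    rw [← Finset.prod_pow]
    have : ∀ i ∈ (Finset.univ : Finset (Option (Fin p))),
        (HF p 1 D.z i τ₀ / D.z τ₀) ^ D.c =
        D.t (act (MM p i) τ₀) / (m : ℂ) * (HF p D.c D.g i τ₀ / D.g τ₀) := by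
      intro i _
      rw [mult_z_pow h p hp.pos i hτ hz, ht]
    rw [Finset.prod_congr rfl this, Finset.prod_mul_distrib, prod_mult_g h p hp h2 hN hτ,
      Finset.prod_div_distrib, Finset.prod_const, Finset.card_univ, hcard]
  have h4 : ((m : ℂ) ^ cd D.c (p + 1) * ∏ i, (HF p 1 D.z i τ₀ / D.z τ₀)) ^ D.c =
      ((p : ℂ) ^ 2 * (Q' : ℂ)) ^ D.c := by rw [h1]
  rw [mul_pow, mul_pow, h3, ← pow_mul, ← pow_mul, mul_comm (cd D.c (p + 1)) D.c] at h4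
  have hp2 : (p : ℂ) ^ (2 * D.c) ≠ 0 := pow_ne_zero _ hpC
  have hm2 : (m : ℂ) ^ (p + 1) ≠ 0 := pow_ne_zero _ hmC
  have h5 : (p : ℂ) ^ (2 * D.c) * ((∏ i, D.t (act (MM p i) τ₀)) *
      (m : ℂ) ^ (D.c * cd D.c (p + 1))) =
      (p : ℂ) ^ (2 * D.c) * ((m : ℂ) ^ (p + 1) * (Q' : ℂ) ^ D.c) := by
    field_simp at h4 ⊢
    linear_combination h4
  exact mul_left_cancel₀ hp2 h5

end Pool.Agent.LibZP46
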