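import Pool.Agent.LibZP46.D2

/-!
ZP46 F4. Valuation rings of `ℂ` over `p`, and the valuation lemma.

Plan. `exists_val`: the localization of `ℤ` at `(p)` as a local subring of `ℂ` (the subring of all
`a / b`, `b` prime to `p`, with maximal ideal generated by `p`) is dominated by a valuation subring
(`LocalSubring.exists_le_valuationSubring`, or `LocalSubring.exists_valuationRing_of_isMax`); a
valuation ring is integrally closed (`ValuationSubring.isIntegral_mem`-like,
`IsIntegrallyClosed`).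
`val_lemma`: write `𝔪` for the non-units. Suppose `v * (ek (n+1) μ / p) = 1` with `v ∈ O`. All
`μ i ≠ 0` (product). First, some `μ i / p` is in `O`: otherwise all `p / μ i` are in `𝔪`
(`ValuationSubring.mem_or_inv_mem`), and `ek (n+1) μ / p = w * ∑ p / μ i` (`ek_pred`,
`∏ μ = p ^ 2 w`) is in `𝔪`, so it has no inverse in `O`. Let `i'` be the partner: `(μ i / μ i') ^ c`
is a unit, so `μ i / μ i'` and `μ i' / μ i` are in `O` (`pow_mem_iff`-like: if `x ∉ O` then
`x⁻¹ ∈ 𝔪`, `x⁻ᶜ ∈ 𝔪`), hence `μ i' / p ∈ O`. From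
`(μ i / p) (μ i' / p) ∏_{j ≠ i, i'} μ j = w` all the factors are units. In `ek n μ` the term of the
set `{j ≠ i, i'}` (`n` elements) is a unit and all other terms contain `μ i` or `μ i'`, elements of
`p O`; but `ek n μ ∈ p O ⊆ 𝔪`, a contradiction.
-/

namespace Pool.Agent.LibZP46

private theorem F4_mul_lt {K : Type*} [Field K] (O : ValuationSubring K) {x y : K} (hx : x ∈ O)
    (hy : O.valuation y < 1) : O.valuation (x * y) < 1 := by
  rw [map_mul]
  exact lt_of_le_of_lt (mul_le_of_le_one_left' ((O.valuation_le_one_iff x).2 hx)) hy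

private theorem F4_one {K : Type*} [Field K] (O : ValuationSubring K) {x : K} (hx : x ∈ O)
    (hx' : x⁻¹ ∈ O) (h0 : x ≠ 0) : O.valuation x = 1 := by
  have h1 := (O.valuation_le_one_iff x).2 hx
  refine le_antisymm h1 ?_
  by_contra h
  rw [not_le] at h
  have h2 := F4_mul_lt O hx' h
  rw [inv_mul_cancel₀ h0, map_one] at h2
  exact lt_irrefl _ h2

theorem exists_val (p : ℕ) (hp : p.Prime) :
    ∃ O : ValuationSubring ℂ, (∀ x : ℂ, IsIntegral ℤ x → x ∈ O) ∧
      (∀ n : ℤ, ¬ (p : ℤ) ∣ n → ((n : ℂ))⁻¹ ∈ O) ∧ ((p : ℂ))⁻¹ ∉ O := by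
  have hI : (Ideal.span {((p : ℕ) : (⊥ : Subring ℂ))} : Ideal (⊥ : Subring ℂ)) ≠ ⊤ := by
    intro h
    rw [Ideal.span_singleton_eq_top, isUnit_iff_exists_inv] at h
    obtain ⟨⟨b, hb⟩, hb1⟩ := h
    have hb2 := hb
    rw [Subring.mem_bot] at hb2
    obtain ⟨m, hm⟩ := hb2
    have h2 : ((p : ℂ)) * b = 1 := by
      have := congrArg Subtype.val hb1
      simpa using this
    rw [← hm] at h2
    have h3 : (p : ℤ) * m = 1 := by exact_mod_cast h2
    have h4 : ((p : ℕ) : ℤ) ∣ ((1 : ℕ) : ℤ) := ⟨m, by rw [h3]; norm_num⟩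
    exact hp.one_lt.ne' (Nat.dvd_one.1 (Int.natCast_dvd_natCast.1 h4))
  obtain ⟨B, hB, hB2⟩ := Ideal.image_subset_nonunits_valuationSubring _ hI
  have hpB : (p : ℂ) ∈ B.nonunits := by
    apply hB2
    exact ⟨((p : ℕ) : (⊥ : Subring ℂ)), Ideal.mem_span_singleton_self _, by simp⟩
  have hp1 : B.valuation (p : ℂ) < 1 := (ValuationSubring.mem_nonunits_iff _).1 hpB
  have hint : ∀ a : ℤ, (a : ℂ) ∈ B := fun a => intCast_mem B a
  refine ⟨B, ?_, ?_, ?_⟩
  · intro x hx
    have hx2 : IsIntegral B x := hx.tower_top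
    obtain ⟨y, hy⟩ := IsIntegrallyClosed.isIntegral_iff.1 hx2
    rw [← hy]
    exact y.2
  · intro n hn
    have hcop : IsCoprime (p : ℤ) n :=
      (Prime.coprime_iff_not_dvd (Nat.prime_iff_prime_int.1 hp)).2 hn
    obtain ⟨a, b, hab⟩ := hcop
    by_contra hc
    have hv : B.valuation (n : ℂ) < 1 := by
      rw [← ValuationSubring.mem_nonunits_iff, ValuationSubring.mem_nonunits_iff_or]
      exact Or.inr hc
    have h1 : B.valuation ((a : ℂ) * (p : ℂ) + (b : ℂ) * (n : ℂ)) < 1 :=
      lt_of_le_of_lt (B.valuation.map_add _ _)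
        (max_lt (F4_mul_lt B (hint a) hp1) (F4_mul_lt B (hint b) hv))
    have h2 : (a : ℂ) * (p : ℂ) + (b : ℂ) * (n : ℂ) = 1 := by exact_mod_cast hab
    rw [h2, map_one] at h1
    exact lt_irrefl _ h1
  · intro h
    have hp0 : (p : ℂ) ≠ 0 := by exact_mod_cast hp.ne_zero
    have h3 := F4_mul_lt B h hp1
    rw [inv_mul_cancel₀ hp0, map_one] at h3
    exact lt_irrefl _ h3

theorem val_lemma {ι : Type*} [Fintype ι] [DecidableEq ι] (O : ValuationSubring ℂ) (p : ℂ)
    (hp : p ∈ O) (hp' : p⁻¹ ∉ O) (n : ℕ) (hn : Fintype.card ι = n + 2) (μ : ι → ℂ)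
    (hμ : ∀ i, μ i ∈ O) (w : ℂ) (hw : w ∈ O) (hw' : w⁻¹ ∈ O) (hw0 : w ≠ 0)
    (hprod : ∏ i, μ i = p ^ 2 * w) (hn1 : ek n μ / p ∈ O) (c : ℕ) (hc : 0 < c)
    (hpart : ∀ i, ∃ i', i' ≠ i ∧ ∃ v : ℂ, v ∈ O ∧ v⁻¹ ∈ O ∧ v ≠ 0 ∧ μ i ^ c = v * μ i' ^ c) :
    ¬ ∃ v ∈ O, v * (ek (n + 1) μ / p) = 1 := by
  rintro ⟨u, hu, hu1⟩
  have hp0 : p ≠ 0 := by
    rintro rfl
    rw [inv_zero] at hp'
    exact hp' (zero_mem O)
  have hvp : O.valuation p < 1 := by
    rw [← ValuationSubring.mem_nonunits_iff, ValuationSubring.mem_nonunits_iff_or]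
    exact Or.inr hp'
  have hvp0 : O.valuation p ≠ 0 := (Valuation.ne_zero_iff _).2 hp0
  have hvpp : 0 < O.valuation p := zero_lt_iff.2 hvp0
  have hvw : O.valuation w = 1 := F4_one O hw hw' hw0
  have hμ0 : ∀ i, μ i ≠ 0 := by
    intro i hi
    have h1 : ∏ i, μ i = 0 := Finset.prod_eq_zero (Finset.mem_univ i) hi
    rw [h1] at hprod
    exact mul_ne_zero (pow_ne_zero 2 hp0) hw0 hprod.symm
  have hvμ : ∀ i, O.valuation (μ i) ≤ 1 := fun i => (O.valuation_le_one_iff _).2 (hμ i)
  have hdiv : ∀ x : ℂ, O.valuation (x / p) = O.valuation x / O.valuation p := fun x => map_div₀ _ _ _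
  have hvn : O.valuation (ek n μ) ≤ O.valuation p := by
    have h1 := (O.valuation_le_one_iff _).2 hn1
    rw [hdiv, div_le_one₀ hvpp] at h1
    exact h1
  -- the valuation of the sum of the inverses
  have hpred := ek_pred μ hμ0 (n + 1) hn
  have hstep : ∃ i, O.valuation (μ i) ≤ O.valuation p := by
    by_contra hcon
    push Not at hcon
    have hs : O.valuation (∑ i, (μ i)⁻¹) < (O.valuation p)⁻¹ := by
      refine Valuation.map_sum_lt _ (inv_ne_zero hvp0) fun i _ => ?_
      rw [map_inv₀]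
      exact inv_strictAnti₀ hvpp (hcon i)
    have h2 : O.valuation (p ^ 2 * w * ∑ i, (μ i)⁻¹) < O.valuation p := by
      rw [map_mul, map_mul, map_pow, hvw, mul_one]
      calc O.valuation p ^ 2 * O.valuation (∑ i, (μ i)⁻¹)
          < O.valuation p ^ 2 * (O.valuation p)⁻¹ :=
            mul_lt_mul_of_pos_left hs (pow_pos hvpp 2)
        _ = O.valuation p := by rw [pow_two, mul_assoc, mul_inv_cancel₀ hvp0, mul_one]
    rw [← hprod, ← hpred] at h2
    have h3 : O.valuation (ek (n + 1) μ / p) < 1 := by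
      rw [hdiv, div_lt_one₀ hvpp]
      exact h2
    have h4 := F4_mul_lt O hu h3
    rw [hu1, map_one] at h4
    exact lt_irrefl _ h4
  obtain ⟨i, hi⟩ := hstep
  obtain ⟨i', hne, v, hv, hv', hv0, hvi⟩ := hpart i
  have hvi2 : O.valuation (μ i) = O.valuation (μ i') := by
    have h1 := congrArg O.valuation hvi
    rw [map_mul, map_pow, map_pow, F4_one O hv hv' hv0, one_mul] at h1
    exact (pow_left_inj₀ zero_le zero_le hc.ne').1 h1
  have hi' : O.valuation (μ i') ≤ O.valuation p := hvi2 ▸ hi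
  have hcard : (Finset.univ.erase i).card = n + 1 := by
    rw [Finset.card_erase_of_mem (Finset.mem_univ i), Finset.card_univ, hn]
    rfl
  have hmem' : i' ∈ Finset.univ.erase i := Finset.mem_erase.2 ⟨hne, Finset.mem_univ i'⟩
  have hcard' : ((Finset.univ.erase i).erase i').card = n := by
    rw [Finset.card_erase_of_mem hmem', hcard]
    rfl
  have hvprod : ∀ s : Finset ι, O.valuation (∏ j ∈ s, μ j) ≤ 1 := by
    intro s
    rw [map_prod]
    exact Finset.prod_le_one' fun j _ => hvμ j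
  have hsplit : ∏ j, μ j = μ i * (μ i' * ∏ j ∈ (Finset.univ.erase i).erase i', μ j) := by
    rw [Finset.mul_prod_erase _ _ hmem', Finset.mul_prod_erase _ _ (Finset.mem_univ i)]
  have hrest : O.valuation (∏ j ∈ (Finset.univ.erase i).erase i', μ j) = 1 := by
    refine le_antisymm (hvprod _) ?_
    by_contra hlt
    rw [not_le] at hlt
    have h1 : O.valuation (∏ j, μ j) = O.valuation p ^ 2 := by
      rw [hprod, map_mul, map_pow, hvw, mul_one]
    rw [hsplit, map_mul, map_mul] at h1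
    have h2 : O.valuation (μ i) * (O.valuation (μ i') *
        O.valuation (∏ j ∈ (Finset.univ.erase i).erase i', μ j)) < O.valuation p ^ 2 := by
      calc O.valuation (μ i) * (O.valuation (μ i') *
            O.valuation (∏ j ∈ (Finset.univ.erase i).erase i', μ j))
          ≤ O.valuation p * (O.valuation p *
            O.valuation (∏ j ∈ (Finset.univ.erase i).erase i', μ j)) :=
            mul_le_mul' hi (mul_le_mul' hi' le_rfl)
        _ < O.valuation p * (O.valuation p * 1) :=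
            mul_lt_mul_of_pos_left (mul_lt_mul_of_pos_left hlt hvpp) hvpp
        _ = O.valuation p ^ 2 := by rw [mul_one, pow_two]
    rw [h1] at h2
    exact lt_irrefl _ h2
  have hs0 : (Finset.univ.erase i).erase i' ∈ Finset.powersetCard n (Finset.univ : Finset ι) :=
    Finset.mem_powersetCard.2 ⟨Finset.subset_univ _, hcard'⟩
  have hek : ek n μ = (∑ s ∈ (Finset.powersetCard n (Finset.univ : Finset ι)).erase
      ((Finset.univ.erase i).erase i'), ∏ j ∈ s, μ j) +
      ∏ j ∈ (Finset.univ.erase i).erase i', μ j := by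
    rw [ek, Finset.sum_erase_add _ _ hs0]
  have hoth : O.valuation (∑ s ∈ (Finset.powersetCard n (Finset.univ : Finset ι)).erase
      ((Finset.univ.erase i).erase i'), ∏ j ∈ s, μ j) < 1 := by
    refine Valuation.map_sum_lt _ one_ne_zero fun s hs => ?_
    rw [Finset.mem_erase, Finset.mem_powersetCard] at hs
    obtain ⟨hs1, -, hs2⟩ := hs
    have hmem : i ∈ s ∨ i' ∈ s := by
      by_contra hcon
      push Not at hcon
      refine hs1 (Finset.eq_of_subset_of_card_le ?_ ?_)
      · intro j hj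
        refine Finset.mem_erase.2 ⟨?_, Finset.mem_erase.2 ⟨?_, Finset.mem_univ j⟩⟩
        · rintro rfl
          exact hcon.2 hj
        · rintro rfl
          exact hcon.1 hj
      · rw [hs2, hcard']
    have hgen : ∀ j ∈ s, O.valuation (μ j) ≤ O.valuation p → O.valuation (∏ j ∈ s, μ j) < 1 := by
      intro j hj hjp
      rw [← Finset.mul_prod_erase s μ hj, map_mul]
      calc O.valuation (μ j) * O.valuation (∏ x ∈ s.erase j, μ x)
          ≤ O.valuation p * 1 := mul_le_mul' hjp (hvprod _)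
        _ = O.valuation p := mul_one _
        _ < 1 := hvp
    rcases hmem with h | h
    · exact hgen i h hi
    · exact hgen i' h hi'
  have hfin : O.valuation (ek n μ) = 1 := by
    rw [hek, Valuation.map_add_eq_of_lt_right]
    · exact hrest
    · rw [hrest]
      exact hoth
  rw [hfin] at hvn
  exact absurd hvp (not_lt.2 hvn)

end Pool.Agent.LibZP46
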