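import Pool.Agent.LibZP46.E2
import Pool.Agent.LibZP46.F1
import Pool.Agent.LibZP46.F3
import Pool.Agent.LibZP46.F4

/-!
ZP46 F5. The inert case: the congruence.

Plan. `exists_hecke`, `hecke_cong`: `Q`, `Q'`, `p^2 ∣ m^(p-1) (Q p)(m) - U Q'`, `Q'` prime to `p`; so
it is enough that `p^2 ∣ (Q p)(m)`. Let `O` be as in `exists_val` (`p ∈ O`; integers prime to `p` are
units), `μ i = HF p 1 z i τ₀ / z τ₀` (`z τ₀ ≠ 0` since `t τ₀ = m ≠ 0`). `ek_val`:
`m ^ cd * ek k μ = (Q k)(m)`: so `ek k μ ∈ O` and `μ i ∈ O` (`prod_X_sub`, `O` is integrally closed).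
`ek (p+1) μ = ∏ μ = p^2 * (Q' / m^cd)`. `ek (p-1) μ / p ∈ O` (`HeckePoly.dvd`). Partners: `exists_partner`,
`mult_partner`, `mult_z_pow`: `μ i ^ c = v * μ i' ^ c` with
`v = (t_i / t_i') * χ^c (jm C τ₀^2)^c / (e b^2)^c * B`, `B = HF b c g k τ' / g τ'`,
`τ' = act (MM p i') τ₀`, `t_i = t (act (MM p i) τ₀)`. Units: `t_i` is integral (`integral_t`) and the
product of all `t_i` is a unit (`prod_t`), so every `t_i` is a unit; `B` is integral (`integral_g` at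
`τ'`, where `t τ'` is integral) and the product over `k` is `b ^ (2 c)` (`prod_mult_g`), so `B` is a
unit; `jm C τ₀` is integral and `jm C τ₀ * (trace - jm C τ₀) = det C = e b` (`jm_fix`), so it is a
unit; `e`, `b` are prime to `p`. `val_lemma` with `n = p - 1`: `ek p μ / p` has no inverse in `O`.
But `ek p μ / p = (Q p)(m) / (p m^cd)`: if `p^2 ∤ (Q p)(m)` then it has an inverse in `O`
(`p m^cd / (Q p)(m)`).
-/

namespace Pool.Agent.LibZP46

open Complex Polynomial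

variable {D : Dat}

/-- units of the valuation ring -/
private def F5_Un (O : ValuationSubring ℂ) (x : ℂ) : Prop := x ∈ O ∧ x⁻¹ ∈ O ∧ x ≠ 0

private theorem F5_mul {O : ValuationSubring ℂ} {x y : ℂ} (hx : F5_Un O x) (hy : F5_Un O y) :
    F5_Un O (x * y) :=
  ⟨mul_mem hx.1 hy.1, by rw [mul_inv]; exact mul_mem hx.2.1 hy.2.1, mul_ne_zero hx.2.2 hy.2.2⟩

private theorem F5_inv {O : ValuationSubring ℂ} {x : ℂ} (hx : F5_Un O x) : F5_Un O x⁻¹ :=
  ⟨hx.2.1, by rw [inv_inv]; exact hx.1, inv_ne_zero hx.2.2⟩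

private theorem F5_div {O : ValuationSubring ℂ} {x y : ℂ} (hx : F5_Un O x) (hy : F5_Un O y) :
    F5_Un O (x / y) := by
  rw [div_eq_mul_inv]
  exact F5_mul hx (F5_inv hy)

private theorem F5_pow {O : ValuationSubring ℂ} {x : ℂ} (hx : F5_Un O x) (n : ℕ) :
    F5_Un O (x ^ n) :=
  ⟨pow_mem hx.1 n, by rw [← inv_pow]; exact pow_mem hx.2.1 n, pow_ne_zero n hx.2.2⟩

private theorem F5_prod {O : ValuationSubring ℂ} {ι : Type*} [Fintype ι] [DecidableEq ι]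
    (v : ι → ℂ) (hv : ∀ i, v i ∈ O) (h : F5_Un O (∏ i, v i)) (i : ι) : F5_Un O (v i) := by
  have h1 : ∏ j, v j = v i * ∏ j ∈ Finset.univ.erase i, v j :=
    (Finset.mul_prod_erase _ _ (Finset.mem_univ i)).symm
  have h2 : ∏ j ∈ Finset.univ.erase i, v j ∈ O := prod_mem fun j _ => hv j
  have h0 : v i ≠ 0 := by
    intro h0
    apply h.2.2
    rw [h1, h0, zero_mul]
  have h0' : ∏ j ∈ Finset.univ.erase i, v j ≠ 0 := by
    intro h0'
    apply h.2.2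
    rw [h1, h0', mul_zero]
  refine ⟨hv i, ?_, h0⟩
  have h3 : (v i)⁻¹ = (∏ j, v j)⁻¹ * ∏ j ∈ Finset.univ.erase i, v j := by
    rw [h1]
    field_simp
  rw [h3]
  exact mul_mem h.2.1 h2

private theorem F5_cd_le (c k : ℕ) (hc : 0 < c) : cd c k ≤ k := by
  unfold cd
  apply Nat.le_of_lt_succ
  rw [Nat.div_lt_iff_lt_mul hc]
  have : k * 1 ≤ k * c := Nat.mul_le_mul_left k hc
  have h2 : (k + 1) * c = k * c + c := by ring
  change k + c - 1 < (k + 1) * c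
  rw [h2]
  omega

theorem inert_main (h : D.OK) (p : ℕ) (hp : p.Prime) (h2 : p ≠ 2) (hN : ¬ (p : ℤ) ∣ D.N)
    (u : ℕ → ℤ) (hu : SeqOK D u p) (m : ℤ) (hm : ¬ (p : ℤ) ∣ m) {τ₀ : ℂ} (hτ : 0 < τ₀.im)
    (ht : D.t τ₀ = m) (b : ℕ) (hb : b.Prime) (hb2 : b ≠ 2) (hbp : b ≠ p)
    (hbN : ¬ (b : ℤ) ∣ D.N) {e : ℤ} (he0 : 0 < e) (he : e ∣ D.N) {C : Mat} (hC : ALM D.N e b C)
    (hfix : act C τ₀ = τ₀) (hno : ∀ x : ℤ, ¬ (p : ℤ) ∣ x ^ 2 - C.trace * x + C.det) :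
    (p : ℤ) ^ 2 ∣ US u p m := by
  classical
  obtain ⟨Q, hQ⟩ := exists_hecke h p hp hN
  obtain ⟨B, hB, hdeg⟩ := hu.hB
  obtain ⟨Q', hQ', hQnd, hcong⟩ :=
    hecke_cong h p hp hQ u hu.hu B hB hu.hup hdeg hu.hcd hu.hlt m hm
  have hpp : Prime (p : ℤ) := Nat.prime_iff_prime_int.1 hp
  have hp0 : (p : ℂ) ≠ 0 := by exact_mod_cast hp.ne_zero
  have hm0 : m ≠ 0 := by
    rintro rfl
    exact hm (dvd_zero _)
  have hmC : (m : ℂ) ≠ 0 := by exact_mod_cast hm0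
  suffices hR : (p : ℤ) ^ 2 ∣ (Q p).eval m by
    have h1 : (p : ℤ) ^ 2 ∣ US u p m * Q' := by
      have h2 := dvd_sub (Dvd.dvd.mul_left hR (m ^ (p - 1))) hcong
      simpa using h2
    have h3 : IsCoprime ((p : ℤ) ^ 2) Q' :=
      IsCoprime.pow_left ((Prime.coprime_iff_not_dvd hpp).2 hQnd)
    exact h3.dvd_of_dvd_mul_right h1
  by_contra hR
  obtain ⟨O, hOint, hOinv, hOp⟩ := exists_val p hp
  -- integers
  have hZ : ∀ n : ℤ, (n : ℂ) ∈ O := fun n => intCast_mem O n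
  have hZu : ∀ n : ℤ, ¬ (p : ℤ) ∣ n → F5_Un O (n : ℂ) := by
    intro n hn
    refine ⟨hZ n, hOinv n hn, ?_⟩
    have : n ≠ 0 := by
      rintro rfl
      exact hn (dvd_zero _)
    exact_mod_cast this
  have hmu := hZu m hm
  have hzne : D.z τ₀ ≠ 0 := by
    intro hz
    apply hmC
    rw [← ht]
    unfold Dat.t
    rw [hz, zero_pow h.hc.ne', zero_div]
  set μ : Option (Fin p) → ℂ := fun i => HF p 1 D.z i τ₀ / D.z τ₀ with hμdef
  have hek : ∀ k, (m : ℂ) ^ cd D.c k * ek k μ = ((Q k).eval m : ℤ) := fun k =>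
    ek_val h p hQ hτ m hm0 ht k
  have hek' : ∀ k, ek k μ = ((Q k).eval m : ℤ) * ((m : ℂ) ^ cd D.c k)⁻¹ := by
    intro k
    rw [← hek k]
    field_simp
  have hpowu : ∀ k : ℕ, F5_Un O ((m : ℂ) ^ k) := fun k => F5_pow hmu k
  have hμO : ∀ i, μ i ∈ O := by
    intro i
    have h1 : IsIntegral ℤ ((m : ℂ) * μ i) := by
      refine isIntegral_of_ek (fun i => (m : ℂ) * μ i) (fun k => ?_) i
      rw [ek_mul_left]
      have h2 : (m : ℂ) ^ k * ek k μ = ((m ^ (k - cd D.c k) * (Q k).eval m : ℤ) : ℂ) := by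
        push_cast
        rw [← hek k, ← mul_assoc, ← pow_add, Nat.sub_add_cancel (F5_cd_le D.c k h.hc)]
      rw [h2]
      exact isIntegral_algebraMap (R := ℤ) (A := ℂ) (x := m ^ (k - cd D.c k) * (Q k).eval m)
    have h3 := mul_mem hmu.2.1 (hOint _ h1)
    rwa [← mul_assoc, inv_mul_cancel₀ hmC, one_mul] at h3
  have hcard : Fintype.card (Option (Fin p)) = p + 1 := by
    rw [Fintype.card_option, Fintype.card_fin]
  -- the product
  set w : ℂ := (Q' : ℂ) * ((m : ℂ) ^ cd D.c (p + 1))⁻¹ with hw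
  have hwu : F5_Un O w := F5_mul (hZu Q' hQnd) (F5_inv (hpowu _))
  have hprod : ∏ i, μ i = (p : ℂ) ^ 2 * w := by
    have h1 := ek_card μ
    rw [hcard] at h1
    rw [← h1, hek' (p + 1), hQ', hw]
    push_cast
    ring
  -- the coefficient `p - 1`
  have hp2 : 2 < p := lt_of_le_of_ne hp.two_le (Ne.symm h2)
  have hn1 : ek (p - 1) μ / (p : ℂ) ∈ O := by
    obtain ⟨q, hq⟩ := hQ.dvd (p - 1) (by omega) (by omega)
    have h3 : ek (p - 1) μ / (p : ℂ) = ((q.eval m : ℤ) : ℂ) * ((m : ℂ) ^ cd D.c (p - 1))⁻¹ := by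
      rw [hek' (p - 1), hq, Polynomial.eval_mul, Polynomial.eval_C]
      push_cast
      field_simp
    rw [h3]
    exact mul_mem (hZ _) (hpowu _).2.1
  -- the translates of `t`
  have htint : IsIntegral ℤ (D.t τ₀) := by
    rw [ht]
    exact isIntegral_algebraMap (R := ℤ) (A := ℂ) (x := m)
  have hTint : ∀ i : Option (Fin p), IsIntegral ℤ (D.t (act (MM p i) τ₀)) := fun i =>
    integral_t h p hp h2 hN hτ htint i
  have hTu : ∀ i : Option (Fin p), F5_Un O (D.t (act (MM p i) τ₀)) := by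
    refine F5_prod (fun i => D.t (act (MM p i) τ₀)) (fun i => hOint _ (hTint i)) ?_
    have h3 := prod_t h p hp h2 hN hQ hτ m hm0 ht Q' hQ'
    have h4 : ∏ i, D.t (act (MM p i) τ₀) = (m : ℂ) ^ (p + 1) * (Q' : ℂ) ^ D.c /
        (m : ℂ) ^ (D.c * cd D.c (p + 1)) := by
      rw [← h3]
      field_simp
    rw [h4]
    exact F5_div (F5_mul (hpowu _) (F5_pow (hZu Q' hQnd) _)) (hpowu _)
  -- `e`, `b`, `χ e`, `jm C τ₀`
  have hpe : ¬ (p : ℤ) ∣ e := fun hd => hN (hd.trans he)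
  have hpb : ¬ (p : ℤ) ∣ (b : ℤ) := by
    intro hd
    have h3 : p ∣ b := by exact_mod_cast hd
    exact hbp ((Nat.prime_dvd_prime_iff_eq hp hb).1 h3).symm
  have heu : F5_Un O (e : ℂ) := hZu e hpe
  have hbu : F5_Un O (b : ℂ) := by
    have h3 := hZu (b : ℤ) hpb
    exact_mod_cast h3
  have hχu : F5_Un O (D.χ e : ℂ) := by
    have h3 := h.chi_sq e he0 he
    refine hZu _ ?_
    intro hd
    have h4 : (p : ℤ) ∣ 1 := by
      rw [← h3]
      exact dvd_pow hd two_ne_zero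
    exact hpp.not_isUnit (isUnit_of_dvd_one h4)
  have hdet : C.det = e * b := hC.hdet
  have hdet0 : 0 < C.det := by
    rw [hdet]
    exact mul_pos he0 (by exact_mod_cast hb.pos)
  have hJ := jm_fix hdet0 hτ hfix
  have hJu : F5_Un O (jm C τ₀) := by
    have hJ1 : jm C τ₀ * ((C.trace : ℂ) - jm C τ₀) = (e : ℂ) * (b : ℂ) := by
      have h3 : (C.det : ℂ) = (e : ℂ) * (b : ℂ) := by rw [hdet]; push_cast; rfl
      rw [← h3]
      linear_combination -hJ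
    have hJint : IsIntegral ℤ (jm C τ₀) := by
      refine ⟨X ^ 2 - Polynomial.C C.trace * X + Polynomial.C C.det, ?_, ?_⟩
      · monicity!
      · rw [Polynomial.eval₂_add, Polynomial.eval₂_sub, Polynomial.eval₂_pow, Polynomial.eval₂_mul,
          Polynomial.eval₂_X, Polynomial.eval₂_C, Polynomial.eval₂_C]
        exact hJ
    have hJO : jm C τ₀ ∈ O := hOint _ hJint
    have h4 : (C.trace : ℂ) - jm C τ₀ ∈ O := sub_mem (hZ _) hJO
    have heb := F5_mul heu hbu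
    have hJ0 : jm C τ₀ ≠ 0 := by
      intro h0
      rw [h0, zero_mul] at hJ1
      exact heb.2.2 hJ1.symm
    refine ⟨hJO, ?_, hJ0⟩
    have h5 : (jm C τ₀)⁻¹ = ((C.trace : ℂ) - jm C τ₀) * ((e : ℂ) * (b : ℂ))⁻¹ := by
      rw [← hJ1]
      have h6 : (C.trace : ℂ) - jm C τ₀ ≠ 0 := by
        intro h0
        rw [h0, mul_zero] at hJ1
        exact heb.2.2 hJ1.symm
      field_simp
    rw [h5]
    exact mul_mem h4 heb.2.1
  -- the partners
  have hpart : ∀ i, ∃ i', i' ≠ i ∧ ∃ v : ℂ, v ∈ O ∧ v⁻¹ ∈ O ∧ v ≠ 0 ∧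
      μ i ^ D.c = v * μ i' ^ D.c := by
    intro i
    obtain ⟨i', k, X', hne, hX', hcomm⟩ := exists_partner p b hp hb hN hbN he hC hno i
    have h3 := mult_partner h he0 he p b hp.pos hb.pos hC hX' hcomm hτ hfix
    have h4 := mult_z_pow h p hp.pos i hτ hzne
    have h5 := mult_z_pow h p hp.pos i' hτ hzne
    have hτ' : 0 < (act (MM p i') τ₀).im := by
      apply act_im_pos _ hτ
      rw [det_MM]
      exact_mod_cast hp.pos
    set Bk : ℂ := HF b D.c D.g k (act (MM p i') τ₀) / D.g (act (MM p i') τ₀) with hBk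
    have hBu : F5_Un O Bk := by
      refine F5_prod (fun j => HF b D.c D.g j (act (MM p i') τ₀) / D.g (act (MM p i') τ₀))
        (fun j => hOint _ (integral_g h b hb hbN hτ' (hTint i') j)) ?_ k
      rw [prod_mult_g h b hb hb2 hbN hτ']
      exact F5_pow hbu _
    have hTi := hTu i
    have hTi' := hTu i'
    have hden := F5_pow (F5_mul heu (F5_pow hbu 2)) D.c
    set v : ℂ := D.t (act (MM p i) τ₀) / D.t (act (MM p i') τ₀) *
      ((D.χ e : ℂ) ^ D.c * (jm C τ₀ ^ 2) ^ D.c) / ((e : ℂ) * (b : ℂ) ^ 2) ^ D.c * Bk with hv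
    have hvu : F5_Un O v := by
      refine F5_mul (F5_div (F5_mul (F5_div hTi hTi') (F5_mul (F5_pow hχu _)
        (F5_pow (F5_pow hJu 2) _))) hden) hBu
    refine ⟨i', hne, v, hvu.1, hvu.2.1, hvu.2.2, ?_⟩
    change (HF p 1 D.z i τ₀ / D.z τ₀) ^ D.c = v * (HF p 1 D.z i' τ₀ / D.z τ₀) ^ D.c
    rw [h4, h5, ht, hv]
    have h6 : HF p D.c D.g i τ₀ / D.g τ₀ = (D.χ e : ℂ) ^ D.c * (jm C τ₀ ^ 2) ^ D.c * Bk *
        (HF p D.c D.g i' τ₀ / D.g τ₀) / ((e : ℂ) * (b : ℂ) ^ 2) ^ D.c := by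
      rw [eq_div_iff hden.2.2]
      exact h3
    rw [h6]
    have hT0 := hTi'.2.2
    have hd0 := hden.2.2
    generalize HF p D.c D.g i' τ₀ / D.g τ₀ = G
    field_simp
  have hval := val_lemma O (p : ℂ) (by exact_mod_cast hZ p) hOp (p - 1)
    (by rw [hcard]; omega) μ hμO w hwu.1 hwu.2.1 hwu.2.2 hprod hn1 D.c h.hc hpart
  apply hval
  have hpe1 : p - 1 + 1 = p := by omega
  rw [hpe1, hek' p]
  by_cases hpR : (p : ℤ) ∣ (Q p).eval m
  · obtain ⟨r, hr⟩ := hpR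
    have hpr : ¬ (p : ℤ) ∣ r := by
      rintro ⟨s, hs⟩
      apply hR
      rw [hr, hs]
      exact ⟨s, by ring⟩
    have hru := hZu r hpr
    refine ⟨(m : ℂ) ^ cd D.c p * (r : ℂ)⁻¹, mul_mem (hpowu _).1 hru.2.1, ?_⟩
    rw [hr]
    push_cast
    have h7 := hru.2.2
    field_simp
  · have hru := hZu _ hpR
    refine ⟨(p : ℂ) * ((m : ℂ) ^ cd D.c p * (((Q p).eval m : ℤ) : ℂ)⁻¹),
      mul_mem (by exact_mod_cast hZ p) (mul_mem (hpowu _).1 hru.2.1), ?_⟩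
    have h7 := hru.2.2
    field_simp

end Pool.Agent.LibZP46
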