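import Pool.Agent.LibZP46.G1

/-!
ZP46 G2. The vanishing criterion at level `6 b`.

Plan. `F = P ^ 2 / (gg τ * (b^2 * gg (b τ))) ^ v` is holomorphic (`gg_ne`), invariant under all
`W` (`hinv`, and `pair_act` for `gg`, `r = 2`, trivial signs: the product `gg τ * b^2 gg (b τ)` gets
the factor `(j^2 / e) ^ 4` in both alternatives). `gg τ * gg (b τ) = qq ^ (1 + b) * (1 + ...)`
(`HasQ.shift`, `HasQ.dil`), and `P ^ 2` has a series divisible by `X ^ (2 m)`, `2 m > (1 + b) v`: so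
`F` is `qq` times a bounded function near the cusp; by `rigid` (`6 b` is squarefree) it is constant,
and the constant is `0` (`HasQ.tendsto`).
-/

namespace Pool.Agent.LibZP46

open Complex

theorem squarefree_six_mul (b : ℕ) (hb : b.Prime) (h5 : 5 ≤ b) : Squarefree (6 * b) := by
  have hcop : Nat.Coprime 6 b := by
    rw [Nat.coprime_comm, Nat.Prime.coprime_iff_not_dvd hb]
    intro h
    have h1 := Nat.le_of_dvd (by norm_num) h
    have h2 : b = 5 ∨ b = 6 := by omega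
    rcases h2 with h2 | h2
    · subst h2
      revert h
      decide
    · subst h2
      exact absurd hb (by decide)
  rw [Nat.squarefree_mul hcop]
  refine ⟨?_, hb.prime.squarefree⟩
  rw [show 6 = 2 * 3 from rfl, Nat.squarefree_mul (by decide)]
  exact ⟨Nat.prime_two.prime.squarefree, Nat.prime_three.prime.squarefree⟩

theorem vanish (b : ℕ) (hb : b.Prime) (h5 : 5 ≤ b) (v : ℕ) (P : ℂ → ℂ) (hP : Hol P)
    (hinv : ∀ e : ℤ, 0 < e → e ∣ ((6 * b : ℕ) : ℤ) → ∀ W : Mat, ALM ((6 * b : ℕ) : ℤ) e 1 W →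
      ∀ τ : ℂ, 0 < τ.im → P (act W τ) ^ 2 = ((jm W τ ^ 2 / (e : ℂ)) ^ (2 * v)) ^ 2 * P τ ^ 2)
    (a : PowerSeries ℤ) (hq : HasQ P (toC a)) (m : ℕ) (hm : PowerSeries.X ^ m ∣ a)
    (hlt : (1 + b) * v < 2 * m) {τ : ℂ} (hτ : 0 < τ.im) : P τ = 0 := by
  have hbpos : 0 < b := hb.pos
  have hb0 : (b : ℂ) ≠ 0 := by exact_mod_cast hb.ne_zero
  have hbim : ∀ τ : ℂ, 0 < τ.im → 0 < ((b : ℂ) * τ).im := by
    intro τ hτ
    rw [Complex.mul_im, Complex.natCast_re, Complex.natCast_im, zero_mul, add_zero]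
    exact mul_pos (by exact_mod_cast hbpos) hτ
  have hQne : ∀ τ : ℂ, 0 < τ.im → gg τ * ((b : ℂ) ^ 2 * gg ((b : ℂ) * τ)) ≠ 0 := fun τ hτ =>
    mul_ne_zero (gg_ne hτ) (mul_ne_zero (pow_ne_zero 2 hb0) (gg_ne (hbim τ hτ)))
  have hQhol : DifferentiableOn ℂ (fun τ : ℂ => gg τ * ((b : ℂ) ^ 2 * gg ((b : ℂ) * τ)))
      {τ : ℂ | 0 < τ.im} := by
    have h1 : DifferentiableOn ℂ (fun τ : ℂ => gg ((b : ℂ) * τ)) {τ : ℂ | 0 < τ.im} :=
      DifferentiableOn.comp (t := {τ : ℂ | 0 < τ.im}) gg_hol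
        ((differentiable_id.const_mul (b : ℂ)).differentiableOn) (fun τ hτ => hbim τ hτ)
    exact DifferentiableOn.mul gg_hol (h1.const_mul _)
  have hQact : ∀ e : ℤ, 0 < e → e ∣ ((6 * b : ℕ) : ℤ) → ∀ W : Mat, ALM ((6 * b : ℕ) : ℤ) e 1 W →
      ∀ τ : ℂ, 0 < τ.im → gg (act W τ) * ((b : ℂ) ^ 2 * gg ((b : ℂ) * act W τ)) =
        (jm W τ ^ 2 / (e : ℂ)) ^ 4 * (gg τ * ((b : ℂ) ^ 2 * gg ((b : ℂ) * τ))) := by
    intro e he0 he W hW τ hτ
    obtain ⟨e', -, -, h | h⟩ := pair_act b hb h5 he0 he hW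
    · obtain ⟨h1, h2⟩ := h (fun _ => 1) 2 gg gg_mod τ hτ
      simp only [Int.cast_one, one_mul, zpow_ofNat] at h1 h2
      rw [h1, h2]
      ring
    · obtain ⟨h1, h2⟩ := h (fun _ => 1) 2 gg gg_mod τ hτ
      simp only [Int.cast_one, one_mul, zpow_ofNat] at h1 h2
      rw [h1, h2]
      ring
  have hFhol : Hol (fun τ => P τ ^ 2 / (gg τ * ((b : ℂ) ^ 2 * gg ((b : ℂ) * τ))) ^ v) :=
    DifferentiableOn.div (hP.pow 2) (hQhol.pow v) fun τ hτ => pow_ne_zero v (hQne τ hτ)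
  have hFinv : ∀ e : ℤ, 0 < e → e ∣ ((6 * b : ℕ) : ℤ) → ∀ W : Mat, ALM ((6 * b : ℕ) : ℤ) e 1 W →
      ∀ τ : ℂ, 0 < τ.im →
        (fun τ => P τ ^ 2 / (gg τ * ((b : ℂ) ^ 2 * gg ((b : ℂ) * τ))) ^ v) (act W τ) =
        (fun τ => P τ ^ 2 / (gg τ * ((b : ℂ) ^ 2 * gg ((b : ℂ) * τ))) ^ v) τ := by
    intro e he0 he W hW τ hτ
    have hdet : W.det ≠ 0 := by
      rw [hW.hdet, mul_one]
      exact he0.ne'
    have hJ : jm W τ ^ 2 / (e : ℂ) ≠ 0 :=
      div_ne_zero (pow_ne_zero 2 (jm_ne hdet hτ)) (by exact_mod_cast he0.ne')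
    simp only
    rw [hinv e he0 he W hW τ hτ, hQact e he0 he W hW τ hτ, mul_pow (_ ^ 4), ← pow_mul, ← pow_mul,
      show 2 * v * 2 = 4 * v by ring]
    exact mul_div_mul_left _ _ (pow_ne_zero _ hJ)
  -- the series
  have hg0 : PowerSeries.constantCoeff gS = 0 := D6_ok.g0
  have hg1 : PowerSeries.coeff 1 gS = 1 := D6_ok.g1
  have hs0 : PowerSeries.constantCoeff (toC gS) = 0 := by
    rw [← PowerSeries.coeff_zero_eq_constantCoeff_apply, toC, PowerSeries.coeff_map,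
      PowerSeries.coeff_zero_eq_constantCoeff_apply, hg0, map_zero]
  have hs1 : PowerSeries.constantCoeff (shS (toC gS)) = 1 := by
    rw [← PowerSeries.coeff_zero_eq_constantCoeff_apply, shS, PowerSeries.coeff_mk, zero_add, toC,
      PowerSeries.coeff_map, hg1, map_one]
  have hA := hasQ_gg.shift hs0
  have hB := hA.dil b hbpos
  have hR := (hA.mul (hB.const_mul ((b : ℂ) ^ 2))).pow v
  have hr0 : PowerSeries.constantCoeff ((shS (toC gS) *
      (PowerSeries.C ((b : ℂ) ^ 2) * exd b (shS (toC gS)))) ^ v) ≠ 0 := by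
    rw [map_pow, map_mul, map_mul, constantCoeff_exd, hs1, PowerSeries.constantCoeff_C, one_mul,
      mul_one]
    exact pow_ne_zero _ (pow_ne_zero _ hb0)
  have hS := (hq.pow 2).mul (hR.inv hr0)
  have hmain : HasQ (fun τ => qq τ ^ ((1 + b) * v) *
      (P τ ^ 2 / (gg τ * ((b : ℂ) ^ 2 * gg ((b : ℂ) * τ))) ^ v)) (toC a ^ 2 * ((shS (toC gS) *
      (PowerSeries.C ((b : ℂ) ^ 2) * exd b (shS (toC gS)))) ^ v)⁻¹) := by
    refine hS.congr 0 fun τ _ => ?_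
    have h1 : gg τ * ((b : ℂ) ^ 2 * gg ((b : ℂ) * τ)) =
        gg τ / qq τ * ((b : ℂ) ^ 2 * (gg ((b : ℂ) * τ) / qq ((b : ℂ) * τ))) * qq τ ^ (1 + b) := by
      rw [qq_nat_mul, pow_add, pow_one]
      have h2 := qq_ne τ
      field_simp
    rw [h1, mul_pow _ (qq τ ^ (1 + b)), ← pow_mul, ← div_div, mul_div_cancel₀ _
      (pow_ne_zero _ (qq_ne τ))]
    exact (div_eq_mul_inv _ _).symm
  have hdvd : PowerSeries.X ^ ((1 + b) * v + 1) ∣ toC a ^ 2 * ((shS (toC gS) *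
      (PowerSeries.C ((b : ℂ) ^ 2) * exd b (shS (toC gS)))) ^ v)⁻¹ := by
    refine Dvd.dvd.mul_right ?_ _
    have h1 : (PowerSeries.X : PowerSeries ℂ) ^ m ∣ toC a := by
      obtain ⟨c, rfl⟩ := hm
      rw [toC_mul, toC_pow, toC_X]
      exact dvd_mul_right _ _
    refine dvd_trans (pow_dvd_pow _ (show (1 + b) * v + 1 ≤ m * 2 by omega)) ?_
    rw [pow_mul]
    exact pow_dvd_pow_of_dvd h1 2
  have hbdd := bdd_of_hasQ ((1 + b) * v) hmain (dvd_trans (pow_dvd_pow _ (Nat.le_succ _)) hdvd)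
  obtain ⟨c, hc⟩ := rigid (6 * b) (squarefree_six_mul b hb h5) _ hFhol hFinv hbdd
  have hc0 := eq_zero_of_hasQ ((1 + b) * v) hmain hdvd c hc
  have h1 := hc τ hτ
  rw [hc0, div_eq_zero_iff] at h1
  rcases h1 with h1 | h1
  · exact pow_eq_zero_iff (two_ne_zero) |>.1 h1
  · exact absurd h1 (pow_ne_zero v (hQne τ hτ))

end Pool.Agent.LibZP46
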