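import Pool.Agent.LibZP46.T0

/-!
ZP46 RD. The relations between the three Eisenstein series at `τ` and at `b τ`, `b = 5, 7, 13, 17`,
and their verification on the first coefficients (done).
-/

namespace Pool.Agent.LibZP46

/-- The relation for `b = 5`. -/
def R5 : Poly6 :=
  [(40, 0, 0, 0, 2, 0, 0), (40, 0, 0, 2, 0, 0, 0), (8, 0, 0, 1, 1, 0, 0),
   (-45, 0, 2, 0, 0, 0, 0), (-45, 2, 0, 0, 0, 0, 0), (9, 1, 1, 0, 0, 0, 0), (9, 0, 0, 0, 0, 1, 1)]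

/-- The relation for `b = 7`. -/
def R7 : Poly6 :=
  [(10108, 0, 1, 1, 2, 0, 0), (10108, 1, 0, 2, 1, 0, 0), (1880, 0, 1, 2, 1, 0, 0),
   (1880, 1, 0, 1, 2, 0, 0), (9660, 0, 1, 3, 0, 0, 0), (9660, 1, 0, 0, 3, 0, 0),
   (-10395, 0, 3, 1, 0, 0, 0), (-10395, 3, 0, 0, 1, 0, 0), (-9954, 1, 2, 0, 1, 0, 0),
   (-9954, 2, 1, 1, 0, 0, 0), (-765, 1, 2, 1, 0, 0, 0), (-765, 2, 1, 0, 1, 0, 0),
   (119, 0, 1, 0, 1, 1, 1), (119, 1, 0, 1, 0, 1, 1), (535, 0, 1, 1, 0, 1, 1),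
   (535, 1, 0, 0, 1, 1, 1)]

/-- The relation for `b = 13`. -/
def R13 : Poly6 :=
  [(338000, 0, 0, 0, 4, 0, 0), (338000, 0, 0, 4, 0, 0, 0), (41600, 0, 0, 1, 3, 0, 0),
   (41600, 0, 0, 3, 1, 0, 0), (-509600, 0, 0, 2, 2, 0, 0), (-681408, 0, 2, 0, 2, 0, 0),
   (-681408, 2, 0, 2, 0, 0, 0), (-37440, 0, 2, 1, 1, 0, 0), (-37440, 2, 0, 1, 1, 0, 0),
   (547200, 0, 2, 2, 0, 0, 0), (547200, 2, 0, 0, 2, 0, 0), (342225, 0, 4, 0, 0, 0, 0),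
   (342225, 4, 0, 0, 0, 0, 0), (56160, 1, 1, 0, 2, 0, 0), (56160, 1, 1, 2, 0, 0, 0),
   (12384, 1, 1, 1, 1, 0, 0), (-52650, 1, 3, 0, 0, 0, 0), (-52650, 3, 1, 0, 0, 0, 0),
   (-579150, 2, 2, 0, 0, 0, 0), (10400, 0, 0, 0, 2, 1, 1), (10400, 0, 0, 2, 0, 1, 1),
   (10400, 0, 0, 1, 1, 1, 1), (-5850, 0, 2, 0, 0, 1, 1), (-5850, 2, 0, 0, 0, 1, 1),
   (11700, 1, 1, 0, 0, 1, 1)]

/-- The relation for `b = 17`. -/
def R17 : Poly6 :=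
  [(307304705120, 0, 1, 0, 5, 0, 0), (307304705120, 1, 0, 5, 0, 0, 0),
   (6258521440, 0, 1, 1, 4, 0, 0), (6258521440, 1, 0, 4, 1, 0, 0),
   (321931972320, 0, 1, 2, 3, 0, 0), (321931972320, 1, 0, 3, 2, 0, 0),
   (126346916640, 0, 1, 3, 2, 0, 0), (126346916640, 1, 0, 2, 3, 0, 0),
   (67690518720, 0, 1, 4, 1, 0, 0), (67690518720, 1, 0, 1, 4, 0, 0),
   (72987555200, 0, 1, 5, 0, 0, 0), (72987555200, 1, 0, 0, 5, 0, 0),
   (-619740883836, 0, 3, 0, 3, 0, 0), (-619740883836, 3, 0, 3, 0, 0, 0),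
   (93085479684, 0, 3, 1, 2, 0, 0), (93085479684, 3, 0, 2, 1, 0, 0),
   (-321302347020, 0, 3, 2, 1, 0, 0), (-321302347020, 3, 0, 1, 2, 0, 0),
   (-65367038700, 0, 3, 3, 0, 0, 0), (-65367038700, 3, 0, 0, 3, 0, 0),
   (312627077955, 0, 5, 0, 1, 0, 0), (312627077955, 5, 0, 1, 0, 0, 0),
   (-100157850675, 0, 5, 1, 0, 0, 0), (-100157850675, 5, 0, 0, 1, 0, 0),
   (-74049924096, 1, 2, 0, 3, 0, 0), (-74049924096, 2, 1, 3, 0, 0, 0),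
   (-17943400008, 1, 2, 1, 2, 0, 0), (-17943400008, 2, 1, 2, 1, 0, 0),
   (-75510573912, 1, 2, 2, 1, 0, 0), (-75510573912, 2, 1, 1, 2, 0, 0),
   (-218344054320, 1, 2, 3, 0, 0, 0), (-218344054320, 2, 1, 0, 3, 0, 0),
   (-52370741970, 1, 4, 1, 0, 0, 0), (-52370741970, 4, 1, 0, 1, 0, 0),
   (215872360875, 2, 3, 0, 1, 0, 0), (215872360875, 3, 2, 1, 0, 0, 0),
   (9033636375, 2, 3, 1, 0, 0, 0), (9033636375, 3, 2, 0, 1, 0, 0),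
   (-31269510660, 0, 1, 0, 3, 1, 1), (-31269510660, 1, 0, 3, 0, 1, 1),
   (1416790340, 0, 1, 1, 2, 1, 1), (1416790340, 1, 0, 2, 1, 1, 1),
   (-16786698460, 0, 1, 2, 1, 1, 1), (-16786698460, 1, 0, 1, 2, 1, 1),
   (-7739224100, 0, 1, 3, 0, 1, 1), (-7739224100, 1, 0, 0, 3, 1, 1),
   (30650805945, 0, 3, 0, 1, 1, 1), (30650805945, 3, 0, 1, 0, 1, 1),
   (-5332753575, 0, 3, 1, 0, 1, 1), (-5332753575, 3, 0, 0, 1, 1, 1),
   (4502590875, 1, 2, 0, 1, 1, 1), (4502590875, 2, 1, 1, 0, 1, 1),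
   (12957632595, 1, 2, 1, 0, 1, 1), (12957632595, 2, 1, 0, 1, 1, 1)]

theorem R5_vanish : evL 4 R5 z2L ((exdL 4 5 z2L).map fun x => 5 * x) z3L
    ((exdL 4 5 z3L).map fun x => 5 * x) z6L ((exdL 4 5 z6L).map fun x => 5 * x) =
      List.replicate 4 0 := by
  decide +kernel

theorem R7_vanish : evL 9 R7 z2L ((exdL 9 7 z2L).map fun x => 7 * x) z3L
    ((exdL 9 7 z3L).map fun x => 7 * x) z6L ((exdL 9 7 z6L).map fun x => 7 * x) =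
      List.replicate 9 0 := by
  decide +kernel

theorem R13_vanish : evL 15 R13 z2L ((exdL 15 13 z2L).map fun x => 13 * x) z3L
    ((exdL 15 13 z3L).map fun x => 13 * x) z6L ((exdL 15 13 z6L).map fun x => 13 * x) =
      List.replicate 15 0 := by
  decide +kernel

theorem R17_vanish : evL 28 R17 z2L ((exdL 28 17 z2L).map fun x => 17 * x) z3L
    ((exdL 28 17 z3L).map fun x => 17 * x) z6L ((exdL 28 17 z6L).map fun x => 17 * x) =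
      List.replicate 28 0 := by
  decide +kernel

end Pool.Agent.LibZP46
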