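import Pool.Agent.LibZP46.G2
import Pool.Agent.LibZP46.RD

/-!
ZP46 G3. Relations from data.

Plan. Put `P τ = ev6 R (z2 τ) (b z2 (b τ)) (z3 τ) (b z3 (b τ)) (z6 τ) (b z6 (b τ))`, holomorphic
(`ev6_hol`), with the series `ev6 R z2S (b exd b z2S) ...` (`ev6_hasQ`, `HasQ.dil`,
`HasQ.const_mul`). For `W` of level `6 b` use `pair_act` with `r = 1` for the three forms
(`z2_mod`, `z3_mod`, `z6_mod`): with `λ = jm W τ ^ 2 / e`, `sa = chi 1 (-1) e'`,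
`sb = chi (-1) 1 e'`, the six values get the factors `λ sa`, `λ sb`, `λ sa sb`
(`chi (-1) (-1) e' = sa * sb`; `e' ∈ {1, 2, 3, 6}`), and are exchanged in pairs in the second
alternative: `hsc`, `hsw`. Then `vanish`.
-/

namespace Pool.Agent.LibZP46

open Complex

private theorem G3_hol_dil (b : ℕ) (hb : 0 < b) {F : ℂ → ℂ} (hF : Hol F) :
    Hol (fun τ => (b : ℂ) * F ((b : ℂ) * τ)) := by
  have hb' : (0 : ℝ) < b := by exact_mod_cast hb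
  have h : DifferentiableOn ℂ (fun τ : ℂ => F ((b : ℂ) * τ)) {τ | 0 < τ.im} := by
    refine DifferentiableOn.comp (t := {τ : ℂ | 0 < τ.im}) hF
      ((differentiable_const _).mul differentiable_id).differentiableOn ?_
    intro τ hτ
    simp only [Set.mem_ofPred_eq, mul_im, natCast_re, natCast_im, zero_mul, add_zero] at hτ ⊢
    exact mul_pos hb' hτ
  exact (differentiableOn_const _).mul h

private theorem G3_series (b : ℕ) (hb : 0 < b) {F : ℂ → ℂ} {a : PowerSeries ℤ}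
    (h : HasQ F (toC a)) :
    HasQ (fun τ => (b : ℂ) * F ((b : ℂ) * τ)) (toC (PowerSeries.C (b : ℤ) * exd b a)) := by
  have h1 := (h.dil b hb).const_mul (b : ℂ)
  refine h1.of_eq ?_
  rw [toC_mul, toC_C, toC_exd]
  simp

private theorem G3_chi_a (e : ℤ) : ((chi 1 (-1) e : ℤ) : ℂ) = 1 ∨ ((chi 1 (-1) e : ℤ) : ℂ) = -1 := by
  unfold chi
  split_ifs <;> simp

private theorem G3_chi_b (e : ℤ) : ((chi (-1) 1 e : ℤ) : ℂ) = 1 ∨ ((chi (-1) 1 e : ℤ) : ℂ) = -1 := by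
  unfold chi
  split_ifs <;> simp

private theorem G3_chi_c (e : ℤ) :
    ((chi (-1) (-1) e : ℤ) : ℂ) = ((chi 1 (-1) e : ℤ) : ℂ) * ((chi (-1) 1 e : ℤ) : ℂ) := by
  unfold chi
  split_ifs <;> simp

theorem rel_of_data (b : ℕ) (hb : b.Prime) (h5 : 5 ≤ b) (v : ℕ) (R : Poly6)
    (hsc : ∀ sa sb l a1 a2 b1 b2 c1 c2 : ℂ, (sa = 1 ∨ sa = -1) → (sb = 1 ∨ sb = -1) →
      ev6 R (l * (sa * a1)) (l * (sa * a2)) (l * (sb * b1)) (l * (sb * b2)) (l * (sa * sb * c1))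
        (l * (sa * sb * c2)) ^ 2 = (l ^ (2 * v)) ^ 2 * ev6 R a1 a2 b1 b2 c1 c2 ^ 2)
    (hsw : ∀ a1 a2 b1 b2 c1 c2 : ℂ, ev6 R a2 a1 b2 b1 c2 c1 ^ 2 = ev6 R a1 a2 b1 b2 c1 c2 ^ 2)
    (m : ℕ) (hm28 : m ≤ 28) (hlt : (1 + b) * v < 2 * m)
    (hvan : evL m R z2L ((exdL m b z2L).map fun x => b * x) z3L
      ((exdL m b z3L).map fun x => b * x) z6L ((exdL m b z6L).map fun x => b * x) =
        List.replicate m 0) {τ : ℂ} (hτ : 0 < τ.im) :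
    ev6 R (z2 τ) (b * z2 (b * τ)) (z3 τ) (b * z3 (b * τ)) (z6 τ) (b * z6 (b * τ)) = 0 := by
  have hb0 : 0 < b := hb.pos
  refine vanish b hb h5 v
    (fun τ => ev6 R (z2 τ) (b * z2 (b * τ)) (z3 τ) (b * z3 (b * τ)) (z6 τ) (b * z6 (b * τ)))
    ?_ ?_
    (ev6 R z2S (PowerSeries.C (b : ℤ) * exd b z2S) z3S (PowerSeries.C (b : ℤ) * exd b z3S) z6S
      (PowerSeries.C (b : ℤ) * exd b z6S)) ?_ m ?_ hlt hτ
  · have h2 : Hol z2 := Zf_hol 1 (-1)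
    have h3 : Hol z3 := Zf_hol (-1) 1
    have h6 : Hol z6 := Zf_hol (-1) (-1)
    exact ev6_hol R h2 (G3_hol_dil b hb0 h2) h3 (G3_hol_dil b hb0 h3) h6 (G3_hol_dil b hb0 h6)
  · intro e he0 he W hW τ hτ
    obtain ⟨e', -, -, h | h⟩ := pair_act b hb h5 he0 he hW
    · obtain ⟨p2, q2⟩ := h _ _ _ z2_mod τ hτ
      obtain ⟨p3, q3⟩ := h _ _ _ z3_mod τ hτ
      obtain ⟨p6, q6⟩ := h _ _ _ z6_mod τ hτ
      simp only [zpow_one] at p2 q2 p3 q3 p6 q6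
      rw [G3_chi_c] at p6 q6
      have key := hsc (chi 1 (-1) e' : ℂ) (chi (-1) 1 e' : ℂ) (jm W τ ^ 2 / (e : ℂ)) (z2 τ)
        (b * z2 (b * τ)) (z3 τ) (b * z3 (b * τ)) (z6 τ) (b * z6 (b * τ)) (G3_chi_a e') (G3_chi_b e')
      change ev6 R (z2 (act W τ)) (b * z2 (b * act W τ)) (z3 (act W τ)) (b * z3 (b * act W τ))
        (z6 (act W τ)) (b * z6 (b * act W τ)) ^ 2 = _
      rw [p2, q2, p3, q3, p6, q6, ← key]
      congr 2 <;> ring
    · obtain ⟨p2, q2⟩ := h _ _ _ z2_mod τ hτ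
      obtain ⟨p3, q3⟩ := h _ _ _ z3_mod τ hτ
      obtain ⟨p6, q6⟩ := h _ _ _ z6_mod τ hτ
      simp only [zpow_one] at p2 q2 p3 q3 p6 q6
      rw [G3_chi_c] at p6 q6
      have key := hsc (chi 1 (-1) e' : ℂ) (chi (-1) 1 e' : ℂ) (jm W τ ^ 2 / (e : ℂ))
        (b * z2 (b * τ)) (z2 τ) (b * z3 (b * τ)) (z3 τ) (b * z6 (b * τ)) (z6 τ) (G3_chi_a e')
        (G3_chi_b e')
      rw [hsw (z2 τ) (b * z2 (b * τ)) (z3 τ) (b * z3 (b * τ)) (z6 τ) (b * z6 (b * τ))] at key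
      change ev6 R (z2 (act W τ)) (b * z2 (b * act W τ)) (z3 (act W τ)) (b * z3 (b * act W τ))
        (z6 (act W τ)) (b * z6 (b * act W τ)) ^ 2 = _
      rw [p2, q2, p3, q3, p6, q6, ← key]
      congr 2 <;> ring
  · exact ev6_hasQ R hasQ_z2 (G3_series b hb0 hasQ_z2) hasQ_z3 (G3_series b hb0 hasQ_z3) hasQ_z6
      (G3_series b hb0 hasQ_z6)
  · have a2 := app_z2.mono hm28
    have a3 := app_z3.mono hm28
    have a6 := app_z6.mono hm28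
    have h := App.ev6 R a2 (App.const_mul (b : ℤ) (App.exd hb0 a2)) a3
      (App.const_mul (b : ℤ) (App.exd hb0 a3)) a6 (App.const_mul (b : ℤ) (App.exd hb0 a6))
    rw [hvan] at h
    refine App.X_pow_dvd h ?_
    intro n hn
    rw [List.getD_replicate _ hn]

end Pool.Agent.LibZP46
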