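import Pool.Agent.LibZP46.G3

/-!
ZP46 G4. The relations for `b = 5, 7, 13`.

Plan. `rel_of_data` with `v = 1, 2, 2` and `m = 4, 9, 15`, `R5_vanish` etc. (casts `((5 : ℕ) : ℤ)`:
`by simpa using`, `exact_mod_cast` or `show`). `hsc`, `hsw`: unfold `ev6`, the lists (`simp [ev6, R5]`),
`rcases` for the signs, `ring`.
-/

namespace Pool.Agent.LibZP46

open Complex

private theorem G4_sc5 (sa sb l a1 a2 b1 b2 c1 c2 : ℂ) (ha : sa = 1 ∨ sa = -1)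
    (hb : sb = 1 ∨ sb = -1) :
    ev6 R5 (l * (sa * a1)) (l * (sa * a2)) (l * (sb * b1)) (l * (sb * b2)) (l * (sa * sb * c1))
      (l * (sa * sb * c2)) = l ^ 2 * ev6 R5 a1 a2 b1 b2 c1 c2 := by
  simp only [ev6, R5, List.map_cons, List.map_nil, List.sum_cons, List.sum_nil]
  rcases ha with rfl | rfl <;> rcases hb with rfl | rfl <;> ring

private theorem G4_sw5 (a1 a2 b1 b2 c1 c2 : ℂ) :
    ev6 R5 a2 a1 b2 b1 c2 c1 = ev6 R5 a1 a2 b1 b2 c1 c2 := by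
  simp only [ev6, R5, List.map_cons, List.map_nil, List.sum_cons, List.sum_nil]
  ring

private theorem G4_sc7 (sa sb l a1 a2 b1 b2 c1 c2 : ℂ) (ha : sa = 1 ∨ sa = -1)
    (hb : sb = 1 ∨ sb = -1) :
    ev6 R7 (l * (sa * a1)) (l * (sa * a2)) (l * (sb * b1)) (l * (sb * b2)) (l * (sa * sb * c1))
      (l * (sa * sb * c2)) = (sa * sb) * (l ^ 4 * ev6 R7 a1 a2 b1 b2 c1 c2) := by
  simp only [ev6, R7, List.map_cons, List.map_nil, List.sum_cons, List.sum_nil]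
  rcases ha with rfl | rfl <;> rcases hb with rfl | rfl <;> ring

private theorem G4_sw7 (a1 a2 b1 b2 c1 c2 : ℂ) :
    ev6 R7 a2 a1 b2 b1 c2 c1 = ev6 R7 a1 a2 b1 b2 c1 c2 := by
  simp only [ev6, R7, List.map_cons, List.map_nil, List.sum_cons, List.sum_nil]
  ring

private theorem G4_sc13 (sa sb l a1 a2 b1 b2 c1 c2 : ℂ) (ha : sa = 1 ∨ sa = -1)
    (hb : sb = 1 ∨ sb = -1) :
    ev6 R13 (l * (sa * a1)) (l * (sa * a2)) (l * (sb * b1)) (l * (sb * b2)) (l * (sa * sb * c1))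
      (l * (sa * sb * c2)) = l ^ 4 * ev6 R13 a1 a2 b1 b2 c1 c2 := by
  simp only [ev6, R13, List.map_cons, List.map_nil, List.sum_cons, List.sum_nil]
  rcases ha with rfl | rfl <;> rcases hb with rfl | rfl <;> ring

private theorem G4_sw13 (a1 a2 b1 b2 c1 c2 : ℂ) :
    ev6 R13 a2 a1 b2 b1 c2 c1 = ev6 R13 a1 a2 b1 b2 c1 c2 := by
  simp only [ev6, R13, List.map_cons, List.map_nil, List.sum_cons, List.sum_nil]
  ring

private theorem G4_sgn (sa sb : ℂ) (ha : sa = 1 ∨ sa = -1) (hb : sb = 1 ∨ sb = -1) :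
    (sa * sb) ^ 2 = 1 := by
  rcases ha with rfl | rfl <;> rcases hb with rfl | rfl <;> norm_num

theorem rel5 {τ : ℂ} (hτ : 0 < τ.im) :
    ev6 R5 (z2 τ) (5 * z2 (5 * τ)) (z3 τ) (5 * z3 (5 * τ)) (z6 τ) (5 * z6 (5 * τ)) = 0 := by
  have h := rel_of_data 5 (by norm_num) (by norm_num) 1 R5
    (fun sa sb l a1 a2 b1 b2 c1 c2 ha hb => by
      rw [G4_sc5 sa sb l a1 a2 b1 b2 c1 c2 ha hb, mul_pow])
    (fun a1 a2 b1 b2 c1 c2 => by rw [G4_sw5]) 4 (by norm_num) (by norm_num)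
    (by exact_mod_cast R5_vanish) hτ
  exact_mod_cast h

theorem rel7 {τ : ℂ} (hτ : 0 < τ.im) :
    ev6 R7 (z2 τ) (7 * z2 (7 * τ)) (z3 τ) (7 * z3 (7 * τ)) (z6 τ) (7 * z6 (7 * τ)) = 0 := by
  have h := rel_of_data 7 (by norm_num) (by norm_num) 2 R7
    (fun sa sb l a1 a2 b1 b2 c1 c2 ha hb => by
      rw [G4_sc7 sa sb l a1 a2 b1 b2 c1 c2 ha hb, mul_pow (sa * sb), G4_sgn sa sb ha hb, one_mul,
        mul_pow])
    (fun a1 a2 b1 b2 c1 c2 => by rw [G4_sw7]) 9 (by norm_num) (by norm_num)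
    (by exact_mod_cast R7_vanish) hτ
  exact_mod_cast h

theorem rel13 {τ : ℂ} (hτ : 0 < τ.im) :
    ev6 R13 (z2 τ) (13 * z2 (13 * τ)) (z3 τ) (13 * z3 (13 * τ)) (z6 τ) (13 * z6 (13 * τ)) = 0 := by
  have h := rel_of_data 13 (by norm_num) (by norm_num) 2 R13
    (fun sa sb l a1 a2 b1 b2 c1 c2 ha hb => by
      rw [G4_sc13 sa sb l a1 a2 b1 b2 c1 c2 ha hb, mul_pow])
    (fun a1 a2 b1 b2 c1 c2 => by rw [G4_sw13]) 15 (by norm_num) (by norm_num)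
    (by exact_mod_cast R13_vanish) hτ
  exact_mod_cast h

end Pool.Agent.LibZP46
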