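import Pool.Agent.LibZP46.G3

/-!
ZP46 G5. The relation for `b = 17`.

Plan. `rel_of_data` with `v = 3`, `m = 28`, `R17_vanish`. `hsc`, `hsw`: unfold `ev6` and the list
(54 monomials of degree 6); `rcases` for the signs, `ring` (if it is too slow: prove for each monomial
that the term gets the factor `l ^ 6 * sb * (sa * sb) * ...`; all monomials have the total degree 6,
an odd degree in `a1, a2`, an odd degree in `b1, b2` and an even degree in `c1, c2`, plus or minus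
`(c, c)`: i.e. the factor `l ^ 6 * sa * sb` for each monomial, by `decide` on the list and induction).
-/

namespace Pool.Agent.LibZP46

open Complex

private theorem G5_scale (P : Poly6)
    (hP : ∀ M ∈ P, M.2.1 + M.2.2.1 + M.2.2.2.1 + M.2.2.2.2.1 + M.2.2.2.2.2.1 + M.2.2.2.2.2.2 = 6 ∧
      (M.2.1 + M.2.2.1 + M.2.2.2.2.2.1 + M.2.2.2.2.2.2) % 2 = 1 ∧
      (M.2.2.2.1 + M.2.2.2.2.1 + M.2.2.2.2.2.1 + M.2.2.2.2.2.2) % 2 = 1)
    {sa sb : ℂ} (ha : sa ^ 2 = 1) (hb : sb ^ 2 = 1) (l a1 a2 b1 b2 c1 c2 : ℂ) :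
    ev6 P (l * (sa * a1)) (l * (sa * a2)) (l * (sb * b1)) (l * (sb * b2)) (l * (sa * sb * c1))
      (l * (sa * sb * c2)) = l ^ 6 * (sa * sb) * ev6 P a1 a2 b1 b2 c1 c2 := by
  unfold ev6
  rw [← List.sum_map_mul_left]
  congr 1
  refine List.map_congr_left fun M hM => ?_
  obtain ⟨h1, h2, h3⟩ := hP M hM
  obtain ⟨c, i, j, k, m, n, o⟩ := M
  simp only at h1 h2 h3 ⊢
  have e1 : sa ^ (i + j + n + o) = sa := by
    rw [pow_eq_pow_mod _ ha, h2, pow_one]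
  have e2 : sb ^ (k + m + n + o) = sb := by
    rw [pow_eq_pow_mod _ hb, h3, pow_one]
  have e3 : (c : ℂ) * ((l * (sa * a1)) ^ i * (l * (sa * a2)) ^ j * ((l * (sb * b1)) ^ k * (l * (sb * b2)) ^ m) *
      ((l * (sa * sb * c1)) ^ n * (l * (sa * sb * c2)) ^ o)) =
      l ^ (i + j + k + m + n + o) * (sa ^ (i + j + n + o) * sb ^ (k + m + n + o)) *
        ((c : ℂ) * (a1 ^ i * a2 ^ j * (b1 ^ k * b2 ^ m) * (c1 ^ n * c2 ^ o))) := by
    simp only [mul_pow, pow_add]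
    ring
  rw [e3, h1, e1, e2]

private theorem G5_swap (P : Poly6)
    (hP : (P.map fun M => (M.1, M.2.2.1, M.2.1, M.2.2.2.2.1, M.2.2.2.1, M.2.2.2.2.2.2, M.2.2.2.2.2.1)).Perm P)
    (a1 a2 b1 b2 c1 c2 : ℂ) : ev6 P a2 a1 b2 b1 c2 c1 = ev6 P a1 a2 b1 b2 c1 c2 := by
  unfold ev6
  have h1 := (hP.map fun m : ℤ × ℕ × ℕ × ℕ × ℕ × ℕ × ℕ => (m.1 : ℂ) * (a1 ^ m.2.1 * a2 ^ m.2.2.1 *
    (b1 ^ m.2.2.2.1 * b2 ^ m.2.2.2.2.1) * (c1 ^ m.2.2.2.2.2.1 * c2 ^ m.2.2.2.2.2.2))).sum_eq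
  rw [← h1, List.map_map]
  congr 1
  refine List.map_congr_left fun M _ => ?_
  simp only [Function.comp_apply]
  ring

theorem rel17 {τ : ℂ} (hτ : 0 < τ.im) :
    ev6 R17 (z2 τ) (17 * z2 (17 * τ)) (z3 τ) (17 * z3 (17 * τ)) (z6 τ) (17 * z6 (17 * τ)) = 0 := by
  have h := rel_of_data 17 (by norm_num) (by norm_num) 3 R17 ?_ ?_ 28 le_rfl (by norm_num) ?_ hτ
  · simpa only [Nat.cast_ofNat] using h
  · intro sa sb l a1 a2 b1 b2 c1 c2 ha hb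
    have ha2 : sa ^ 2 = 1 := by rcases ha with rfl | rfl <;> norm_num
    have hb2 : sb ^ 2 = 1 := by rcases hb with rfl | rfl <;> norm_num
    rw [G5_scale R17 (by decide +kernel) ha2 hb2]
    have e : (l ^ 6 * (sa * sb) * ev6 R17 a1 a2 b1 b2 c1 c2) ^ 2 =
        (l ^ (2 * 3)) ^ 2 * (sa ^ 2 * sb ^ 2) * ev6 R17 a1 a2 b1 b2 c1 c2 ^ 2 := by ring
    rw [e, ha2, hb2, mul_one, mul_one]
  · intro a1 a2 b1 b2 c1 c2
    rw [G5_swap R17 (List.isPerm_iff.1 (by decide +kernel))]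
  · simpa only [Nat.cast_ofNat] using R17_vanish

end Pool.Agent.LibZP46
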