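import Pool.Agent.LibZP46.B2

/-!
ZP46 G6. `z2` and `z3` do not vanish on the imaginary axis.

Plan. For `τ = i y` the number `qq τ = exp (-2 π y)` is positive. The coefficients of `BS`, `AS` are
`≥ 0`: `sgd 1 n - 3 sgd 3 n ≥ 0` (`σ (3^k m) - 3 σ (3^(k-1) m) = σ m` for `3 ∤ m`: multiplicativity of
`σ`, or directly: the divisors `3 d` of `n` with `d ∣ n / 3` sum to `3 σ (n/3)`), likewise
`sgd 2 n - 3 sgd 6 n ≥ 0`, and `sgd 1 n - 2 sgd 2 n ≥ 0`, `sgd 3 n - 2 sgd 6 n ≥ 0`. So
`z2 τ = 1 + 4 ∑ ...` (`hasSum_z2`) is a real number `≥ 1`; the same for `z3`.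
-/

namespace Pool.Agent.LibZP46

open Complex

theorem mul_sgd_le (d n : ℕ) (hd : 0 < d) : (d : ℤ) * sgd d n ≤ sgd 1 n := by
  have h1 : sgd 1 n = sg n := by simp [sgd]
  rw [h1]
  unfold sgd
  split_ifs with h
  · unfold sg
    rw [Finset.mul_sum]
    rcases Nat.eq_zero_or_pos n with h0 | h0
    · simp [h0]
    · have hinj : Function.Injective (fun e : ℕ => d * e) :=
        fun a b hab => Nat.eq_of_mul_eq_mul_left hd hab
      have h2 : ∑ e ∈ (n / d).divisors, (d : ℤ) * (e : ℤ) =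
          ∑ x ∈ (n / d).divisors.map ⟨fun e : ℕ => d * e, hinj⟩, (x : ℤ) := by
        rw [Finset.sum_map]
        refine Finset.sum_congr rfl (fun e _ => ?_)
        simp
      rw [h2]
      refine Finset.sum_le_sum_of_subset_of_nonneg ?_ (fun i _ _ => by positivity)
      intro x hx
      rw [Finset.mem_map] at hx
      obtain ⟨e, he, rfl⟩ := hx
      rw [Nat.mem_divisors] at he ⊢
      refine ⟨?_, h0.ne'⟩
      obtain ⟨c, hc⟩ := he.1
      refine ⟨c, ?_⟩
      change n = d * e * c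
      rw [mul_assoc, ← hc, Nat.mul_div_cancel' h]
  · rw [mul_zero]
    exact Finset.sum_nonneg (fun i _ => by positivity)

private theorem G6_le (a d n : ℕ) (ha : 0 < a) (hd : 0 < d) :
    (d : ℤ) * sgd (a * d) n ≤ sgd a n := by
  by_cases h : a ∣ n
  · obtain ⟨m, rfl⟩ := h
    have h1 : sgd a (a * m) = sgd 1 m := by
      simp [sgd, Nat.mul_div_cancel_left m ha]
    have h2 : sgd (a * d) (a * m) = sgd d m := by
      unfold sgd
      rw [Nat.mul_div_mul_left m d ha]
      by_cases h3 : d ∣ m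
      · rw [if_pos h3, if_pos (mul_dvd_mul_left a h3)]
      · rw [if_neg h3, if_neg (fun h4 => h3 (Nat.dvd_of_mul_dvd_mul_left ha h4))]
    rw [h1, h2]
    exact mul_sgd_le d m hd
  · have h1 : sgd a n = 0 := by simp [sgd, h]
    have h2 : sgd (a * d) n = 0 := by
      unfold sgd
      rw [if_neg (fun h4 => h (dvd_of_mul_right_dvd h4))]
    rw [h1, h2]
    simp

theorem BS_nonneg (n : ℕ) : 0 ≤ PowerSeries.coeff n BS := by
  unfold BS
  rw [PowerSeries.coeff_mk]
  have h1 := G6_le 1 3 n (by norm_num) (by norm_num)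
  have h2 := G6_le 2 3 n (by norm_num) (by norm_num)
  norm_num at h1 h2
  linarith

theorem AS_nonneg (n : ℕ) : 0 ≤ PowerSeries.coeff n AS := by
  unfold AS
  rw [PowerSeries.coeff_mk]
  have h1 := G6_le 1 2 n (by norm_num) (by norm_num)
  have h2 := G6_le 3 2 n (by norm_num) (by norm_num)
  norm_num at h1 h2
  linarith

private theorem G6_aux (S : PowerSeries ℤ) (h0 : 1 ≤ PowerSeries.coeff 0 S)
    (hS : ∀ n, 0 ≤ PowerSeries.coeff n S) (y : ℝ) (F : ℂ)
    (h : HasSum (fun n => PowerSeries.coeff n (toC S) * qq ((y : ℂ) * I) ^ n) F) : F ≠ 0 := by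
  have hq : qq ((y : ℂ) * I) = ((Real.exp (-(2 * Real.pi * y)) : ℝ) : ℂ) := by
    unfold qq
    rw [Complex.ofReal_exp]
    congr 1
    have hI : I * I = -1 := Complex.I_mul_I
    push_cast
    linear_combination (2 * (Real.pi : ℂ) * y) * hI
  have h1 : HasSum (fun n => ((PowerSeries.coeff n S : ℤ) : ℝ) *
      Real.exp (-(2 * Real.pi * y)) ^ n) F.re := by
    have h2 := Complex.reCLM.hasSum h
    have h3 : (fun n => Complex.reCLM (PowerSeries.coeff n (toC S) * qq ((y : ℂ) * I) ^ n)) =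
        (fun n => ((PowerSeries.coeff n S : ℤ) : ℝ) * Real.exp (-(2 * Real.pi * y)) ^ n) := by
      funext n
      rw [hq]
      have h4 : PowerSeries.coeff n (toC S) = (((PowerSeries.coeff n S : ℤ) : ℝ) : ℂ) := by
        unfold toC
        rw [PowerSeries.coeff_map]
        simp
      rw [h4, ← Complex.ofReal_pow, ← Complex.ofReal_mul]
      exact Complex.ofReal_re _
    rw [← h3]
    exact h2
  have h3 := le_hasSum h1 0 (fun n _ => mul_nonneg (by exact_mod_cast hS n) (by positivity))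
  have h4 : (1 : ℝ) ≤ ((PowerSeries.coeff 0 S : ℤ) : ℝ) := by exact_mod_cast h0
  intro h5
  rw [h5] at h3
  simp at h3
  have h6 : ((PowerSeries.coeff 0 S : ℤ) : ℝ) ≤ 0 := by
    simpa using h3
  linarith

theorem z2_ne_zero_of_im (y : ℝ) (hy : 0 < y) : z2 ((y : ℂ) * I) ≠ 0 := by
  refine G6_aux z2S ?_ ?_ y _ (hasSum_z2 (by simpa using hy))
  · unfold z2S
    have h := BS_nonneg 0
    rw [map_add]
    have h4 : (4 : PowerSeries ℤ) = PowerSeries.C 4 := (map_ofNat _ 4).symm
    rw [h4, PowerSeries.coeff_C_mul, PowerSeries.coeff_one]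
    simp only [if_true]
    linarith
  · intro n
    unfold z2S
    have h := BS_nonneg n
    rw [map_add]
    have h4 : (4 : PowerSeries ℤ) = PowerSeries.C 4 := (map_ofNat _ 4).symm
    rw [h4, PowerSeries.coeff_C_mul, PowerSeries.coeff_one]
    split_ifs <;> linarith

theorem z3_ne_zero_of_im (y : ℝ) (hy : 0 < y) : z3 ((y : ℂ) * I) ≠ 0 := by
  refine G6_aux z3S ?_ ?_ y _ (hasSum_z3 (by simpa using hy))
  · unfold z3S
    have h := AS_nonneg 0
    rw [map_add]
    have h4 : (6 : PowerSeries ℤ) = PowerSeries.C 6 := (map_ofNat _ 6).symm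
    rw [h4, PowerSeries.coeff_C_mul, PowerSeries.coeff_one]
    simp only [if_true]
    linarith
  · intro n
    unfold z3S
    have h := AS_nonneg n
    rw [map_add]
    have h4 : (6 : PowerSeries ℤ) = PowerSeries.C 6 := (map_ofNat _ 6).symm
    rw [h4, PowerSeries.coeff_C_mul, PowerSeries.coeff_one]
    split_ifs <;> linarith

end Pool.Agent.LibZP46
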