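import Pool.Agent.LibZP46.G4
import Pool.Agent.LibZP46.G5
import Pool.Agent.LibZP46.G6

/-!
ZP46 G7. The values of the Hauptmodul at `τ₀ = i sqrt (b / 6)`.

Plan. `τ₁ = i / sqrt (6 b)`, `b τ₁ = τ₀`, `6 b τ₁ ^ 2 = -1`. `W = (0, -1; 6, 0)` is in `ALM 6 6 1`,
`act W τ₁ = -1 / (6 τ₁) = b τ₁`, `jm W τ₁ ^ 2 / 6 = 6 τ₁ ^ 2 = -1 / b`; so (`z2_mod`, `z3_mod`,
`z6_mod` with `chi 1 (-1) 6 = -1`, `chi (-1) 1 6 = -1`, `chi (-1) (-1) 6 = 1`)
`b z2 (b τ₁) = z2 τ₁ =: a`, `b z3 (b τ₁) = z3 τ₁ =: β`, `b z6 (b τ₁) = - z6 τ₁ =: -γ`, and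
`gg (b τ₁) = gg τ₁ / b ^ 2`, so `D6.t τ₀ = D6.t τ₁ = a ^ 2 / gg τ₁`. With
`γ ^ 2 = 9 a ^ 2 - 8 β ^ 2` (`z6_sq`) the relations become (`ring_nf`, `linear_combination`)
`160 β^2 = 162 a^2`; `a β (53760 β^2 - 54000 a^2) = 0`; `β^2 (499200 β^2 - 499392 a^2) = 0`;
`a β^3 (934982092800 β^2 - 935077499136 a^2) = 0`; here `a, β ≠ 0` by G6, and
`β ^ 2 = a ^ 2 + 4 gg τ₁` by the definition of `gg`, `gg τ₁ ≠ 0` (`gg_ne`). So
`a ^ 2 / gg τ₁ = 320, 896, 10400, 39200`.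
-/

namespace Pool.Agent.LibZP46

open Complex

/-- The CM point. -/
noncomputable def tau0 (b : ℕ) : ℂ := ((Real.sqrt ((b : ℝ) / 6) : ℝ) : ℂ) * I

private theorem G7_s (b : ℕ) : ((Real.sqrt ((b : ℝ) / 6) : ℝ) : ℂ) ^ 2 = (b : ℂ) / 6 := by
  rw [← Complex.ofReal_pow, Real.sq_sqrt (by positivity)]
  push_cast
  ring

theorem tau0_im_pos (b : ℕ) (hb : 0 < b) : 0 < (tau0 b).im := by
  have h : (tau0 b).im = Real.sqrt ((b : ℝ) / 6) := by
    simp [tau0]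
  rw [h]
  apply Real.sqrt_pos.2
  have : (0 : ℝ) < b := by exact_mod_cast hb
  positivity

theorem tau0_sq (b : ℕ) : 6 * tau0 b ^ 2 = -(b : ℂ) := by
  rw [tau0, mul_pow, I_sq, G7_s]
  ring

private theorem G7_data (b : ℕ) (hb : 0 < b) : ∃ τ : ℂ, 0 < τ.im ∧ (b : ℂ) * τ = tau0 b ∧
    z2 τ ≠ 0 ∧ z3 τ ≠ 0 ∧ (b : ℂ) * z2 (b * τ) = z2 τ ∧ (b : ℂ) * z3 (b * τ) = z3 τ ∧
    (b : ℂ) * z6 (b * τ) = -z6 τ := by
  have hbc : (b : ℂ) ≠ 0 := by exact_mod_cast hb.ne'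
  have hbr : (0 : ℝ) < b := by exact_mod_cast hb
  have hs0 : 0 < Real.sqrt ((b : ℝ) / 6) := Real.sqrt_pos.2 (by positivity)
  set s : ℝ := Real.sqrt ((b : ℝ) / 6) with hs
  have hs2 : (s : ℂ) ^ 2 = (b : ℂ) / 6 := G7_s b
  have hsc : (s : ℂ) ≠ 0 := by exact_mod_cast hs0.ne'
  set τ : ℂ := ((s / b : ℝ) : ℂ) * I with hτ
  have hτ' : τ = (s : ℂ) / b * I := by rw [hτ]; push_cast; rfl
  have hbτ : (b : ℂ) * τ = tau0 b := by
    rw [hτ', tau0]
    field_simp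
    rfl
  have him : 0 < τ.im := by
    have : τ.im = s / b := by simp [hτ]
    rw [this]
    positivity
  have hτ0 : τ ≠ 0 := by
    intro h
    rw [h] at him
    simp at him
  have hsq : 6 * (b : ℂ) * τ ^ 2 = -1 := by
    rw [hτ', mul_pow, I_sq, div_pow, hs2]
    field_simp
  set W : Mat := !![0, -1; 6, 0] with hW
  have hWA : ALM 6 6 1 W := by
    refine ⟨?_, ?_, ?_, ?_⟩
    · simp [hW]
    · simp [hW]
    · simp [hW]
    · rw [hW, Matrix.det_fin_two_of]; norm_num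
  have hjm : jm W τ = 6 * τ := by
    simp [jm, hW]
  have hact : act W τ = (b : ℂ) * τ := by
    have h1 : act W τ = -1 / (6 * τ) := by
      rw [act, hjm]
      simp [hW]
    rw [h1, div_eq_iff (by simpa using hτ0)]
    linear_combination -hsq
  have hfac : (jm W τ ^ 2 / ((6 : ℤ) : ℂ)) ^ (1 : ℤ) = -1 / (b : ℂ) := by
    rw [hjm, zpow_one, eq_div_iff hbc]
    push_cast
    linear_combination hsq
  have c1 : chi 1 (-1) 6 = -1 := by decide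
  have c2 : chi (-1) 1 6 = -1 := by decide
  have c3 : chi (-1) (-1) 6 = 1 := by decide
  have m2 := z2_mod 6 (by norm_num) (by norm_num) W hWA τ him
  have m3 := z3_mod 6 (by norm_num) (by norm_num) W hWA τ him
  have m6 := z6_mod 6 (by norm_num) (by norm_num) W hWA τ him
  rw [hfac, hact, c1] at m2
  rw [hfac, hact, c2] at m3
  rw [hfac, hact, c3] at m6
  refine ⟨τ, him, hbτ, ?_, ?_, ?_, ?_, ?_⟩
  · rw [hτ]; exact z2_ne_zero_of_im _ (by positivity)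
  · rw [hτ]; exact z3_ne_zero_of_im _ (by positivity)
  · rw [m2]; push_cast; field_simp
  · rw [m3]; push_cast; field_simp
  · rw [m6]; push_cast; field_simp

private theorem G7_val (b : ℕ) (hb : 0 < b) (c1 c2 v : ℂ) (hc1 : c1 ≠ 0)
    (hv : 4 * c1 = v * (c2 - c1))
    (h : ∀ a β γ : ℂ, a ≠ 0 → β ≠ 0 → γ ^ 2 = 9 * a ^ 2 - 8 * β ^ 2 →
      (∀ τ : ℂ, 0 < τ.im → z2 τ = a → (b : ℂ) * z2 (b * τ) = a → z3 τ = β →
        (b : ℂ) * z3 (b * τ) = β → z6 τ = γ → (b : ℂ) * z6 (b * τ) = -γ →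
        c1 * β ^ 2 = c2 * a ^ 2)) : D6.t (tau0 b) = v := by
  obtain ⟨τ, him, hbτ, h2, h3, e2, e3, e6⟩ := G7_data b hb
  have hbc : (b : ℂ) ≠ 0 := by exact_mod_cast hb.ne'
  have hrel := h (z2 τ) (z3 τ) (z6 τ) h2 h3 (z6_sq him) τ him rfl e2 rfl e3 rfl e6
  have hg := gg_ne him
  have hg' : z3 τ ^ 2 - z2 τ ^ 2 ≠ 0 := by
    intro h0
    apply hg
    rw [gg, h0, zero_div]
  have hvv : v * (z3 τ ^ 2 - z2 τ ^ 2) = 4 * z2 τ ^ 2 := by
    apply mul_left_cancel₀ hc1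
    linear_combination v * hrel - z2 τ ^ 2 * hv
  have ht : D6.t (tau0 b) = z2 (tau0 b) ^ 2 / ((z3 (tau0 b) ^ 2 - z2 (tau0 b) ^ 2) / 4) := rfl
  rw [← hbτ] at ht ⊢
  have f2 : z2 (b * τ) = z2 τ / b := by rw [eq_div_iff hbc, mul_comm]; exact e2
  have f3 : z3 (b * τ) = z3 τ / b := by rw [eq_div_iff hbc, mul_comm]; exact e3
  rw [ht, f2, f3]
  have h4 : (z2 τ / b) ^ 2 / (((z3 τ / b) ^ 2 - (z2 τ / b) ^ 2) / 4) =
      4 * z2 τ ^ 2 / (z3 τ ^ 2 - z2 τ ^ 2) := by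
    rw [div_pow, div_pow, ← sub_div]
    field_simp
  rw [h4, div_eq_iff hg', hvv]

theorem tval5 : D6.t (tau0 5) = 320 := by
  apply G7_val 5 (by norm_num) 160 162 320 (by norm_num) (by norm_num)
  intro a β γ ha hβ hγ τ hτ e1 e2 e3 e4 e5 e6
  have h := rel5 hτ
  push_cast at e2 e4 e6
  rw [e2, e4, e6, e1, e3, e5] at h
  simp only [ev6, R5, List.map_cons, List.map_nil, List.sum_cons, List.sum_nil] at h
  push_cast at h
  linear_combination h + 9 * hγ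

theorem tval7 : D6.t (tau0 7) = 896 := by
  apply G7_val 7 (by norm_num) 53760 54000 896 (by norm_num) (by norm_num)
  intro a β γ ha hβ hγ τ hτ e1 e2 e3 e4 e5 e6
  have h := rel7 hτ
  push_cast at e2 e4 e6
  rw [e2, e4, e6, e1, e3, e5] at h
  simp only [ev6, R7, List.map_cons, List.map_nil, List.sum_cons, List.sum_nil] at h
  push_cast at h
  apply mul_left_cancel₀ (mul_ne_zero ha hβ)
  linear_combination h + 1308 * a * β * hγ

theorem tval13 : D6.t (tau0 13) = 10400 := by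
  apply G7_val 13 (by norm_num) 499200 499392 10400 (by norm_num) (by norm_num)
  intro a β γ ha hβ hγ τ hτ e1 e2 e3 e4 e5 e6
  have h := rel13 hτ
  push_cast at e2 e4 e6
  rw [e2, e4, e6, e1, e3, e5] at h
  simp only [ev6, R13, List.map_cons, List.map_nil, List.sum_cons, List.sum_nil] at h
  push_cast at h
  apply mul_left_cancel₀ (pow_ne_zero 2 hβ)
  linear_combination h + 31200 * β ^ 2 * hγ

theorem tval17 : D6.t (tau0 17) = 39200 := by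
  apply G7_val 17 (by norm_num) 934982092800 935077499136 39200 (by norm_num) (by norm_num)
  intro a β γ ha hβ hγ τ hτ e1 e2 e3 e4 e5 e6
  have h := rel17 hτ
  push_cast at e2 e4 e6
  rw [e2, e4, e6, e1, e3, e5] at h
  simp only [ev6, R17, List.map_cons, List.map_nil, List.sum_cons, List.sum_nil] at h
  push_cast at h
  apply mul_left_cancel₀ (mul_ne_zero ha (pow_ne_zero 3 hβ))
  linear_combination h + (-108757285760 * a * β ^ 3 + 85556551680 * a ^ 3 * β) * hγ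

end Pool.Agent.LibZP46
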