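import Pool.Agent.LibZP46.G7
import Pool.Agent.LibZP46.B7
import Pool.Agent.LibZP46.F5

/-!
ZP46 H1. The congruences at the CM points.

Plan. `split_case`: `M = (e x, -b y; 6 y, e x)` and `M' = (e x, b y; -6 y, e x)` are in
`ALM 6 e p` (determinant `e^2 x^2 + 6 b y^2 = e p`), and fix `τ₀ = tau0 b` (`6 τ₀ ^ 2 = -b`).
`μ = jm M τ₀ = 6 y τ₀ + e x`, `μ' = jm M' τ₀ = -6 y τ₀ + e x`, `μ μ' = e p`. So
`χ e p^2 / μ^2 = χ μ'^2 / e`, `χ e p^2 / μ'^2 = χ μ^2 / e` (`χ = ± 1`): the product is `p ^ 2`, the sum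
is `χ (μ^2 + μ'^2) / e = χ (2 e^2 x^2 - 12 b y^2) / e = χ (4 e x^2 - 2 p)` (use
`e f = 6`, `p = e x^2 + f b y^2`), and the difference is `χ (μ^2 - μ'^2) / e =
± 24 x y τ₀ ≠ 0`: `x ≠ 0` since otherwise `p = f b y^2`, so (`p ∤ f`, `f ∣ 6`) `p ∣ b y^2`, ... `p = b`
(`y^2 = 1`, `f = 1`), excluded; `y ≠ 0` since otherwise `p = e x^2` with `e ∣ 6`. Apply `split_main`
with `D6_ok`, `seqOK_uu`. `inert_case`: `C = (0, -b; 6, 0)` is in `ALM 6 6 b`, fixes `τ₀`, trace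
`0`, determinant `6 b`; `p ∣ x^2 + 6 b` would make `-6 b` a square modulo `p`; `inert_main`.
-/

namespace Pool.Agent.LibZP46

open Complex

private theorem H1_chi_sq (e : ℤ) : (chi 1 (-1) e : ℂ) ^ 2 = 1 := by
  unfold chi
  split_ifs <;> norm_num

private theorem H1_six (p : ℕ) (hp : p.Prime) (h5 : 5 ≤ p) : ¬ (p : ℤ) ∣ 6 := by
  intro h
  have h1 : p ∣ 6 := by exact_mod_cast h
  have h2 : p ∣ 2 * 3 := h1
  rcases (Nat.Prime.dvd_mul hp).1 h2 with h3 | h3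
  · have := Nat.le_of_dvd (by norm_num) h3
    omega
  · have := Nat.le_of_dvd (by norm_num) h3
    omega

/-- `p` is not `e` times a square. -/
private theorem H1_y (p : ℕ) (hp : p.Prime) (h5 : 5 ≤ p) (e f : ℤ) (hef : e * f = 6)
    (x : ℤ) (h : (p : ℤ) = e * x ^ 2) : False := by
  have hpz : Prime (p : ℤ) := Nat.prime_iff_prime_int.1 hp
  have h1 : (p : ℤ) ∣ e * x ^ 2 := ⟨1, by rw [← h, mul_one]⟩
  rcases hpz.dvd_or_dvd h1 with h2 | h2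
  · exact H1_six p hp h5 (h2.trans ⟨f, hef.symm⟩)
  · have h3 : (p : ℤ) ∣ x := hpz.dvd_of_dvd_pow h2
    obtain ⟨k, hk⟩ := h3
    have h4 : (p : ℤ) * 1 = (p : ℤ) * (e * p * k ^ 2) := by
      rw [mul_one]
      calc (p : ℤ) = e * x ^ 2 := h
        _ = (p : ℤ) * (e * p * k ^ 2) := by rw [hk]; ring
    have hp0 : (p : ℤ) ≠ 0 := hpz.ne_zero
    have h5' := mul_left_cancel₀ hp0 h4
    exact hpz.not_dvd_one ⟨e * k ^ 2, by rw [h5']; ring⟩

private theorem H1_x (b : ℕ) (hb : b.Prime) (p : ℕ) (hp : p.Prime) (hpb : p ≠ b) (f y : ℤ)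
    (h : (p : ℤ) = f * b * y ^ 2) : False := by
  have h1 : (b : ℤ) ∣ (p : ℤ) := ⟨f * y ^ 2, by rw [h]; ring⟩
  have h2 : b ∣ p := by exact_mod_cast h1
  exact hpb ((Nat.prime_dvd_prime_iff_eq hb hp).1 h2).symm

private theorem H1_act (M : Mat) (τ : ℂ) (hj : jm M τ ≠ 0)
    (h : (M 0 0 : ℂ) * τ + (M 0 1 : ℂ) = τ * jm M τ) : act M τ = τ := by
  unfold act
  rw [h, mul_div_assoc, div_self hj, mul_one]

theorem split_case (b : ℕ) (hb : b.Prime) (hb5 : 5 ≤ b) (m : ℤ) (ht : D6.t (tau0 b) = m)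
    (p : ℕ) (hp : p.Prime) (h5 : 5 ≤ p) (hpb : p ≠ b) (hm : ¬ (p : ℤ) ∣ m) (e f : ℤ)
    (he : 0 < e) (hef : e * f = 6) (x y : ℤ) (hxy : (p : ℤ) = e * x ^ 2 + f * b * y ^ 2) :
    (p : ℤ) ^ 2 ∣ US (fun n => (uu n : ℤ)) p m -
      chi 1 (-1) e * (4 * e * x ^ 2 - 2 * p) * m ^ (p - 1) := by
  set τ₀ := tau0 b with hτ₀
  have hτ : 0 < τ₀.im := tau0_im_pos b (by omega)
  have hsq : 6 * τ₀ ^ 2 = -(b : ℂ) := tau0_sq b
  have hx : x ≠ 0 := by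
    rintro rfl
    exact H1_x b hb p hp hpb f y (by rw [hxy]; ring)
  have hy : y ≠ 0 := by
    rintro rfl
    exact H1_y p hp h5 e f hef x (by rw [hxy]; ring)
  have heN : e ∣ ((D6.N : ℕ) : ℤ) := ⟨f, by rw [hef]; rfl⟩
  have he6 : e ∣ 6 := ⟨f, hef.symm⟩
  have hdet : e * x * (e * x) + 6 * b * y ^ 2 = e * p := by
    rw [hxy, ← hef]; ring
  have hpC : (p : ℂ) = e * x ^ 2 + f * b * y ^ 2 := by exact_mod_cast hxy
  have hefC : (e : ℂ) * f = 6 := by exact_mod_cast hef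
  have heC : (e : ℂ) ≠ 0 := by exact_mod_cast he.ne'
  have hp0 : (p : ℂ) ≠ 0 := by exact_mod_cast hp.ne_zero
  have hd : ((e : ℂ) * x) ^ 2 + 6 * b * y ^ 2 = e * p := by
    rw [hpC, ← hefC]; ring
  let M : Mat := !![e * x, -(b * y); 6 * y, e * x]
  let M' : Mat := !![e * x, b * y; -(6 * y), e * x]
  have hM : ALM D6.N e p M := by
    refine ⟨⟨x, rfl⟩, ⟨y, rfl⟩, ⟨x, rfl⟩, ?_⟩
    rw [Matrix.det_fin_two_of]
    linear_combination hdet
  have hM' : ALM D6.N e p M' := by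
    refine ⟨⟨x, rfl⟩, ⟨-y, ?_⟩, ⟨x, rfl⟩, ?_⟩
    · change -(6 * y) = 6 * -y
      ring
    · rw [Matrix.det_fin_two_of]
      linear_combination hdet
  have hj : jm M τ₀ = 6 * y * τ₀ + e * x := by
    simp [jm, M]
  have hj' : jm M' τ₀ = -(6 * y) * τ₀ + e * x := by
    simp [jm, M']
  have hprod : jm M τ₀ * jm M' τ₀ = e * p := by
    rw [hj, hj']
    linear_combination hd - 6 * (y : ℂ) ^ 2 * hsq
  have hep : (e : ℂ) * p ≠ 0 := mul_ne_zero heC hp0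
  have hjne : jm M τ₀ ≠ 0 := fun h => hep (by rw [← hprod, h, zero_mul])
  have hj'ne : jm M' τ₀ ≠ 0 := fun h => hep (by rw [← hprod, h, mul_zero])
  have hfix : act M τ₀ = τ₀ := by
    refine H1_act M τ₀ hjne ?_
    rw [hj]
    simp [M]
    linear_combination -(y : ℂ) * hsq
  have hfix' : act M' τ₀ = τ₀ := by
    refine H1_act M' τ₀ hj'ne ?_
    rw [hj']
    simp [M']
    linear_combination (y : ℂ) * hsq
  have hχ := H1_chi_sq e
  have v1 : (D6.χ e : ℂ) * e * (p : ℂ) ^ 2 / jm M τ₀ ^ 2 =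
      (chi 1 (-1) e : ℂ) * jm M' τ₀ ^ 2 / e := by
    change (chi 1 (-1) e : ℂ) * e * (p : ℂ) ^ 2 / jm M τ₀ ^ 2 = _
    rw [div_eq_div_iff (pow_ne_zero 2 hjne) heC]
    linear_combination -(chi 1 (-1) e : ℂ) * (jm M τ₀ * jm M' τ₀ + e * p) * hprod
  have v2 : (D6.χ e : ℂ) * e * (p : ℂ) ^ 2 / jm M' τ₀ ^ 2 =
      (chi 1 (-1) e : ℂ) * jm M τ₀ ^ 2 / e := by
    change (chi 1 (-1) e : ℂ) * e * (p : ℂ) ^ 2 / jm M' τ₀ ^ 2 = _
    rw [div_eq_div_iff (pow_ne_zero 2 hj'ne) heC]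
    linear_combination -(chi 1 (-1) e : ℂ) * (jm M τ₀ * jm M' τ₀ + e * p) * hprod
  refine split_main D6_ok p hp (by omega) (H1_six p hp h5) (fun n => (uu n : ℤ))
    (seqOK_uu p hp h5) m hm hτ ht he heN he heN hM hM' hfix hfix'
    (chi 1 (-1) e * (4 * e * x ^ 2 - 2 * p)) ?_ ?_ ?_
  · rw [v1, v2]
    push_cast
    rw [← add_div, div_eq_iff heC, hj, hj', hpC]
    linear_combination (chi 1 (-1) e : ℂ) * (12 * (y : ℂ) ^ 2 * hsq) +
      2 * (chi 1 (-1) e : ℂ) * b * y ^ 2 * hefC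
  · rw [v1, v2]
    field_simp
    linear_combination (jm M τ₀ * jm M' τ₀) ^ 2 * hχ + (jm M τ₀ * jm M' τ₀ + e * p) * hprod
  · rw [v1, v2]
    intro h
    have h1 : (chi 1 (-1) e : ℂ) * (jm M' τ₀ ^ 2 - jm M τ₀ ^ 2) = 0 := by
      have h2 := (div_left_inj' heC).1 h
      linear_combination h2
    have h3 : (chi 1 (-1) e : ℂ) ≠ 0 := by
      intro h0
      rw [h0] at hχ
      norm_num at hχ
    have h4 : jm M' τ₀ ^ 2 - jm M τ₀ ^ 2 = -(24 * e * x * y) * τ₀ := by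
      rw [hj, hj']; ring
    rcases mul_eq_zero.1 h1 with h5' | h5'
    · exact h3 h5'
    · rw [h4] at h5'
      have hτ0 : τ₀ ≠ 0 := by
        intro h0
        rw [h0] at hτ
        simp at hτ
      have hxC : (x : ℂ) ≠ 0 := by exact_mod_cast hx
      have hyC : (y : ℂ) ≠ 0 := by exact_mod_cast hy
      have h6 : (24 * (e : ℂ) * x * y) ≠ 0 := by
        refine mul_ne_zero (mul_ne_zero (mul_ne_zero (by norm_num) heC) hxC) hyC
      exact mul_ne_zero (neg_ne_zero.2 h6) hτ0 h5'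

theorem inert_case (b : ℕ) (hb : b.Prime) (hb5 : 5 ≤ b) (m : ℤ) (ht : D6.t (tau0 b) = m)
    (p : ℕ) (hp : p.Prime) (h5 : 5 ≤ p) (hpb : p ≠ b) (hm : ¬ (p : ℤ) ∣ m)
    (hno : ∀ x : ℤ, ¬ (p : ℤ) ∣ x ^ 2 + 6 * b) :
    (p : ℤ) ^ 2 ∣ US (fun n => (uu n : ℤ)) p m := by
  have hτ : 0 < (tau0 b).im := tau0_im_pos b (by omega)
  have hsq : 6 * tau0 b ^ 2 = -(b : ℂ) := tau0_sq b
  let C : Mat := !![0, -(b : ℤ); 6, 0]
  have hC : ALM D6.N 6 b C := by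
    refine ⟨⟨0, rfl⟩, ⟨1, rfl⟩, ⟨0, rfl⟩, ?_⟩
    rw [Matrix.det_fin_two_of]
    ring
  have hj : jm C (tau0 b) = 6 * tau0 b := by
    simp [jm, C]
  have hτ0 : tau0 b ≠ 0 := by
    intro h0
    rw [h0] at hτ
    simp at hτ
  have hfix : act C (tau0 b) = tau0 b := by
    refine H1_act C _ (by rw [hj]; exact mul_ne_zero (by norm_num) hτ0) ?_
    rw [hj]
    simp [C]
    linear_combination -hsq
  have htr : C.trace = 0 := by
    rw [Matrix.trace_fin_two_of]; norm_num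
  have hdt : C.det = 6 * b := by
    rw [Matrix.det_fin_two_of]; ring
  refine inert_main D6_ok p hp (by omega) (H1_six p hp h5) (fun n => (uu n : ℤ))
    (seqOK_uu p hp h5) m hm hτ ht b hb (by omega) (fun h => hpb h.symm)
    (H1_six b hb hb5) (by norm_num) (by exact ⟨1, rfl⟩) hC hfix ?_
  intro x hx
  rw [htr, hdt] at hx
  exact hno x (by simpa using hx)

end Pool.Agent.LibZP46
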