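import Pool.Agent.LibZP46.H1

/-!
ZP46 H2. The main theorem.

Plan. `ZZ p m * m ^ (p - 1) = US uu p m` (`m ≠ 0`, `m ^ (p-1) / m ^ n = m ^ (p-1-n)`). So if
`p ^ 2 ∣ US uu p m - s * m ^ (p - 1)` then `ZZ p m - s = p ^ 2 * (c / m ^ (p-1))`, and the denominator
of `c / m ^ (p - 1)` divides `m ^ (p - 1)`, which is prime to `p`. The four values of `b`: `tval5`,
`tval7`, `tval13`, `tval17`. The signs `chi 1 (-1) e = 1, 1, -1, -1` for `e = 1, 2, 3, 6`. Inert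
case: `legendreSym p (-6 b) = -1` means that `-6 b` is not a square modulo `p`
(`legendreSym.eq_neg_one_iff`).
-/

namespace Pool.Agent.LibZP46

/-- Congruence modulo `p ^ 2` of rational numbers, in the ring of the rational numbers with
denominator prime to `p`. -/
def CongSq (p : ℕ) (r s : ℚ) : Prop := ∃ c : ℚ, ¬ p ∣ c.den ∧ r - s = (p : ℚ) ^ 2 * c

/-- `f(5) = 320`, `f(7) = 896`, `f(13) = 10400`, `f(17) = 39200`. -/
def fb (b : ℕ) : ℕ := if b = 5 then 320 else if b = 7 then 896 else if b = 13 then 10400 else 39200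

theorem congSq_of_dvd (p m : ℕ) (hp : p.Prime) (hm : ¬ p ∣ m) (s : ℤ)
    (h : (p : ℤ) ^ 2 ∣ US (fun n => (uu n : ℤ)) p m - s * (m : ℤ) ^ (p - 1)) :
    CongSq p (ZZ p m) s := by
  have hm0 : (m : ℚ) ≠ 0 := by
    intro h0
    exact hm (by rw [Nat.cast_eq_zero.1 h0]; exact dvd_zero p)
  have hmp : (m : ℚ) ^ (p - 1) ≠ 0 := pow_ne_zero _ hm0
  have hUS : ZZ p m * (m : ℚ) ^ (p - 1) = ((US (fun n => (uu n : ℤ)) p m : ℤ) : ℚ) := by
    unfold ZZ US uu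
    push_cast
    rw [Finset.sum_mul]
    refine Finset.sum_congr rfl fun n hn => ?_
    have hn' : n ≤ p - 1 := by
      have := Finset.mem_range.1 hn
      omega
    have h1 : (m : ℚ) ^ (p - 1) = (m : ℚ) ^ n * (m : ℚ) ^ (p - 1 - n) := by
      rw [← pow_add]
      congr 1
      omega
    have h2 : (m : ℚ) ^ n ≠ 0 := pow_ne_zero _ hm0
    rw [h1]
    field_simp
  obtain ⟨c, hc⟩ := h
  refine ⟨(c : ℚ) / ((m ^ (p - 1) : ℕ) : ℚ), ?_, ?_⟩
  · intro hd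
    have h1 : ((c : ℚ) / ((m ^ (p - 1) : ℕ) : ℚ)).den ∣ m ^ (p - 1) := by
      have h2 := Rat.den_dvd c ((m ^ (p - 1) : ℕ) : ℤ)
      rw [Rat.divInt_eq_div] at h2
      exact_mod_cast h2
    exact hm (hp.dvd_of_dvd_pow (hd.trans h1))
  · have h3 : ZZ p m * (m : ℚ) ^ (p - 1) - (s : ℚ) * (m : ℚ) ^ (p - 1) =
        (p : ℚ) ^ 2 * (c : ℚ) := by
      rw [hUS]
      exact_mod_cast hc
    push_cast
    rw [mul_div_assoc', eq_div_iff hmp, ← h3]
    ring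

private theorem H2_chi1 : chi 1 (-1) 1 = 1 := by
  norm_num [chi]

private theorem H2_chi2 : chi 1 (-1) 2 = 1 := by
  norm_num [chi]

private theorem H2_chi3 : chi 1 (-1) 3 = -1 := by
  norm_num [chi]

private theorem H2_chi6 : chi 1 (-1) 6 = -1 := by
  norm_num [chi]

private theorem H2_core (b m : ℕ) (hb : b.Prime) (hb5 : 5 ≤ b) (ht : D6.t (tau0 b) = m)
    (p : ℕ) [hF : Fact p.Prime] (h5 : 5 ≤ p) (hpb : p ≠ b) (hpf : ¬ p ∣ m) :
    (∀ x y : ℤ, (p : ℤ) = x ^ 2 + 6 * b * y ^ 2 →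
      CongSq p (ZZ p m) (4 * x ^ 2 - 2 * p)) ∧
    (∀ x y : ℤ, (p : ℤ) = 2 * x ^ 2 + 3 * b * y ^ 2 →
      CongSq p (ZZ p m) (8 * x ^ 2 - 2 * p)) ∧
    (∀ x y : ℤ, (p : ℤ) = 3 * x ^ 2 + 2 * b * y ^ 2 →
      CongSq p (ZZ p m) (2 * p - 12 * x ^ 2)) ∧
    (∀ x y : ℤ, (p : ℤ) = 6 * x ^ 2 + b * y ^ 2 →
      CongSq p (ZZ p m) (2 * p - 24 * x ^ 2)) ∧
    (legendreSym p (-6 * b) = -1 → CongSq p (ZZ p m) 0) := by
  have hp : p.Prime := hF.out
  have ht' : D6.t (tau0 b) = ((m : ℤ) : ℂ) := by rw [ht]; push_cast; rfl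
  have hm' : ¬ (p : ℤ) ∣ (m : ℤ) := fun h => hpf (by exact_mod_cast h)
  have key := split_case b hb hb5 (m : ℤ) ht' p hp h5 hpb hm'
  refine ⟨fun x y h => ?_, fun x y h => ?_, fun x y h => ?_, fun x y h => ?_, fun h => ?_⟩
  · have h1 := key 1 6 (by norm_num) (by norm_num) x y (by rw [h]; ring)
    rw [H2_chi1] at h1
    have h2 := congSq_of_dvd p m hp hpf (4 * x ^ 2 - 2 * p) (by convert h1 using 2; ring)
    push_cast at h2
    exact h2
  · have h1 := key 2 3 (by norm_num) (by norm_num) x y (by rw [h])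
    rw [H2_chi2] at h1
    have h2 := congSq_of_dvd p m hp hpf (8 * x ^ 2 - 2 * p) (by convert h1 using 2; ring)
    push_cast at h2
    exact h2
  · have h1 := key 3 2 (by norm_num) (by norm_num) x y (by rw [h])
    rw [H2_chi3] at h1
    have h2 := congSq_of_dvd p m hp hpf (2 * p - 12 * x ^ 2) (by convert h1 using 2; ring)
    push_cast at h2
    exact h2
  · have h1 := key 6 1 (by norm_num) (by norm_num) x y (by rw [h]; ring)
    rw [H2_chi6] at h1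
    have h2 := congSq_of_dvd p m hp hpf (2 * p - 24 * x ^ 2) (by convert h1 using 2; ring)
    push_cast at h2
    exact h2
  · rw [legendreSym.eq_neg_one_iff] at h
    have h1 := inert_case b hb hb5 (m : ℤ) ht' p hp h5 hpb hm' (fun x hx => by
      apply h
      refine ⟨(x : ZMod p), ?_⟩
      have h2 : ((x ^ 2 + 6 * b : ℤ) : ZMod p) = 0 := (ZMod.intCast_zmod_eq_zero_iff_dvd _ p).2 hx
      push_cast at h2 ⊢
      linear_combination -h2)
    have h2 := congSq_of_dvd p m hp hpf 0 (by simpa using h1)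
    push_cast at h2
    exact h2

theorem main (b : ℕ) (hb : b = 5 ∨ b = 7 ∨ b = 13 ∨ b = 17) (p : ℕ) [Fact p.Prime] (h5 : 5 ≤ p)
    (hpb : p ≠ b) (hpf : ¬ p ∣ fb b) :
    (∀ x y : ℤ, (p : ℤ) = x ^ 2 + 6 * b * y ^ 2 →
      CongSq p (ZZ p (fb b)) (4 * x ^ 2 - 2 * p)) ∧
    (∀ x y : ℤ, (p : ℤ) = 2 * x ^ 2 + 3 * b * y ^ 2 →
      CongSq p (ZZ p (fb b)) (8 * x ^ 2 - 2 * p)) ∧
    (∀ x y : ℤ, (p : ℤ) = 3 * x ^ 2 + 2 * b * y ^ 2 →
      CongSq p (ZZ p (fb b)) (2 * p - 12 * x ^ 2)) ∧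
    (∀ x y : ℤ, (p : ℤ) = 6 * x ^ 2 + b * y ^ 2 →
      CongSq p (ZZ p (fb b)) (2 * p - 24 * x ^ 2)) ∧
    (legendreSym p (-6 * b) = -1 → CongSq p (ZZ p (fb b)) 0) := by
  rcases hb with rfl | rfl | rfl | rfl
  · exact H2_core 5 (fb 5) (by norm_num) (by norm_num)
      (by rw [tval5]; norm_num [fb]) p h5 hpb hpf
  · exact H2_core 7 (fb 7) (by norm_num) (by norm_num)
      (by rw [tval7]; norm_num [fb]) p h5 hpb hpf
  · exact H2_core 13 (fb 13) (by norm_num) (by norm_num)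
      (by rw [tval13]; norm_num [fb]) p h5 hpb hpf
  · exact H2_core 17 (fb 17) (by norm_num) (by norm_num)
      (by rw [tval17]; norm_num [fb]) p h5 hpb hpf

end Pool.Agent.LibZP46
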